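import Pool.Agent.Lib.MP_5591bc_ag.V.Defs

/-! Monomial vectors, expansions of complex polynomials, rational projections. -/

namespace Pool.Agent.Lib.MP_5591bc_ag.V

open Matrix Finset Filter Topology PowerSeries G R Function

noncomputable section

variable {A R S : Type*} [Fintype A] [DecidableEq A] [CommRing R] [CommRing S] {k : ℕ}

omit [Fintype A] [DecidableEq A] in
theorem map_vk (φ : R →+* S) (Z : Matrix A A R) (μ : Mo A k) :
    φ (vk k Z μ) = vk k (Z.map φ) μ := by
  simp only [vk, tens, map_prod]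
  exact prod_congr rfl fun l _ => by cases μ l <;> simp [hatg]

theorem piM_vk (Y Z : Matrix A A R) : piM (fun _ => exg 1 Y) *ᵥ vk k Z = vk k (Y * Z) := by
  rw [vk, piM_mulVec, exg_mulVec, vk]

omit [Fintype A] [DecidableEq A] in
theorem rep_mon (d : ℕ) : ∀ s : A × A →₀ ℕ, s.sum (fun _ e => e) ≤ d → ∃ μ : Mo A d,
    vk d (of fun i j => (MvPolynomial.X (i, j) : MvPolynomial (A × A) R)) μ =
      MvPolynomial.monomial s 1 := by
  classical
  induction d with
  | zero =>
    intro s hs
    have : s = 0 := by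
      ext i
      by_contra h
      have := Finset.single_le_sum (f := fun i => s i) (fun _ _ => Nat.zero_le _)
        (Finsupp.mem_support_iff.2 h)
      exact h (by simpa using this.trans hs)
    exact ⟨fun _ => none, by simp [vk, tens, this]⟩
  | succ d ih =>
    intro s hs
    by_cases h0 : s = 0
    · exact ⟨fun _ => none, by simp [vk, tens, h0, hatg]⟩
    obtain ⟨i, hi⟩ := Finsupp.ne_iff.1 h0
    obtain ⟨s', rfl⟩ : ∃ s', s = Finsupp.single i 1 + s' := by
      refine ⟨s - Finsupp.single i 1, (add_tsub_cancel_of_le ?_).symm⟩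
      exact Finsupp.single_le_iff.2 (Nat.one_le_iff_ne_zero.2 hi)
    rw [Finsupp.sum_add_index' (fun _ => rfl) (fun _ _ _ => rfl), Finsupp.sum_single_index rfl]
      at hs
    obtain ⟨μ, hμ⟩ := ih s' (by omega)
    refine ⟨Fin.cons (some i) μ, ?_⟩
    rw [MvPolynomial.monomial_single_add, ← hμ]
    simp [vk, tens, Fin.prod_univ_succ, hatg]

omit [DecidableEq A] in
theorem rep {p : MvPolynomial (A × A) R} (h : p.totalDegree ≤ k) : ∃ κ : Mo A k → R,
    p = (fun μ => MvPolynomial.C (κ μ)) ⬝ᵥ vk k (of fun i j => MvPolynomial.X (i, j)) := by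
  classical
  choose μ hμ using fun s : p.support =>
    rep_mon (R := R) k s.1 ((MvPolynomial.le_totalDegree s.2).trans h)
  refine ⟨∑ s : p.support, Pi.single (μ s) (p.coeff s.1), ?_⟩
  have e : (fun ν => (MvPolynomial.C ((∑ s : p.support, Pi.single (μ s) (p.coeff s.1) :
      Mo A k → R) ν) : MvPolynomial (A × A) R)) =
      ∑ s : p.support, Pi.single (μ s) (MvPolynomial.C (p.coeff s.1)) := by
    funext ν
    simp only [Finset.sum_apply, Pi.single_apply, map_sum]
    exact sum_congr rfl fun s _ => by split_ifs <;> simp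
  rw [e, sum_dotProduct]
  conv_lhs => rw [p.as_sum, ← sum_coe_sort]
  refine sum_congr rfl fun s _ => ?_
  rw [single_dotProduct, hμ, MvPolynomial.C_mul_monomial, mul_one]

omit [DecidableEq A] in
theorem rep_eval (κ : Mo A k → R) (φ : R →+* S) (Z : Matrix A A S) :
    MvPolynomial.eval₂ φ (fun a : A × A => Z a.1 a.2)
      ((fun μ => MvPolynomial.C (κ μ)) ⬝ᵥ vk k (of fun i j => MvPolynomial.X (i, j))) =
      (fun μ => φ (κ μ)) ⬝ᵥ vk k Z := by
  rw [← MvPolynomial.coe_eval₂Hom, dotProduct, dotProduct, map_sum]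
  refine sum_congr rfl fun μ _ => ?_
  rw [map_mul, map_vk, MvPolynomial.eval₂Hom_C]
  congr 2
  ext i j
  simp

omit [Fintype A] [DecidableEq A] in
theorem deg_vk (μ : Mo A k) :
    (vk k (of fun i j => (MvPolynomial.X (i, j) : MvPolynomial (A × A) R)) μ).totalDegree ≤ k := by
  refine (MvPolynomial.totalDegree_finsetProd _ _).trans
    ((sum_le_card_nsmul _ _ 1 fun l _ => ?_).trans (by simp))
  rcases μ l with _ | a
  · simp [hatg]
  · exact (MvPolynomial.totalDegree_monomial_le _ _).trans (by simp)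

theorem τc_inj (x : ℂ) : Injective (τc x) := by
  exact (Polynomial.coe_injective ℂ).comp (Polynomial.taylor_injective x)

theorem τc_const (x : ℂ) (p : Polynomial ℂ) : constantCoeff (τc x p) = p.eval x := by
  rw [← coeff_zero_eq_constantCoeff_apply, ← Polynomial.taylor_coeff_zero]
  exact Polynomial.coeff_coe _ _

theorem τc_C (x a : ℂ) : τc x (Polynomial.C a) = C a := by
  simp [τc]

theorem tay_eval (x : ℂ) (p : Polynomial ℂ) : tay (fun t => p.eval t) x = τc x p := by
  exact tay_poly p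

theorem τc_deriv (x : ℂ) (p : Polynomial ℂ) : τc x p.derivative = d⁄dX ℂ (τc x p) := by
  rw [← tay_eval, ← tay_eval, ← tay_deriv]
  congr 1
  ext z
  rw [Polynomial.deriv]

theorem τc_map (x : ℚ) (p : Polynomial ℚ) : τc x (p.map (algebraMap ℚ ℂ)) = mp (τ1 x p) := by
  rw [mp_τ1]
  rfl

/-- coefficientwise projection of a complex series -/
def repS (π : Module.Dual ℚ ℂ) : ℂ⟦X⟧ →+ ℚ⟦X⟧ where
  toFun F := PowerSeries.mk fun n => π (coeff n F)
  map_zero' := by ext; simp
  map_add' F G := by ext; simp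

theorem repS_coeff (π : Module.Dual ℚ ℂ) (F : ℂ⟦X⟧) (n : ℕ) :
    coeff n (repS π F) = π (coeff n F) :=
  coeff_mk n fun n => π (coeff n F)

theorem repS_mul (π : Module.Dual ℚ ℂ) (F : ℂ⟦X⟧) (y : ℚ⟦X⟧) :
    repS π (F * mp y) = repS π F * y := by
  ext n
  rw [repS_coeff, coeff_mul, coeff_mul, map_sum]
  refine sum_congr rfl fun a _ => ?_
  rw [repS_coeff, coeff_map, mul_comm, ← Algebra.smul_def, map_smul, smul_eq_mul, mul_comm]

theorem rep_pi (π : Module.Dual ℚ ℂ) (p : Polynomial ℂ) : ∃ q : Polynomial ℚ,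
    (∀ j, q.coeff j = π (p.coeff j)) ∧ ∀ x : ℚ, τ1 x q = repS π (τc x p) := by
  induction p using Polynomial.induction_on' with
  | add a b ha hb =>
    obtain ⟨q, h1, h2⟩ := ha
    obtain ⟨r, h3, h4⟩ := hb
    exact ⟨q + r, fun j => by simp [h1, h3], fun x => by simp only [map_add, h2, h4]⟩
  | monomial n c =>
    refine ⟨Polynomial.monomial n (π c), fun j => ?_, fun x => ?_⟩
    · simp only [Polynomial.coeff_monomial]
      split_ifs <;> simp
    · have e : (Polynomial.X ^ n : Polynomial ℂ) =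
          (Polynomial.X ^ n : Polynomial ℚ).map (algebraMap ℚ ℂ) := by simp
      have e2 : repS π (C c) = C (π c) := by
        ext j
        rw [repS_coeff, coeff_C, coeff_C]
        split_ifs <;> simp
      rw [← Polynomial.C_mul_X_pow_eq_monomial, ← Polynomial.C_mul_X_pow_eq_monomial, map_mul,
        map_mul, τc_C, e, τc_map, repS_mul, e2]
      congr 1
      simp [τ1]

theorem rep_ev {π : Module.Dual ℚ ℂ} {p : Polynomial ℂ} {q : Polynomial ℚ} {x : ℚ}
    (h : τ1 x q = repS π (τc x p)) : q.eval x = π (p.eval x) := by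
  have := congrArg (coeff 0) h
  rwa [repS_coeff, coeff_τ1, Polynomial.taylor_coeff_zero, coeff_zero_eq_constantCoeff_apply,
    τc_const] at this

/-- rational projection of a complex relation between rational series -/
theorem pi_rel {α : Type*} [Fintype α] {x : ℚ} {l : α → Polynomial ℂ} {y : α → ℚ⟦X⟧}
    (h : (fun a => τc x (l a)) ⬝ᵥ (fun a => mp (y a)) = 0) (π : Module.Dual ℚ ℂ) :
    ∃ l' : α → Polynomial ℚ, (∀ a j, (l' a).coeff j = π ((l a).coeff j)) ∧
      (∀ a, (l' a).eval x = π ((l a).eval x)) ∧ (fun a => τ1 x (l' a)) ⬝ᵥ y = 0 := by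
  choose l' h1 h2 using fun a => rep_pi π (l a)
  refine ⟨l', h1, fun a => rep_ev (h2 a x), ?_⟩
  have := congrArg (repS π) h
  rw [map_zero, dotProduct, map_sum] at this
  rw [dotProduct, ← this]
  exact sum_congr rfl fun a _ => by rw [repS_mul, h2]

/-- a complex relation of `f` kills the saturated module -/
theorem sat_kill {f : A → ℚ⟦X⟧} {l : A → Polynomial ℂ}
    (h : (fun a => (l a : ℂ⟦X⟧)) ⬝ᵥ (fun a => mp (f a)) = 0) {U : A → Polynomial ℚ} (hU : U ∈ Sat f)
    (x : ℚ) : (fun a => (l a).eval (x : ℂ)) ⬝ᵥ (fun a => (((U a).eval x : ℚ) : ℂ)) = 0 := by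
  refine (Module.forall_dual_apply_eq_zero_iff ℚ _).1 fun π => ?_
  choose l' _ h2 using fun a => rep_pi π (l a)
  have h3 : (fun a => (l' a : ℚ⟦X⟧)) ⬝ᵥ f = 0 := by
    have := congrArg (repS π) h
    rw [map_zero, dotProduct, map_sum] at this
    rw [dotProduct, ← this]
    refine sum_congr rfl fun a _ => ?_
    have e := h2 a 0
    simp only [τ1, τc, Rat.cast_zero, RingHom.comp_apply, AlgHom.toRingHom_eq_coe,
      RingHom.coe_coe, Polynomial.taylorAlgHom_apply, Polynomial.taylor_zero,
      Polynomial.coeToPowerSeries.ringHom_apply] at e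
    rw [repS_mul, e]
  have h4 := congrArg (Polynomial.eval x) (hU l' h3)
  rw [dotProduct, Polynomial.eval_finsetSum, Polynomial.eval_zero] at h4
  rw [dotProduct, map_sum, ← h4]
  refine sum_congr rfl fun a _ => ?_
  rw [Polynomial.eval_mul, rep_ev (h2 a x), mul_comm, ← Rat.smul_def, map_smul, smul_eq_mul, mul_comm]

theorem Sys.vk {T : Polynomial ℚ} {B : Matrix A A (Polynomial ℚ)} {Ω : Set ℚ}
    {G : ℚ → Matrix A A ℚ⟦X⟧} (H : Sys T B Ω G) (k : ℕ) :
    Sys (A := Mo A k) T (tB (Fin k) (exg 0 B)) Ω fun x => piM fun _ => exg 1 (G x) := by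
  refine ⟨H.ne, fun x hx => ?_, fun x hx => ?_, fun i j => ?_⟩
  · rw [piM_map, exg_map _ (map_zero _), map_one, H.one x hx, exg_one, piM_one]
  · rw [tB_map]
    refine piM_ode ?_
    rw [exg_map _ (map_zero _), exg_map _ (map_zero _), exg_smul, exg_mul, H.ode x hx]
    simp only [derivative_one, map_zero, mul_zero, zero_mul]
  · simp only [piM, of_apply, ← Finset.prod_fn]
    refine prod_mem fun l _ => ?_
    rcases i l with _ | a <;> rcases j l with _ | b
    · exact one_mem _
    · exact zero_mem _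
    · exact zero_mem _
    · by_cases e : a.2 = b.2
      · simpa [exg, e] using H.gf a.1 b.1
      · simp only [exg, of_apply, Option.elim_some, if_neg e]; exact zero_mem _

theorem Sys.odeC {T : Polynomial ℚ} {B : Matrix A A (Polynomial ℚ)} {Ω : Set ℚ}
    {G : ℚ → Matrix A A ℚ⟦X⟧} (H : Sys T B Ω G) {x : ℚ} (hx : x ∈ Ω) :
    (T.map (algebraMap ℚ ℂ)).eval (x : ℂ) ≠ 0 ∧ ((G x).map mp).map constantCoeff = 1 ∧
    τc x (T.map (algebraMap ℚ ℂ)) • ((G x).map mp).map (d⁄dX ℂ) =
      (B.map (Polynomial.map (algebraMap ℚ ℂ))).map (τc x) * (G x).map mp := by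
  refine ⟨?_, ?_, ?_⟩
  · rw [Polynomial.eval_map_algebraMap, aeval_rat]
    exact_mod_cast H.ne x hx
  · ext i j
    have := congrFun (congrFun (H.one x hx) i) j
    rw [map_apply] at this
    rw [map_apply, map_apply, ← coeff_zero_eq_constantCoeff_apply, coeff_map,
      coeff_zero_eq_constantCoeff_apply, this, one_apply, one_apply]
    split_ifs <;> simp
  · ext1 i j
    have := congrArg mp (congrFun (congrFun (H.ode x hx) i) j)
    simpa only [Matrix.smul_apply, map_apply, smul_eq_mul, mul_apply, map_mul, map_sum, mp_deriv,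
      τc_map] using this

end

end Pool.Agent.Lib.MP_5591bc_ag.V
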