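import Pool.Agent.Lib.MP_5591bc_ag.RDefs

/-! Connectedness of the differential Galois group of a matrix of functions. -/

namespace Pool.Agent.Lib.MP_5591bc_ag.V

open Polynomial

noncomputable section

/-- the value at `t` of a polynomial in `t` and in the entries of `P t` -/
def val {ν : Type*} (P : ℂ → Matrix ν ν ℂ) (q : MvPolynomial (ν × ν) ℂ[X]) (t : ℂ) : ℂ :=
  MvPolynomial.eval₂ (evalRingHom t) (fun a => P t a.1 a.2) q

/-- `ℂ(t)` is algebraically closed in the field generated by the entries of `P` on `U`: a quotient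
`u / v` of polynomials in `t` and the entries that is a root of a non zero polynomial
`∑ p j * Y ^ j` over `ℂ[t]` is a rational function `a / b`. -/
def Conn {ν : Type*} (U : Set ℂ) (P : ℂ → Matrix ν ν ℂ) : Prop :=
  ∀ (u v : MvPolynomial (ν × ν) ℂ[X]) (n : ℕ) (p : ℕ → ℂ[X]), (∃ t ∈ U, val P v t ≠ 0) →
    (∃ j ≤ n, p j ≠ 0) →
    (∀ t ∈ U, ∑ j ∈ Finset.range (n + 1), (p j).eval t * val P u t ^ j * val P v t ^ (n - j) = 0) →
    ∃ a b : ℂ[X], b ≠ 0 ∧ ∀ t ∈ U, b.eval t * val P u t = a.eval t * val P v t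

end

end Pool.Agent.Lib.MP_5591bc_ag.V
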