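import Pool.Agent.Lib.MP_5591bc_ag.ROne
import Pool.Agent.Lib.MP_5591bc_ag.V.Conn

/-! Orbits of the differential Galois group, monomial bases, the ring of the auxiliary rows. -/

namespace Pool.Agent.Lib.MP_5591bc_ag.V

open Matrix Finset Filter Topology PowerSeries G R Function

noncomputable section

/-- expansion of a complex polynomial at a point -/
def τc (x : ℂ) : Polynomial ℂ →+* ℂ⟦X⟧ :=
  Polynomial.coeToPowerSeries.ringHom.comp (Polynomial.taylorAlgHom x).toRingHom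

/-- names of the monomials of degree at most `k` in the entries of a matrix -/
abbrev Mo (A : Type*) (k : ℕ) := Fin k → Option (A × A)

/-- the monomials of degree at most `k` in the entries of a matrix -/
def vk {A R : Type*} [CommRing R] (k : ℕ) (Z : Matrix A A R) : Mo A k → R :=
  tens fun _ => hatg Z

/-- substitution of series for the entries -/
def evG {A : Type*} (x : ℂ) (G : Matrix A A ℂ⟦X⟧) : MvPolynomial (A × A) (Polynomial ℂ) →+* ℂ⟦X⟧ :=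
  MvPolynomial.eval₂Hom (τc x) fun p => G p.1 p.2

/-- quotients of elements of `𝒜` that are algebraic over `ℂ(x)` are rational -/
def ConnS (x : ℂ) (𝒜 : Set ℂ⟦X⟧) : Prop :=
  ∀ u ∈ 𝒜, ∀ v ∈ 𝒜, ∀ (n : ℕ) (p : ℕ → Polynomial ℂ), v ≠ 0 → (∃ j ≤ n, p j ≠ 0) →
    ∑ j ∈ range (n + 1), τc x (p j) * u ^ j * v ^ (n - j) = 0 →
    ∃ a b : Polynomial ℂ, b ≠ 0 ∧ τc x b * u = τc x a * v

variable {A : Type*} [Fintype A] [DecidableEq A]

/-- the properties of the differential Galois group `Γ` of `G` at `x` that are used -/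
structure Orb (x : ℂ) (G : Matrix A A ℂ⟦X⟧) (Γ : Set (Matrix A A ℂ)) : Prop where
  one : 1 ∈ Γ
  unit : ∀ γ ∈ Γ, IsUnit γ.det
  inv : ∀ γ ∈ Γ, γ⁻¹ ∈ Γ
  irr : ∀ p q : MvPolynomial (A × A) ℂ, (∃ γ ∈ Γ, MvPolynomial.eval (ent γ) p ≠ 0) →
    (∃ γ ∈ Γ, MvPolynomial.eval (ent γ) q ≠ 0) →
    ∃ γ ∈ Γ, MvPolynomial.eval (ent γ) p ≠ 0 ∧ MvPolynomial.eval (ent γ) q ≠ 0
  spec : ∀ Q, evG x G Q = 0 → ∀ γ ∈ Γ, MvPolynomial.eval₂ (Polynomial.evalRingHom x) (ent γ) Q = 0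
  lift1 : ∀ (k : ℕ) (b : Mo A k → ℂ), (∀ γ ∈ Γ, b ⬝ᵥ vk k γ = 0) → ∃ l : Mo A k → Polynomial ℂ,
    (∀ μ, (l μ).eval x = b μ) ∧ (fun μ => τc x (l μ)) ⬝ᵥ vk k G = 0
  lift2 : ∀ φ b : A → ℂ, (∀ γ ∈ Γ, b ⬝ᵥ (γ *ᵥ φ) = 0) → ∃ l : A → Polynomial ℂ,
    (∀ a, (l a).eval x = b a) ∧ (fun a => τc x (l a)) ⬝ᵥ (G *ᵥ fun a => C (φ a)) = 0

/-- a basis `M` of the monomials of degree at most `k` on `Γ` -/
structure Bas (x : ℚ) (G : Matrix A A ℚ⟦X⟧) (Γ : Set (Matrix A A ℂ)) (k : ℕ) (M : Finset (Mo A k)) :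
    Prop where
  pos : 0 < M.card
  le : M.card ≤ (k + 1) ^ Fintype.card (A × A)
  indC : ∀ b : Mo A k → ℂ, (∀ μ ∉ M, b μ = 0) → (∀ γ ∈ Γ, b ⬝ᵥ vk k γ = 0) → b = 0
  indP : ∀ l : Mo A k → Polynomial ℚ, (∀ μ ∉ M, l μ = 0) →
    (fun μ => τ1 x (l μ)) ⬝ᵥ vk k G = 0 → l = 0
  gen : ∃ W : Matrix (Mo A k) (Mo A k) (Polynomial ℚ), W.map (τ1 x) *ᵥ vk k G = vk k G ∧
    (∀ μ, ∀ ν ∉ M, (W μ ν).eval x = 0) ∧
    ∀ γ ∈ Γ, W.map (Polynomial.aeval (x : ℂ)) *ᵥ vk k γ = vk k γ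

/-- a system with its formal fundamental matrices at the points of `Ω` -/
structure Sys (T : Polynomial ℚ) (B : Matrix A A (Polynomial ℚ)) (Ω : Set ℚ)
    (G : ℚ → Matrix A A ℚ⟦X⟧) : Prop where
  ne : ∀ x ∈ Ω, T.eval x ≠ 0
  one : ∀ x ∈ Ω, (G x).map constantCoeff = 1
  ode : ∀ x ∈ Ω, τ1 x T • (G x).map (d⁄dX ℚ) = B.map (τ1 x) * G x
  gf : ∀ i j, (fun x : Ω => G x i j) ∈ UF (fun x : Ω => 2 * x.1.den) fun x => two_le x

/-- the expansion at `x` of the solution with value `φ` -/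
def Fx (G : Matrix A A ℚ⟦X⟧) (φ : A → ℂ) : A → ℂ⟦X⟧ := G.map mp *ᵥ fun a => C (φ a)

/-- `F` is the expansion at `x` of the series `f` at the origin -/
def Lim {α : Type*} (f : α → ℚ⟦X⟧) (x : ℚ) (F : α → ℂ⟦X⟧) : Prop :=
  ∀ a k, Tendsto (fun K => ((coeff k (τ1 x (trunc K (f a))) : ℚ) : ℂ)) atTop (𝓝 (coeff k (F a)))

/-- a system with connected Galois group, a solution `f` at the origin and its values `φ x` -/
structure Two (T : Polynomial ℚ) (B : Matrix A A (Polynomial ℚ)) (Ω : Set ℚ)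
    (G : ℚ → Matrix A A ℚ⟦X⟧) (f : A → ℚ⟦X⟧) (φ : ℚ → A → ℂ) : Prop where
  sys : Sys T B Ω G
  gf0 : ∃ a, GF a f
  lim : ∀ x ∈ Ω, Lim f x (Fx (G x) (φ x))
  conn : ∀ x ∈ Ω, ConnS x (Set.range (evG x ((G x).map mp)))
  back : ∀ x ∈ Ω, ∀ l : A → Polynomial ℂ, (fun a => τc x (l a)) ⬝ᵥ Fx (G x) (φ x) = 0 →
    (fun a => (l a : ℂ⟦X⟧)) ⬝ᵥ (fun a => mp (f a)) = 0

variable {σ α : Type*}

/-- polynomials in the variables `x i` and in symbols for the series `f a (x i)` -/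
abbrev Ot (σ α : Type*) := MvPolynomial (σ × α) (MvPolynomial σ ℚ)

/-- expansion at the origin -/
def e0 (f : α → ℚ⟦X⟧) : Ot σ α →+* MvPowerSeries σ ℚ :=
  MvPolynomial.eval₂Hom MvPolynomial.coeToMvPowerSeries.ringHom fun p => emb p.1 (f p.2)

/-- substitution of the truncated series -/
def eK (f : α → ℚ⟦X⟧) (K : ℕ) : Ot σ α →+* MvPolynomial σ ℚ :=
  MvPolynomial.eval fun p => toMv p.1 (trunc K (f p.2))

/-- a complex series in the variable `i` -/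
def embC (i : σ) : ℂ⟦X⟧ →ₐ[ℂ] MvPowerSeries σ ℂ := MvPowerSeries.rename fun _ : Unit => i

/-- extension of scalars -/
def mC : MvPowerSeries σ ℚ →+* MvPowerSeries σ ℂ := MvPowerSeries.map (algebraMap ℚ ℂ)

/-- expansion at the point `ξ` -/
def eX (ξ : σ → ℚ) (F : σ → α → ℂ⟦X⟧) : Ot σ α →+* MvPowerSeries σ ℂ :=
  MvPolynomial.eval₂Hom (mC.comp (τs ξ)) fun p => embC p.1 (F p.1 p.2)

/-- the tensor product of vectors of series in separate variables -/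
def tv [Fintype σ] (y : σ → α → ℚ⟦X⟧) : (σ → α) → MvPowerSeries σ ℚ :=
  tens fun i a => emb i (y i a)

end

end Pool.Agent.Lib.MP_5591bc_ag.V
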