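import Pool.Agent.Lib.MP_5591bc_ag.V.FamA

/-! Galochkin's condition for the Picard-Fuchs system in the basis `x^i dx / y`. -/

namespace Pool.Agent.Lib.MP_5591bc_ag.V

open Matrix Finset Filter Topology G R Function Metric Polynomial

noncomputable section

variable {f : ℚ[X]} {n : ℕ}

theorem fam_key (hn : 0 < n) (hf : f.natDegree ≤ n) (f0 : f ≠ 0) {fz : ℤ[X]} {b : ℤ} (b0 : b ≠ 0)
    (hz : ∀ t : ℂ, aeval t fz = b * aeval t f) (z2 : fz.natDegree ≤ n) (m : ℕ) (i l : Fin n) (r : ℕ) :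
    ∃ y : ℤ, ((4 ^ m * Nat.lcmUpto (2 * m) * 2 ^ (m + n) * b ^ m * (hT fz).content ^ (2 * n) : ℤ) : ℚ) *
      (iterK (2 * f) (oB f n) m i l).coeff r / m.factorial = y := by
  obtain ⟨V, Φ, Ψ, hV, hi, h⟩ := fam_loc (oB f n) (mul_ne_zero two_ne_zero f0)
  obtain ⟨N, hN⟩ := Rep.sum univ fun (k : Fin n) _ => (fam_rep hn z2 m (i - (n - (k + 1))) k).mul
    ((i : ℕ).choose (n - (k + 1)))
  have e0 : ∀ t : ℂ, aeval t (hT fz) = b * t * aeval t (2 * f) := fun t => by
    simp only [hT, map_mul, map_ofNat, aeval_X, hz]; ring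
  have b1 : (b : ℂ) ≠ 0 := Int.cast_ne_zero.2 b0
  have e1 : ∀ t ∈ V, aeval t (hT fz) ≠ 0 := fun t ht => by
    rw [e0]; exact mul_ne_zero (mul_ne_zero b1 (h t ht).1) (h t ht).2.1
  have pr : ∀ k, ((hT fz).primPart ^ k).IsPrimitive := fun k => by
    induction k with
    | zero => simp
    | succ k ih => rw [pow_succ]; exact ih.mul (isPrimitive_primPart _)
  have m0 : (m.factorial : ℂ) ≠ 0 := by exact_mod_cast m.factorial_ne_zero
  refine (fam_gauss ((monic_X_pow m).isPrimitive.mul (pr (2 * n))) hi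
    (W := C (((4 ^ m * Nat.lcmUpto (2 * m) * 2 ^ (m + n) * b ^ m * (hT fz).content ^ (2 * n) : ℤ) : ℚ) /
      m.factorial) * iterK (2 * f) (oB f n) m i l)
    (q := ∑ k : Fin n, N k * (X ^ (k : ℕ) * ((-X) ^ (n - (k + 1) - l) * ((n - (k + 1)).choose l : ℤ[X]))))
    (fun t ht => ?_) r).imp fun y hy => by rw [← hy, coeff_C_mul]; ring
  have n1 := hV.mem_nhds ht
  have e2 : ∀ j, ((4 ^ m * Nat.lcmUpto (2 * m) * 2 ^ (m + n) : ℤ) : ℂ) * aeval t (hT fz) ^ (m + 2 * n) /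
      (aeval t (2 * f) ^ m * m.factorial) *
        ((iterK (2 * f) (oB f n) m).map (aeval t) * Φ t) i j =
      ((fun k => aeval t (N k)) ᵥ* ((gP n).map (aeval t) * Φ t)) j := fun j => by
    have hS' : hS fz n t fun s k => ((gP n).map (aeval s) * Φ s) k j := ⟨e1 t ht,
      mem_of_superset n1 fun s hs => (fam_msol hf hz z2 (e1 s hs) (h s hs).2.2.1).col j⟩
    have d1 := (iterK_eq (h t ht).2.1 (mem_of_superset n1 fun s hs => (h s hs).2.2.1.col j)
      m i).self_of_nhds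
    have d2 : ∀ k : Fin n, AnalyticAt ℂ (fun s => s ^ (i - (n - (k + 1))) *
        om n (fun s => ((gP n).map (aeval s) * Φ s) ⟨0, hn⟩ j) k s) t := fun k =>
      (analyticAt_id.fun_pow _).fun_mul (om_analytic (hS'.an _) _)
    have d3 : tay (Φ · i j) t = ∑ k : Fin n, PowerSeries.C ((i : ℕ).choose (n - (k + 1)) : ℂ) *
        tay (fun s => s ^ (i - (n - (k + 1))) *
          om n (fun s => ((gP n).map (aeval s) * Φ s) ⟨0, hn⟩ j) k s) t := by
      rw [← sum_congr rfl fun k _ => tay_cmul (d2 k) _,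
        ← tay_sum _ fun k _ => analyticAt_const.fun_mul (d2 k)]
      refine tay_congr ?_
      filter_upwards [n1, eventually_all.2 (om_sol hn hS'.1 hS'.2).1] with s hs a
      have s0 := (h s hs).1
      simp only [← fun k => div_eq_of_eq_mul (pow_ne_zero _ s0) ((a k).trans (mul_comm _ _))]
      simp only [mul_apply, map_apply, sum_div, mul_sum, ← mul_assoc, ← div_mul_eq_mul_div]
      rw [sum_comm]
      simp only [← sum_mul, fam_inv s0, ite_mul, one_mul, zero_mul, sum_ite_eq, mem_univ, if_true]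
    replace d3 := congrArg (PowerSeries.coeff m) d3
    rw [coeff_tay, eq_div_of_mul_eq (pow_ne_zero m (h t ht).2.1) ((mul_comm _ _).trans d1),
      map_sum] at d3
    refine Eq.trans ?_ (hN t _ hS')
    simp only [PowerSeries.coeff_C_mul] at d3
    simp only [map_natCast, mul_left_comm (Nat.cast _ : ℂ), ← mul_sum]
    rw [← d3, mul_apply]
    simp only [map_apply]
    ring
  have e3 := congrArg (· ᵥ* Ψ t) (show (((4 ^ m * Nat.lcmUpto (2 * m) * 2 ^ (m + n) : ℤ) : ℂ) *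
    aeval t (hT fz) ^ (m + 2 * n) / (aeval t (2 * f) ^ m * m.factorial)) •
      ((iterK (2 * f) (oB f n) m).map (aeval t) i ᵥ* Φ t) = _ from funext e2)
  simp only [smul_vecMul, vecMul_vecMul, Matrix.mul_assoc, (h t ht).2.2.2, Matrix.mul_one,
    vecMul_one] at e3
  have e4 := congrFun e3 l
  have e5 := congrArg (aeval t) (hT fz).eq_C_content_mul_primPart
  have e6 := mul_ne_zero_iff.1 (map_mul (aeval t) 2 f ▸ (h t ht).2.1)
  have e7 := e6.1
  have e8 := e6.2
  simp only [vecMul, dotProduct, map_apply, Pi.smul_apply, smul_eq_mul, gP, of_apply, map_mul,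
    map_pow, map_neg, aeval_X, map_natCast, map_sum, aeval_C, eq_intCast, eq_ratCast,
    map_intCast] at e4 e5 ⊢
  rw [← e4, pow_add (aeval t (hT fz)), e0 t, ← mul_assoc]
  conv_rhs => enter [1, 1, 2, 2]; rw [← e0 t, e5]
  simp only [map_mul, mul_pow]
  push_cast
  field_simp

theorem fam_gal (hn : 0 < n) (hf : f.natDegree = n) : GalK (2 * f) (oB f n) := by
  have f0 : f ≠ 0 := by rintro rfl; simp at hf; omega
  obtain ⟨b, hb, hfz⟩ := IsLocalization.integerNormalization_spec (nonZeroDivisors ℤ) f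
  obtain ⟨fz, hz⟩ : ∃ fz, fz = IsLocalization.integerNormalization (nonZeroDivisors ℤ) f := ⟨_, rfl⟩
  have b0 : b ≠ 0 := nonZeroDivisors.ne_zero hb
  rw [← hz] at hfz
  have z1 : ∀ t : ℂ, aeval t fz = b * aeval t f := fun t => by
    rw [← aeval_map_algebraMap ℚ t fz, hfz]; simp
  have z2 : fz.natDegree ≤ n := by
    rw [← natDegree_map_eq_of_injective (algebraMap ℤ ℚ).injective_int, hfz, natDegree_smul _ b0, hf]
  have c0 : (hT fz).content ≠ 0 := by
    rw [Ne, content_eq_zero_iff]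
    refine mul_ne_zero (mul_ne_zero two_ne_zero X_ne_zero) fun e => smul_ne_zero b0 f0 ?_
    rw [← hfz, e, Polynomial.map_zero]
  have key := fam_key hn hf.le f0 b0 z1 z2
  generalize (hT fz).content = c at *
  obtain ⟨A, hA⟩ : ∃ A : ℤ, A = 4 * 2 ^ (1 + n) * b * c ^ (2 * n) := ⟨_, rfl⟩
  refine ⟨Real.exp (2 * (Real.log 4 + 4)) * A.natAbs, fun m => ⟨Nat.lcmUpto (2 * m) * A.natAbs ^ (m + 1),
    Nat.mul_pos (Nat.lcmUpto_pos _) (pow_pos (Int.natAbs_pos.2 (by rw [hA]; positivity)) _), ?_,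
    fun k hk i j l => ?_⟩⟩
  · rw [mul_pow, Nat.cast_mul, Nat.cast_pow]
    gcongr
    exact (lcm_le m).trans (pow_le_pow_right₀ (Real.one_le_exp (by positivity)) m.le_succ)
  obtain ⟨y, hy⟩ := key k i j l
  obtain ⟨y', hy'⟩ : 4 ^ k * Nat.lcmUpto (2 * k) * 2 ^ (k + n) * b ^ k * c ^ (2 * n) ∣
      (Nat.lcmUpto (2 * m) * A.natAbs ^ (m + 1) : ℕ) := by
    rw [Nat.cast_mul, Nat.cast_pow]
    refine dvd_trans ?_ (mul_dvd_mul_left _ (pow_dvd_pow_of_dvd (Int.dvd_natAbs.2 dvd_rfl) _))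
    convert mul_dvd_mul (Int.natCast_dvd_natCast.2 (lcm_mono (Nat.mul_le_mul_left 2 hk))) (mul_dvd_mul
      (mul_dvd_mul (mul_dvd_mul (pow_dvd_pow (4 : ℤ) (hk.trans m.le_succ))
        (pow_dvd_pow (2 : ℤ) (show k + n ≤ (1 + n) * (m + 1) by nlinarith)))
      (pow_dvd_pow b (hk.trans m.le_succ))) (dvd_pow_self (c ^ (2 * n)) m.succ_ne_zero)) using 1
    · ring
    · simp only [hA, mul_pow, pow_mul]
  have := congrArg (Int.cast : ℤ → ℚ) hy'
  rw [Int.cast_natCast] at this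
  convert isIntegral_algebraMap (x := y * y') (A := ℚ)
  rw [this, eq_intCast, Int.cast_mul y, ← hy]
  push_cast
  ring

theorem fam_fund (f0 : f ≠ 0) (hf : f.natDegree ≤ n) {U : Set ℂ} (ho : IsOpen U)
    {P : ℂ → Matrix (Fin n) (Fin n) ℂ} (hP : IsPeriodMatrix f U P) :
    FundK (2 * f) (oB f n) U P := fun t ht => by
  have an : ∀ i j, AnalyticAt ℂ (P · i j) t := fun i j => (hP.hol i j).analyticAt (ho.mem_nhds ht)
  refine ⟨(hP t ht).1, fun i j => ⟨(an i j).differentiableAt, ?_⟩⟩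
  refine tendsto_nhds_unique_of_eventuallyEq (l := 𝓝[≠] t)
    (((analyticAt_aeval (2 * f) t).fun_mul (an i j).deriv).continuousAt.tendsto.mono_left
      nhdsWithin_le_nhds) ((tendsto_finsetSum univ fun k _ => ((analyticAt_aeval (oB f n i k)
        t).fun_mul (an k j)).continuousAt.tendsto).mono_left nhdsWithin_le_nhds) ?_
  have h1 := (((2 * f).rootSet_finite ℂ).subset (Set.sdiff_subset (t := {t}))).isClosed.isOpen_compl
  filter_upwards [nhdsWithin_le_nhds (ho.mem_nhds ht), self_mem_nhdsWithin,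
    nhdsWithin_le_nhds (h1.mem_nhds (show t ∉ _ by simp))] with s h2 h3 h4
  have h5 : aeval s (2 * f) ≠ 0 := fun e =>
    h4 ⟨mem_rootSet.2 ⟨mul_ne_zero two_ne_zero f0, e⟩, h3⟩
  rw [(IsPeriodMatrix.om hP hf h2 h5 i j).deriv, mul_apply, mul_sum]
  refine sum_congr rfl fun k _ => ?_
  rw [Az, of_apply, ← mul_assoc, mul_div_cancel₀ _ h5]

end

end Pool.Agent.Lib.MP_5591bc_ag.V
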