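import Pool.Agent.Lib.MP_5591bc_ag.SMain
import Pool.Agent.Lib.MP_5591bc_ag.V.Defs
import Pool.Agent.Lib.MP_5591bc_ag.V.FamB

/-! The Picard-Fuchs system of `y^2 = f(x)(x - t)`: Galochkin's condition and residues. -/

namespace Pool.Agent.Lib.MP_5591bc_ag.V

open Matrix Finset Filter Topology PowerSeries G R Function

noncomputable section

variable {f : Polynomial ℚ} {n : ℕ}

theorem galK_oB (hn : 0 < n) (hf : f.natDegree = n) : GalK (2 * f) (oB f n) :=
  fam_gal hn hf

theorem nil_oB (hf : f.natDegree ≤ n) {a : ℂ} (ha : Polynomial.aeval a f = 0) :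
    IsNilpotent ((oB f n).map (Polynomial.aeval a)) :=
  ⟨2, (pow_two _).trans (fam_nil hf ha)⟩

theorem fund_oB (hn : 0 < n) (hf : f.natDegree = n) {U : Set ℂ} (ho : IsOpen U)
    {P : ℂ → Matrix (Fin n) (Fin n) ℂ} (hP : IsPeriodMatrix f U P) :
    FundK (2 * f) (oB f n) U P :=
  fam_fund (by rintro rfl; simp at hf; omega) hf.le ho hP

end

end Pool.Agent.Lib.MP_5591bc_ag.V
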