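import Pool.Agent.Lib.MP_5591bc_ag.V.Near
import Pool.Agent.Lib.MP_5591bc_ag.V.Fam

/-! The family `y^2 = f(x)(x - t)` near an ordinary point. -/

namespace Pool.Agent.Lib.MP_5591bc_ag.V

open Matrix Finset Filter Topology PowerSeries G R Function

noncomputable section

theorem conn_fam {f : Polynomial ℚ} {n : ℕ} (hn : 0 < n) (hf : f.natDegree = n) (hq : Squarefree f)
    {U : Set ℂ} (ho : IsOpen U) (hc : IsPreconnected U) {P : ℂ → Matrix (Fin n) (Fin n) ℂ}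
    (hP : IsPeriodMatrix f U P) : Conn U P := by
  refine conn_uni (mul_ne_zero two_ne_zero hq.ne_zero) (fun a ha => ?_) ho hc (fund_oB hn hf ho hP)
  have h1 : Polynomial.aeval a f = 0 := by simpa [map_ofNat] using ha
  exact ⟨by simpa [map_ofNat] using
    (PerfectField.separable_iff_squarefree.2 hq).aeval_derivative_ne_zero h1, nil_oB hf.le h1⟩

theorem near_fam (K : Type) [Field K] [NumberField K] [Algebra K ℂ] {f : Polynomial ℚ} {n r : ℕ}
    (hn : 0 < n) (hf : f.natDegree = n) (hq : Squarefree f) (δ : ℕ) {s : ℚ} (hT : f.eval s ≠ 0)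
    {U : Set ℂ} (ho : IsOpen U) (hc : IsPreconnected U) (hs : (s : ℂ) ∈ U)
    {P : ℂ → Matrix (Fin n) (Fin n) ℂ} (hP : IsPeriodMatrix f U P)
    (ℓ : Fin r → Matrix (Fin n) (Fin n) ℂ →ₗ[ℂ] ℂ) {η : ℝ} (η0 : 0 < η) :
    {ξ : ℚ | |(ξ : ℝ)| ≤ (ξ.den : ℝ) ^ (-η) ∧
      ¬ GoodK U (fun t i => ℓ i (P t)) δ ((s : K) + ξ)}.Finite :=
  near K δ (galK_oB hn hf) (by simpa using hT) ho hc hs (fund_oB hn hf ho hP)
    (conn_fam hn hf hq ho hc hP) ℓ η0

end

end Pool.Agent.Lib.MP_5591bc_ag.V
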