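import Mathlib

/-! Regular field extensions: if `k` is algebraically closed in `L`, prime ideals of relations
between elements of `L` stay prime over every extension of `k`. -/

namespace Pool.Agent.Lib.MP_5591bc_ag.V

open scoped TensorProduct IntermediateField
open Function Polynomial

set_option linter.style.haveILetI false

section ten

variable {k A B : Type*} [Field k] [CommRing A] [Algebra k A] [CommRing B] [Algebra k B]

theorem reg_pt [IsAlgClosed k] [Algebra.FiniteType k A] [IsDomain A] {a : A} (ha : a ≠ 0) :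
    ∃ φ : A →ₐ[k] k, φ a ≠ 0 := by
  have : IsJacobsonRing A := isJacobsonRing_of_finiteType (A := k)
  have hb : a ∉ (⊥ : Ideal A) := by simpa using ha
  rw [← IsJacobsonRing.out' (⊥ : Ideal A) Ideal.isPrime_bot.isRadical, Ideal.jacobson,
    Ideal.mem_sInf] at hb
  push Not at hb
  obtain ⟨M, ⟨-, h2⟩, h3⟩ := hb
  letI := Ideal.Quotient.field M
  haveI : Module.Finite k (A ⧸ M) := finite_of_finite_type_of_isJacobsonRing k (A ⧸ M)
  let e : k ≃ₐ[k] A ⧸ M :=
    AlgEquiv.ofBijective (Algebra.ofId k _) IsAlgClosed.algebraMap_bijective_of_isIntegral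
  exact ⟨e.symm.toAlgHom.comp (Ideal.Quotient.mkₐ k M), fun h => h3
    (Ideal.Quotient.eq_zero_iff_mem.1 ((map_eq_zero_iff e.symm e.symm.injective).1 h))⟩

/-- tensor product of domains over an algebraically closed field -/
theorem reg_ten [IsAlgClosed k] [Algebra.FiniteType k A] [IsDomain A] [IsDomain B] :
    IsDomain (A ⊗[k] B) := by
  let b := Module.Free.chooseBasis k B
  let φ : (A →ₐ[k] k) → (A ⊗[k] B →ₐ[k] B) := fun p =>
    Algebra.TensorProduct.lift ((Algebra.ofId k B).comp p) (AlgHom.id k B)
      fun _ _ => Commute.all _ _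
  have key : ∀ (p : A →ₐ[k] k) x i,
      b.repr (φ p x) i = p ((Algebra.TensorProduct.basis A b).repr x i) := fun p x i => by
    induction x with
    | zero => simp
    | add x y hx hy => simp [hx, hy]
    | tmul a a' =>
      have : φ p (a ⊗ₜ a') = p a • a' := by simp [φ, Algebra.smul_def, Algebra.ofId_apply]
      simp [this]
  obtain ⟨p₀, -⟩ := reg_pt (k := k) (one_ne_zero (α := A))
  have : Nontrivial (A ⊗[k] B) := (φ p₀).toRingHom.domain_nontrivial
  have : NoZeroDivisors (A ⊗[k] B) := ⟨fun {x y} e => by
    by_contra hn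
    rw [not_or] at hn
    obtain ⟨i, hi⟩ := Finsupp.ne_iff.1
      ((map_ne_zero_iff _ (Algebra.TensorProduct.basis A b).repr.injective).2 hn.1)
    obtain ⟨j, hj⟩ := Finsupp.ne_iff.1
      ((map_ne_zero_iff _ (Algebra.TensorProduct.basis A b).repr.injective).2 hn.2)
    obtain ⟨p, hp⟩ := reg_pt (k := k) (mul_ne_zero hi hj)
    rw [map_mul, ← key, ← key] at hp
    have := congrArg (φ p) e
    rw [map_mul, map_zero, mul_eq_zero] at this
    rcases this with h | h <;> simp [h] at hp⟩
  exact NoZeroDivisors.to_isDomain _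

end ten

variable {k L : Type*} [Field k] [Field L] [Algebra k L]

theorem reg_irr (h : ∀ z : L, IsIntegral k z → z ∈ (algebraMap k L).range) {p : k[X]}
    (hm : p.Monic) (hp : Irreducible p) : Irreducible (p.map (algebraMap k L)) := by
  have h1 : p.map (algebraMap k L) ≠ 1 := fun e => by
    have := congrArg natDegree e
    rw [natDegree_map, natDegree_one] at this
    exact hp.natDegree_pos.ne' this
  have lift : ∀ f : L[X], f.Monic → f ∣ p.map (algebraMap k L) →
      ∃ f0 : k[X], f0.map (algebraMap k L) = f ∧ f0.Monic := fun f hf hd => by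
    have : f ∈ lifts (algebraMap k L) := (lifts_iff_coeff_lifts _).2 fun i =>
      h _ (isIntegral_coeff_of_dvd p f hm hf hd i)
    obtain ⟨f0, e, -, m⟩ := lifts_and_natDegree_eq_and_monic this hf
    exact ⟨f0, e, m⟩
  refine (irreducible_of_monic (hm.map _) h1).2 fun f g hf hg e => ?_
  obtain ⟨f0, rfl, mf⟩ := lift f hf ⟨g, e.symm⟩
  obtain ⟨g0, rfl, mg⟩ := lift g hg ⟨_, e.symm.trans (mul_comm _ _)⟩
  rw [← Polynomial.map_mul] at e
  have e0 := map_injective _ (algebraMap k L).injective e
  rcases (irreducible_of_monic hm hp.ne_one).1 hp f0 g0 mf mg e0 with r | r <;> simp [r]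

theorem reg_simple (h : ∀ z : L, IsIntegral k z → z ∈ (algebraMap k L).range) {Ω : Type*} [Field Ω]
    [Algebra k Ω] [Algebra L Ω] [IsScalarTower k L Ω] {α : Ω} (ha : IsIntegral k α) :
    k⟮α⟯.LinearDisjoint L := by
  have e : (minpoly k α).map (algebraMap k L) = minpoly L α :=
    minpoly.eq_of_irreducible_of_monic (reg_irr h (minpoly.monic ha) (minpoly.irreducible ha))
      (by simp) ((minpoly.monic ha).map _)
  have d : (IntermediateField.adjoin.powerBasis ha).dim = (minpoly L α).natDegree := by
    rw [← e, natDegree_map]; rfl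
  refine IntermediateField.LinearDisjoint.of_basis_left
    (IntermediateField.adjoin.powerBasis ha).basis ?_
  have := (linearIndependent_pow (K := L) α).comp _ (finCongr d).injective
  convert this using 1
  ext i
  simp

theorem reg_disj [CharZero k] (h : ∀ z : L, IsIntegral k z → z ∈ (algebraMap k L).range)
    {Ω : Type*} [Field Ω] [Algebra k Ω] [Algebra L Ω] [IsScalarTower k L Ω] :
    (algebraicClosure k Ω).LinearDisjoint L := by
  haveI : Algebra.IsIntegral k (algebraicClosure k Ω).toSubalgebra :=
    (inferInstance : Algebra.IsIntegral k (algebraicClosure k Ω))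
  refine Subalgebra.LinearDisjoint.of_linearDisjoint_finite_left _ _ fun A' hA _ => ?_
  let E : IntermediateField k Ω := A'.toIntermediateField' (isField_of_isIntegral_of_isField'
    (R := k) (Field.toIsField k))
  haveI : FiniteDimensional k E := ‹Module.Finite k A'›
  obtain ⟨α, hα⟩ := Field.exists_primitive_element k E
  have hi : IsIntegral k (α : Ω) := (Algebra.IsIntegral.isIntegral α).map E.val
  refine (reg_simple h hi).of_le_left_of_flat ?_
  intro x hx
  have h2 : k⟮(α : Ω)⟯ = E := by
    rw [← IntermediateField.lift_adjoin_simple, hα, IntermediateField.lift_top]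
  rw [h2]; exact hx

theorem reg_bc (K N : Type*) {R : Type*} [Field K] [IsAlgClosed K] [Algebra k K] [Field N]
    [Algebra k N] [Algebra K N] [IsScalarTower k K N] [CommRing R] [Algebra k R]
    [Algebra.FiniteType k R] [IsDomain (K ⊗[k] R)] : IsDomain (N ⊗[k] R) := by
  haveI : IsDomain ((K ⊗[k] R) ⊗[K] N) := reg_ten
  exact ((Algebra.TensorProduct.cancelBaseChange k K K N R).symm.trans
    (Algebra.TensorProduct.comm K N (K ⊗[k] R))).toMulEquiv.isDomain _

/-- base change of a finitely generated subring of a regular extension -/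
theorem reg_dom [CharZero k] (h : ∀ z : L, IsIntegral k z → z ∈ (algebraMap k L).range)
    (M : Type*) [Field M] [Algebra k M] {R : Type*} [CommRing R] [Algebra k R]
    [Algebra.FiniteType k R] (ι : R →ₐ[k] L) (hι : Injective ι) : IsDomain (M ⊗[k] R) := by
  let K := algebraicClosure k (AlgebraicClosure L)
  haveI : IsAlgClosed K := IsAlgClosure.isAlgClosed k
  haveI : IsDomain (K ⊗[k] L) := (reg_disj h).isDomain
  haveI : IsDomain (K ⊗[k] R) := Injective.isDomain (Algebra.TensorProduct.map (AlgHom.id k K) ι)
    (Module.Flat.lTensor_preserves_injective_linearMap ι.toLinearMap hι)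
  let N := AlgebraicClosure M
  letI : Algebra K N := (IsAlgClosed.lift : K →ₐ[k] N).toRingHom.toAlgebra
  haveI : IsScalarTower k K N := IsScalarTower.of_algebraMap_eq fun x =>
    ((IsAlgClosed.lift : K →ₐ[k] N).commutes x).symm
  haveI : IsDomain (N ⊗[k] R) := reg_bc K N
  exact Injective.isDomain
    (Algebra.TensorProduct.map (IsScalarTower.toAlgHom k M N) (AlgHom.id k R))
    (Module.Flat.rTensor_preserves_injective_linearMap (IsScalarTower.toAlgHom k M N).toLinearMap
      (algebraMap M N).injective)

theorem reg_fin {M : Type*} [CommRing M] [Algebra k M] (x : M ⊗[k] L) : ∃ s : Finset L,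
    ∀ R : Subalgebra k L, (∀ z ∈ s, z ∈ R) →
      x ∈ (Algebra.TensorProduct.map (AlgHom.id k M) R.val).range := by
  classical
  induction x with
  | zero => exact ⟨∅, fun R _ => zero_mem _⟩
  | tmul a b => exact ⟨{b}, fun R hR => ⟨a ⊗ₜ ⟨b, hR b (by simp)⟩, by simp⟩⟩
  | add x y hx hy =>
    obtain ⟨s, hs⟩ := hx
    obtain ⟨t, ht⟩ := hy
    exact ⟨s ∪ t, fun R hR => add_mem (hs R fun z hz => hR z (by simp [hz]))
      (ht R fun z hz => hR z (by simp [hz]))⟩

/-- base change of a regular extension -/
theorem reg_field [CharZero k] (h : ∀ z : L, IsIntegral k z → z ∈ (algebraMap k L).range)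
    (M : Type*) [Field M] [Algebra k M] : IsDomain (M ⊗[k] L) := by
  classical
  have : NoZeroDivisors (M ⊗[k] L) := ⟨fun {x y} e => by
    obtain ⟨s, hs⟩ := reg_fin x
    obtain ⟨t, ht⟩ := reg_fin y
    let R := Algebra.adjoin k ((s ∪ t : Finset L) : Set L)
    haveI : Algebra.FiniteType k R :=
      (Subalgebra.fg_iff_finiteType _).1 (Subalgebra.fg_adjoin_finset _)
    haveI := reg_dom h M R.val Subtype.val_injective
    obtain ⟨x, rfl⟩ := hs R fun z hz => Algebra.subset_adjoin (by simp [hz])
    obtain ⟨y, rfl⟩ := ht R fun z hz => Algebra.subset_adjoin (by simp [hz])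
    have inj : Injective (Algebra.TensorProduct.map (AlgHom.id k M) R.val) :=
      Module.Flat.lTensor_preserves_injective_linearMap R.val.toLinearMap Subtype.val_injective
    have e2 : x * y = 0 := inj (by rw [map_mul, map_zero]; exact e)
    rcases mul_eq_zero.1 e2 with r | r <;> simp [r]⟩
  exact NoZeroDivisors.to_isDomain _

/-- the ideal of relations stays prime -/
theorem reg_prime [CharZero k] (h : ∀ z : L, IsIntegral k z → z ∈ (algebraMap k L).range)
    (M : Type*) [Field M] [Algebra k M] {σ : Type*} [Finite σ] (φ : MvPolynomial σ k →ₐ[k] L) :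
    ((RingHom.ker φ).map (MvPolynomial.map (algebraMap k M))).IsPrime := by
  haveI : Algebra.FiniteType k φ.range :=
    Algebra.FiniteType.of_surjective φ.rangeRestrict φ.rangeRestrict_surjective
  haveI := reg_dom h M φ.range.val Subtype.val_injective
  let e := MvPolynomial.algebraTensorAlgEquiv (σ := σ) k M
  have h1 := RingHom.ker_isPrime (Algebra.TensorProduct.map (AlgHom.id k M) φ.rangeRestrict)
  rw [Algebra.TensorProduct.lTensor_ker _ φ.rangeRestrict_surjective] at h1
  have h2 := Ideal.map_isPrime_of_equiv e (I := (RingHom.ker φ.rangeRestrict).map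
    (Algebra.TensorProduct.includeRight : _ →ₐ[k] M ⊗[k] MvPolynomial σ k))
  have h3 : RingHom.ker φ.rangeRestrict = RingHom.ker φ := by
    ext x
    simp [RingHom.mem_ker, Subtype.ext_iff]
  rw [h3] at h2
  convert h2 using 1
  refine le_antisymm (Ideal.map_le_iff_le_comap.2 fun x hx => ?_)
    (Ideal.map_le_iff_le_comap.2 (Ideal.map_le_iff_le_comap.2 fun x hx => ?_))
  · have := Ideal.mem_map_of_mem e (Ideal.mem_map_of_mem
      (Algebra.TensorProduct.includeRight : _ →ₐ[k] M ⊗[k] MvPolynomial σ k) hx)
    simpa [e] using this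
  · have := Ideal.mem_map_of_mem (MvPolynomial.map (algebraMap k M)) hx
    simpa [e] using this

end Pool.Agent.Lib.MP_5591bc_ag.V
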