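import Pool.Agent.Lib.MP_5591bc_ag.V.GalA
import Pool.Agent.Lib.MP_5591bc_ag.V.Reg

/-! The prime ideal of the generic point of the differential Galois group. -/

namespace Pool.Agent.Lib.MP_5591bc_ag.V

open Matrix PowerSeries Function
open scoped TensorProduct

noncomputable section

universe u

variable {A : Type u} [Fintype A] [DecidableEq A]

/-- evaluation of a polynomial in the entries of a matrix -/
def evm {S : Type*} [CommRing S] (κ : ℂ →+* S) (X : Matrix A A S) :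
    MvPolynomial (A × A) ℂ →+* S := MvPolynomial.eval₂Hom κ fun x => X x.1 x.2

omit [Fintype A] [DecidableEq A] in
theorem map_evm {S S' : Type*} [CommRing S] [CommRing S'] (φ : S →+* S') (κ : ℂ →+* S)
    (X : Matrix A A S) (p : MvPolynomial (A × A) ℂ) :
    φ (evm κ X p) = evm (φ.comp κ) (X.map φ) p := MvPolynomial.map_eval₂Hom _ _ _ _

omit [Fintype A] [DecidableEq A] in
theorem evm_C {S : Type*} [CommRing S] (κ : ℂ →+* S) (X : Matrix A A S) (c : ℂ) :
    evm κ X (MvPolynomial.C c) = κ c := MvPolynomial.eval₂Hom_C _ _ _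

omit [Fintype A] [DecidableEq A] in
theorem evm_X {S : Type*} [CommRing S] (κ : ℂ →+* S) (X : Matrix A A S) (x : A × A) :
    evm κ X (MvPolynomial.X x) = X x.1 x.2 := MvPolynomial.eval₂Hom_X' _ _ _

/-- polynomial representations of the monoid of matrices -/
structure IsRep {n : Type*} [Fintype n] [DecidableEq n]
    (ρ : Matrix n n (MvPolynomial (A × A) ℂ)) : Prop where
  one : ρ.map (evm (RingHom.id ℂ) 1) = 1
  mul : ∀ (S : Type) [CommRing S] (κ : ℂ →+* S) (X Y : Matrix A A S),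
    ρ.map (evm κ (X * Y)) = ρ.map (evm κ X) * ρ.map (evm κ Y)

/-- the ideal of the fibre of the closure of the graph of `G` -/
structure Gen (G : Matrix A A ℂ⟦X⟧) (I : Ideal (MvPolynomial (A × A) ℂ)) : Prop where
  prime : I.IsPrime
  one : ∀ p ∈ I, evm (RingHom.id ℂ) 1 p = 0
  swap : ∀ p ∈ I, ∀ (q : MvPolynomial (A × A) ℂ) (N : ℕ), (∀ (S : Type) [CommRing S] (κ : ℂ →+* S)
    (X X' : Matrix A A S), X' * X = 1 → evm κ X q = X.det ^ N * evm κ X' p) → q ∈ I
  rep : ∀ (n : Type u) [Fintype n] [DecidableEq n] (ρ : Matrix n n (MvPolynomial (A × A) ℂ)),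
    IsRep ρ → ∀ (T : Polynomial ℂ) (B : Matrix n n (Polynomial ℂ)), T.eval 0 ≠ 0 →
    (T : ℂ⟦X⟧) • (ρ.map (evm C G)).map (d⁄dX ℂ) = B.map (fun p => (p : ℂ⟦X⟧)) * ρ.map (evm C G) →
    ∀ y b : n → ℂ, (fun j => MvPolynomial.C (b j)) ⬝ᵥ (ρ *ᵥ fun j => MvPolynomial.C (y j)) ∈ I ↔
      ∃ l ∈ Rel (ρ.map (evm C G) *ᵥ fun j => C (y j)), ∀ j, (l j).eval 0 = b j

theorem gen_abs {k R L : Type} [Field k] [Algebra (Polynomial ℂ) k]
    [IsFractionRing (Polynomial ℂ) k] [CommRing R] [Algebra k R] [CommRing L] [Algebra k L]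
    [IsDomain L] [IsDomain (R ⊗[k] R)] {ι : ℂ⟦X⟧ →+* L} {v : R →ₐ[k] L} (hι : Injective ι)
    (hv : Injective v) (hc : ∀ p : Polynomial ℂ, ι p = pk k L p) {G : Matrix A A ℂ⟦X⟧}
    (h0 : G.map constantCoeff = 1) {Gr Gi : Matrix A A R} (hG : Gr.map v = G.map ι)
    (hi : Gi * Gr = 1) : ∃ I, Gen G I := by
  let il : R →+* R ⊗[k] R := Algebra.TensorProduct.includeLeftRingHom
  let ir : R →ₐ[k] R ⊗[k] R := Algebra.TensorProduct.includeRight
  let μ : R ⊗[k] R →+* R := (Algebra.TensorProduct.lmul' k).toRingHom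
  let σ : R ⊗[k] R →+* R ⊗[k] R := (Algebra.TensorProduct.comm k R R).toAlgHom.toRingHom
  have cl : il.comp (ck k R) = ck k (R ⊗[k] R) := rfl
  have cr : ir.toRingHom.comp (ck k R) = ck k (R ⊗[k] R) := RingHom.ext fun c => ir.commutes _
  have cv : v.toRingHom.comp (ck k R) = ι.comp C := RingHom.ext fun c =>
    (v.commutes _).trans ((hc _).symm.trans (congrArg ι (Polynomial.coe_C c)))
  have one : ∀ {S : Type} [CommRing S] (κ : ℂ →+* S) (p : MvPolynomial (A × A) ℂ),
      evm κ 1 p = κ (evm (RingHom.id ℂ) 1 p) := fun κ p => by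
    rw [map_evm, Matrix.map_one _ (map_zero _) (map_one _), RingHom.comp_id]
  refine ⟨RingHom.ker (evm (ck k (R ⊗[k] R)) (Gi.map il * Gr.map ir)), RingHom.ker_isPrime _,
    fun p hp => ?_, fun p hp q N hq => ?_, fun n _ _ ρ hρ T B hT ode y b => ?_⟩
  · have a1 := congrArg μ (RingHom.mem_ker.1 hp)
    have a2 : μ.comp (ck k (R ⊗[k] R)) = ck k R :=
      RingHom.ext fun c => (Algebra.TensorProduct.lmul' k).commutes _
    have a3 : (Gi.map il * Gr.map ir).map μ = 1 := by
      rw [Matrix.map_mul, ← hi]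
      congr 1 <;> ext i j
      exacts [mul_one _, one_mul _]
    have : Nontrivial R := v.toRingHom.domain_nontrivial
    rw [map_evm, a2, a3, one, map_zero] at a1
    exact (map_eq_zero_iff _ (RingHom.injective _)).1 a1
  · have a1 := congrArg σ (RingHom.mem_ker.1 hp)
    have a2 : σ.comp (ck k (R ⊗[k] R)) = ck k (R ⊗[k] R) :=
      RingHom.ext fun c => (Algebra.TensorProduct.comm k R R).commutes _
    have a3 : (Gi.map il * Gr.map ir).map σ = Gi.map ir * Gr.map il := by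
      rw [Matrix.map_mul]
      rfl
    rw [map_evm, a2, a3, map_zero] at a1
    rw [RingHom.mem_ker, hq _ _ _ (Gi.map ir * Gr.map il), a1, mul_zero]
    rw [Matrix.mul_assoc, ← Matrix.mul_assoc (Gr.map il), ← Matrix.map_mul, mul_eq_one_comm.1 hi,
      Matrix.map_one _ (map_zero _) (map_one _), Matrix.one_mul, ← Matrix.map_mul, hi,
      Matrix.map_one _ (map_zero _) (map_one _)]
  · have a1 : (ρ.map (evm C G)).map constantCoeff = 1 := by
      rw [← hρ.one, ← h0]
      ext i j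
      exact (map_evm (constantCoeff (R := ℂ)) C G (ρ i j)).trans (by rw [constantCoeff_comp_C]; rfl)
    have a2 : (ρ.map (evm (ck k R) Gr)).map v = (ρ.map (evm C G)).map ι := by
      ext i j
      refine (map_evm v.toRingHom _ _ _).trans (Eq.trans ?_ (map_evm ι _ _ _).symm)
      rw [cv, ← hG]
      rfl
    have a3 : ρ.map (evm (ck k R) Gi) * ρ.map (evm (ck k R) Gr) = 1 := by
      rw [← hρ.mul, hi]
      ext i j
      rw [map_apply, one, show evm _ 1 (ρ i j) = _ from congrFun₂ hρ.one i j]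
      exact congrFun₂ (Matrix.map_one (ck k R) (map_zero _) (map_one _)) i j
    have a4 : ρ.map (evm (ck k (R ⊗[k] R)) (Gi.map il * Gr.map ir)) =
        (ρ.map (evm (ck k R) Gi)).map il * (ρ.map (evm (ck k R) Gr)).map ir := by
      rw [hρ.mul]
      congr 1 <;> ext i j
      · exact (map_evm il (ck k R) Gi (ρ i j)).symm
      · exact Eq.trans (by rw [cr]; rfl) (map_evm ir.toRingHom (ck k R) Gr (ρ i j)).symm
    have a5 : evm (ck k (R ⊗[k] R)) (Gi.map il * Gr.map ir)
        ((fun j => MvPolynomial.C (b j)) ⬝ᵥ (ρ *ᵥ fun j => MvPolynomial.C (y j))) =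
        (fun j => ck k (R ⊗[k] R) (b j)) ⬝ᵥ (((ρ.map (evm (ck k R) Gi)).map il *
          (ρ.map (evm (ck k R) Gr)).map ir) *ᵥ fun j => ck k (R ⊗[k] R) (y j)) := by
      rw [← a4]
      simp only [dotProduct, mulVec, map_sum, map_mul, evm_C, map_apply]
    rw [RingHom.mem_ker, a5]
    refine ⟨gal_lift hι hc hT a1 ode a2 a3 y b, ?_⟩
    rintro ⟨l, h1, h2⟩
    simpa only [h2] using gal_conv hι hv hc hT a1 ode a2 a3 y l h1

theorem gen_fld (k L : Type) [Field k] [Algebra (Polynomial ℂ) k] [IsFractionRing (Polynomial ℂ) k]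
    [Field L] [Algebra k L] [Algebra ℂ⟦X⟧ L] [IsFractionRing ℂ⟦X⟧ L] [Algebra (Polynomial ℂ) L]
    [IsScalarTower (Polynomial ℂ) k L] (hc : ∀ p : Polynomial ℂ, algebraMap ℂ⟦X⟧ L p = pk k L p)
    {G : Matrix A A ℂ⟦X⟧} (h0 : G.map constantCoeff = 1)
    (h : ∀ z u v : ℂ⟦X⟧, u ∈ Algebra.adjoin (Polynomial ℂ) (Set.range fun x : A × A => G x.1 x.2) →
      v ∈ Algebra.adjoin (Polynomial ℂ) (Set.range fun x : A × A => G x.1 x.2) → v ≠ 0 →
      z * v = u → IsIntegral (Polynomial ℂ) z → ∃ a b : Polynomial ℂ, b ≠ 0 ∧ b * z = a) :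
    ∃ I, Gen G I := by
  let ι : ℂ⟦X⟧ →+* L := algebraMap _ _
  have hι : Injective ι := IsFractionRing.injective _ _
  replace hc : ∀ p : Polynomial ℂ, ι p = pk k L p := hc
  have : CharZero k := RingHom.charZero_iff (ck k k).injective |>.1 inferInstance
  have e1 : ∀ p : Polynomial ℂ, algebraMap _ ℂ⟦X⟧ p = p := fun p => by
    rw [PowerSeries.algebraMap_apply', Algebra.algebraMap_self, PowerSeries.map_id]
    rfl
  have e2 : ∀ p : Polynomial ℂ, algebraMap _ L p = ι p := fun p =>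
    (IsScalarTower.algebraMap_apply _ k _ p).trans (hc p).symm
  have : IsScalarTower (Polynomial ℂ) ℂ⟦X⟧ L :=
    IsScalarTower.of_algebraMap_eq fun p => by rw [e2, e1]
  let S := Algebra.adjoin (Polynomial ℂ) (Set.range fun x : A × A => G x.1 x.2)
  let E := IntermediateField.adjoin k (Set.range fun x : A × A => ι (G x.1 x.2))
  have a1 : ∀ r ∈ Algebra.adjoin k (Set.range fun x : A × A => ι (G x.1 x.2)),
      ∃ d : Polynomial ℂ, d ≠ 0 ∧ ∃ u ∈ S, ι u = ι d * r := fun r hr => by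
    have m : ∀ p : Polynomial ℂ, (p : ℂ⟦X⟧) ∈ S := fun p => e1 p ▸ S.algebraMap_mem p
    induction hr using Algebra.adjoin_induction with
    | mem x hx =>
      obtain ⟨x, rfl⟩ := hx
      exact ⟨1, one_ne_zero, _, Algebra.subset_adjoin ⟨x, rfl⟩, by simp⟩
    | algebraMap r =>
      obtain ⟨a, d, hd, rfl⟩ := IsFractionRing.div_surjective (A := Polynomial ℂ) r
      refine ⟨d, nonZeroDivisors.ne_zero hd, a, m _, ?_⟩
      rw [hc, hc, pk, RingHom.comp_apply, RingHom.comp_apply, ← map_mul,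
        mul_div_cancel₀ _ (IsFractionRing.to_map_ne_zero_of_mem_nonZeroDivisors hd)]
    | add x y _ _ hx hy =>
      obtain ⟨d, d0, u, hu, e⟩ := hx
      obtain ⟨d', d0', u', hu', e'⟩ := hy
      refine ⟨d * d', mul_ne_zero d0 d0', d' * u + d * u',
        add_mem (mul_mem (m _) hu) (mul_mem (m _) hu'), ?_⟩
      simp only [map_add, map_mul, e, e', Polynomial.coe_mul]
      ring
    | mul x y _ _ hx hy =>
      obtain ⟨d, d0, u, hu, e⟩ := hx
      obtain ⟨d', d0', u', hu', e'⟩ := hy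
      refine ⟨d * d', mul_ne_zero d0 d0', u * u', mul_mem hu hu', ?_⟩
      simp only [map_mul, e, e', Polynomial.coe_mul]
      ring
  have n0 : ∀ d : Polynomial ℂ, d ≠ 0 → ι d ≠ 0 := fun d d0 =>
    (map_ne_zero_iff ι hι).2 (mt Polynomial.coe_eq_zero_iff.1 d0)
  have : IsDomain (E ⊗[k] E) := reg_field (L := E) (fun z hz => by
    obtain ⟨r, hr, s, hs, e⟩ := IntermediateField.mem_adjoin_iff_div.1 z.2
    by_cases s0 : s = 0
    · exact ⟨0, Subtype.ext (by rw [e, s0, div_zero, map_zero]; rfl)⟩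
    obtain ⟨d, d0, u, hu, e3⟩ := a1 r hr
    obtain ⟨d', d0', u', hu', e4⟩ := a1 s hs
    obtain ⟨y, y0, hy⟩ := ((IsFractionRing.isAlgebraic_iff (Polynomial ℂ) k L).2
      (hz.map E.val).isAlgebraic).exists_integral_multiple
    obtain ⟨w, hw⟩ := IsIntegrallyClosed.isIntegral_iff.1 (hy.tower_top (A := ℂ⟦X⟧))
    have m : ∀ p : Polynomial ℂ, (p : ℂ⟦X⟧) ∈ S := fun p => e1 p ▸ S.algebraMap_mem p
    rw [← hw, isIntegral_algebraMap_iff hι] at hy
    rw [Algebra.smul_def, e2] at hw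
    change ι w = ι y * z at hw
    obtain ⟨p, b, b0, hp⟩ := h w (y * d' * u) (d * u') (mul_mem (mul_mem (m _) (m _)) hu)
      (mul_mem (m _) hu') (fun e5 => by
        have := congrArg ι e5
        rw [map_mul, e4, map_zero] at this
        exact mul_ne_zero (n0 d d0) (mul_ne_zero (n0 d' d0') s0) this)
      (hι (by
        simp only [map_mul, hw, e, e3, e4]
        field_simp)) hy
    refine ⟨algebraMap _ _ p / algebraMap _ _ (b * y), Subtype.ext ?_⟩
    change algebraMap k L _ = _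
    rw [map_div₀]
    change pk k L p / pk k L (b * y) = _
    rw [← hc, ← hc, div_eq_iff (n0 _ (mul_ne_zero b0 y0)), ← hp, Polynomial.coe_mul, map_mul,
      map_mul, hw]
    ring) E
  let Gr : Matrix A A E := of fun i j =>
    ⟨ι (G i j), IntermediateField.subset_adjoin _ _ ⟨(i, j), rfl⟩⟩
  refine gen_abs (v := E.val) hι Subtype.val_injective hc h0 (Gr := Gr) rfl
    (nonsing_inv_mul _ (Ne.isUnit fun e => ?_))
  have b1 := E.val.toRingHom.map_det Gr
  have b2 := (constantCoeff (R := ℂ)).map_det G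
  rw [e, map_zero] at b1
  rw [hι ((ι.map_det G).trans (b1.symm.trans (map_zero ι).symm)), map_zero,
    RingHom.mapMatrix_apply, h0, det_one] at b2
  exact zero_ne_one b2

open scoped RatFunc LaurentSeries in
theorem gen_of {G : Matrix A A ℂ⟦X⟧} (h0 : G.map constantCoeff = 1)
    (h : ∀ z u v : ℂ⟦X⟧, u ∈ Algebra.adjoin (Polynomial ℂ) (Set.range fun x : A × A => G x.1 x.2) →
      v ∈ Algebra.adjoin (Polynomial ℂ) (Set.range fun x : A × A => G x.1 x.2) → v ≠ 0 →
      z * v = u → IsIntegral (Polynomial ℂ) z → ∃ a b : Polynomial ℂ, b ≠ 0 ∧ b * z = a) :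
    ∃ I, Gen G I :=
  gen_fld (RatFunc ℂ) ℂ⸨X⸩ (fun p => RatFunc.coe_coe p) h0 h

end

end Pool.Agent.Lib.MP_5591bc_ag.V
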