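import Pool.Agent.Lib.MP_5591bc_ag.V.Rep
import Pool.Agent.Lib.MP_5591bc_ag.V.GalB

/-! The differential Galois group at an ordinary point. -/

namespace Pool.Agent.Lib.MP_5591bc_ag.V

open Matrix Finset Filter Topology PowerSeries G R Function

noncomputable section

variable {A : Type*} [Fintype A] [DecidableEq A]

/-- the generic matrix -/
def Xm (A : Type*) : Matrix A A (MvPolynomial (A × A) ℂ) := of fun i j => MvPolynomial.X (i, j)

omit [Fintype A] [DecidableEq A] in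
theorem Xm_map {S : Type*} [CommRing S] (κ : ℂ →+* S) (X : Matrix A A S) :
    (Xm A).map (evm κ X) = X := Matrix.ext fun i j => evm_X κ X (i, j)

theorem rep_X : IsRep (Xm A) := ⟨Xm_map _ _, fun _ _ _ _ _ => by simp only [Xm_map]⟩

theorem rep_exg : IsRep (exg 1 (Xm A)) :=
  ⟨by rw [exg_map _ (map_zero _), map_one, Xm_map, exg_one], fun _ _ _ _ _ => by
    simp only [exg_map _ (map_zero _), map_one, Xm_map, exg_mul, mul_one]⟩

theorem IsRep.piM {n : Type*} [Fintype n] [DecidableEq n] {ρ : Matrix n n (MvPolynomial (A × A) ℂ)}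
    (h : IsRep ρ) (L : Type) [Fintype L] [DecidableEq L] : IsRep (piM fun _ : L => ρ) :=
  ⟨by rw [piM_map, h.one, piM_one], fun _ _ _ _ _ => by simp only [piM_map, h.mul, piM_mul]⟩

theorem gal_piM {L α : Type*} [Fintype L] [DecidableEq L] [Fintype α] [DecidableEq α] {a : ℂ⟦X⟧}
    {B M : Matrix α α ℂ⟦X⟧} (h : a • M.map (d⁄dX ℂ) = B * M) :
    a • (piM fun _ : L => M).map (d⁄dX ℂ) = tB L B * piM fun _ => M := by
  have hp : ∀ (g : L → ℂ⟦X⟧) (s : Finset L), d⁄dX ℂ (∏ l ∈ s, g l) =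
      ∑ l ∈ s, (∏ j ∈ s.erase l, g j) * d⁄dX ℂ (g l) := fun g s => by
    induction s using Finset.induction_on with
    | empty => simp
    | insert x s hx ih =>
      rw [prod_insert hx, sum_insert hx, Derivation.leibniz, ih, erase_insert hx, smul_eq_mul,
        smul_eq_mul, add_comm, mul_sum]
      refine congrArg _ (sum_congr rfl fun l hl => ?_)
      rw [erase_insert_of_ne (ne_of_mem_of_not_mem hl hx).symm,
        prod_insert fun h => hx (mem_of_mem_erase h), mul_assoc]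
  rw [tB, Finset.sum_mul]
  simp only [piM_mul]
  ext1 μ μ'
  simp only [Matrix.smul_apply, map_apply, piM, of_apply, hp, smul_eq_mul, mul_sum, Matrix.sum_apply]
  refine sum_congr rfl fun l _ => ?_
  rw [← prod_erase_mul _ _ (mem_univ l), update_self, ← h, mul_left_comm]
  exact congrArg₂ _ (prod_congr rfl fun j hj => by simp [ne_of_mem_erase hj]) rfl

variable {G : Matrix A A ℂ⟦X⟧} {I : Ideal (MvPolynomial (A × A) ℂ)}

/-- complex points -/
def pts (I : Ideal (MvPolynomial (A × A) ℂ)) : Set (Matrix A A ℂ) :=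
  {γ | ∀ p ∈ I, evm (RingHom.id ℂ) γ p = 0}

theorem Gen.mem_iff (h : Gen G I) {p : MvPolynomial (A × A) ℂ} :
    p ∈ I ↔ ∀ γ ∈ pts I, evm (RingHom.id ℂ) γ p = 0 := by
  refine ⟨fun hp γ hγ => hγ p hp, fun hp => ?_⟩
  rw [← h.prime.radical, ← MvPolynomial.vanishingIdeal_zeroLocus_eq_radical (K := ℂ),
    MvPolynomial.mem_vanishingIdeal_iff]
  exact fun x hx => hp (of fun i j => x (i, j)) hx

theorem Gen.irr (h : Gen G I) {p q : MvPolynomial (A × A) ℂ}
    (e : ∀ γ ∈ pts I, evm (RingHom.id ℂ) γ p * evm (RingHom.id ℂ) γ q = 0) :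
    (∀ γ ∈ pts I, evm (RingHom.id ℂ) γ p = 0) ∨ ∀ γ ∈ pts I, evm (RingHom.id ℂ) γ q = 0 := by
  simp only [← h.mem_iff]
  exact h.prime.mem_or_mem (h.mem_iff.2 fun γ hγ => (map_mul _ _ _).trans (e γ hγ))

variable {T : Polynomial ℂ} {B : Matrix A A (Polynomial ℂ)}

theorem gal_tens {L S : Type*} [Fintype L] [DecidableEq L] [CommRing S] (κ : ℂ →+* S)
    (Y : Matrix A A S) : (piM fun _ : L => exg 1 Y) *ᵥ
      (fun j => κ (tens (fun _ => hatg (1 : Matrix A A ℂ)) j)) = tens fun _ => hatg Y := by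
  rw [show (fun j => κ (tens (fun _ : L => hatg (1 : Matrix A A ℂ)) j)) =
    tens fun _ => hatg 1 from funext fun j => by
      simp only [tens, map_prod]
      exact prod_congr rfl fun l _ => by cases j l <;> simp [hatg, one_apply],
    piM_mulVec, exg_mulVec, Matrix.mul_one]

theorem Gen.mon (h : Gen G I) (hT : T.eval 0 ≠ 0)
    (ode : (T : ℂ⟦X⟧) • G.map (d⁄dX ℂ) = B.map (fun p => (p : ℂ⟦X⟧)) * G) {L : Type} [Fintype L]
    [DecidableEq L] (b : (L → Option (A × A)) → ℂ) :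
    (∀ γ ∈ pts I, b ⬝ᵥ (tens fun _ => hatg γ) = 0) ↔
      ∃ l ∈ Rel (tens fun _ : L => hatg G), ∀ j, (l j).eval 0 = b j := by
  have e2 : (piM fun _ : L => exg 1 (Xm A)).map (evm C G) = piM fun _ => exg 1 G := by
    rw [piM_map, exg_map _ (map_zero _), map_one, Xm_map]
  have e3 : (tB L (exg 0 B)).map (fun p => (p : ℂ⟦X⟧)) =
      tB L (exg 0 (B.map fun p => (p : ℂ⟦X⟧))) :=
    (tB_map Polynomial.coeToPowerSeries.ringHom (exg 0 B)).trans (congrArg (tB L)
      ((exg_map _ (map_zero _) 0 B).trans (congrArg (exg · _) (map_zero _))))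
  have := h.rep _ _ (rep_exg.piM L) T (tB L (exg 0 B)) hT (by
    rw [e2, e3]
    refine gal_piM ?_
    rw [exg_map _ (map_zero _), exg_smul, exg_mul, ode]
    simp) (tens fun _ => hatg 1) b
  rw [e2, gal_tens, gal_tens, h.mem_iff] at this
  refine Iff.trans (forall₂_congr fun γ _ => Eq.congr_left ?_) this
  simp only [dotProduct, map_sum, map_mul, evm_C, RingHom.id_apply, tens, map_prod]
  refine sum_congr rfl fun j _ => congrArg _ (prod_congr rfl fun l _ => ?_)
  cases j l <;> simp [hatg, Xm, evm_X]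

omit [DecidableEq A] in
theorem gal_ev {S : Type*} [CommRing S] (κ : ℂ →+* S) (X : Matrix A A S) (b y : A → ℂ) :
    evm κ X ((fun j => MvPolynomial.C (b j)) ⬝ᵥ (Xm A *ᵥ fun j => MvPolynomial.C (y j))) =
      (fun j => κ (b j)) ⬝ᵥ (X *ᵥ fun j => κ (y j)) := by
  simp only [dotProduct, mulVec, map_sum, map_mul, evm_C, Xm, of_apply, evm_X]

theorem gal_det {S : Type*} [CommRing S] (κ : ℂ →+* S) (X : Matrix A A S) :
    evm κ X (Xm A).det = X.det := ((evm κ X).map_det _).trans (congrArg det (Xm_map κ X))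

theorem gal_inv (p : MvPolynomial (A × A) ℂ) : ∃ (q : MvPolynomial (A × A) ℂ) (N : ℕ),
    ∀ (S : Type) [CommRing S] (κ : ℂ →+* S) (X X' : Matrix A A S), X' * X = 1 →
      evm κ X q = X.det ^ N * evm κ X' p := by
  induction p using MvPolynomial.induction_on with
  | C a => exact ⟨MvPolynomial.C a, 0, fun S _ κ X X' _ => by simp [evm_C]⟩
  | add p p' hp hp' =>
    obtain ⟨q, N, h⟩ := hp
    obtain ⟨q', N', h'⟩ := hp'
    refine ⟨(Xm A).det ^ N' * q + (Xm A).det ^ N * q', N + N', fun S _ κ X X' e => ?_⟩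
    simp only [map_add, map_mul, map_pow, gal_det, h S κ X X' e, h' S κ X X' e]
    ring
  | mul_X p a hp =>
    obtain ⟨q, N, h⟩ := hp
    refine ⟨q * (Xm A).adjugate a.1 a.2, N + 1, fun S _ κ X X' e => ?_⟩
    have e1 : evm κ X ((Xm A).adjugate a.1 a.2) = X.adjugate a.1 a.2 :=
      congrFun₂ (((evm κ X).map_adjugate _).trans (congrArg adjugate (Xm_map κ X))) a.1 a.2
    have e2 : X.adjugate = X.det • X' := by
      rw [← Matrix.one_mul X.adjugate, ← e, Matrix.mul_assoc, mul_adjugate, Matrix.mul_smul,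
        Matrix.mul_one]
    rw [map_mul, map_mul, h S κ X X' e, e1, e2, evm_X, Matrix.smul_apply, smul_eq_mul]
    ring

theorem Gen.unit (h : Gen G I) {p : MvPolynomial (A × A) ℂ}
    (hp : ∀ γ ∈ pts I, IsUnit γ.det → evm (RingHom.id ℂ) γ p = 0) : p ∈ I := by
  refine (h.prime.mem_or_mem (x := (Xm A).det) (h.mem_iff.2 fun γ hγ => ?_)).resolve_left fun e => ?_
  · rw [map_mul, gal_det]
    by_cases e : γ.det = 0
    · rw [e, zero_mul]
    · rw [hp γ hγ (Ne.isUnit e), mul_zero]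
  · have := h.one _ e
    rw [gal_det, det_one] at this
    exact one_ne_zero this

theorem gal_τc (x : ℂ) (p : Polynomial ℂ) : τc x (Polynomial.taylor (-x) p) = p := by
  change ((Polynomial.taylor x (Polynomial.taylor (-x) p) : Polynomial ℂ) : ℂ⟦X⟧) = p
  rw [Polynomial.taylor_taylor, add_neg_cancel, Polynomial.taylor_zero]

theorem exists_orb {T : Polynomial ℂ} {B : Matrix A A (Polynomial ℂ)} {x : ℂ}
    {G : Matrix A A ℂ⟦X⟧} (hT : T.eval x ≠ 0) (h1 : G.map constantCoeff = 1)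
    (ode : τc x T • G.map (d⁄dX ℂ) = B.map (τc x) * G) (hc : ConnS x (Set.range (evG x G))) :
    ∃ Γ, Orb x G Γ := by
  have e1 : ∀ p : Polynomial ℂ, algebraMap _ ℂ⟦X⟧ p = p := fun p => by
    rw [PowerSeries.algebraMap_apply', Algebra.algebraMap_self, PowerSeries.map_id]
    rfl
  have a1 : ∀ u ∈ Algebra.adjoin (Polynomial ℂ) (Set.range fun a : A × A => G a.1 a.2),
      u ∈ Set.range (evG x G) := fun u hu => by
    induction hu using Algebra.adjoin_induction with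
    | mem y hy =>
      obtain ⟨a, rfl⟩ := hy
      exact ⟨MvPolynomial.X a, MvPolynomial.eval₂Hom_X' _ _ _⟩
    | algebraMap r => exact ⟨MvPolynomial.C (Polynomial.taylor (-x) r),
        (MvPolynomial.eval₂Hom_C _ _ _).trans ((gal_τc x r).trans (e1 r).symm)⟩
    | add y z _ _ hy hz => exact (evG x G).range.add_mem hy hz
    | mul y z _ _ hy hz => exact (evG x G).range.mul_mem hy hz
  obtain ⟨I, h⟩ := gen_of h1 fun z u v hu hv v0 e ⟨P, hP, hz⟩ => by
    obtain ⟨a, b, b0, hb⟩ := hc u (a1 u hu) v (a1 v hv) P.natDegree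
      (fun j => Polynomial.taylor (-x) (P.coeff j)) v0 ⟨_, le_rfl, by
        rw [hP.coeff_natDegree, Polynomial.taylor_one, Polynomial.C_1]; exact one_ne_zero⟩ (by
        rw [Polynomial.eval₂_eq_sum_range] at hz
        rw [← zero_mul (v ^ P.natDegree), ← hz, sum_mul]
        refine sum_congr rfl fun j hj => ?_
        rw [gal_τc, e1, ← e, mul_pow, mul_assoc, mul_assoc, mul_assoc, ← pow_add,
          Nat.add_sub_cancel' (Nat.lt_succ_iff.1 (mem_range.1 hj))])
    refine ⟨Polynomial.taylor x a, Polynomial.taylor x b, by simpa using b0, ?_⟩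
    rw [← e, ← mul_assoc] at hb
    exact mul_right_cancel₀ v0 hb
  have hT' : (Polynomial.taylor x T).eval 0 ≠ 0 := by rwa [Polynomial.taylor_eval, zero_add]
  have ode' : ((Polynomial.taylor x T : Polynomial ℂ) : ℂ⟦X⟧) • G.map (d⁄dX ℂ) =
      (B.map (Polynomial.taylor x)).map (fun p => (p : ℂ⟦X⟧)) * G := ode
  have back : ∀ {n : Type _} [Fintype n] {y : n → ℂ⟦X⟧} {b : n → ℂ},
      (∃ l ∈ Rel y, ∀ j, (l j).eval 0 = b j) → ∃ l : n → Polynomial ℂ,
        (∀ j, (l j).eval x = b j) ∧ (fun j => τc x (l j)) ⬝ᵥ y = 0 := fun ⟨l, h2, h3⟩ =>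
    ⟨fun j => Polynomial.taylor (-x) (l j), fun j => by
      rw [Polynomial.taylor_eval, add_neg_cancel, h3], by simp only [gal_τc]; exact h2⟩
  refine ⟨{γ | γ ∈ pts I ∧ IsUnit γ.det}, ⟨h.one, by simp⟩, fun γ hγ => hγ.2,
    fun γ hγ => ⟨fun p hp => ?_, isUnit_nonsing_inv_det _ hγ.2⟩, fun p q hp hq => ?_,
    fun Q hQ γ hγ => ?_, fun k b hb => back ((h.mon hT' ode' b).1 fun γ hγ => ?_),
    fun φ b hb => ?_⟩
  · obtain ⟨q, N, hq⟩ := gal_inv p
    have := hγ.1 q (h.swap p hp q N hq)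
    rw [hq _ _ _ _ (nonsing_inv_mul _ hγ.2)] at this
    exact (mul_eq_zero.1 this).resolve_left (pow_ne_zero _ hγ.2.ne_zero)
  · by_contra hn
    rcases h.prime.mem_or_mem (h.unit (p := p * q) fun γ h2 h3 => by_contra fun e =>
      hn ⟨γ, ⟨h2, h3⟩, mul_ne_zero_iff.1 (by rwa [map_mul] at e)⟩) with e | e
    · obtain ⟨γ, h2, h3⟩ := hp
      exact h3 (h2.1 p e)
    · obtain ⟨γ, h2, h3⟩ := hq
      exact h3 (h2.1 q e)
  · obtain ⟨κ, hκ⟩ := rep (p := Q) le_rfl
    rw [hκ] at hQ ⊢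
    refine (rep_eval κ _ γ).trans ?_
    exact (h.mon hT' ode' _).2 ⟨fun μ => Polynomial.taylor x (κ μ),
      (rep_eval κ (τc x) G).symm.trans hQ, fun μ => by
        rw [Polynomial.taylor_eval, zero_add]; rfl⟩ γ hγ.1
  · have e : ∀ γ : Matrix A A ℂ, evm (RingHom.id ℂ) γ ((fun μ => MvPolynomial.C (b μ)) ⬝ᵥ
        vk k (Xm A)) = b ⬝ᵥ vk k γ := fun γ => rep_eval b (RingHom.id ℂ) γ
    exact (e γ).symm.trans (hγ _ (h.unit fun γ h2 h3 => (e γ).trans (hb γ ⟨h2, h3⟩)))
  · have := h.rep _ _ rep_X _ _ hT' (by rwa [Xm_map]) φ b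
    rw [Xm_map] at this
    exact back (this.1 (h.unit fun γ h2 h3 => (gal_ev _ _ _ _).trans (hb γ ⟨h2, h3⟩)))

end

end Pool.Agent.Lib.MP_5591bc_ag.V
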