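import Pool.Agent.Lib.MP_5591bc_ag.V.Uni

/-! Analytic and formal connectedness. -/

namespace Pool.Agent.Lib.MP_5591bc_ag.V

open Matrix Finset Filter Topology PowerSeries G R Function

noncomputable section

variable {ν ν' : Type*} [Fintype ν] [DecidableEq ν]

omit [Fintype ν] [DecidableEq ν] in
theorem brg_val {P : ℂ → Matrix ν ν ℂ} {x : ℂ} (hP : ∀ i j, AnalyticAt ℂ (P · i j) x)
    (q : MvPolynomial (ν × ν) (Polynomial ℂ)) :
    AnalyticAt ℂ (val P q) x ∧ tay (val P q) x = evG x (of fun i j => tay (P · i j) x) q := by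
  induction q using MvPolynomial.induction_on with
  | C p =>
    have : val P (MvPolynomial.C p) = fun t => p.eval t := by ext t; simp [val]
    rw [this, tay_eval]
    exact ⟨p.differentiable.analyticAt x, by simp [evG]⟩
  | add p q hp hq =>
    have : val P (p + q) = fun t => val P p t + val P q t := by ext t; simp [val]
    rw [this, tay_add hp.1 hq.1, hp.2, hq.2, map_add]
    exact ⟨hp.1.fun_add hq.1, rfl⟩
  | mul_X p a hp =>
    have : val P (p * MvPolynomial.X a) = fun t => val P p t * P t a.1 a.2 := by ext t; simp [val]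
    rw [this, tay_mul hp.1 (hP _ _), hp.2, map_mul]
    exact ⟨hp.1.fun_mul (hP _ _), by simp [evG]⟩

/-- the identity theorem -/
theorem brg_zero {U : Set ℂ} (hc : IsPreconnected U) {g : ℂ → ℂ} (hg : AnalyticOnNhd ℂ g U)
    {x : ℂ} (hx : x ∈ U) (hn : U ∈ 𝓝 x) : (∀ t ∈ U, g t = 0) ↔ tay g x = 0 :=
  ⟨fun h => ((tay_congr (h := fun _ => 0) (mem_of_superset hn h)).trans (tay_const 0)).trans (map_zero _),
    fun h => hg.eqOn_zero_of_preconnected_of_eventuallyEq_zero hc hx (eventually_zero_of_tay (hg x hx) h)⟩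

theorem ConnS.mono {x : ℂ} {𝒜 ℬ : Set ℂ⟦X⟧} (h : ConnS x ℬ) (hs : 𝒜 ⊆ ℬ) : ConnS x 𝒜 := by
  exact fun u hu v hv => h u (hs hu) v (hs hv)

omit [Fintype ν] [DecidableEq ν] in
theorem range_evG {x : ℂ} {G : Matrix ν ν ℂ⟦X⟧} {G' : Matrix ν' ν' ℂ⟦X⟧}
    (h : ∀ i j, G' i j ∈ (evG x G).range) : Set.range (evG x G') ⊆ Set.range (evG x G) := by
  rintro _ ⟨q, rfl⟩
  change evG x G' q ∈ (evG x G).range
  induction q using MvPolynomial.induction_on with
  | C p => exact ⟨MvPolynomial.C p, by simp [evG]⟩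
  | add p q hp hq => exact map_add (evG x G') p q ▸ add_mem hp hq
  | mul_X p a hp =>
    rw [map_mul]
    exact mul_mem hp (by simpa [evG] using h a.1 a.2)

omit [Fintype ν] [DecidableEq ν] in
theorem conn_iff {U : Set ℂ} (ho : IsOpen U) (hc : IsPreconnected U) {P : ℂ → Matrix ν ν ℂ}
    (hP : Hol U P) {x : ℂ} (hx : x ∈ U) :
    Conn U P ↔ ConnS x (Set.range (evG x (of fun i j => tay (P · i j) x))) := by
  have a1 : ∀ t ∈ U, ∀ i j, AnalyticAt ℂ (P · i j) t := fun t ht i j =>
    (hP i j).analyticAt (ho.mem_nhds ht)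
  have K : ∀ q, (∀ t ∈ U, val P q t = 0) ↔ evG x (of fun i j => tay (P · i j) x) q = 0 := fun q => by
    rw [brg_zero hc (fun t ht => (brg_val (a1 t ht) q).1) hx (ho.mem_nhds hx), (brg_val (a1 x hx) q).2]
  have K1 : ∀ u v, ∀ (n : ℕ) (p : ℕ → Polynomial ℂ),
      (∀ t ∈ U, ∑ j ∈ range (n + 1), (p j).eval t * val P u t ^ j * val P v t ^ (n - j) = 0) ↔
      ∑ j ∈ range (n + 1), τc x (p j) * evG x (of fun i j => tay (P · i j) x) u ^ j *
        evG x (of fun i j => tay (P · i j) x) v ^ (n - j) = 0 := fun u v n p => by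
    have := K (∑ j ∈ range (n + 1), MvPolynomial.C (p j) * u ^ j * v ^ (n - j))
    simp only [map_sum, map_mul, map_pow] at this
    simpa [val, evG, MvPolynomial.eval₂_sum] using this
  have K2 : ∀ u v, ∀ a b : Polynomial ℂ, (∀ t ∈ U, b.eval t * val P u t = a.eval t * val P v t) ↔
      τc x b * evG x (of fun i j => tay (P · i j) x) u =
        τc x a * evG x (of fun i j => tay (P · i j) x) v := fun u v a b => by
    have := K (MvPolynomial.C b * u - MvPolynomial.C a * v)
    simp only [map_sub, map_mul] at this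
    simpa [val, evG, sub_eq_zero] using this
  constructor
  · rintro h _ ⟨u, rfl⟩ _ ⟨v, rfl⟩ n p hv hp e
    obtain ⟨a, b, hb, r⟩ := h u v n p (by
      by_contra c
      exact hv ((K v).1 fun t ht => by_contra fun d => c ⟨t, ht, d⟩)) hp ((K1 u v n p).2 e)
    exact ⟨a, b, hb, (K2 u v a b).1 r⟩
  · rintro h u v n p ⟨t, ht, hv⟩ hp e
    obtain ⟨a, b, hb, r⟩ := h _ ⟨u, rfl⟩ _ ⟨v, rfl⟩ n p (fun c => hv ((K v).2 c t ht)) hp
      ((K1 u v n p).1 e)
    exact ⟨a, b, hb, (K2 u v a b).2 r⟩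

omit [Fintype ν] [DecidableEq ν] in
theorem Conn.shift {U : Set ℂ} {P : ℂ → Matrix ν ν ℂ} (h : Conn U P) (s : ℂ) :
    Conn {z | z + s ∈ U} fun z => P (z + s) := by
  have K : ∀ q t, val P (MvPolynomial.map (Polynomial.taylorAlgHom (-s)).toRingHom q) t =
      val (fun z => P (z + s)) q (t - s) := fun q t => by
    rw [val, val, MvPolynomial.eval₂_map, sub_add_cancel]
    congr 1
    ext1
    · ext; simp
    · simp [sub_eq_add_neg]
  rintro u v n p ⟨t, ht, hv⟩ ⟨j, hj, hp⟩ e
  obtain ⟨a, b, hb, r⟩ := h (MvPolynomial.map (Polynomial.taylorAlgHom (-s)).toRingHom u)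
    (MvPolynomial.map (Polynomial.taylorAlgHom (-s)).toRingHom v) n
    (fun j => Polynomial.taylor (-s) (p j)) ⟨t + s, ht, by rwa [K, add_sub_cancel_right]⟩
    ⟨j, hj, fun c => hp (Polynomial.taylor_injective (-s) (c.trans (map_zero _).symm))⟩ fun z hz => by
      simp only [K, Polynomial.taylor_eval, ← sub_eq_add_neg]
      exact e (z - s) (by simpa using hz)
  refine ⟨Polynomial.taylor s a, Polynomial.taylor s b,
    fun c => hb (Polynomial.taylor_injective s (c.trans (map_zero _).symm)), fun z hz => ?_⟩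
  have := r (z + s) hz
  rwa [K, K, add_sub_cancel_right, ← Polynomial.taylor_eval, ← Polynomial.taylor_eval] at this

/-- the relations at the origin and at `x` are the same -/
theorem back_of {α : Type*} [Fintype α] {f : α → ℚ⟦X⟧} {ψ : ℂ → α → ℂ} {R : ℝ}
    (hψ : ∀ a, DifferentiableOn ℂ (ψ · a) (Metric.ball 0 R)) (hf : ∀ a, mp (f a) = tay (ψ · a) 0)
    {x : ℂ} (hx : x ∈ Metric.ball (0 : ℂ) R) (l : α → Polynomial ℂ) :
    (fun a => τc x (l a)) ⬝ᵥ (fun a => tay (ψ · a) x) = 0 ↔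
      (fun a => (l a : ℂ⟦X⟧)) ⬝ᵥ (fun a => mp (f a)) = 0 := by
  have a1 : ∀ t ∈ Metric.ball (0 : ℂ) R, ∀ a, AnalyticAt ℂ (fun z => (l a).eval z * ψ z a) t :=
    fun t ht a => ((l a).differentiable.analyticAt t).fun_mul
      ((hψ a).analyticAt (Metric.isOpen_ball.mem_nhds ht))
  have K : ∀ t ∈ Metric.ball (0 : ℂ) R, ((∀ z ∈ Metric.ball (0 : ℂ) R, ∑ a, (l a).eval z * ψ z a = 0) ↔
      (fun a => τc t (l a)) ⬝ᵥ (fun a => tay (ψ · a) t) = 0) := fun t ht => by
    rw [brg_zero (convex_ball 0 R).isPreconnected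
      (fun z hz => Finset.analyticAt_fun_sum _ fun a _ => a1 z hz a) ht (Metric.isOpen_ball.mem_nhds ht),
      tay_sum _ fun a _ => a1 t ht a, dotProduct]
    refine Eq.congr_left (sum_congr rfl fun a _ => ?_)
    rw [tay_mul ((l a).differentiable.analyticAt t) ((hψ a).analyticAt (Metric.isOpen_ball.mem_nhds ht)),
      tay_eval]
  rw [← K x hx, K 0 (Metric.mem_ball_self (Metric.pos_of_mem_ball hx))]
  simp [hf, τc]

theorem conn_uni {T : Polynomial ℚ} {B : Matrix ν ν (Polynomial ℚ)} (T0 : T ≠ 0)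
    (h : ∀ a : ℂ, Polynomial.aeval a T = 0 → Polynomial.aeval a T.derivative ≠ 0 ∧
      IsNilpotent (B.map (Polynomial.aeval a))) {U : Set ℂ} (ho : IsOpen U) (hc : IsPreconnected U)
    {P : ℂ → Matrix ν ν ℂ} (hP : FundK T B U P) : Conn U P := by
  rcases U.eq_empty_or_nonempty with rfl | ⟨s, hs⟩
  · rintro u v n p ⟨t, ht, -⟩
    exact ht.elim
  have T1 : T.map (algebraMap ℚ ℂ) ≠ 0 := (Polynomial.map_ne_zero_iff (algebraMap ℚ ℂ).injective).2 T0
  obtain ⟨x, hx, hT⟩ := (infinite_of_mem_nhds s (ho.mem_nhds hs)).exists_notMem_finite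
    (Polynomial.finite_setOfPred_isRoot T1)
  have hol : Hol U P := fun i j t ht => ((hP t ht).2 i j).1.differentiableWithinAt
  have a1 : ∀ i j, AnalyticAt ℂ (P · i j) x := fun i j => (hol i j).analyticAt (ho.mem_nhds hx)
  refine (conn_iff ho hc hol hx).2 (uni (T := T.map (algebraMap ℚ ℂ))
    (B := B.map (Polynomial.map (algebraMap ℚ ℂ))) (fun a ha => ?_) hT ?_)
  · have := h a (by rwa [Polynomial.eval_map_algebraMap] at ha)
    rw [Polynomial.derivative_map, Polynomial.eval_map_algebraMap, Matrix.map_map]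
    simpa only [comp_def, Polynomial.eval_map_algebraMap] using this
  · ext1 i j
    have := tay_congr (p := x) (g := fun t => (T.map (algebraMap ℚ ℂ)).eval t * deriv (P · i j) t)
      (h := fun t => ∑ k, ((B i k).map (algebraMap ℚ ℂ)).eval t * P t k j)
      ((ho.eventually_mem hx).mono fun t ht => by
        simpa only [Polynomial.eval_map_algebraMap] using ((hP t ht).2 i j).2)
    rw [tay_mul (Polynomial.differentiable _ |>.analyticAt x) (a1 i j).deriv, tay_deriv, tay_eval,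
      tay_sum _ fun k _ => (Polynomial.differentiable _ |>.analyticAt x).fun_mul (a1 k j)] at this
    simp only [Matrix.smul_apply, Matrix.map_apply, of_apply, smul_eq_mul, Matrix.mul_apply]
    refine this.trans (sum_congr rfl fun k _ => ?_)
    rw [tay_mul (Polynomial.differentiable _ |>.analyticAt x) (a1 k j), tay_eval]

end

end Pool.Agent.Lib.MP_5591bc_ag.V
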