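import Pool.Agent.Lib.MP_5591bc_ag.V.Rep

/-! Monomial bases on the Galois group. -/

namespace Pool.Agent.Lib.MP_5591bc_ag.V

open Matrix Finset Filter Topology PowerSeries G R Function

noncomputable section

variable {A : Type*} [Fintype A] [DecidableEq A]

theorem bas_spec {x : ℚ} {G : Matrix A A ℚ⟦X⟧} {Γ : Set (Matrix A A ℂ)}
    (h : Orb x (G.map mp) Γ) {k : ℕ} {l : Mo A k → Polynomial ℚ}
    (hl : (fun μ => τ1 x (l μ)) ⬝ᵥ vk k G = 0) {γ : Matrix A A ℂ} (hγ : γ ∈ Γ) :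
    (fun μ => (((l μ).eval x : ℚ) : ℂ)) ⬝ᵥ vk k γ = 0 := by
  have h1 := h.spec ((fun μ => MvPolynomial.C ((l μ).map (algebraMap ℚ ℂ))) ⬝ᵥ
    vk k (of fun i j => MvPolynomial.X (i, j))) (by
      refine (rep_eval _ (τc x) (G.map mp)).trans ?_
      have := congrArg mp hl
      rw [map_zero, dotProduct, map_sum] at this
      simpa only [dotProduct, τc_map, map_mul, map_vk] using this) γ hγ
  refine Eq.trans ?_ ((rep_eval _ (Polynomial.evalRingHom (x : ℂ)) γ).symm.trans h1)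
  congr 1
  ext μ
  rw [Polynomial.coe_evalRingHom, Polynomial.eval_map_algebraMap, aeval_rat]

theorem bas_div {J : Type*} (x : ℚ) (P : (J → Polynomial ℚ) → Prop)
    (hP : ∀ φ, P (fun j => (Polynomial.X - Polynomial.C x) * φ j) → P φ) {φ : J → Polynomial ℚ}
    (h0 : φ ≠ 0) (h : P φ) : ∃ ψ, P ψ ∧ ∃ j, (ψ j).eval x ≠ 0 := by
  obtain ⟨j0, hj⟩ := Function.ne_iff.1 h0
  clear h0
  induction hn : (φ j0).natDegree using Nat.strong_induction_on generalizing φ with
  | _ n ih =>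
    by_cases hz : ∃ j, (φ j).eval x ≠ 0
    · exact ⟨φ, h, hz⟩
    push Not at hz
    have e : ∀ j, (Polynomial.X - Polynomial.C x) * (φ j /ₘ (Polynomial.X - Polynomial.C x)) = φ j :=
      fun j => Polynomial.mul_divByMonic_eq_iff_isRoot.2 (hz j)
    have h1 : φ j0 /ₘ (Polynomial.X - Polynomial.C x) ≠ 0 := fun h2 => hj (by rw [← e j0, h2]; simp)
    refine ih _ ?_ (φ := fun j => φ j /ₘ (Polynomial.X - Polynomial.C x))
      (hP _ (by simpa only [e] using h)) h1 rfl
    have := congrArg Polynomial.natDegree (e j0)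
    rw [Polynomial.natDegree_mul (Polynomial.X_sub_C_ne_zero x) h1, Polynomial.natDegree_X_sub_C]
      at this
    omega

theorem bas_cnt {k : ℕ} (μ : Mo A k) (γ : Matrix A A ℂ) :
    vk k γ μ = ∏ a : A × A, γ a.1 a.2 ^ #{l | μ l = some a} := by
  rw [vk, tens, ← prod_fiberwise univ μ, Fintype.prod_option]
  rw [prod_eq_one fun l hl => by rw [(mem_filter.1 hl).2]; rfl, one_mul]
  refine prod_congr rfl fun a _ => ?_
  rw [prod_congr rfl fun l hl => by rw [(mem_filter.1 hl).2], prod_const]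
  rfl

theorem exists_bas {x : ℚ} {G : Matrix A A ℚ⟦X⟧} {Γ : Set (Matrix A A ℂ)}
    (h : Orb x (G.map mp) Γ) (k : ℕ) : ∃ M, Bas x G Γ k M := by
  classical
  obtain ⟨b, -, -, h1, h2⟩ := exists_linearIndepOn_extension (K := ℂ)
    (v := fun (μ : Mo A k) (γ : Γ) => vk k γ.1 μ) (linearIndepOn_empty ℂ _)
    (Set.empty_subset Set.univ)
  obtain ⟨M, rfl⟩ : ∃ M : Finset (Mo A k), (M : Set _) = b := ⟨b.toFinset, Set.coe_toFinset b⟩
  have indC : ∀ c : Mo A k → ℂ, (∀ μ ∉ M, c μ = 0) → (∀ γ ∈ Γ, c ⬝ᵥ vk k γ = 0) → c = 0 := by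
    intro c hc h0
    ext μ
    by_cases hμ : μ ∈ M
    · refine linearIndepOn_finset_iff.1 h2 c (funext fun γ => ?_) μ hμ
      rw [Finset.sum_apply, Pi.zero_apply, ← h0 γ γ.2]
      exact sum_subset (subset_univ _) fun ν _ hν => by simp [hc ν hν]
    · exact hc μ hμ
  have gen : ∀ μ, ∃ c : Mo A k → ℂ, (∀ ν ∉ M, c ν = 0) ∧ ∀ γ ∈ Γ, c ⬝ᵥ vk k γ = vk k γ μ := by
    intro μ
    obtain ⟨c, hc⟩ := (Submodule.mem_span_image_finset_iff_exists_fun' ℂ).1
      (h1 ⟨μ, Set.mem_univ _, rfl⟩)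
    refine ⟨fun ν => if ν ∈ M then c ν else 0, fun ν hν => if_neg hν, fun γ hγ => ?_⟩
    have := congrFun hc ⟨γ, hγ⟩
    rw [Finset.sum_apply] at this
    simp only [dotProduct, ite_mul, zero_mul, sum_ite_mem, univ_inter]
    exact this
  refine ⟨M, ?_, ?_, indC, fun l hl h0 => ?_, ?_⟩
  · refine card_pos.2 (nonempty_iff_ne_empty.2 ?_)
    rintro rfl
    obtain ⟨c, hc, e⟩ := gen fun _ => none
    have := e 1 h.one
    simp [dotProduct, hc, vk, tens, hatg] at this
  · refine le_trans (card_le_card_of_injOn (t := (univ : Finset (A × A → Fin (k + 1))))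
      (fun μ a => ⟨#{l | μ l = some a}, Nat.lt_succ_of_le ((card_le_univ _).trans (by simp))⟩)
      (fun _ _ => mem_univ _) fun μ hμ ν hν e => h2.injOn hμ hν (funext fun γ => ?_)) (by simp)
    simp only [bas_cnt]
    exact prod_congr rfl fun a _ => congrArg _ (congrArg Fin.val (congrFun e a))
  · by_contra hn
    obtain ⟨ψ, ⟨p1, p2⟩, j, hj⟩ := bas_div x
      (fun l => (∀ μ ∉ M, l μ = 0) ∧ (fun μ => τ1 x (l μ)) ⬝ᵥ vk k G = 0) (fun φ hφ =>
        ⟨fun μ hμ => (mul_eq_zero.1 (hφ.1 μ hμ)).resolve_left (Polynomial.X_sub_C_ne_zero x), by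
          have e : τ1 x (Polynomial.X - Polynomial.C x) = X := by simp [τ1]
          have := hφ.2
          simp only [map_mul, e, dotProduct, mul_assoc, ← mul_sum] at this
          exact (mul_eq_zero.1 this).resolve_left X_ne_zero⟩) hn ⟨hl, h0⟩
    have := indC _ (fun μ hμ => by simp [p1 μ hμ]) fun γ hγ => bas_spec h p2 hγ
    exact hj (by simpa using congrFun this j)
  · obtain ⟨π, hπ⟩ := Module.Projective.exists_dual_eq_one ℚ (one_ne_zero (α := ℂ))
    have key : ∀ μ, ∃ l : Mo A k → Polynomial ℚ, (fun ν => τ1 x (l ν)) ⬝ᵥ vk k G = 0 ∧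
        ∀ ν ∉ M, (l ν).eval x = if μ = ν then 1 else 0 := by
      intro μ
      obtain ⟨c, hc, e⟩ := gen μ
      obtain ⟨l, l1, l2⟩ := h.lift1 k (Pi.single μ 1 - c) fun γ hγ => by
        rw [sub_dotProduct, e γ hγ, single_dotProduct, one_mul, sub_self]
      obtain ⟨l', -, l3, l4⟩ := pi_rel (l := l) (y := vk k G) (by simpa only [map_vk] using l2) π
      refine ⟨l', l4, fun ν hν => ?_⟩
      rw [l3, l1, Pi.sub_apply, hc ν hν, sub_zero]
      split_ifs with c
      · rw [c, Pi.single_eq_same, hπ]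
      · rw [Pi.single_eq_of_ne' c, map_zero]
    choose l l1 l2 using key
    refine ⟨1 - of l, ?_, fun μ ν hν => ?_, fun γ hγ => ?_⟩
    · rw [Matrix.map_sub _ (map_sub _), Matrix.map_one _ (map_zero _) (map_one _), sub_mulVec,
        one_mulVec, sub_eq_self]
      exact funext fun μ => l1 μ
    · rw [Matrix.sub_apply, of_apply, Polynomial.eval_sub, l2 μ ν hν, Matrix.one_apply]
      split_ifs <;> simp
    · rw [Matrix.map_sub _ (map_sub _), Matrix.map_one _ (map_zero _) (map_one _), sub_mulVec,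
        one_mulVec, sub_eq_self]
      refine funext fun μ => Eq.trans ?_ (bas_spec h (l1 μ) hγ)
      simp only [mulVec, map_apply, of_apply, aeval_rat]

end

end Pool.Agent.Lib.MP_5591bc_ag.V
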