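import Mathlib

/-! A sequence of polynomial growth has a step of small relative size; products of irreducible
sets; tensor products of independent families. -/

namespace Pool.Agent.Lib.MP_5591bc_ag.V

open Finset Filter Function

theorem hil_gap (g c d : ℕ) : ∃ j0 : ℕ, ∀ α : ℕ → ℕ, 1 ≤ α 0 → (∀ j ≤ j0, α j ≤ (c * j + 1) ^ d) →
    ∃ j < j0, g * (α (j + 1) - α j) ≤ α (j + 1) := by
  have r1 : (1 : ℝ) < 1 + 1 / (g + 1) := lt_add_of_pos_right _ (by positivity)
  have ht := (tendsto_pow_const_div_const_pow_of_one_lt d r1).const_mul (((c : ℝ) + 1) ^ d)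
  rw [mul_zero] at ht
  obtain ⟨j0, h1, h2⟩ := ((ht.eventually (gt_mem_nhds one_pos)).and (eventually_ge_atTop 1)).exists
  refine ⟨j0, fun α h0 hα => ?_⟩
  by_contra hn
  push Not at hn
  have key : ∀ j ≤ j0, (1 + 1 / (g + 1) : ℝ) ^ j ≤ α j := by
    intro j
    induction j with
    | zero => intro _; simpa using h0
    | succ j ih =>
      intro hj
      have h3 := hn j hj
      have h4 : α j ≤ α (j + 1) := by
        by_contra h
        rw [Nat.sub_eq_zero_of_le (not_le.1 h).le] at h3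
        omega
      have h5 : (α (j + 1) : ℝ) < g * (α (j + 1) - α j) := by exact_mod_cast h3
      have h6 : (α j : ℝ) ≤ α (j + 1) := by exact_mod_cast h4
      have h7 : (0 : ℝ) ≤ α j := Nat.cast_nonneg _
      rw [pow_succ]
      refine (mul_le_mul_of_nonneg_right (ih (by omega)) (by positivity)).trans ?_
      rw [mul_add, mul_one, mul_one_div, add_comm, ← le_sub_iff_add_le, div_le_iff₀ (by positivity)]
      nlinarith
  have h3 : (α j0 : ℝ) ≤ ((c + 1) * j0) ^ d := by
    have h4 : (1 : ℝ) ≤ j0 := by exact_mod_cast h2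
    refine le_trans (by exact_mod_cast hα j0 le_rfl : (α j0 : ℝ) ≤ (c * j0 + 1) ^ d) ?_
    gcongr
    linarith
  rw [← mul_div_assoc, ← mul_pow, div_lt_one (by positivity)] at h1
  exact absurd ((key j0 le_rfl).trans h3) (not_le.2 h1)

variable {K : Type*} [Field K] {ι : Type*} [Fintype ι] [DecidableEq ι]

/-- Two functions on a product, not zero, whose one variable slices lie in classes without zero
divisors, have a common point of non vanishing. -/
theorem hil_prod {X : ι → Type*} (Γ : ∀ i, Set (X i)) (A : ∀ i, Set (X i → K))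
    (hA : ∀ i, ∀ p ∈ A i, ∀ q ∈ A i, (∃ x ∈ Γ i, p x ≠ 0) → (∃ x ∈ Γ i, q x ≠ 0) →
      ∃ x ∈ Γ i, p x ≠ 0 ∧ q x ≠ 0) {F G : (∀ i, X i) → K}
    (hF : ∀ γ i, (fun x => F (update γ i x)) ∈ A i) (hG : ∀ γ i, (fun x => G (update γ i x)) ∈ A i)
    (h1 : ∃ a, (∀ i, a i ∈ Γ i) ∧ F a ≠ 0) (h2 : ∃ a, (∀ i, a i ∈ Γ i) ∧ G a ≠ 0) :
    ∃ a, (∀ i, a i ∈ Γ i) ∧ F a ≠ 0 ∧ G a ≠ 0 := by
  have key : ∀ s : Finset ι, ∃ a b, (∀ i, a i ∈ Γ i) ∧ (∀ i, b i ∈ Γ i) ∧ F a ≠ 0 ∧ G b ≠ 0 ∧
      ∀ i ∈ s, a i = b i := by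
    intro s
    induction s using Finset.induction_on with
    | empty =>
      obtain ⟨a, ha, fa⟩ := h1
      obtain ⟨b, hb, gb⟩ := h2
      exact ⟨a, b, ha, hb, fa, gb, by simp⟩
    | insert i s _ ih =>
      obtain ⟨a, b, ha, hb, fa, gb, e⟩ := ih
      obtain ⟨x, hx, fx, gx⟩ := hA i _ (hF a i) _ (hG b i) ⟨a i, ha i, by simpa using fa⟩
        ⟨b i, hb i, by simpa using gb⟩
      have up : ∀ c : ∀ i, X i, (∀ j, c j ∈ Γ j) → ∀ j, update c i x j ∈ Γ j := fun c hc j => by
        by_cases h : j = i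
        · subst h; simpa using hx
        · simpa [h] using hc j
      refine ⟨_, _, up a ha, up b hb, fx, gx, fun j hj => ?_⟩
      by_cases h : j = i
      · subst h; simp
      · simpa [h] using e j ((mem_insert.1 hj).resolve_left h)
  obtain ⟨a, b, ha, -, fa, gb, e⟩ := key univ
  obtain rfl : a = b := funext fun i => e i (mem_univ _)
  exact ⟨a, ha, fa, gb⟩

theorem hil_span {J : Type*} [Fintype J] {V : Set (J → K)}
    (h : ∀ c : J → K, (∀ v ∈ V, ∑ j, c j * v j = 0) → c = 0) : Submodule.span K V = ⊤ := by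
  classical
  by_contra hn
  obtain ⟨f, f0, hf⟩ := Submodule.exists_le_ker_of_lt_top _ (lt_top_iff_ne_top.2 hn)
  have e : ∀ v, f v = ∑ j, f (Pi.single j 1) * v j := fun v => by
    conv_lhs => rw [pi_eq_sum_univ' v]
    simp [map_sum, mul_comm]
  have := h (fun j => f (Pi.single j 1)) fun v hv => by
    rw [← e]; exact hf (Submodule.subset_span hv)
  refine f0 (LinearMap.ext fun v => ?_)
  rw [e]
  simp [show ∀ j, f (Pi.single j 1) = 0 from congrFun this]

/-- A tensor that kills all products of vectors from sets with trivial annihilator is zero. -/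
theorem hil_tens {J : ι → Type*} [∀ i, Fintype (J i)] (V : ∀ i, Set (J i → K))
    (h : ∀ i, ∀ c : J i → K, (∀ v ∈ V i, ∑ j, c j * v j = 0) → c = 0) (c : (∀ i, J i) → K)
    (hc : ∀ v : ∀ i, J i → K, (∀ i, v i ∈ V i) → ∑ m, c m * ∏ i, v i (m i) = 0) : c = 0 := by
  classical
  have key : ∀ s : Finset ι, ∀ v : ∀ i, J i → K, (∀ i ∉ s, v i ∈ V i) →
      ∑ m, c m * ∏ i, v i (m i) = 0 := by
    intro s
    induction s using Finset.induction_on with
    | empty => exact fun v hv => hc v fun i => hv i (by simp)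
    | insert i s _ ih =>
      intro v hv
      have e : ∀ (x : J i → K) (m : ∀ i, J i), ∏ j, update v i x j (m j) =
          x (m i) * ∏ j ∈ univ.erase i, v j (m j) := fun x m => by
        rw [← mul_prod_erase _ _ (mem_univ i), update_self]
        exact congrArg _ (prod_congr rfl fun j hj => by rw [update_of_ne (ne_of_mem_erase hj)])
      have : ∀ x ∈ Submodule.span K (V i), ∑ m, c m * ∏ j, update v i x j (m j) = 0 := by
        intro x hx
        induction hx using Submodule.span_induction with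
        | mem x hx =>
          refine ih _ fun j hj => ?_
          by_cases h : j = i
          · subst h; simpa using hx
          · simpa [h] using hv j (by simp [h, hj])
        | zero => simp [e]
        | add x y _ _ hx hy =>
          simp only [e] at hx hy ⊢
          simp only [Pi.add_apply, add_mul, mul_add, sum_add_distrib, hx, hy, add_zero]
        | smul a x _ hx =>
          simp only [e] at hx ⊢
          simp only [Pi.smul_apply, smul_eq_mul, mul_assoc, mul_left_comm _ a, ← mul_sum, hx,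
            mul_zero]
      simpa using this (v i) (by rw [hil_span (h i)]; trivial)
  ext m
  have := key univ (fun i => Pi.single (m i) 1) (by simp)
  rw [sum_eq_single m (fun m' _ hm => ?_) (by simp)] at this
  · simpa using this
  · obtain ⟨i, hi⟩ := Function.ne_iff.1 hm
    rw [prod_eq_zero (mem_univ i) (by simp [hi]), mul_zero]

/-- The products of a function `D` with tensor products of independent families are independent on
a product of irreducible sets. -/
theorem hil_indep {X J : ι → Type*} [∀ i, Fintype (J i)] (Γ : ∀ i, Set (X i))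
    (A : ∀ i, Submodule K (X i → K))
    (hA : ∀ i, ∀ p ∈ A i, ∀ q ∈ A i, (∃ x ∈ Γ i, p x ≠ 0) → (∃ x ∈ Γ i, q x ≠ 0) →
      ∃ x ∈ Γ i, p x ≠ 0 ∧ q x ≠ 0) {D : (∀ i, X i) → K}
    (hD : ∀ γ i, (fun x => D (update γ i x)) ∈ A i) (h1 : ∃ a, (∀ i, a i ∈ Γ i) ∧ D a ≠ 0)
    (f : ∀ i, J i → X i → K) (hf : ∀ i j, f i j ∈ A i)
    (ind : ∀ i, ∀ c : J i → K, (∀ x ∈ Γ i, ∑ j, c j * f i j x = 0) → c = 0)
    (c : (∀ i, J i) → K)
    (hc : ∀ a, (∀ i, a i ∈ Γ i) → D a * ∑ m, c m * ∏ i, f i (m i) (a i) = 0) : c = 0 := by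
  refine hil_tens (fun i => (fun x j => f i j x) '' Γ i)
    (fun i c hc => ind i c fun x hx => hc _ ⟨x, hx, rfl⟩) c fun v hv => ?_
  choose a ha e using hv
  by_contra hn
  have hG : ∀ (γ : ∀ i, X i) i, (fun x => ∑ m, c m * ∏ j, f j (m j) (update γ i x j)) ∈ A i := by
    intro γ i
    have : (fun x => ∑ m, c m * ∏ j, f j (m j) (update γ i x j)) =
        ∑ m, (c m * ∏ j ∈ univ.erase i, f j (m j) (γ j)) • f i (m i) := by
      ext x
      rw [Finset.sum_apply]
      refine sum_congr rfl fun m _ => ?_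
      rw [← mul_prod_erase _ _ (mem_univ i), update_self, Pi.smul_apply, smul_eq_mul,
        prod_congr rfl fun j hj => by rw [update_of_ne (ne_of_mem_erase hj)]]
      ring
    rw [this]
    exact Submodule.sum_mem _ fun m _ => Submodule.smul_mem _ _ (hf i _)
  obtain ⟨b, hb, h2, h3⟩ := hil_prod Γ (fun i => (A i : Set _)) hA
    (G := fun a => ∑ m, c m * ∏ i, f i (m i) (a i)) hD hG h1 ⟨a, ha, by simpa only [← e] using hn⟩
  exact mul_ne_zero h2 h3 (hc b hb)

end Pool.Agent.Lib.MP_5591bc_ag.V
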