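import Pool.Agent.Lib.MP_5591bc_ag.V.Rep
import Pool.Agent.Lib.MP_5591bc_ag.V.Hil

/-! The rows of the auxiliary construction. -/

namespace Pool.Agent.Lib.MP_5591bc_ag.V

open Matrix Finset Filter Topology PowerSeries G R Function

noncomputable section

theorem rw_minor {K J : Type*} [Field K] : ∀ (r : ℕ) (v : Fin r → J → K),
    (∀ a : Fin r → K, ∑ l, a l • v l = 0 → ∀ l, a l = 0) → ∃ I, mnr v I ≠ 0
  | 0, _, _ => ⟨Fin.elim0, by simp [mnr]⟩
  | r + 1, v, h => by
    obtain ⟨I, hI⟩ := rw_minor r (Fin.tail v) fun a ha l => by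
      simpa using h (Fin.cons 0 a) (by simpa [Fin.sum_univ_succ, Fin.tail] using ha) l.succ
    by_contra hn
    obtain ⟨c, hc⟩ := sat_eq (v := Fin.tail v) (I := I) (u := v 0) fun β => by
      rw [bord, Fin.cons_self_tail]
      exact not_not.1 fun k => hn ⟨_, k⟩
    refine hI (h (Fin.cons (mnr (Fin.tail v) I) (-c)) ?_ 0)
    rw [Fin.sum_univ_succ, Fin.cons_zero, hc, ← sum_add_distrib]
    exact sum_eq_zero fun l _ => by simp [Fin.tail]

variable {A : Type*} [Fintype A] [DecidableEq A]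

/-- the matrix of indeterminates -/
def rwX (A R : Type*) [CommRing R] : Matrix A A (MvPolynomial (A × A) R) :=
  of fun i j => MvPolynomial.X (i, j)

theorem rw_adj (a b : A) : ((rwX A ℚ).adjugate a b).totalDegree ≤ Fintype.card A := by
  rw [adjugate_apply, det_apply']
  refine MvPolynomial.totalDegree_finsetSum_le fun π _ => (MvPolynomial.totalDegree_mul _ _).trans ?_
  rw [← map_intCast (MvPolynomial.C : ℚ →+* MvPolynomial (A × A) ℚ), MvPolynomial.totalDegree_C,
    zero_add]
  refine (MvPolynomial.totalDegree_finsetProd _ _).trans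
    ((sum_le_card_nsmul _ _ 1 fun l _ => ?_).trans (by simp))
  rw [updateRow_apply, Pi.single_apply]
  split_ifs <;> simp [rwX]

theorem rw_kap {k' k : ℕ} (hk : k' + Fintype.card A ≤ k) : ∃ κ : Mo A k' → A → A → Mo A k → ℚ,
    ∀ (S : Type) [CommRing S] (g : ℚ →+* S) (Z : Matrix A A S) n a b,
      (fun ν => g (κ n a b ν)) ⬝ᵥ vk k Z = vk k' Z n * Z.adjugate a b := by
  choose κ hκ using fun (n : Mo A k') (a b : A) =>
    rep (k := k) (p := vk k' (rwX A ℚ) n * (rwX A ℚ).adjugate a b)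
      ((MvPolynomial.totalDegree_mul _ _).trans ((add_le_add (deg_vk n) (rw_adj a b)).trans hk))
  refine ⟨κ, fun S _ g Z n a b => ?_⟩
  have e : (rwX A ℚ).map (MvPolynomial.eval₂Hom g fun p : A × A => Z p.1 p.2) = Z := by
    ext i j; simp [rwX]
  rw [← rep_eval, ← hκ, ← MvPolynomial.coe_eval₂Hom, map_mul, map_vk, e]
  congr 1
  have := congrFun₂ (RingHom.map_adjugate (MvPolynomial.eval₂Hom g fun p : A × A => Z p.1 p.2)
    (rwX A ℚ)) a b
  rwa [RingHom.mapMatrix_apply, RingHom.mapMatrix_apply, e] at this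

variable {m k' k : ℕ}

/-- the rows of the first kind -/
def rw1 (W : Fin m → Matrix (Mo A k) (Mo A k) (Polynomial ℚ)) (μ ν : Fin m → Mo A k) :
    Ot (Fin m) A := MvPolynomial.C ((1 - piM fun i => (W i).map (toMv i)) μ ν)

/-- the rows of the second kind -/
def rw2 (κ : Mo A k' → A → A → Mo A k → ℚ) (c : (Fin m → A) → ℚ) (n : Fin m → Mo A k')
    (ν : Fin m → Mo A k) : Ot (Fin m) A := ∑ α, MvPolynomial.C (MvPolynomial.C (c α)) *
      ∏ i, ∑ b, MvPolynomial.X (i, b) * MvPolynomial.C (MvPolynomial.C (κ (n i) (α i) b (ν i)))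

theorem rw2_deg (κ : Mo A k' → A → A → Mo A k → ℚ) (c : (Fin m → A) → ℚ) (n : Fin m → Mo A k')
    (ν : Fin m → Mo A k) : (rw2 κ c n ν).totalDegree ≤ m := by
  refine MvPolynomial.totalDegree_finsetSum_le fun α _ => (MvPolynomial.totalDegree_mul _ _).trans ?_
  rw [MvPolynomial.totalDegree_C, zero_add]
  refine (MvPolynomial.totalDegree_finsetProd _ _).trans
    ((sum_le_card_nsmul _ _ 1 fun l _ => ?_).trans (by simp))
  refine MvPolynomial.totalDegree_finsetSum_le fun b _ => (MvPolynomial.totalDegree_mul _ _).trans ?_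
  simp

theorem rw1_map {S : Type} [CommRing S] (g : Ot (Fin m) A →+* S)
    (W : Fin m → Matrix (Mo A k) (Mo A k) (Polynomial ℚ)) (μ ν : Fin m → Mo A k) :
    g (rw1 W μ ν) = (1 - piM fun i => (W i).map fun p => g (MvPolynomial.C (toMv i p))) μ ν := by
  simp [rw1, piM, one_apply, apply_ite]

theorem rw1_pair {S : Type} [CommRing S] (g : Ot (Fin m) A →+* S)
    {W : Fin m → Matrix (Mo A k) (Mo A k) (Polynomial ℚ)} {z : Fin m → Mo A k → S}
    (hz : ∀ i, ((W i).map fun p => g (MvPolynomial.C (toMv i p))) *ᵥ z i = z i)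
    (μ : Fin m → Mo A k) : tens z ⬝ᵥ (fun ν => g (rw1 W μ ν)) = 0 := by
  have : ((1 - piM fun i => (W i).map fun p => g (MvPolynomial.C (toMv i p))) *ᵥ tens z) μ = 0 := by
    rw [sub_mulVec, one_mulVec, piM_mulVec, funext hz, sub_self, Pi.zero_apply]
  rw [dotProduct_comm, funext (rw1_map g W μ)]
  exact this

theorem rw2_pair {S : Type} [CommRing S] (g : Ot (Fin m) A →+* S)
    {κ : Mo A k' → A → A → Mo A k → ℚ}
    (hκ : ∀ (S : Type) [CommRing S] (g : ℚ →+* S) (Z : Matrix A A S) n a b,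
      (fun ν => g (κ n a b ν)) ⬝ᵥ vk k Z = vk k' Z n * Z.adjugate a b)
    (c : (Fin m → A) → ℚ) (n : Fin m → Mo A k') (Z : Fin m → Matrix A A S) :
    (tens fun i => vk k (Z i)) ⬝ᵥ (fun ν => g (rw2 κ c n ν)) =
      ((fun α => g (MvPolynomial.C (MvPolynomial.C (c α)))) ⬝ᵥ
        tens fun i => (Z i).adjugate *ᵥ fun b => g (MvPolynomial.X (i, b))) *
      ∏ i, vk k' (Z i) (n i) := by
  simp only [rw2, map_sum, map_mul, map_prod, dotProduct, mul_sum, sum_mul]
  rw [sum_comm]
  refine sum_congr rfl fun α _ => ?_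
  simp only [tens, mul_left_comm _ (g (MvPolynomial.C (MvPolynomial.C (c α)))), ← mul_sum,
    ← prod_mul_distrib, mul_assoc]
  rw [← Fintype.piFinset_univ, ← prod_univ_sum _ fun i ν => vk k (Z i) ν * ∑ b,
    g (MvPolynomial.X (i, b)) * g (MvPolynomial.C (MvPolynomial.C (κ (n i) (α i) b ν)))]
  congr 1
  refine prod_congr rfl fun i _ => ?_
  simp only [mul_sum, mulVec, dotProduct, sum_mul]
  rw [sum_comm]
  refine sum_congr rfl fun b _ => ?_
  have := hκ S (g.comp (MvPolynomial.C.comp MvPolynomial.C)) (Z i) (n i) (α i) b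
  simp only [dotProduct, RingHom.comp_apply] at this
  rw [mul_right_comm, mul_comm _ (vk k' _ _), ← this, sum_mul]
  exact sum_congr rfl fun ν _ => by ring

/-- polynomial functions of a matrix -/
def rwP (A : Type*) : Subalgebra ℂ (Matrix A A ℂ → ℂ) :=
  (AlgHom.pi (A := fun _ : Matrix A A ℂ => ℂ) fun γ => MvPolynomial.aeval (ent γ)).range

omit [Fintype A] [DecidableEq A] in
theorem rwX_map (γ : Matrix A A ℂ) :
    (rwX A ℂ).map (MvPolynomial.aeval (ent γ) : _ →ₐ[ℂ] ℂ).toRingHom = γ := by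
  ext i j; simp [rwX, ent]

theorem rwP_adj (a b : A) : (fun γ : Matrix A A ℂ => γ.adjugate a b) ∈ rwP A :=
  ⟨(rwX A ℂ).adjugate a b, funext fun γ => by
    have := congrFun₂ (RingHom.map_adjugate (MvPolynomial.aeval (ent γ) : _ →ₐ[ℂ] ℂ).toRingHom
      (rwX A ℂ)) a b
    rwa [RingHom.mapMatrix_apply, RingHom.mapMatrix_apply, rwX_map] at this⟩

omit [Fintype A] [DecidableEq A] in
theorem rwP_vk (n : Mo A k) : (fun γ : Matrix A A ℂ => vk k γ n) ∈ rwP A :=
  ⟨vk k (rwX A ℂ) n, funext fun γ => by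
    have := map_vk (MvPolynomial.aeval (ent γ) : _ →ₐ[ℂ] ℂ).toRingHom (rwX A ℂ) n
    rwa [rwX_map] at this⟩

theorem rw_emb {σ : Type*} (i : σ) (s : ℚ⟦X⟧) : mC (emb i s) = embC i (mp s) :=
  (MvPowerSeries.rename_map _ _ _).symm

theorem rows {m k' k : ℕ} (hk : k' + Fintype.card A ≤ k) {ξ : Fin m → ℚ}
    {G : Fin m → Matrix A A ℚ⟦X⟧} {Γ : Fin m → Set (Matrix A A ℂ)}
    (h1 : ∀ i, (G i).map constantCoeff = 1) (hΓ : ∀ i, Orb (ξ i) ((G i).map mp) (Γ i))
    {M' : Fin m → Finset (Mo A k')} {M : Fin m → Finset (Mo A k)}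
    (hM' : ∀ i, Bas (ξ i) (G i) (Γ i) k' (M' i)) (hM : ∀ i, Bas (ξ i) (G i) (Γ i) k (M i))
    {φ : Fin m → A → ℂ} {c : (Fin m → A) → ℚ} (hc : (fun β => (c β : ℂ)) ⬝ᵥ tens φ = 0)
    (hD : ∃ γ : Fin m → Matrix A A ℂ, (∀ i, γ i ∈ Γ i) ∧
      (fun β => (c β : ℂ)) ⬝ᵥ (tens fun i => (γ i).adjugate *ᵥ φ i) ≠ 0) :
    ∃ (r : ℕ) (v : Fin r → (Fin m → Mo A k) → Ot (Fin m) A) (I : Fin r → Fin m → Mo A k),
      (∀ l μ, (v l μ).totalDegree ≤ m) ∧
      (∀ l, (fun μ => mC (tv (fun i => vk k (G i)) μ)) ⬝ᵥ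
        (fun μ => eX ξ (fun i => Fx (G i) (φ i)) (v l μ)) = 0) ∧
      MvPowerSeries.constantCoeff (eX ξ (fun i => Fx (G i) (φ i)) (mnr v I)) ≠ 0 ∧
      Fintype.card (Fin m → Mo A k) + ∏ i, (M' i).card ≤ r + ∏ i, (M i).card := by
  obtain ⟨κ, hκ⟩ := rw_kap hk
  choose W w1 w2 w3 using fun i => (hM i).gen
  obtain ⟨g, hg⟩ : ∃ g, g = eX ξ fun i => Fx (G i) (φ i) := ⟨_, rfl⟩
  rw [← hg]
  have g1 : ∀ i p, g (MvPolynomial.C (toMv i p)) = embC i (mp (τ1 (ξ i) p)) := fun i p => by
    rw [hg, eX, MvPolynomial.eval₂Hom_C, RingHom.comp_apply, τs_toMv, rw_emb]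
  have g2 : ∀ a : ℚ, g (MvPolynomial.C (MvPolynomial.C a)) = MvPowerSeries.C (a : ℂ) := fun a => by
    rw [hg, eX, MvPolynomial.eval₂Hom_C]
    simp [τs, sh, mC]
  have g3 : ∀ i b, g (MvPolynomial.X (i, b)) = embC i (Fx (G i) (φ i) b) := fun i b => by
    rw [hg, eX, MvPolynomial.eval₂Hom_X']
  have cc : ∀ (i : Fin m) s, MvPowerSeries.constantCoeff (embC i s) = constantCoeff s :=
    fun i s => MvPowerSeries.constantCoeff_rename _ _
  have eC : ∀ (i : Fin m) a, embC i (C a) = MvPowerSeries.C a :=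
    fun i a => MvPowerSeries.rename_C _ a
  let g0 : Ot (Fin m) A →+* ℂ := MvPowerSeries.constantCoeff.comp g
  have p1 : ∀ i p, g0 (MvPolynomial.C (toMv i p)) = Polynomial.aeval (ξ i : ℂ) p := fun i p => by
    rw [RingHom.comp_apply, g1, cc, ← τc_map, τc_const, Polynomial.eval_map_algebraMap]
  have p2 : ∀ a : ℚ, g0 (MvPolynomial.C (MvPolynomial.C a)) = a := fun a => by
    rw [RingHom.comp_apply, g2, MvPowerSeries.constantCoeff_C]
  have p3 : ∀ i b, g0 (MvPolynomial.X (i, b)) = φ i b := fun i b => by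
    have : ∀ a, constantCoeff (mp (G i b a)) = (1 : Matrix A A ℂ) b a := fun a => by
      have := congrFun₂ (h1 i) b a
      rw [map_apply] at this
      rw [← coeff_zero_eq_constantCoeff_apply, coeff_map, coeff_zero_eq_constantCoeff_apply, this]
      simp [one_apply, apply_ite]
    rw [RingHom.comp_apply, g3, cc]
    simp [Fx, mulVec, dotProduct, this, one_apply]
  let ι := {μ // μ ∉ Fintype.piFinset M} ⊕ (∀ i, M' i)
  let u : ι → (Fin m → Mo A k) → Ot (Fin m) A :=
    Sum.elim (fun μ => rw1 W μ.1) fun n => rw2 κ c fun i => n i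
  have ind : ∀ a : ι → ℂ, (∑ l, a l • fun ν => g0 (u l ν)) = 0 → ∀ l, a l = 0 := fun a ha => by
    have a2 : (fun n => a (.inr n)) = 0 := by
      refine hil_indep Γ (fun _ => (rwP A).toSubmodule) ?_
        (D := fun γ => (fun β => (c β : ℂ)) ⬝ᵥ (tens fun i => (γ i).adjugate *ᵥ φ i))
        (fun γ i => ?_) hD (fun i (n : M' i) x => vk k' x n) (fun i n => rwP_vk _)
        (fun i b hb => ?_) _ fun γ hγ => ?_
      · rintro i _ ⟨p, rfl⟩ _ ⟨q, rfl⟩ hp hq
        exact (hΓ i).irr p q hp hq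
      · have : (fun x => (fun β => (c β : ℂ)) ⬝ᵥ tens fun j => (update γ i x j).adjugate *ᵥ φ j) =
            ∑ β, (c β : ℂ) • ∏ j, ∑ b, φ j b • fun x => (update γ i x j).adjugate (β j) b := by
          ext x
          simp [dotProduct, tens, mulVec, mul_comm]
        rw [this]
        refine sum_mem fun β _ => (rwP A).smul_mem (prod_mem fun j _ => sum_mem fun b _ =>
          (rwP A).smul_mem ?_ _) _
        by_cases e : j = i
        · subst e
          simpa only [update_self] using rwP_adj (β j) b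
        · simp only [update_of_ne e]
          exact (rwP A).algebraMap_mem _
      · have := (hM' i).indC (fun μ => if h : μ ∈ M' i then b ⟨μ, h⟩ else 0) (fun μ h => dif_neg h)
          fun x hx => by
            rw [dotProduct, ← sum_subset (subset_univ (M' i)) fun μ _ h => by
              rw [dif_neg h, zero_mul], ← sum_coe_sort]
            exact (sum_congr rfl fun μ _ => by rw [dif_pos μ.2]).trans (hb x hx)
        exact funext fun μ => by simpa [μ.2] using congrFun this μ
      · have := congrArg (fun z => (tens fun i => vk k (γ i)) ⬝ᵥ z) ha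
        simp only [dotProduct_sum, dotProduct_smul, dotProduct_zero] at this
        simp only [ι, u, Fintype.sum_sum_type,
          Sum.elim_inl, Sum.elim_inr, rw2_pair g0 hκ, p2, p3, smul_eq_mul,
          rw1_pair g0 (fun i => by simpa only [p1] using w3 i _ (hγ i)), mul_zero, sum_const_zero,
          zero_add] at this
        rw [← this, mul_sum]
        exact sum_congr rfl fun n _ => mul_left_comm _ _ _
    rintro (μ | n)
    · have := congrFun ha μ.1
      obtain ⟨i, hi⟩ : ∃ i, μ.1 i ∉ M i := by simpa using μ.2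
      have b1 : ∀ ν, (piM fun i => (W i).map fun p => g0 (MvPolynomial.C (toMv i p))) ν μ.1 = 0 :=
        fun ν => prod_eq_zero (mem_univ i) (by
          simp only [map_apply]
          rw [p1, show (ξ i : ℂ) = algebraMap ℚ ℂ (ξ i) from rfl,
            Polynomial.aeval_algebraMap_apply_eq_algebraMap_eval, w2 i _ _ hi, map_zero])
      simp only [Finset.sum_apply, Pi.smul_apply, ι, u, Fintype.sum_sum_type, Sum.elim_inl,
        congrFun a2, Pi.zero_apply, zero_mul, sum_const_zero, add_zero, rw1_map, Matrix.sub_apply,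
        b1, sub_zero, one_apply, smul_eq_mul, ← Subtype.ext_iff, mul_boole, sum_ite_eq', mem_univ,
        if_true] at this
      exact this
    · exact congrFun a2 n
  let e := (Fintype.equivFin ι).symm
  obtain ⟨I, hI⟩ := rw_minor _ (fun l ν => g0 (u (e l) ν)) fun a ha l => by
    have := ind (fun j => a (e.symm j)) (by
      rw [← ha, ← e.sum_comp]; simp only [Equiv.symm_apply_apply]) (e l)
    rwa [Equiv.symm_apply_apply] at this
  refine ⟨_, fun l => u (e l), I, fun l μ => ?_, fun l => ?_, by rwa [← map_mnr] at hI, ?_⟩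
  · beta_reduce
    rcases e l with μ | n
    · exact (MvPolynomial.totalDegree_C _).trans_le m.zero_le
    · exact rw2_deg _ _ _ _
  · let ψ : Fin m → ℚ⟦X⟧ →+* MvPowerSeries (Fin m) ℂ := fun i => (embC i).toRingHom.comp mp
    have b1 : (fun μ => mC (tv (fun i => vk k (G i)) μ)) = tens fun i => vk k ((G i).map (ψ i)) :=
      funext fun μ => by
        simp only [tv, tens, map_prod, rw_emb]
        exact prod_congr rfl fun i _ => map_vk (ψ i) _ _
    rw [b1]
    beta_reduce
    rcases e l with μ | n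
    · refine rw1_pair g (fun i => funext fun a => ?_) _
      have := congrArg (ψ i) (congrFun (w1 i) a)
      simp only [mulVec, dotProduct, map_sum, map_mul, map_vk, map_apply] at this
      simp only [mulVec, dotProduct, map_apply, g1]
      exact this
    · refine (rw2_pair g hκ c _ _).trans (mul_eq_zero_of_left ?_ _)
      have b2 : ∀ i, ((G i).map (ψ i)).adjugate *ᵥ (fun b => g (MvPolynomial.X (i, b))) =
          ((G i).map (ψ i)).det • fun b => MvPowerSeries.C (φ i b) := fun i => by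
        have : (fun b => g (MvPolynomial.X (i, b))) =
            (G i).map (ψ i) *ᵥ fun b => MvPowerSeries.C (φ i b) := funext fun b => by
          simp only [g3, Fx, mulVec, dotProduct, map_sum, map_mul, eC, map_apply]
          rfl
        rw [this, mulVec_mulVec, adjugate_mul, smul_mulVec, one_mulVec]
      have b3 := congrArg (fun z => (∏ i, ((G i).map (ψ i)).det) * MvPowerSeries.C z) hc
      simp only [dotProduct, tens, map_sum, map_mul, map_prod, mul_sum, map_zero, mul_zero] at b3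
      simp only [b2, g2, dotProduct, tens, Pi.smul_apply, smul_eq_mul, prod_mul_distrib]
      rw [← b3]
      exact sum_congr rfl fun α _ => mul_left_comm _ _ _
  · have b1 := card_le_univ (Fintype.piFinset M)
    have b2 : Fintype.card (∀ i, M' i) = ∏ i, (M' i).card := by simp
    simp only [ι, Fintype.card_sum, Fintype.card_subtype_compl, Fintype.card_coe, b2,
      ← Fintype.card_piFinset M]
    omega

end

end Pool.Agent.Lib.MP_5591bc_ag.V
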