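import Pool.Agent.Lib.MP_5591bc_ag.REst
import Pool.Agent.Lib.MP_5591bc_ag.RZero

/-! Siegel's lemma on a box; sizes and denominators of series in several variables. -/

namespace Pool.Agent.Lib.MP_5591bc_ag.V

open Matrix Finset MvPowerSeries R

noncomputable section

variable {σ A : Type*} [Fintype σ] [DecidableEq σ]

/-- weighted coefficients -/
def wn (ρ : σ → ℝ) (F : MvPowerSeries σ ℚ) (ν : σ →₀ ℕ) : ℝ :=
  |((coeff ν F : ℚ) : ℝ)| * ∏ i, ρ i ^ ν i

omit [DecidableEq σ] in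
theorem wn_nonneg {ρ : σ → ℝ} (hρ : ∀ i, 0 ≤ ρ i) (F : MvPowerSeries σ ℚ) (ν : σ →₀ ℕ) :
    0 ≤ wn ρ F ν := nr_term hρ ν _

theorem wn_mul {ρ : σ → ℝ} (hρ : ∀ i, 0 ≤ ρ i) (F G : MvPowerSeries σ ℚ) (ν : σ →₀ ℕ) :
    wn ρ (F * G) ν ≤ ∑ p ∈ antidiagonal ν, wn ρ F p.1 * wn ρ G p.2 := by
  rw [wn, coeff_mul, Rat.cast_sum]
  refine (mul_le_mul_of_nonneg_right (abs_sum_le_sum_abs _ _)
    (prod_nonneg fun i _ => pow_nonneg (hρ i) _)).trans ?_
  rw [sum_mul]
  refine le_of_eq (sum_congr rfl fun p hp => ?_)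
  rw [← mem_antidiagonal.1 hp]
  simp only [wn, Rat.cast_mul, abs_mul, Finsupp.add_apply, pow_add, prod_mul_distrib]
  ring

/-- series that converge absolutely on a closed polydisc -/
def SZ (ρ : σ → ℝ) (hρ : ∀ i, 0 ≤ ρ i) : Subring (MvPowerSeries σ ℚ) where
  carrier := {F | Summable (wn ρ F)}
  add_mem' := fun {F G} (h : Summable (wn ρ F)) (h' : Summable (wn ρ G)) =>
    (h.add h').of_nonneg_of_le (wn_nonneg hρ _) fun ν => by
      rw [wn, wn, wn, map_add, Rat.cast_add, ← add_mul]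
      exact mul_le_mul_of_nonneg_right (abs_add_le _ _) (prod_nonneg fun i _ => pow_nonneg (hρ i) _)
  mul_mem' := fun {F G} (h : Summable (wn ρ F)) (h' : Summable (wn ρ G)) =>
    (summable_sum_mul_antidiagonal_of_summable_mul (f := wn ρ F) (g := wn ρ G)
      (h.mul_of_nonneg h' (wn_nonneg hρ _) (wn_nonneg hρ _))).of_nonneg_of_le (wn_nonneg hρ _)
      (wn_mul hρ F G)
  one_mem' := summable_of_ne_finset_zero (s := {0}) fun ν h => by
    rw [wn, coeff_one, if_neg (by simpa using h)]; simp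
  zero_mem' := summable_of_ne_finset_zero (s := ∅) fun ν _ => by simp [wn]
  neg_mem' := fun {F} (h : Summable (wn ρ F)) => h.congr fun ν => by simp [wn]

theorem SZ.poly {ρ : σ → ℝ} (hρ : ∀ i, 0 ≤ ρ i) (p : MvPolynomial σ ℚ) :
    (p : MvPowerSeries σ ℚ) ∈ SZ ρ hρ :=
  summable_of_ne_finset_zero (s := p.support) fun ν h => by
    rw [wn, MvPolynomial.coeff_coe, MvPolynomial.notMem_support_iff.1 h]; simp

theorem SZ.emb {ρ : σ → ℝ} (hρ : ∀ i, 0 ≤ ρ i) {a : ℕ} {f : A → PowerSeries ℚ} (hf : GF a f) (i : σ)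
    (h : a * ρ i < 1) (x : A) : emb i (f x) ∈ SZ ρ hρ := by
  refine ((Finsupp.single_injective i).summable_iff (f := wn ρ _) fun ν hν => ?_).1 ?_
  · rw [wn, (by_contra fun e => hν ⟨_, (coeff_emb_ne e).symm⟩ : coeff ν (R.emb i (f x)) = 0)]; simp
  · refine ((summable_geometric_of_lt_one (mul_nonneg a.cast_nonneg (hρ i)) h).mul_left
      (a : ℝ)).of_nonneg_of_le (fun k => wn_nonneg hρ _ _) fun k => ?_
    simp only [Function.comp_apply, wn, coeff_emb]
    rw [prod_eq_single i (fun j _ e => by simp [Finsupp.single_eq_of_ne e]) (by simp),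
      Finsupp.single_eq_same, mul_pow, ← mul_assoc, ← pow_succ']
    exact mul_le_mul_of_nonneg_right ((hf k).1 x) (pow_nonneg (hρ i) _)

theorem SZ.le {ρ : σ → ℝ} {hρ : ∀ i, 0 ≤ ρ i} {F : MvPowerSeries σ ℚ} (h : F ∈ SZ ρ hρ) :
    ∃ C : ℝ, ∀ ν : σ →₀ ℕ, wn ρ F ν ≤ C :=
  ⟨_, fun ν => Summable.le_tsum (f := wn ρ F) h ν fun j _ => wn_nonneg hρ F j⟩

/-- denominators of a series of degree at most `n` in the `f x` -/
def Den (f : A → PowerSeries ℚ) (n : ℕ) (F : MvPowerSeries σ ℚ) : Prop :=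
  ∃ C : ℕ, 0 < C ∧ ∀ t d : ℕ, (∀ x, ∀ j ≤ t, ∃ z : ℤ, (d : ℚ) * PowerSeries.coeff j (f x) = z) →
    ∀ ν : σ →₀ ℕ, (∀ i, ν i ≤ t) → ∃ z : ℤ, (C * d ^ n : ℚ) * coeff ν F = z

variable {f : A → PowerSeries ℚ} {n k : ℕ} {F G : MvPowerSeries σ ℚ}

omit [Fintype σ] [DecidableEq σ] in
theorem Den.mono (h : Den f n F) (hk : n ≤ k) : Den f k F :=
  let ⟨C, h0, h1⟩ := h
  ⟨C, h0, fun t d hd ν hν => let ⟨z, hz⟩ := h1 t d hd ν hν
    ⟨d ^ (k - n) * z, by
      push_cast; rw [← hz, ← Nat.sub_add_cancel hk, pow_add, Nat.add_sub_cancel]; ring⟩⟩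

omit [Fintype σ] [DecidableEq σ] in
theorem Den.add (h : Den f n F) (h' : Den f n G) : Den f n (F + G) :=
  let ⟨C, h0, h1⟩ := h
  let ⟨D, g0, g1⟩ := h'
  ⟨C * D, Nat.mul_pos h0 g0, fun t d hd ν hν =>
    let ⟨z, hz⟩ := h1 t d hd ν hν
    let ⟨y, hy⟩ := g1 t d hd ν hν
    ⟨D * z + C * y, by push_cast; rw [← hz, ← hy, map_add]; ring⟩⟩

omit [Fintype σ] in
theorem Den.mul (h : Den f n F) (h' : Den f k G) : Den f (n + k) (F * G) := by
  obtain ⟨C, h0, h1⟩ := h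
  obtain ⟨D, g0, g1⟩ := h'
  refine ⟨C * D, Nat.mul_pos h0 g0, fun t d hd ν hν => ?_⟩
  have : ∀ p ∈ antidiagonal ν, ∃ z : ℤ,
      ((C * D : ℕ) * d ^ (n + k) : ℚ) * (coeff p.1 F * coeff p.2 G) = z := fun p hp => by
    have e := fun i => (Finsupp.add_apply p.1 p.2 i).symm.trans_le
      ((DFunLike.congr_fun (mem_antidiagonal.1 hp) i).trans_le (hν i))
    obtain ⟨z, hz⟩ := h1 t d hd p.1 fun i => le_trans (Nat.le_add_right _ _) (e i)
    obtain ⟨y, hy⟩ := g1 t d hd p.2 fun i => le_trans (Nat.le_add_left _ _) (e i)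
    exact ⟨z * y, by push_cast; rw [← hz, ← hy]; ring⟩
  choose! z hz using this
  exact ⟨∑ p ∈ antidiagonal ν, z p, by
    rw [coeff_mul, mul_sum, Int.cast_sum]; exact sum_congr rfl hz⟩

omit [Fintype σ] [DecidableEq σ] in
theorem Den.poly (p : MvPolynomial σ ℚ) : Den f 0 (p : MvPowerSeries σ ℚ) := by
  classical
  refine ⟨∏ ν ∈ p.support, (p.coeff ν).den, prod_pos fun ν _ => Rat.den_pos _, fun t d _ ν _ => ?_⟩
  rw [MvPolynomial.coeff_coe]
  by_cases h : ν ∈ p.support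
  · exact ⟨(∏ μ ∈ p.support.erase ν, (p.coeff μ).den : ℕ) * (p.coeff ν).num, by
      rw [← prod_erase_mul _ _ h, Nat.cast_mul, pow_zero, mul_one, mul_assoc, Rat.den_mul_eq_num]
      simp⟩
  · exact ⟨0, by rw [MvPolynomial.notMem_support_iff.1 h]; simp⟩

omit [Fintype σ] [DecidableEq σ] in
theorem Den.emb (i : σ) (x : A) : Den f 1 (emb i (f x)) := by
  refine ⟨1, one_pos, fun t d hd ν hν => ?_⟩
  by_cases h : coeff ν (R.emb i (f x)) = 0
  · exact ⟨0, by rw [h]; simp⟩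
  · rw [coeff_emb_ne h, coeff_emb]
    simpa using hd x _ (hν i)

omit [Fintype σ] [DecidableEq σ] in
theorem Den.int (z : ℤ) : Den f n (z : MvPowerSeries σ ℚ) := by
  simpa [← MvPolynomial.coeToMvPowerSeries.ringHom_apply] using
    (Den.poly (f := f) (z : MvPolynomial σ ℚ)).mono n.zero_le

omit [Fintype σ] [DecidableEq σ] in
theorem Den.sum {ι : Type*} (s : Finset ι) {F : ι → MvPowerSeries σ ℚ} (h : ∀ x ∈ s, Den f n (F x)) :
    Den f n (∑ x ∈ s, F x) :=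
  sum_induction _ _ (fun _ _ => Den.add) (by simpa using Den.int 0) h

omit [Fintype σ] in
theorem Den.prod {ι : Type*} (s : Finset ι) {F : ι → MvPowerSeries σ ℚ} {a : ι → ℕ}
    (h : ∀ x, Den f (a x) (F x)) : Den f (∑ x ∈ s, a x) (∏ x ∈ s, F x) := by
  classical
  induction s using Finset.induction_on with
  | empty => simpa using Den.int 1
  | insert x s hx ih => rw [sum_insert hx, prod_insert hx]; exact (h x).mul ih

theorem sie_box {B M : Type*} [Fintype B] [Fintype M] (F : B → M → MvPowerSeries σ ℚ) {w : σ → ℕ}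
    (hw : ∀ i, 0 < w i) {E c d : ℕ} (hM : 0 < Fintype.card M)
    (hc : 2 * Fintype.card B * c ^ Fintype.card σ ≤ Fintype.card M) (hd : 0 < d) {a : ℝ}
    (ha : 1 ≤ a) (hF : ∀ β μ ν, Finsupp.weight w ν < c * E →
      ∃ z : ℤ, (d : ℚ) * coeff ν (F β μ) = z ∧ |(z : ℝ)| ≤ a) :
    ∃ P : M → MvPolynomial σ ℚ, P ≠ 0 ∧ (∀ μ, P μ ∈ ZP σ ∧
      (∀ i, MvPolynomial.degreeOf i (P μ) ≤ E / w i) ∧
      nr 1 (P μ) ≤ Fintype.card M * (∏ i, ((E / w i + 1 : ℕ) : ℝ)) ^ 2 * a) ∧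
      ∀ β, Vn w (c * E) (∑ μ, F β μ * P μ) := by
  let S := bx fun i => E / w i
  let U := (bx fun i => c * (E / w i + 1) - 1).filter fun ν => Finsupp.weight w ν < c * E
  have S0 : 0 < S.card := card_pos.2 ⟨0, mem_bx.2 fun _ => Nat.zero_le _⟩
  have hU : U.card ≤ c ^ Fintype.card σ * S.card := by
    rcases c.eq_zero_or_pos with e | e
    · simp [U, e]
    refine (card_filter_le _ _).trans ?_
    rw [card_bx, card_bx, ← card_univ, ← prod_const, ← prod_mul_distrib]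
    exact prod_le_prod' fun i _ => (Nat.sub_add_cancel (Nat.mul_pos e (Nat.succ_pos _))).le
  choose! z hz1 hz2 using hF
  have hle : ∀ ν j : σ →₀ ℕ, Finsupp.weight w (ν - j) ≤ Finsupp.weight w ν := fun ν j => by
    rw [weight_eq, weight_eq]
    exact sum_le_sum fun i _ => Nat.mul_le_mul_right _ (Nat.sub_le _ _)
  obtain ⟨q, q0, q1, q2⟩ := siegel2 (of fun (x : B × U) (j : M × S) =>
    if j.2.1 ≤ x.2.1 then z x.1 j.1 (x.2.1 - j.2.1) else 0) ha (fun x j => by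
      rw [of_apply]
      split_ifs
      · exact hz2 _ _ _ ((hle _ _).trans_lt (mem_filter.1 x.2.2).2)
      · simpa using zero_le_one.trans ha) (by simpa using ⟨hM, card_pos.1 S0⟩) (by
      simp only [Fintype.card_prod, Fintype.card_coe]
      calc _ ≤ 2 * (Fintype.card B * (c ^ Fintype.card σ * S.card)) := by gcongr
        _ = 2 * Fintype.card B * c ^ Fintype.card σ * S.card := by ring
        _ ≤ _ := by gcongr)
  obtain ⟨j0, hj0⟩ := Function.ne_iff.1 q0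
  have hco : ∀ μ ν, MvPolynomial.coeff ν (∑ j : S, MvPolynomial.monomial j.1 (q (μ, j) : ℚ)) =
      if h : ν ∈ S then (q (μ, ⟨ν, h⟩) : ℚ) else 0 := fun μ ν => by
    rw [MvPolynomial.coeff_sum]
    split_ifs with h
    · rw [sum_eq_single ⟨ν, h⟩ (fun j _ e => by
        rw [MvPolynomial.coeff_monomial, if_neg fun e' => e (Subtype.ext e')]) (by simp)]
      simp
    · exact sum_eq_zero fun j _ => by
        rw [MvPolynomial.coeff_monomial, if_neg fun e' : j.1 = ν => h (e' ▸ j.2)]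
  refine ⟨fun μ => ∑ j : S, MvPolynomial.monomial j.1 (q (μ, j) : ℚ), fun h => hj0 ?_,
    fun μ => ⟨mem_ZP.2 fun ν => ?_, fun i => ?_, ?_⟩, fun β ν hν => ?_⟩
  · have := hco j0.1 j0.2.1
    rw [congrFun h j0.1, dif_pos j0.2.2] at this
    simpa using this.symm
  · rw [hco]
    split_ifs
    · exact ⟨_, rfl⟩
    · exact ⟨0, rfl⟩
  · refine MvPolynomial.degreeOf_le_iff.2 fun ν hν => ?_
    have : ν ∈ S := by_contra fun h => MvPolynomial.mem_support_iff.1 hν (by rw [hco, dif_neg h])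
    exact mem_bx.1 this i
  · have hS : (S.card : ℝ) = ∏ i, ((E / w i + 1 : ℕ) : ℝ) := by rw [card_bx, Nat.cast_prod]
    refine (nr_sum (fun _ => zero_le_one) _ _).trans ((sum_le_card_nsmul _ _
      (Fintype.card M * S.card * a) fun j _ => ?_).trans ?_)
    · simpa [nr_monomial] using q2 (μ, j)
    · rw [nsmul_eq_mul, card_univ, Fintype.card_coe, ← hS]
      exact le_of_eq (by ring)
  · have hνU : ν ∈ U := mem_filter.2 ⟨mem_bx.2 fun i => Nat.le_sub_one_of_lt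
      (lt_of_mul_lt_mul_right (((le_weight w ν i).trans_lt hν).trans_le (by
        rw [mul_assoc]
        exact Nat.mul_le_mul_left _ (by
          have := Nat.lt_div_mul_add (a := E) (hw i)
          nlinarith))) (Nat.zero_le (w i))), hν⟩
    have h4 := congrArg (Int.cast : ℤ → ℚ) (congrFun q1 (β, ⟨ν, hνU⟩))
    apply mul_left_cancel₀ (Nat.cast_ne_zero.2 hd.ne' : (d : ℚ) ≠ 0)
    rw [mul_zero]
    refine Eq.trans ?_ (h4.trans (by simp))
    simp only [map_sum, mul_sum, mulVec, dotProduct, of_apply, Fintype.sum_prod_type,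
      ← MvPolynomial.coeToMvPowerSeries.ringHom_apply, Int.cast_sum]
    refine sum_congr rfl fun μ _ => sum_congr rfl fun j _ => ?_
    rw [MvPolynomial.coeToMvPowerSeries.ringHom_apply, MvPolynomial.coe_monomial, coeff_mul_monomial]
    split_ifs
    · rw [Int.cast_mul, ← hz1 _ _ _ ((hle _ _).trans_lt hν)]; ring
    · simp

omit [Fintype σ] [DecidableEq σ] in
theorem Den.pi {ι : Type*} [Fintype ι] {F : ι → MvPowerSeries σ ℚ} (h : ∀ x, Den f n (F x)) :
    ∃ C : ℕ, 0 < C ∧ ∀ t d : ℕ, (∀ x, ∀ j ≤ t, ∃ z : ℤ, (d : ℚ) * PowerSeries.coeff j (f x) = z) →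
      ∀ x (ν : σ →₀ ℕ), (∀ i, ν i ≤ t) → ∃ z : ℤ, (C * d ^ n : ℚ) * coeff ν (F x) = z := by
  classical
  choose C h0 h1 using h
  refine ⟨∏ x, C x, prod_pos fun x _ => h0 x, fun t d hd x ν hν => ?_⟩
  obtain ⟨z, hz⟩ := h1 x t d hd ν hν
  exact ⟨(∏ y ∈ univ.erase x, C y : ℕ) * z, by
    rw [← prod_erase_mul _ _ (mem_univ x), Nat.cast_mul, mul_assoc, mul_assoc, ← mul_assoc (C x : ℚ),
      hz]; simp⟩

theorem sie_fin {B M : Type*} [Fintype B] [Fintype M] {α c : ℕ} (hf : GF (2 ^ α) f)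
    (F : B → M → MvPowerSeries σ ℚ) (hD : ∀ β μ, Den f n (F β μ))
    (hS : ∀ β μ, F β μ ∈ SZ (fun _ => (2 * 2 ^ α : ℝ)⁻¹) fun _ => by positivity)
    (hM : 0 < Fintype.card M) (c0 : 0 < c)
    (hc : 2 * Fintype.card B * c ^ Fintype.card σ ≤ Fintype.card M) :
    ∃ t0, ∀ t ≥ t0, ∀ (w : σ → ℕ) (E : ℕ), (∀ i, 0 < w i) → (∀ i, c * E ≤ t * w i) →
      ∃ P : M → MvPolynomial σ ℚ, P ≠ 0 ∧
        (∀ μ, Bd (fun i => E / w i) ((2 * n * α + (α + 3) * Fintype.card σ + 1) * t) (P μ)) ∧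
        ∀ β, Vn w (c * E) (∑ μ, F β μ * P μ) := by
  set m := Fintype.card σ with hm
  obtain ⟨C, C0, hC⟩ := Den.pi (F := fun x : B × M => F x.1 x.2) fun x => hD _ _
  choose K hK using fun x : B × M => SZ.le (hS x.1 x.2)
  obtain ⟨K0, hK0⟩ := (Set.finite_range K).bddAbove
  obtain ⟨t0, ht0⟩ := pow_unbounded_of_one_lt (Fintype.card M * (C * max K0 1) : ℝ) one_lt_two
  refine ⟨t0 + 1, fun t ht w E hw hE => ?_⟩
  obtain ⟨-, d, d0, d1, d2⟩ := hf t
  have hν : ∀ ν : σ →₀ ℕ, Finsupp.weight w ν < c * E → ∀ i, ν i ≤ t := fun ν h i =>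
    Nat.le_of_mul_le_mul_right ((le_weight w ν i).trans (h.le.trans (hE i))) (hw i)
  have C1 : (1 : ℝ) ≤ C := by exact_mod_cast C0
  obtain ⟨P, P0, P1, P2⟩ := sie_box F hw (E := E) (d := C * d ^ n) hM hc (by positivity)
    (a := C * max K0 1 * 2 ^ ((2 * n * α + (α + 1) * m) * t))
    (one_le_mul_of_one_le_of_one_le (one_le_mul_of_one_le_of_one_le C1 (le_max_right _ _))
      (one_le_pow₀ one_le_two)) fun β μ ν h => by
      obtain ⟨z, hz⟩ := hC t d d2 (β, μ) ν (hν ν h)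
      refine ⟨z, by exact_mod_cast hz, ?_⟩
      have e1 := (hK (β, μ) ν).trans ((hK0 ⟨_, rfl⟩).trans (le_max_left K0 1))
      rw [wn, prod_pow_eq_pow_sum, inv_pow, ← div_eq_mul_inv, div_le_iff₀ (by positivity),
        ← pow_succ', ← pow_mul] at e1
      have e2 : (d : ℝ) ^ n ≤ 2 ^ (2 * n * α * t) := by
        have := Nat.pow_le_pow_left d1 n
        rw [← pow_mul, ← pow_mul] at this
        exact_mod_cast this.trans (Nat.pow_le_pow_right two_pos (by
          nlinarith [Nat.mul_le_mul_left (n * α) (show 1 ≤ t by omega)]))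
      have e3 : ∑ i, ν i ≤ m * t := sum_le_card_nsmul _ _ _ fun i _ => hν ν h i
      rw [← Rat.cast_intCast, ← hz]
      push_cast
      rw [abs_mul, abs_of_nonneg (by positivity), add_mul, pow_add]
      refine (mul_le_mul (mul_le_mul_of_nonneg_left e2 (by positivity)) (e1.trans
        (mul_le_mul_of_nonneg_left (pow_le_pow_right₀ one_le_two (Nat.mul_le_mul_left _ e3))
          (by positivity))) (abs_nonneg _) (by positivity)).trans (le_of_eq ?_)
      ring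
  refine ⟨P, P0, fun μ => ⟨(P1 μ).1, (P1 μ).2.1, (P1 μ).2.2.trans ?_⟩, P2⟩
  have e4 : ∏ i, ((E / w i + 1 : ℕ) : ℝ) ≤ 2 ^ (m * t) := by
    rw [mul_comm, pow_mul]
    exact_mod_cast prod_le_pow_card _ _ (2 ^ t) fun i _ => Nat.succ_le_of_lt (lt_of_le_of_lt
      (Nat.div_le_of_le_mul (by nlinarith [hE i])) Nat.lt_two_pow_self)
  calc _ ≤ Fintype.card M * (2 ^ (m * t)) ^ 2 * (C * max K0 1 * 2 ^ ((2 * n * α + (α + 1) * m) * t)) := by
        gcongr
    _ = Fintype.card M * (C * max K0 1) * 2 ^ ((2 * n * α + (α + 3) * m) * t) := by ring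
    _ ≤ 2 ^ t * 2 ^ ((2 * n * α + (α + 3) * m) * t) := by
        gcongr
        exact ht0.le.trans (pow_le_pow_right₀ one_le_two (by omega))
    _ = _ := by ring

end

end Pool.Agent.Lib.MP_5591bc_ag.V
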