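import Pool.Agent.Lib.MP_5591bc_ag.V.Defs
import Pool.Agent.Lib.MP_5591bc_ag.V.SieA

/-! The auxiliary polynomials. -/

namespace Pool.Agent.Lib.MP_5591bc_ag.V

open Matrix Finset Filter Topology PowerSeries G R Function

noncomputable section

variable {σ α : Type*} [Fintype σ] [DecidableEq σ]

omit [Fintype σ] in
theorem den_e0 (f : α → ℚ⟦X⟧) {n : ℕ} {q : Ot σ α} (h : q.totalDegree ≤ n) : Den f n (e0 f q) := by
  rw [q.as_sum, map_sum]
  refine Den.sum _ fun s hs => ?_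
  rw [e0, MvPolynomial.eval₂Hom_monomial]
  exact ((Den.poly _).mul (Den.prod s.support (a := fun p => s p) fun p => by
    simpa using Den.prod (range (s p)) fun _ => Den.emb (f := f) p.1 p.2)).mono
    ((zero_add _).trans_le ((MvPolynomial.le_totalDegree hs).trans h))

theorem sz_e0 {f : α → ℚ⟦X⟧} {a : ℕ} (hf : GF a f) {ρ : σ → ℝ} (hρ : ∀ i, 0 ≤ ρ i)
    (h : ∀ i, a * ρ i < 1) (q : Ot σ α) : e0 f q ∈ SZ ρ hρ := by
  induction q using MvPolynomial.induction_on with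
  | C p => rw [e0, MvPolynomial.eval₂Hom_C]; exact SZ.poly hρ p
  | add p q hp hq => rw [map_add]; exact add_mem hp hq
  | mul_X p x hp =>
    rw [map_mul]
    refine mul_mem hp ?_
    rw [e0, MvPolynomial.eval₂Hom_X']
    exact SZ.emb hρ hf x.1 (h _) _

theorem sie (J : Type*) [Fintype J] [DecidableEq J] {f : α → ℚ⟦X⟧} {a : ℕ} (hf : GF a f)
    (n c : ℕ) (c0 : 0 < c) : ∃ c1, ∀ (q : J → J → Ot σ α) (Eq Un : Finset J),
      (∀ β μ, (q β μ).totalDegree ≤ n) → (∀ β ∉ Eq, ∀ μ, q β μ = 0) → 0 < Un.card →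
      2 * c ^ Fintype.card σ * Eq.card ≤ Un.card → ∃ t0, ∀ t ≥ t0, ∀ (w : σ → ℕ) (E : ℕ),
      (∀ i, 0 < w i) → (∀ i, c * E ≤ t * w i) → ∃ P : J → MvPolynomial σ ℚ, P ≠ 0 ∧
        (∀ μ ∉ Un, P μ = 0) ∧ (∀ μ, Bd (fun i => E / w i) (c1 * t) (P μ)) ∧
        ∀ β, Vn w (c * E) (∑ μ, e0 f (q β μ) * P μ) := by
  refine ⟨2 * n * a + (a + 3) * Fintype.card σ + 1, fun q Eq Un h1 h2 h3 h4 => ?_⟩
  have hf' : GF (2 ^ a) f := hf.mono Nat.lt_two_pow_self.le
  obtain ⟨t0, h⟩ := sie_fin hf' (fun (β : Eq) (μ : Un) => e0 f (q β μ))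
    (fun _ _ => den_e0 f (h1 _ _)) (fun _ _ => sz_e0 hf' _ (fun _ => by
      rw [← div_eq_mul_inv, div_lt_one (by positivity)]
      push_cast
      linarith [pow_pos (two_pos (α := ℝ)) a]) _) (by simpa using h3) c0
    (by simpa [mul_right_comm] using h4)
  refine ⟨t0, fun t ht w E hw hE => ?_⟩
  obtain ⟨P, P0, P1, P2⟩ := h t ht w E hw hE
  refine ⟨fun μ => if hμ : μ ∈ Un then P ⟨μ, hμ⟩ else 0, fun e => P0 (funext fun μ => ?_),
    fun μ hμ => dif_neg hμ, fun μ => ?_, fun β => ?_⟩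
  · simpa using congrFun e μ
  · by_cases hμ : μ ∈ Un
    · simpa [hμ] using P1 ⟨μ, hμ⟩
    · simp only [dif_neg hμ]
      exact ⟨zero_mem _, fun i => by simp, by rw [nr_zero]; positivity⟩
  · by_cases hβ : β ∈ Eq
    · rw [← sum_subset (subset_univ Un) fun μ _ hμ => by simp [hμ], ← sum_coe_sort]
      simpa using P2 ⟨β, hβ⟩
    · exact fun d _ => by simp [h2 β hβ]

end

end Pool.Agent.Lib.MP_5591bc_ag.V
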