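import Pool.Agent.Lib.MP_5591bc_ag.V.Defs

/-! The arithmetic estimate. -/

namespace Pool.Agent.Lib.MP_5591bc_ag.V

open Matrix Finset Filter Topology PowerSeries G R Function

noncomputable section

variable {σ α J : Type*} [Fintype σ] [DecidableEq σ] [Fintype J] [DecidableEq J]

omit [Fintype σ] in
theorem est_ren {k : Type*} [CommRing k] (i : σ) (g : k⟦X⟧) (d : σ →₀ ℕ) :
    MvPowerSeries.coeff d (MvPowerSeries.rename (fun _ : Unit => i) g) =
      if d = Finsupp.single i (d i) then coeff (d i) g else 0 := by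
  split_ifs with e
  · have := MvPowerSeries.coeff_embDomain_rename
      (⟨fun _ : Unit => i, fun _ _ _ => rfl⟩ : Unit ↪ σ) g (Finsupp.single () (d i))
    rw [Finsupp.embDomain_single] at this
    conv_lhs => rw [e]
    exact this
  · refine MvPowerSeries.coeff_rename_eq_zero _ _ fun ⟨x, hx⟩ => e ?_
    rw [← hx, Finsupp.unique_single x, Finsupp.mapDomain_single, Finsupp.single_eq_same]

omit [Fintype σ] in
theorem est_lim {f : α → ℚ⟦X⟧} {ξ : σ → ℚ} {F : σ → α → ℂ⟦X⟧} (hF : ∀ i, Lim f (ξ i) (F i))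
    (o : Ot σ α) : ∀ ν, Tendsto
      (fun K => ((MvPowerSeries.coeff ν (τs ξ (eK f K o)) : ℚ) : ℂ)) atTop
      (𝓝 (MvPowerSeries.coeff ν (eX ξ F o))) := by
  induction o using MvPolynomial.induction_on with
  | C a =>
    intro ν
    simp only [eK, eX, MvPolynomial.eval_C, MvPolynomial.eval₂Hom_C, RingHom.comp_apply, mC,
      MvPowerSeries.coeff_map, eq_ratCast]
    exact tendsto_const_nhds
  | add p q hp hq =>
    intro ν
    simp only [map_add, Rat.cast_add]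
    exact (hp ν).add (hq ν)
  | mul_X p j hp =>
    intro ν
    have e1 : ∀ K, τs ξ (eK f K (MvPolynomial.X j)) = emb j.1 (τ1 (ξ j.1) (trunc K (f j.2))) :=
      fun K => by rw [eK, MvPolynomial.eval_X, τs_toMv]
    have e2 : eX ξ F (MvPolynomial.X j) = embC j.1 (F j.1 j.2) := MvPolynomial.eval₂Hom_X' _ _ _
    simp only [map_mul, e1, e2, MvPowerSeries.coeff_mul, Rat.cast_sum, Rat.cast_mul]
    refine tendsto_finsetSum _ fun x _ => (hp _).mul ?_
    simp only [emb, embC, est_ren]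
    split_ifs
    · exact hF _ _ _
    · simp

omit [Fintype σ] in
theorem est_low {f : α → ℚ⟦X⟧} {K : ℕ} (o : Ot σ α) : ∀ d : σ →₀ ℕ, (∀ i, d i < K) →
    (eK f K o).coeff d = MvPowerSeries.coeff d (e0 f o) := by
  induction o using MvPolynomial.induction_on with
  | C a =>
    intro d _
    simp [eK, e0]
  | add p q hp hq =>
    intro d hd
    simp only [map_add, MvPolynomial.coeff_add, hp d hd, hq d hd]
  | mul_X p j hp =>
    intro d hd
    have e1 : eK f K (MvPolynomial.X j) = toMv j.1 (trunc K (f j.2)) := MvPolynomial.eval_X _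
    have e2 : e0 f (MvPolynomial.X j : Ot σ α) = emb j.1 (f j.2) := MvPolynomial.eval₂Hom_X' _ _ _
    simp only [map_mul, e1, e2, MvPowerSeries.coeff_mul, MvPolynomial.coeff_mul]
    refine sum_congr rfl fun x hx => ?_
    have e := mem_antidiagonal.1 hx
    rw [hp _ fun i => lt_of_le_of_lt (by rw [← e]; exact Nat.le_add_right _ _) (hd i),
      ← MvPolynomial.coeff_coe, coe_toMv]
    simp only [emb, est_ren, Polynomial.coeff_coe, coeff_trunc]
    rw [if_pos (lt_of_le_of_lt (by rw [← e]; exact Nat.le_add_left _ _) (hd j.1))]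

omit [DecidableEq σ] in
theorem est_bdd {f : α → ℚ⟦X⟧} {a : ℕ} (hf : GF (2 ^ a) f) (o : Ot σ α) :
    ∃ M : ℝ, ∀ K, nr (fun _ => (2 * 2 ^ a)⁻¹) (eK f K o) ≤ M := by
  have hr : ∀ _ : σ, (0 : ℝ) ≤ (2 * 2 ^ a)⁻¹ := fun _ => by positivity
  induction o using MvPolynomial.induction_on with
  | C p => exact ⟨_, fun K => by rw [eK, MvPolynomial.eval_C]⟩
  | add p q hp hq =>
    obtain ⟨M, hM⟩ := hp
    obtain ⟨N, hN⟩ := hq
    exact ⟨M + N, fun K => by
      rw [map_add]; exact (nr_add hr _ _).trans (add_le_add (hM K) (hN K))⟩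
  | mul_X p j hp =>
    obtain ⟨M, hM⟩ := hp
    refine ⟨M * 2 ^ (a + 1), fun K => ?_⟩
    have e1 : eK f K (MvPolynomial.X j) = toMv j.1 (trunc K (f j.2)) := MvPolynomial.eval_X _
    rw [map_mul, e1]
    refine (nr_mul hr _ _).trans (mul_le_mul (hM K) ?_ (nr_nonneg hr _)
      ((nr_nonneg hr _).trans (hM K)))
    rw [trunc_apply, map_sum, Nat.Ico_zero_eq_range]
    refine (nr_sum hr _ _).trans ((sum_le_sum (g := fun k => (1 / 2 : ℝ) ^ k * 2 ^ a)
      fun k _ => ?_).trans ?_)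
    · rw [toMv, Polynomial.aeval_monomial, MvPolynomial.algebraMap_eq]
      refine (nr_mul hr _ _).trans ?_
      rw [nr_C]
      refine (mul_le_mul ((hf k).1 _) ((nr_pow hr _ _).trans (by rw [nr_X])) (nr_nonneg hr _)
        (by positivity)).trans (le_of_eq ?_)
      push_cast; rw [mul_inv, mul_pow, inv_pow (2 ^ a), pow_succ]; field_simp
    · rw [← sum_mul, pow_succ']
      exact mul_le_mul_of_nonneg_right (sum_geometric_two_le K) (by positivity)

omit [Fintype σ] in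
theorem est_first {D F : MvPowerSeries σ ℂ} {ν : σ →₀ ℕ}
    (h : ∀ μ < ν, MvPowerSeries.coeff μ F = 0) :
    MvPowerSeries.coeff ν (D * F) = MvPowerSeries.constantCoeff D * MvPowerSeries.coeff ν F := by
  rw [MvPowerSeries.coeff_mul, sum_eq_single_of_mem (0, ν) (by simp)]
  · simp
  · intro x hx hne
    have e := mem_antidiagonal.1 hx
    rw [h x.2 (lt_of_le_of_ne (e ▸ le_add_self) fun e2 => hne ?_), mul_zero]
    rw [e2] at e
    exact Prod.ext (by simpa using e) e2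

theorem est_core {I : Type*} [Fintype I] {f : α → ℚ⟦X⟧} {a : ℕ} (hf : GF (2 ^ a) f) {ξ : σ → ℚ}
    {w : σ → ℕ} (hw : ∀ i, 0 < w i) {F : σ → α → ℂ⟦X⟧} (hF : ∀ i, Lim f (ξ i) (F i))
    {ρ : σ → ℝ} (hρ : ∀ i, 0 ≤ ρ i) {θ : ℝ} (h0 : 0 ≤ θ) (h1 : θ ≤ 1)
    (hξ : ∀ i, ρ i + |(ξ i : ℝ)| ≤ θ ^ w i * (2 * 2 ^ a)⁻¹) (o : I → Ot σ α) :
    ∃ N : ℝ, 0 ≤ N ∧ ∀ (A : MvPowerSeries σ ℚ) (M : ℝ),
      (∀ ν, |((MvPowerSeries.coeff ν A : ℚ) : ℝ)| * ∏ i, ρ i ^ ν i ≤ M) →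
      ∀ (P : I → MvPolynomial σ ℚ) (Θ : ℕ) (H : ℝ), (∀ γ, nr 1 (P γ) ≤ H) →
      Vn w Θ (∑ γ, e0 f (o γ) * (P γ : MvPowerSeries σ ℚ)) → ∀ ν,
      ‖MvPowerSeries.coeff ν (mC A * ∑ γ, eX ξ F (o γ) * mC (τs ξ (P γ)))‖ *
        ∏ i, ρ i ^ ν i ≤ M * (θ ^ Θ * (N * H)) := by
  have hr : ∀ _ : σ, (0 : ℝ) ≤ (2 * 2 ^ a)⁻¹ := fun _ => by positivity
  have r1 : (1 : ℝ) ≤ 2 * 2 ^ a := by linarith [one_le_pow₀ (n := a) (one_le_two (α := ℝ))]
  choose N hN using fun γ => est_bdd hf (o γ)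
  have N0 : ∀ γ, 0 ≤ N γ := fun γ => (nr_nonneg hr _).trans (hN γ 0)
  refine ⟨∑ γ, N γ, sum_nonneg fun γ _ => N0 γ, fun A M hA P Θ H hP hV ν => ?_⟩
  have M0 : 0 ≤ M := (nr_term hρ 0 _).trans (hA 0)
  have a1 : Tendsto (fun K => ((MvPowerSeries.coeff ν (A * (sh ξ (∑ γ, eK f K (o γ) * P γ) :
      MvPolynomial σ ℚ)) : ℚ) : ℂ)) atTop
      (𝓝 (MvPowerSeries.coeff ν (mC A * ∑ γ, eX ξ F (o γ) * mC (τs ξ (P γ))))) := by
    have e : ∀ p : MvPolynomial σ ℚ, ((sh ξ p : MvPolynomial σ ℚ) : MvPowerSeries σ ℚ) = τs ξ p :=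
      fun _ => rfl
    simp only [e]
    simp only [map_sum, map_mul, MvPowerSeries.coeff_mul, Rat.cast_sum, Rat.cast_mul, mC,
      MvPowerSeries.coeff_map, eq_ratCast]
    exact tendsto_finsetSum _ fun x _ => (tendsto_finsetSum _ fun γ _ =>
      tendsto_finsetSum _ fun y _ => (est_lim hF _ _).mul_const _).const_mul _
  refine le_of_tendsto (a1.norm.mul_const _) (eventually_atTop.2 ⟨Θ, fun K hK => ?_⟩)
  rw [← Complex.ofReal_ratCast, Complex.norm_real, Real.norm_eq_abs]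
  refine (coeff_mul_le hρ hA _ ν).trans (mul_le_mul_of_nonneg_left ((nr_sh hρ hξ _).trans
    ((nr_high (fun i => mul_nonneg (pow_nonneg h0 _) (hr i)) hr h0 h1 (fun _ => le_rfl)
      (D := Θ) (q := ∑ γ, eK f K (o γ) * P γ) fun d hd => ⟨?_, rfl⟩).trans
      (mul_le_mul_of_nonneg_left ?_ (pow_nonneg h0 _)))) M0)
  · by_contra hlt
    have hlt := not_le.1 hlt
    have hd' : ∀ i, d i < K := fun i => lt_of_le_of_lt ((Nat.le_mul_of_pos_right _ (hw i)).trans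
      (le_weight w d i)) (hlt.trans_le hK)
    refine hd (Eq.trans ?_ (hV d hlt))
    simp only [MvPolynomial.coeff_sum, map_sum, MvPolynomial.coeff_mul, MvPowerSeries.coeff_mul,
      MvPolynomial.coeff_coe]
    refine sum_congr rfl fun γ _ => sum_congr rfl fun x hx => ?_
    rw [est_low _ _ fun i => lt_of_le_of_lt (by
      rw [← mem_antidiagonal.1 hx]; exact Nat.le_add_right _ _) (hd' i)]
  · refine (nr_sum hr _ _).trans ?_
    rw [sum_mul]
    refine sum_le_sum fun γ _ => (nr_mul hr _ _).trans (mul_le_mul (hN γ K) ?_ (nr_nonneg hr _)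
      (N0 γ))
    have b1 := nr_high hr (r := 1) (fun _ => zero_le_one) zero_le_one le_rfl (w := w)
      (fun _ => by simpa using inv_le_one_of_one_le₀ r1) (D := 0) (p := P γ) (q := P γ)
      fun _ _ => ⟨Nat.zero_le _, rfl⟩
    rw [pow_zero, one_mul] at b1
    exact b1.trans (hP γ)

omit [DecidableEq σ] in
theorem est_box (ξ : σ → ℚ) {n : σ → ℕ} {p : MvPolynomial σ ℚ} (hp : p ∈ ZP σ)
    (hD : ∀ i, MvPolynomial.degreeOf i p ≤ n i) :
    ((∏ i, (ξ i).den ^ n i : ℕ) : ℚ) • sh ξ p ∈ ZP σ := by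
  rw [p.as_sum, map_sum, smul_sum]
  refine sum_mem fun d hd => ?_
  obtain ⟨z, hz⟩ := mem_ZP.1 hp d
  have := mul_mem (intCast_mem (ZP σ) z) (sh_int ξ d ((∏ i, (ξ i).den ^ n i : ℕ) : ℚ)
    fun j hj => by
      refine ⟨∏ i, ((ξ i).den ^ (n i - j i) * (ξ i).num ^ j i), ?_⟩
      push_cast
      rw [← prod_mul_distrib]
      refine prod_congr rfl fun i _ => ?_
      have h1 : j i ≤ n i := (hj i).trans ((MvPolynomial.monomial_le_degreeOf i hd).trans (hD i))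
      conv_lhs => rw [← Nat.sub_add_cancel h1]
      rw [pow_add, mul_assoc, ← mul_pow, mul_comm _ (ξ i), Rat.mul_den_eq_num])
  rwa [mul_smul_comm, ← map_intCast (sh ξ), ← map_mul,
    ← map_intCast (MvPolynomial.C : ℚ →+* MvPolynomial σ ℚ), MvPolynomial.C_mul_monomial, mul_one,
    ← hz] at this

theorem est_num {x d Z M D N ρ t : ℝ} {e u m : ℕ} (x0 : 0 ≤ x) (M0 : 0 ≤ M) (N0 : 0 ≤ N)
    (D0 : 0 < D) (Z0 : 0 ≤ Z) (hd : d ≤ 2 ^ (e * (2 * u)) * M)
    (hZ : Z ≤ 2 ^ (m * ((4 * e + 2) * u))) (hρ : 1 ≤ 2 ^ (e * (2 * u)) * ρ)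
    (ht : t ≤ (1 / 2) ^ ((m + 1) * ((4 * e + 2) * u)))
    (h : D * x * ρ ≤ M * (t * (N * 2 ^ u))) (hu : M * M * N / D < 2 ^ u) : d * Z * x < 1 := by
  have a1 : D * x ≤ 2 ^ (e * (2 * u)) *
      (M * ((1 / 2) ^ ((m + 1) * ((4 * e + 2) * u)) * (N * 2 ^ u))) := by
    refine (le_mul_of_one_le_right (by positivity) hρ).trans ?_
    rw [mul_left_comm]
    exact mul_le_mul_of_nonneg_left (h.trans (by gcongr)) (by positivity)
  rw [div_lt_iff₀ D0] at hu
  have a2 : d * Z * (D * x) ≤ 2 ^ (e * (2 * u)) * M * 2 ^ (m * ((4 * e + 2) * u)) *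
      (2 ^ (e * (2 * u)) * (M * ((1 / 2) ^ ((m + 1) * ((4 * e + 2) * u)) * (N * 2 ^ u)))) :=
    mul_le_mul (mul_le_mul hd hZ Z0 (by positivity)) a1 (by positivity) (by positivity)
  have a3 : (2 : ℝ) ^ (e * (2 * u)) * M * 2 ^ (m * ((4 * e + 2) * u)) *
      (2 ^ (e * (2 * u)) * (M * ((1 / 2) ^ ((m + 1) * ((4 * e + 2) * u)) * (N * 2 ^ u)))) =
      M * M * N / 2 ^ u := by
    rw [one_div, inv_pow]
    field_simp
    ring
  rw [a3, le_div_iff₀ (by positivity)] at a2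
  have a4 : (d * Z * x) * (2 ^ u * D) < 1 * (2 ^ u * D) := by linarith
  exact lt_of_mul_lt_mul_right a4 (by positivity)

theorem est_v {f : α → ℚ⟦X⟧} {a : ℕ} (hf : GF (2 ^ a) f) {ξ : σ → ℚ} {w : σ → ℕ}
    (w0 : ∀ i, 0 < w i) {F : σ → α → ℂ⟦X⟧} (hF : ∀ i, Lim f (ξ i) (F i)) {y : σ → J → ℚ⟦X⟧}
    {e : ℕ} (e2 : 2 ≤ e) (hy : ∀ i, GF (2 ^ (e * w i)) (y i)) {Δ : Ot σ α}
    {q : (σ → J) → (σ → J) → Ot σ α} (hΔ : MvPowerSeries.constantCoeff (eX ξ F Δ) ≠ 0)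
    (hq : ∀ μ, ∑ β, mC (tv y β) * eX ξ F (q β μ) = eX ξ F Δ * mC (tv y μ)) {θ : ℝ} {c : ℕ}
    (θ0 : 1 / 2 ≤ θ) (θ1 : θ ≤ 1) (hc : θ ^ c ≤ (1 / 2) ^ (Fintype.card σ + 1))
    (hd : ∀ i, (ξ i).den ≤ 2 ^ w i) (hξ : ∀ i, |(ξ i : ℝ)| ≤ θ ^ (2 * w i))
    (hθ : ∀ i, 4 * 2 ^ a * θ ^ w i ≤ 1) : ∃ u0, ∀ u ≥ u0, ∀ P : (σ → J) → MvPolynomial σ ℚ,
      (∀ μ, Bd (fun i => (4 * e + 2) * u / w i) u (P μ)) →
      (∀ β, Vn w (c * ((4 * e + 2) * u)) (∑ μ, e0 f (q β μ) * P μ)) →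
      Vn w (2 * u) ((fun μ => τs ξ (P μ)) ⬝ᵥ tv y) := by
  have h0 : 0 ≤ θ := by linarith
  have ρ0 : ∀ i, (0 : ℝ) ≤ (2 ^ (e * w i))⁻¹ := fun i => by positivity
  have hρ : ∀ i, ((2 : ℝ) ^ (e * w i))⁻¹ + |(ξ i : ℝ)| ≤ θ ^ w i * (2 * 2 ^ a)⁻¹ := fun i => by
    have c1 : ((2 : ℝ) ^ (e * w i))⁻¹ ≤ θ ^ (2 * w i) := by
      rw [pow_mul, pow_mul, ← inv_pow]
      refine pow_le_pow_left₀ (by positivity) ((inv_anti₀ (by positivity)
        (pow_le_pow_right₀ one_le_two e2)).trans (by nlinarith)) _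
    have c2 : θ ^ (2 * w i) = θ ^ w i * θ ^ w i := by ring
    have c3 : 0 ≤ θ ^ w i := by positivity
    rw [← div_eq_mul_inv, le_div_iff₀ (by positivity)]
    refine (mul_le_mul_of_nonneg_right (add_le_add c1 (hξ i)) (by positivity)).trans ?_
    rw [c2]
    linarith [mul_le_mul_of_nonneg_left (hθ i) c3]
  choose N N0 hN using fun β => est_core hf w0 hF ρ0 h0 θ1 hρ (q β)
  obtain ⟨M, hM⟩ : ∃ M : ℝ, M = ∏ i, 2 ^ (e * w i) := ⟨_, rfl⟩
  have M0 : 0 ≤ M := by rw [hM]; positivity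
  have hA : ∀ β ν, |((MvPowerSeries.coeff ν (tv y β) : ℚ) : ℝ)| *
      ∏ i, ((2 : ℝ) ^ (e * w i))⁻¹ ^ ν i ≤ M := fun β ν => by
    rw [tv, tens, coeff_prod_emb, Rat.cast_prod, abs_prod, ← prod_mul_distrib, hM]
    refine prod_le_prod (fun i _ => by positivity) fun i _ => ?_
    rw [inv_pow, ← div_eq_mul_inv, div_le_iff₀ (by positivity), ← pow_succ']
    exact_mod_cast (hy i (ν i)).1 (β i)
  obtain ⟨u0, hu0⟩ := pow_unbounded_of_one_lt
    (M * M * (∑ β, N β) / ‖MvPowerSeries.constantCoeff (eX ξ F Δ)‖) one_lt_two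
  refine ⟨u0, fun u hu P hP hV => ?_⟩
  obtain ⟨Φ, hΦ⟩ : ∃ Φ, Φ = (fun μ => τs ξ (P μ)) ⬝ᵥ tv y := ⟨_, rfl⟩
  rw [← hΦ]
  have e1 : eX ξ F Δ * mC Φ = ∑ β, mC (tv y β) * ∑ μ, eX ξ F (q β μ) * mC (τs ξ (P μ)) := by
    simp only [hΦ, dotProduct, map_sum, map_mul, mul_sum]
    rw [sum_comm]
    refine sum_congr rfl fun μ _ => ?_
    rw [mul_left_comm, ← hq, mul_sum]
    exact sum_congr rfl fun β _ => by ring
  have key : ∀ n, ∀ ν : σ →₀ ℕ, Finsupp.weight w ν = n → n < 2 * u →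
      MvPowerSeries.coeff ν Φ = 0 := fun n => by
    induction n using Nat.strong_induction_on with
    | _ n ih =>
    intro ν hn hν
    rw [← hn] at hν
    have b0 : ∀ μ < ν, MvPowerSeries.coeff μ (mC Φ) = 0 := fun μ h => by
      have : Finsupp.weight w μ < Finsupp.weight w ν := by
        rw [weight_eq, weight_eq]
        obtain ⟨h1, i, h2⟩ := Finsupp.lt_def.1 h
        exact sum_lt_sum (fun j _ => Nat.mul_le_mul_right _ (h1 j))
          ⟨i, mem_univ i, Nat.mul_lt_mul_of_pos_right h2 (w0 i)⟩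
      rw [mC, MvPowerSeries.coeff_map, ih _ (hn ▸ this) μ rfl (this.trans hν), map_zero]
    have b1 : ‖MvPowerSeries.constantCoeff (eX ξ F Δ)‖ * |((MvPowerSeries.coeff ν Φ : ℚ) : ℝ)| *
        ∏ i, ((2 : ℝ) ^ (e * w i))⁻¹ ^ ν i ≤
        M * (θ ^ (c * ((4 * e + 2) * u)) * ((∑ β, N β) * 2 ^ u)) := by
      have c1 := congrArg norm (est_first (D := eX ξ F Δ) b0)
      rw [norm_mul, e1, mC, MvPowerSeries.coeff_map, eq_ratCast, ← Complex.ofReal_ratCast,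
        Complex.norm_real, Real.norm_eq_abs, map_sum] at c1
      rw [← c1]
      refine (mul_le_mul_of_nonneg_right (norm_sum_le _ _) (by positivity)).trans ?_
      rw [sum_mul, sum_mul, mul_sum, mul_sum]
      exact sum_le_sum fun β _ => hN β _ M (hA β) P _ _ (fun γ => (hP γ).2.2) (hV β) ν
    choose dA dA0 dA1 dA2 using fun i => (hy i (ν i)).2
    obtain ⟨z, hz⟩ : ∃ z : ℤ, ((∏ i, dA i : ℕ) : ℚ) *
        ((∏ i, (ξ i).den ^ ((4 * e + 2) * u / w i) : ℕ) : ℚ) * MvPowerSeries.coeff ν Φ = z := by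
      suffices ((∏ i, dA i : ℕ) : ℚ) * ((∏ i, (ξ i).den ^ ((4 * e + 2) * u / w i) : ℕ) : ℚ) *
        MvPowerSeries.coeff ν Φ ∈ (Int.castRingHom ℚ).range from this.imp fun z hz => hz.symm
      simp only [hΦ, dotProduct, map_sum, MvPowerSeries.coeff_mul, mul_sum]
      refine sum_mem fun β _ => sum_mem fun p hp => ?_
      obtain ⟨x, hx⟩ := mem_ZP.1 (est_box ξ (hP β).1 (hP β).2.1) p.1
      choose v hv using fun i => dA2 i (β i) (p.2 i)
        (by rw [← mem_antidiagonal.1 hp]; exact Nat.le_add_left _ _)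
      refine ⟨x * ∏ i, v i, ?_⟩
      have c1 : MvPowerSeries.coeff p.1 (τs ξ (P β)) = (sh ξ (P β)).coeff p.1 :=
        MvPolynomial.coeff_coe _ _
      rw [eq_intCast, Int.cast_mul, ← hx, c1, tv, tens, coeff_prod_emb, Int.cast_prod,
        MvPolynomial.coeff_smul, smul_eq_mul, Nat.cast_prod dA univ]
      simp only [← hv, prod_mul_distrib]
      ring
    have b2 : ∏ i, ((2 : ℝ) ^ (e * w i)) ^ ν i ≤ 2 ^ (e * (2 * u)) := by
      simp only [← pow_mul, prod_pow_eq_pow_sum, mul_assoc, ← mul_sum, mul_comm (w _), ← weight_eq]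
      exact pow_le_pow_right₀ one_le_two (Nat.mul_le_mul_left _ hν.le)
    have b3 := est_num (d := (∏ i, dA i : ℕ))
      (Z := (∏ i, (ξ i).den ^ ((4 * e + 2) * u / w i) : ℕ)) (e := e) (m := Fintype.card σ)
      (abs_nonneg _) M0 (sum_nonneg fun β _ => N0 β) (norm_pos_iff.2 hΔ) (Nat.cast_nonneg _)
      (le_trans (by
        rw [hM, ← prod_mul_distrib, Nat.cast_prod]
        exact prod_le_prod (fun _ _ => by positivity) fun i _ => by
          rw [← pow_succ]; exact_mod_cast dA1 i) (mul_le_mul_of_nonneg_right b2 M0))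
      (by
        rw [mul_comm (Fintype.card σ), pow_mul]
        exact_mod_cast prod_le_pow_card _ _ _ fun i _ => (Nat.pow_le_pow_left (hd i) _).trans (by
          rw [← pow_mul]
          exact Nat.pow_le_pow_right two_pos (Nat.mul_div_le _ _)))
      (le_trans (by
        rw [← prod_mul_distrib]
        exact (prod_eq_one fun i _ => by rw [inv_pow]; exact mul_inv_cancel₀ (by positivity)).ge)
        (mul_le_mul_of_nonneg_right b2 (by positivity)))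
      (by rw [pow_mul θ c, pow_mul _ (Fintype.card σ + 1)]; exact pow_le_pow_left₀ (by positivity) hc _) b1
      (hu0.trans_le (pow_le_pow_right₀ one_le_two hu))
    have b4 : |z| < 1 := by
      have := congrArg (fun x : ℚ => |(x : ℝ)|) hz
      simp only [Rat.cast_mul, abs_mul, Rat.cast_natCast, Nat.abs_cast, Rat.cast_intCast] at this
      exact_mod_cast this.symm.trans_lt b3
    rw [Int.abs_lt_one_iff.1 b4, Int.cast_zero, mul_eq_zero] at hz
    refine hz.resolve_left ?_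
    have c1 := prod_pos fun i (_ : i ∈ univ) => dA0 i
    have c2 := prod_pos fun i (_ : i ∈ univ) => pow_pos (ξ i).den_pos ((4 * e + 2) * u / w i)
    positivity
  exact fun ν hν => key _ ν rfl hν

end

end Pool.Agent.Lib.MP_5591bc_ag.V
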