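import Pool.Agent.Lib.MP_5591bc_ag.V.Zero
import Pool.Agent.Lib.MP_5591bc_ag.V.Sie
import Pool.Agent.Lib.MP_5591bc_ag.V.Est

/-! Few independent rows kill a tensor product of solutions at points of rapidly growing height. -/

namespace Pool.Agent.Lib.MP_5591bc_ag.V

open Matrix Finset Filter Topology PowerSeries G R Function

noncomputable section

theorem core_C {Ω : Type*} {b : Ω → ℕ} {hb : ∀ x, 2 ≤ b x} (q : ℚ) :
    (fun _ => C q) ∈ UF b hb := by
  obtain ⟨e, he⟩ := pow_unbounded_of_one_lt (|(q : ℝ)| + q.den) one_lt_two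
  refine ⟨e, fun x k => ?_⟩
  have h1 : (2 : ℝ) ^ e ≤ ((b x ^ e : ℕ) : ℝ) ^ (k + 1) := by
    have := hb x
    exact_mod_cast (Nat.pow_le_pow_left this e).trans (Nat.le_self_pow (by omega) _)
  refine ⟨fun _ => ?_, q.den, q.den_pos, ?_, fun _ j _ => ⟨if j = 0 then q.num else 0, ?_⟩⟩
  · rw [coeff_C]
    split_ifs
    · linarith [(q.den.cast_nonneg : (0 : ℝ) ≤ _)]
    · simp
  · exact_mod_cast (show (q.den : ℝ) ≤ _ by linarith [abs_nonneg (q : ℝ)]).trans h1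
  · rw [coeff_C]
    split_ifs <;> simp

theorem core_det {τ R : Type*} [CommRing R] {r n : ℕ} {M : Matrix (Fin r) (Fin r) (MvPolynomial τ R)}
    (h : ∀ i j, (M i j).totalDegree ≤ n) : M.det.totalDegree ≤ r * n := by
  rw [det_apply']
  refine (MvPolynomial.totalDegree_finsetSum _ _).trans (Finset.sup_le fun π _ =>
    (MvPolynomial.totalDegree_mul _ _).trans ?_)
  rw [← map_intCast (MvPolynomial.C : R →+* MvPolynomial τ R), MvPolynomial.totalDegree_C, zero_add]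
  exact (MvPolynomial.totalDegree_finsetProd _ _).trans
    ((sum_le_card_nsmul _ _ n fun a _ => h _ _).trans (by simp))

variable {J α : Type*} [Fintype J] [DecidableEq J]

omit [Fintype J] in
theorem core_lam {R : Type*} [CommRing R] {r : ℕ} (v : Fin r → J → R) (I : Fin r → J) (k : Fin r)
    (μ : J) : lam v I (I k) μ = 0 :=
  det_zero_of_column_eq (Fin.succ_ne_zero k).symm fun _ => rfl

theorem core {T : Polynomial ℚ} {B : Matrix J J (Polynomial ℚ)} {Ω : Set ℚ}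
    {G : ℚ → Matrix J J ℚ⟦X⟧} (H : Sys T B Ω G) (e : J → ℚ) {f : α → ℚ⟦X⟧} {a : ℕ} (hf : GF a f)
    (m n : ℕ) {c : ℕ} (c0 : 0 < c) {θ : ℝ} (θ0 : 1 / 2 ≤ θ) (θ1 : θ < 1)
    (hc : θ ^ c ≤ (1 / 2) ^ (m + 1)) : ∃ Λ, ∀ (ξ : Fin m → ℚ) (w : Fin m → ℕ), (∀ i, ξ i ∈ Ω) →
      (∀ i, Λ ≤ w i) → (∀ i j, i < j → Λ * w j ≤ w i) → (∀ i, (ξ i).den ≤ 2 ^ w i) →
      (∀ i, 2 ^ w i ≤ (ξ i).den ^ 2) → (∀ i, |(ξ i : ℝ)| ≤ θ ^ (2 * w i)) →
      ∀ F : Fin m → α → ℂ⟦X⟧, (∀ i, Lim f (ξ i) (F i)) → ∀ y : Fin m → J → ℚ⟦X⟧,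
      (∀ i, y i = G (ξ i) *ᵥ fun j => C (e j)) → ∀ M : Fin m → Finset J, (∀ i, 0 < (M i).card) →
      (∀ i, ∀ l : J → Polynomial ℚ, (∀ μ ∉ M i, l μ = 0) →
        (fun μ => τ1 (ξ i) (l μ)) ⬝ᵥ y i = 0 → l = 0) →
      ∀ (r : ℕ) (v : Fin r → (Fin m → J) → Ot (Fin m) α) (I : Fin r → Fin m → J),
      (∀ l μ, (v l μ).totalDegree ≤ n) →
      (∀ l, (fun μ => mC (tv y μ)) ⬝ᵥ (fun μ => eX ξ F (v l μ)) = 0) →
      MvPowerSeries.constantCoeff (eX ξ F (mnr v I)) ≠ 0 →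
      ∏ i, (M i).card < 2 * c ^ m * (Fintype.card (Fin m → J) - r) := by
  classical
  set N := Fintype.card (Fin m → J) with hN
  obtain ⟨e0, he0⟩ := UF.pi (hb := fun x => two_le x.1)
    (g := fun j (x : Ω) => (G x *ᵥ fun j => C (e j)) j) fun j => by
      simp only [mulVec, dotProduct, ← Finset.sum_fn]
      exact sum_mem fun β _ => mul_mem (H.gf j β) (core_C _)
  obtain ⟨E, hE⟩ : ∃ E, E = 2 * e0 + 2 := ⟨_, rfl⟩
  obtain ⟨c1, hS⟩ := sie (σ := Fin m) (Fin m → J) hf ((N + 1) * n) c c0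
  obtain ⟨Λz, hZ⟩ := zero_v H e m (4 * E + 2) c1 (by omega)
  obtain ⟨Λ2, hΛ2⟩ : ∃ Λ2, Λ2 = Λz + c1 + 1 := ⟨_, rfl⟩
  obtain ⟨Λs, hΛs⟩ := exists_pow_lt_of_lt_one (show (0 : ℝ) < (4 * 2 ^ a)⁻¹ by positivity) θ1
  refine ⟨Λz + c * ((4 * E + 2) * Λ2) + Λs + 1,
    fun ξ w hΩ hΛ hw hd1 hd2 hξ F hF y hy M M0 hM r v I hv hk h0 => ?_⟩
  have w0 : ∀ i, 0 < w i := fun i => by have := hΛ i; omega
  have hI : Injective I := mnr_inj (v := v) fun h => h0 (by rw [h, map_zero, map_zero])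
  have hr : r ≤ N := (Fintype.card_fin r).ge.trans (Fintype.card_le_of_injective I hI)
  by_contra hn
  obtain ⟨t1, h1⟩ := hS (lam v I) (univ \ univ.image I) (Fintype.piFinset M)
    (fun β μ => (core_det (n := n) fun l k => by
      refine Fin.cases ?_ (fun l => hv l _) l
      simp only [of_apply, Fin.cons_zero, Pi.single_apply]
      split_ifs <;> simp).trans (Nat.mul_le_mul_right _ (by omega)))
    (fun β hβ μ => by
      obtain ⟨k, -, rfl⟩ := mem_image.1 (not_not.1 fun h => hβ (mem_sdiff.2 ⟨mem_univ _, h⟩))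
      exact core_lam v I k μ)
    (by rw [Fintype.card_piFinset]; exact prod_pos fun i _ => M0 i)
    (by
      rw [Fintype.card_piFinset, card_sdiff_of_subset (subset_univ _), card_image_of_injective _ hI]
      simpa only [card_univ, Fintype.card_fin] using not_lt.1 hn)
  obtain ⟨t2, h2⟩ := hZ ξ w hΩ (fun i => by have := hΛ i; omega)
    (fun i j h => (Nat.mul_le_mul_right _ (by omega)).trans (hw i j h)) hd2
  obtain ⟨t3, h3⟩ := est_v (hf.mono Nat.lt_two_pow_self.le) w0 hF (y := y) (e := E) (by omega)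
    (fun i => hy i ▸ (he0 ⟨_, hΩ i⟩).mono ((Nat.pow_le_pow_left (Nat.mul_le_mul_left 2 (hd1 i))
      _).trans (by
        rw [← pow_succ', ← pow_mul]
        exact Nat.pow_le_pow_right two_pos (by nlinarith [w0 i]))))
    (q := lam v I) h0 (fun μ => by
      have := lam_sum (v := fun l j => eX ξ F (v l j)) I hk μ
      simpa only [← map_lam, ← map_mnr] using this) θ0 θ1.le (by simpa using hc) hd1 hξ fun i => by
      have := (pow_le_pow_of_le_one (by linarith) θ1.le (show Λs ≤ w i by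
        have := hΛ i; omega)).trans hΛs.le
      rwa [← le_div_iff₀' (by positivity), one_div]
  obtain ⟨t, ht⟩ : ∃ t, t = t1 + t2 + t3 := ⟨_, rfl⟩
  have tu : t ≤ Λ2 * t := Nat.le_mul_of_pos_left _ (by omega)
  have hD : ∀ i, c * ((4 * E + 2) * (Λ2 * t)) ≤ t * w i := fun i => by
    have : c * ((4 * E + 2) * Λ2) ≤ w i := by have := hΛ i; omega
    nlinarith
  obtain ⟨P, P0, P1, P2, P3⟩ := h1 t (by omega) w _ w0 hD
  have a1 := h3 (Λ2 * t) (by omega) P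
    (fun μ => (P2 μ).mono (fun _ => le_rfl) (Nat.mul_le_mul_right _ (by omega))) P3
  rw [funext hy] at a1
  refine P0 (ind_tens hM (fun μ h => Fintype.mem_piFinset.1 (by_contra fun h' => h (P1 μ h'))) ?_)
  rw [funext hy]
  exact h2 t (by omega) _ (Nat.mul_le_mul_right _ (by omega))
    (fun i => (Nat.le_mul_of_pos_left _ c0).trans (hD i)) P P2 a1

end

end Pool.Agent.Lib.MP_5591bc_ag.V
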