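import Pool.Agent.Lib.MP_5591bc_ag.V.Value

/-! Elimination of the transcendental constants. -/

namespace Pool.Agent.Lib.MP_5591bc_ag.V

open Matrix Finset Filter Topology PowerSeries G R Function

noncomputable section

variable {A A' E : Type*} [Fintype A] [DecidableEq A] [Fintype A'] [DecidableEq A'] [Fintype E]
  {T : Polynomial ℚ} {B : Matrix A A (Polynomial ℚ)} {Ω : Set ℚ} {G : ℚ → Matrix A A ℚ⟦X⟧}
  {f : A → ℚ⟦X⟧} {ψ : ℂ → A → ℂ}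

omit [Fintype A'] [DecidableEq A'] in
theorem Two.elim0 {φ : ℚ → A → ℂ} (H : Two T B Ω G f φ) {p : Polynomial ℚ} (p0 : p ≠ 0)
    (κ : ℚ → E → A → ℚ) (θ : E → ℂ) {s : ℝ} (s0 : 0 ≤ s) (s1 : s < 1) {S : Set ℚ} {w : ℚ → ℕ}
    (hS : ∀ x ∈ S, x ∈ Ω ∧ (fun μ => ∑ α, κ x μ α * φ x α) ⬝ᵥ θ = 0 ∧ x.den ≤ 2 ^ w x ∧
      2 ^ w x ≤ x.den ^ 2 ∧ |(x : ℝ)| ≤ s ^ w x)
    (hp : ∀ x ∈ S, p.eval x ≠ 0 → ∀ b : A → ℂ,
      (∀ U ∈ Sat f, b ⬝ᵥ (fun α => ((U α).eval x : ℚ)) = 0) → b ⬝ᵥ φ x = 0) (hi : S.Infinite) :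
    ∃ x ∈ S, p.eval x ≠ 0 ∧
      ∀ U ∈ Sat f, (fun μ => ∑ α, κ x μ α * (((U α).eval x : ℚ) : ℂ)) ⬝ᵥ θ = 0 := by
  by_contra h0
  choose Λm hΛ using fun m : Fin (Fintype.card E + 2) =>
    H.value m s0 s1
  obtain ⟨Λ, hΛ'⟩ : ∃ Λ, ∀ m, Λm m ≤ Λ := ⟨univ.sup Λm, fun m => le_sup (mem_univ m)⟩
  have big : ∀ n, ∃ x ∈ S, p.eval x ≠ 0 ∧ n ≤ w x := fun n => by
    obtain ⟨x, h1, h2⟩ := (hi.diff ((finite_rat (2 ^ n)).union (Polynomial.finite_setOf_isRoot p0))).nonempty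
    obtain ⟨-, -, a1, -, a2⟩ := hS x h1
    refine ⟨x, h1, fun h => h2 (Or.inr h), not_lt.1 fun h => h2 (Or.inl
      ⟨a1.trans (Nat.pow_le_pow_right two_pos h.le), a2.trans ?_⟩)⟩
    linarith [pow_le_one₀ (n := w x) s0 s1.le]
  have key : ∀ r, ∃ (ξ : Fin r → ℚ) (I : Fin r → E),
      (∀ i, ξ i ∈ S ∧ p.eval (ξ i) ≠ 0 ∧ Λ ≤ w (ξ i)) ∧ (∀ i j, i < j → Λ * w (ξ j) ≤ w (ξ i)) ∧
      mnr (fun l μ => ∑ α, κ (ξ l) μ α * φ (ξ l) α) I ≠ 0 := fun r => by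
    induction r with
    | zero => exact ⟨Fin.elim0, Fin.elim0, fun i => i.elim0, fun i => i.elim0, by simp [mnr]⟩
    | succ r ih =>
    obtain ⟨ξ, I, a1, a2, a3⟩ := ih
    have hr : r ≤ Fintype.card E := by simpa using Fintype.card_le_of_injective I (mnr_inj a3)
    obtain ⟨x, x1, x2, x3⟩ := big (Λ + Λ * ∑ i, w (ξ i))
    obtain ⟨ξ', hξ⟩ : ∃ ξ' : Fin (r + 1) → ℚ, ξ' = Fin.cons x ξ := ⟨_, rfl⟩
    have b1 : ∀ i, ξ' i ∈ S ∧ p.eval (ξ' i) ≠ 0 ∧ Λ ≤ w (ξ' i) := fun i => by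
      rw [hξ]; exact Fin.cases ⟨x1, x2, le_trans (Nat.le_add_right _ _) x3⟩ a1 i
    have b2 : ∀ i j, i < j → Λ * w (ξ' j) ≤ w (ξ' i) := fun i j => by
      rw [hξ]
      refine Fin.cases (fun h => absurd h (Fin.not_lt_zero _)) (fun j => ?_) j
      refine Fin.cases (fun _ => le_trans ?_ ((Nat.le_add_left _ _).trans x3))
        (fun i h => a2 i j (Fin.succ_lt_succ_iff.1 h)) i
      exact Nat.mul_le_mul_left _ (single_le_sum (f := fun i => w (ξ i)) (fun _ _ => Nat.zero_le _)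
        (mem_univ j))
    by_contra hn
    refine h0 ⟨x, x1, x2, fun U hU => ?_⟩
    obtain ⟨g, hg⟩ := sat_eq (v := fun l μ => ∑ α, κ (ξ l) μ α * φ (ξ l) α) (I := I)
      (u := fun μ => ∑ α, κ x μ α * (((U α).eval x : ℚ) : ℂ)) fun β => by
        have d1 : mnr (fun l μ => ∑ α, κ (ξ' l) μ α * φ (ξ' l) α) (Fin.cons β I) = 0 :=
          by_contra fun h => hn ⟨ξ', _, b1, b2, h⟩
        rw [mnr_tens] at d1
        have d2 := hΛ ⟨r + 1, by omega⟩ ξ' (fun i => w (ξ' i)) (fun i => (hS _ (b1 i).1).1)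
          (fun i => (hΛ' _).trans (b1 i).2.2)
          (fun i j h => (Nat.mul_le_mul_right _ (hΛ' _)).trans (b2 i j h))
          (fun i => (hS _ (b1 i).1).2.2.1) (fun i => (hS _ (b1 i).1).2.2.2.1)
          (fun i => (hS _ (b1 i).1).2.2.2.2) _ d1
        have d3 := mrep (a := fun α => ((mnr (fun l μ => κ (ξ' l) μ (α l)) (Fin.cons β I) : ℚ) : ℂ))
          (S := fun i => (fun (U : A → Polynomial ℚ) α => (((U α).eval (ξ' i) : ℚ) : ℂ)) '' Sat f)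
          (S' := fun i => insert (φ (ξ' i))
            ((fun (U : A → Polynomial ℚ) α => (((U α).eval (ξ' i) : ℚ) : ℂ)) '' Sat f))
          (fun i b hb y hy => hy.elim (fun e => e ▸ hp _ (b1 i).1 (b1 i).2.1 b
            fun U hU => hb _ ⟨U, hU, rfl⟩) (hb y))
          (fun y hy => by
            choose U h1 h2 using hy
            have := congrArg (Rat.cast : ℚ → ℂ) (d2 U h1)
            rw [← funext h2]
            simpa [dotProduct, tens] using this)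
          (x := Fin.cons (fun α => (((U α).eval x : ℚ) : ℂ)) fun l => φ (ξ l)) fun i => by
            rw [hξ]
            exact Fin.cases (Or.inr ⟨U, hU, rfl⟩) (fun _ => Or.inl rfl) i
        rw [← mnr_tens, hξ] at d3
        refine Eq.trans ?_ d3
        rw [bord]
        congr 1
        ext1 l
        exact Fin.cases rfl (fun _ => rfl) l
    have := congrArg (· ⬝ᵥ θ) hg
    simp only [smul_dotProduct, sum_dotProduct, (hS _ (a1 _).1).2.1, smul_zero, sum_const_zero,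
      smul_eq_zero] at this
    exact this.resolve_left a3
  obtain ⟨ξ, I, -, -, h⟩ := key (Fintype.card E + 1)
  simpa using Fintype.card_le_of_injective I (mnr_inj h)

theorem Two.elim (H : Two T B Ω G f fun x => ψ x) {V : Set ℂ} (hV : IsOpen V)
    (rel : ∀ l : A → Polynomial ℚ, (fun a => (l a : ℚ⟦X⟧)) ⬝ᵥ f = 0 → ∀ z ∈ V,
      (fun a => Polynomial.aeval z (l a)) ⬝ᵥ ψ z = 0) (Γ : A' → E → A → ℚ) (θ : E → ℂ)
    {s : ℝ} (s0 : 0 ≤ s) (s1 : s < 1) {S : Set ℚ} {w : ℚ → ℕ}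
    (hS : ∀ x ∈ S, x ∈ Ω ∧ (x : ℂ) ∈ V ∧ x.den ≤ 2 ^ w x ∧ 2 ^ w x ≤ x.den ^ 2 ∧
      |(x : ℝ)| ≤ s ^ w x) (hi : S.Infinite) :
    ∃ x ∈ S, LGood (fun z => Gm Γ (ψ z) *ᵥ θ) x := by
  by_contra hn
  simp only [LGood, not_exists, not_and, not_forall] at hn
  choose! c c1 c2 using hn
  obtain ⟨p, p0, hp⟩ := lift f Γ θ
  let κ : ℚ → E → A → ℚ := fun x μ α => ∑ ν, c x ν * Γ ν μ α
  have hκ : ∀ x (y : A → ℂ), (fun μ => ∑ α, κ x μ α * y α) ⬝ᵥ θ =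
      (fun μ => (c x μ : ℂ)) ⬝ᵥ (Gm Γ y *ᵥ θ) := fun x y => by
    rw [dotProduct_mulVec]
    congr 1
    ext μ
    simp only [κ, vecMul, dotProduct, Gm, of_apply, Rat.cast_sum, Rat.cast_mul, sum_mul, mul_sum,
      mul_assoc]
    exact sum_comm
  obtain ⟨x, x1, x2, x3⟩ := H.elim0 p0 κ θ s0 s1 (fun x hx => ⟨(hS x hx).1,
    (hκ x _).trans (c1 x hx), (hS x hx).2.2⟩) (fun x hx h b hb => (hp x h).1 b hb _
      fun l hl => rel l hl _ (hS x hx).2.1) hi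
  obtain ⟨h, h1, h2⟩ := (hp x x2).2 (c x) fun U hU => (hκ x _).symm.trans (x3 U hU)
  refine c2 x x1 h h1 ?_
  filter_upwards [h2, hV.mem_nhds (hS x x1).2.1] with z h3 hz using h3 _ fun l hl => rel l hl z hz

end

end Pool.Agent.Lib.MP_5591bc_ag.V
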