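import Pool.Agent.Lib.MP_5591bc_ag.SMain

/-! Monomials in the entries of rectangular matrices, transport of linear goodness. -/

namespace Pool.Agent.Lib.MP_5591bc_ag.V

open Matrix Finset Filter Topology G R Function

noncomputable section

variable {ν κ σ L : Type*} [Fintype ν] [DecidableEq ν] [Fintype κ] [DecidableEq κ]

/-- the degree of a monomial -/
def dgs [Fintype L] (μ : L → Option σ) : ℕ := #{l | (μ l).isSome}

theorem dgs_pow [Fintype L] (s : ℂ) (μ : L → Option σ) :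
    s ^ dgs μ = ∏ l, (μ l).elim 1 fun _ => s := by
  rw [dgs, ← prod_const, prod_filter]
  exact prod_congr rfl fun l _ => by cases μ l <;> simp

theorem dgs_le {δ : ℕ} (μ : Fin δ → Option σ) : dgs μ ≤ δ :=
  (card_filter_le _ _).trans (by simp)

theorem mon_smul (δ : ℕ) (s : ℂ) (x : σ → ℂ) (μ : Fin δ → Option σ) :
    mon δ (fun a => s * x a) μ = s ^ dgs μ * mon δ x μ := by
  simp only [dgs_pow, G.mon, tens, ← prod_mul_distrib]
  exact prod_congr rfl fun l _ => by cases μ l <;> simp [hat]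

theorem pf_mon (δ : ℕ) (μ : Fin δ → Option σ) : PF δ fun x => mon δ x μ := by
  have := PF.prod (d := 1) (univ : Finset (Fin δ)) (g := fun l (x : σ → ℂ) => hat x (μ l))
    fun l _ => by
      rcases μ l with _ | a
      exacts [PF.one 1, PF.var a]
  rw [card_univ, Fintype.card_fin, mul_one] at this
  exact this

/-- a monomial of degree at most `δ` read as one of degree at most `2 δ` -/
def pad {δ : ℕ} (μ : Fin δ → Option σ) : Fin (δ + δ) → Option σ := Fin.append μ fun _ => none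

theorem mon_pad {δ : ℕ} (x : σ → ℂ) (μ : Fin δ → Option σ) :
    mon (δ + δ) x (pad μ) = mon δ x μ := by
  simp only [G.mon, tens, pad, Fin.prod_univ_add, Fin.append_left, Fin.append_right]
  simp [hat]

theorem pow_pad {δ : ℕ} (s : ℂ) (μ : Fin δ → Option σ) : s ^ dgs (pad μ) = s ^ dgs μ := by
  simp only [dgs_pow, pad, Fin.prod_univ_add, Fin.append_left, Fin.append_right]
  simp

/-- the matrix of `(ε, Z) ↦ (ε, Z C)` -/
def exr (C : Matrix ν κ ℂ) : Matrix (Option (ν × κ)) (Option (ν × ν)) ℂ := of fun o o' =>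
  o.elim (o'.elim 1 fun _ => 0) fun x => o'.elim 0 fun y => if x.1 = y.1 then C y.2 x.2 else 0

omit [Fintype κ] [DecidableEq κ] in
theorem exr_mulVec (C : Matrix ν κ ℂ) (Z : Matrix ν ν ℂ) :
    exr C *ᵥ hatg Z = hat fun p : ν × κ => (Z * C) p.1 p.2 := by
  ext (_ | ⟨p, q⟩) <;>
    simp [exr, hatg, hat, mulVec, dotProduct, Fintype.sum_option, Fintype.sum_prod_type, mul_apply,
      mul_comm]

omit [Fintype κ] [DecidableEq κ] in
theorem exr_neg [Fintype L] [DecidableEq L] (C : Matrix ν κ ℂ) (u : (L → Option (ν × ν)) → ℂ)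
    (μ : L → Option (ν × κ)) : (piM (fun _ : L => exr C) *ᵥ (kap L 1 (-1) *ᵥ u)) μ =
      (-1) ^ dgs μ * (piM (fun _ : L => exr C) *ᵥ u) μ := by
  have e : ∀ α, (kap L 1 (-1) *ᵥ u) α = (-1) ^ dgs α * u α := fun α => by
    rw [← neg_one_smul ℂ (1 : Matrix ν ν ℂ), kap_smul, kap, ex2_one, piM_one, one_mulVec]
    rfl
  simp only [mulVec, dotProduct] at e ⊢
  simp only [e, mul_sum, ← mul_assoc, piM, of_apply, dgs_pow, ← prod_mul_distrib]
  refine sum_congr rfl fun α _ => congrArg (· * _) (prod_congr rfl fun l _ => ?_)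
  cases μ l <;> cases α l <;> simp [exr]
  split_ifs <;> simp

section exl
variable {R S : Type*} [CommRing R] [CommRing S]

variable (κ) in
/-- the matrix of `(ε, Z) ↦ (ε, W Z)` -/
def exl (W : Matrix ν ν R) : Matrix (Option (ν × κ)) (Option (ν × κ)) R := of fun o o' =>
  o.elim (o'.elim 1 fun _ => 0) fun x => o'.elim 0 fun y => if x.2 = y.2 then W x.1 y.1 else 0

omit [DecidableEq ν] in
theorem exl_mulVec (W : Matrix ν ν ℂ) (Z : Matrix ν κ ℂ) :
    exl κ W *ᵥ (hat fun p : ν × κ => Z p.1 p.2) = hat fun p : ν × κ => (W * Z) p.1 p.2 := by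
  ext (_ | ⟨p, q⟩) <;>
    simp [exl, hat, mulVec, dotProduct, Fintype.sum_option, Fintype.sum_prod_type, mul_apply]

omit [DecidableEq ν] in
theorem exl_mul (W W' : Matrix ν ν R) : exl κ W * exl κ W' = exl κ (W * W') := by
  ext (_ | ⟨p, q⟩) (_ | ⟨p', q'⟩) <;>
    simp [exl, Fintype.sum_option, Fintype.sum_prod_type, mul_apply]

omit [Fintype ν] [Fintype κ] in
theorem exl_one : exl κ (1 : Matrix ν ν R) = 1 := by
  ext (_ | ⟨p, q⟩) (_ | ⟨p', q'⟩) <;> simp [exl, one_apply, ite_and, eq_comm]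
  split_ifs <;> rfl

omit [Fintype ν] [DecidableEq ν] [Fintype κ] in
theorem exl_map (φ : R →+* S) (W : Matrix ν ν R) : (exl κ W).map φ = exl κ (W.map φ) := by
  ext (_ | ⟨p, q⟩) (_ | ⟨p', q'⟩) <;> simp [exl, apply_ite φ]

end exl

variable {A : Type*} [Fintype A] [DecidableEq A] {Φ Φ' : ℂ → A → ℂ} {x : ℚ}

theorem lgood_left (Ξ : Matrix A A (Polynomial ℚ)) (U : Matrix A A ℚ)
    (hU : U * Ξ.map (Polynomial.evalRingHom x) = 1)
    (hΦ : ∀ z, Φ' z = Ξ.map (Polynomial.aeval (R := ℚ) z).toRingHom *ᵥ Φ z) (h : LGood Φ' x) :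
    LGood Φ x := fun c hc => by
  have e : c = (c ᵥ* U) ᵥ* Ξ.map (Polynomial.evalRingHom x) := by
    rw [vecMul_vecMul, hU, vecMul_one]
  obtain ⟨l, h1, h2⟩ := h (c ᵥ* U) (by
    rw [hΦ, dotProduct_mulVec, ← hc]
    congr 1
    ext μ
    conv_rhs => rw [e]
    simp [vecMul, dotProduct, aeval_rat])
  refine ⟨l ᵥ* Ξ, fun μ => ?_, h2.mono fun z hz => ?_⟩
  · rw [e, ← funext h1]
    simp [vecMul, dotProduct, Polynomial.eval_finsetSum]
  · rw [← hz, hΦ, dotProduct_mulVec]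
    congr 1
    ext μ
    simp [vecMul, dotProduct]

omit [DecidableEq A] in
theorem lgood_inv (x0 : x ≠ 0) (h : LGood (fun z => Φ z⁻¹) x⁻¹) : LGood Φ x := fun c hc => by
  have x1 : (x : ℂ) ≠ 0 := by exact_mod_cast x0
  obtain ⟨l, h1, h2⟩ := h c (by simpa using hc)
  obtain ⟨K, hK⟩ : ∃ K, ∀ μ, (l μ).natDegree ≤ K :=
    ⟨_, fun μ => le_sup (f := fun μ => (l μ).natDegree) (mem_univ μ)⟩
  have e : ∀ z : ℂ, z ≠ 0 → ∀ μ, Polynomial.aeval z (x⁻¹ ^ K • (l μ).reflect K) =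
      ((x : ℂ)⁻¹ ^ K * z ^ K) * Polynomial.aeval z⁻¹ (l μ) := fun z hz μ => by
    rw [← aeval_reflect (hK μ) (mul_inv_cancel₀ hz), map_smul, Rat.smul_def]
    have : z ^ K * z⁻¹ ^ K = 1 := by rw [← mul_pow, mul_inv_cancel₀ hz, one_pow]
    push_cast
    linear_combination (-((x : ℂ)⁻¹ ^ K * Polynomial.aeval z ((l μ).reflect K))) * this
  refine ⟨fun μ => x⁻¹ ^ K • (l μ).reflect K, fun μ => ?_, ?_⟩
  · have := e x x1 μ
    rw [← mul_pow, inv_mul_cancel₀ x1, one_pow, one_mul, ← Rat.cast_inv, aeval_rat, aeval_rat, h1] at this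
    exact_mod_cast this
  · have c1 : Tendsto (fun t : ℂ => t⁻¹) (𝓝 x) (𝓝 (x⁻¹ : ℚ)) := by
      rw [Rat.cast_inv]; exact (continuousAt_inv₀ x1).tendsto
    filter_upwards [c1.eventually h2, eventually_ne_nhds x1] with t t1 t2
    simp only [inv_inv, dotProduct] at t1
    simp only [e t t2, dotProduct, mul_assoc, ← mul_sum, t1, mul_zero]

end

end Pool.Agent.Lib.MP_5591bc_ag.V
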