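import Pool.Agent.Lib.MP_5591bc_ag.V.Core2

/-! Finiteness of the large exceptional rational numbers for logarithm free solutions. -/

namespace Pool.Agent.Lib.MP_5591bc_ag.V

open Matrix Finset Filter Topology PowerSeries G R Function Metric Complex

noncomputable section

theorem fin_small {η : ℝ} (η0 : 0 < η) (K : ℝ) :
    {t : ℚ | (t.num.natAbs : ℝ) ^ η ≤ 2 * t ∧ (t : ℝ) ≤ K}.Finite := by
  obtain ⟨n, hn⟩ := exists_nat_ge ((2 * K) ^ η⁻¹)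
  refine ((Set.finite_singleton 0).union ((finite_rat n).image (·⁻¹))).subset fun t ht =>
    (eq_or_ne t 0).imp id fun t0 => ⟨t⁻¹, ⟨?_, ?_⟩, inv_inv t⟩
  · have := Real.rpow_le_rpow (by positivity) (ht.1.trans (show _ ≤ 2 * K by linarith [ht.2]))
      (inv_pos.2 η0).le
    rw [Real.rpow_rpow_inv (by positivity) η0.ne'] at this
    rw [Rat.den_inv_of_ne_zero t0]
    exact_mod_cast this.trans hn
  · have : (1 : ℝ) ≤ 2 * t := (Real.one_le_rpow (by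
      exact_mod_cast Int.natAbs_pos.2 (Rat.num_ne_zero.2 t0)) η0.le).trans ht.1
    rw [Rat.cast_inv, abs_inv, abs_of_pos (by linarith), inv_le_comm₀ (by linarith) two_pos]
    linarith

theorem size_rat {η : ℝ} (η0 : 0 < η) {x : ℚ} (h2 : (2 : ℝ) < (x : ℝ)⁻¹)
    (h : (x.den : ℝ) ^ η ≤ 2 * (x : ℝ)⁻¹) : x.den ≤ 2 ^ Nat.clog 2 x.den ∧
      2 ^ Nat.clog 2 x.den ≤ x.den ^ 2 ∧ |(x : ℝ)| ≤ (2 ^ (-(η / 4))) ^ Nat.clog 2 x.den := by
  have x0 : (0 : ℝ) < x := inv_pos.1 (two_pos.trans h2)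
  have a5 : 1 < x.den := by
    by_contra e
    have e1 : (x.num : ℚ) = x := Rat.coe_int_num_of_den_eq_one (by have := x.den_pos; omega)
    have e2 : (1 : ℝ) ≤ x := by
      rw [← e1] at x0 ⊢
      exact_mod_cast (show 0 < x.num by exact_mod_cast x0)
    linarith [inv_le_one_of_one_le₀ e2]
  have a6 := Nat.pow_pred_clog_lt_self one_lt_two a5
  obtain ⟨w, hw⟩ : ∃ w, Nat.clog 2 x.den = w + 1 :=
    ⟨_, (Nat.succ_pred_eq_of_pos (Nat.clog_pos one_lt_two a5)).symm⟩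
  have a7 : 2 ^ Nat.clog 2 x.den ≤ x.den ^ 2 := by
    simp only [hw, Nat.pred_eq_sub_one, Nat.add_sub_cancel, pow_succ 2] at a6 ⊢
    nlinarith
  refine ⟨Nat.le_pow_clog one_lt_two _, a7, ?_⟩
  have a8 : ((2 : ℝ) ^ Nat.clog 2 x.den) ^ (η / 4) ≤ (x : ℝ)⁻¹ := by
    refine (Real.rpow_le_rpow (by positivity) (show _ ≤ (x.den : ℝ) ^ 2 by exact_mod_cast a7)
      (by positivity)).trans (le_of_pow_le_pow_left₀ two_ne_zero (by positivity) ?_)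
    rw [← Real.rpow_natCast, ← Real.rpow_natCast, ← Real.rpow_mul (by positivity),
      ← Real.rpow_mul (by positivity), show ((2 : ℕ) : ℝ) * (η / 4 * (2 : ℕ)) = η by push_cast; ring]
    nlinarith
  rw [abs_of_pos x0, Real.rpow_neg zero_le_two, inv_pow, le_inv_comm₀ x0 (by positivity),
    ← Real.rpow_natCast, ← Real.rpow_mul zero_le_two, mul_comm, Real.rpow_mul zero_le_two,
    Real.rpow_natCast]
  exact a8


variable {ν κ : Type*} [Fintype ν] [DecidableEq ν] [Fintype κ] [DecidableEq κ]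
  {T : Polynomial ℚ} {B : Matrix ν ν (Polynomial ℚ)} {M : Matrix ν ν ℚ}

theorem core3 (T0 : T.coeff 0 ≠ 0) (hB : B.map (·.coeff 0) = T.coeff 0 • M) (hM : IsNilpotent M)
    (h : GalK (Polynomial.X * T) B)
    (hr : ∀ a : ℂ, Polynomial.aeval a T = 0 → Polynomial.aeval a T.derivative ≠ 0 ∧
      IsNilpotent (B.map (Polynomial.aeval a)))
    (hm : Mon T B) {g g' : Matrix ν ν (Polynomial ℚ)} {a : ℕ}
    (hg : g' * g = (Polynomial.X ^ a : Polynomial ℚ) • 1) (δ : ℕ) {P : ℂ → Matrix ν κ ℂ}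
    (hP : ∀ R > 0, ∀ Y : ℂ → Matrix ν ν ℂ, (∀ z ∈ ball (0 : ℂ) R, Polynomial.aeval z T ≠ 0 ∧
      IsUnit (Y z).det ∧ Sing T B M Y z) → ∃ (N : ℝ) (C : Matrix ν κ ℂ), ∀ t : ℂ, N < t.re →
        exp (log t / 2) • (g.map (Polynomial.aeval t⁻¹) * P t) = Y t⁻¹ * C) {η : ℝ} (η0 : 0 < η) :
    {t : ℚ | (t.num.natAbs : ℝ) ^ η ≤ 2 * t ∧
      ¬ LGood (fun t => mon δ fun p : ν × κ => P t p.1 p.2) t}.Finite := by
  classical
  obtain ⟨R, R0, Y, hY, B', G, f, H, hψ, hf⟩ := exists_two_sing T0 hB hM h hr (Fin (δ + δ))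
  obtain ⟨ρ, C, hC⟩ := hP R R0 Y hY
  obtain ⟨N, hN⟩ := exists_nat_gt (max ρ (2 / R))
  have u0 : ∀ t : ℂ, N < t.re → ρ < t.re ∧ t ≠ 0 ∧ ‖t⁻¹‖ < R / 2 ∧
      t⁻¹ ∈ ball (0 : ℂ) R := fun t ht => by
    have a1 := (max_lt_iff.1 hN).2.trans (ht.trans_le (re_le_norm t))
    have a2 : 0 < t.re := (Nat.cast_nonneg N).trans_lt ht
    have a3 : ‖t⁻¹‖ < R / 2 := by
      rwa [norm_inv, inv_lt_comm₀ ((by positivity : 0 < 2 / R).trans a1) (by positivity), inv_div]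
    exact ⟨(max_lt_iff.1 hN).1.trans ht, fun e => by simp [e] at a2, a3,
      mem_ball_zero_iff.2 (by linarith)⟩
  obtain ⟨K0, hK0⟩ : ∃ K0, K0 = piM fun _ : Fin (δ + δ) => exr C := ⟨_, rfl⟩
  have k0 : ∀ Z, K0 *ᵥ (tens fun _ => hatg Z) = mon (δ + δ) fun p : ν × κ => (Z * C) p.1 p.2 :=
    fun Z => by rw [hK0, piM_mulVec]; simp only [exr_mulVec]; rfl
  obtain ⟨K1, hK1⟩ : ∃ K1 : Matrix (Fin δ → Option (ν × κ)) _ ℂ,
    ∀ u μ, (K1 *ᵥ u) μ = (K0 *ᵥ u) (pad μ) := ⟨fun μ => K0 (pad μ), fun _ _ => rfl⟩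
  have k1 : ∀ Z, K1 *ᵥ (tens fun _ => hatg Z) = mon δ fun p : ν × κ => (Z * C) p.1 p.2 :=
    fun Z => funext fun μ => by rw [hK1, k0, mon_pad]
  have k2 : ∀ u μ, (K1 *ᵥ (kap (Fin (δ + δ)) 1 (-1) *ᵥ u)) μ = (-1) ^ dgs μ * (K1 *ᵥ u) μ :=
    fun u μ => by rw [hK1, hK1, hK0, exr_neg, pow_pad]
  have st : ∀ z, ∀ u ∈ Fib f z, kap (Fin (δ + δ)) 1 (-1) *ᵥ u ∈ Fib f z := fun z u hu => by
    simpa [Ex_zero] using (stab hM hm R0 hY hψ hf 0 hu).2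
  obtain ⟨Γ0, θ0, h0⟩ := exists_Gm K0
  obtain ⟨Γ1, θ1, h1⟩ := exists_Gm K1
  replace h0 : ∀ u, Gm Γ0 u *ᵥ θ0 = K0 *ᵥ u := h0
  replace h1 : ∀ u, Gm Γ1 u *ᵥ θ1 = K1 *ᵥ u := h1
  obtain ⟨p, p0, hp⟩ := lift f Γ1 θ1
  simp only [h1] at hp
  have fb : ∀ z ∈ ball (0 : ℂ) R, (tens fun _ => hatg (Y z)) ∈ Fib f z := fun z hz l hl =>
    (rel_iff R0 hψ hf l).1 hl z hz
  obtain ⟨S, hS⟩ : ∃ S : Set ℚ, ∀ x, x ∈ S ↔ ((N : ℝ) + 2 < (x : ℝ)⁻¹ ∧
    (x.den : ℝ) ^ η ≤ 2 * (x : ℝ)⁻¹) ∧ p.eval x ≠ 0 ∧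
    ¬ LGood (fun t => mon δ fun p : ν × κ => P t p.1 p.2) x⁻¹ := ⟨{ξ | _}, fun _ => Iff.rfl⟩
  have N0 : (0 : ℝ) ≤ N := N.cast_nonneg
  suffices hi : S.Finite from ((fin_small η0 (N + 2)).union ((hi.union
      (p.rootSet_finite ℚ)).image (·⁻¹))).subset fun t ht =>
        (le_or_gt (t : ℝ) (N + 2)).imp (fun e => ⟨ht.1, e⟩) fun e => by
    have t0 : t ≠ 0 := by rintro rfl; simp at e; linarith
    refine ⟨t⁻¹, (ne_or_eq (p.eval t⁻¹) 0).imp (fun e' => (hS _).2 ?_) fun e' => ?_, inv_inv t⟩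
    · rw [Rat.den_inv_of_ne_zero t0, Rat.cast_inv, inv_inv, inv_inv]; exact ⟨⟨e, ht.1⟩, e', ht.2⟩
    · exact Polynomial.mem_rootSet.2 ⟨p0, by simpa using e'⟩
  by_contra hi
  have x1 : ∀ x ∈ S, (N : ℝ) < (x : ℂ)⁻¹.re := fun x hx => by
    rw [← ofReal_ratCast, ← ofReal_inv, ofReal_re]
    linarith [((hS x).1 hx).1.1]
  have x3 : ∀ x ∈ S, x ∈ {x : ℚ | x ≠ 0 ∧ |(x : ℝ)| < R / 2} ∧ (x : ℂ) ∈ ball (0 : ℂ) R :=
    fun x hx => by
      obtain ⟨-, a3, a4, a5⟩ := u0 _ (x1 x hx)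
      rw [inv_inv] at a4 a5
      rw [← ofReal_ratCast, norm_real] at a4
      exact ⟨⟨fun e => a3 (by simp [e]), a4⟩, a5⟩
  obtain ⟨x, hx, y1⟩ := H.elim (ψ := fun z => tens fun _ => hatg (Y z)) isOpen_ball
    (fun l hl => (rel_iff R0 hψ hf l).1 hl) Γ0 θ0 (s := 2 ^ (-(η / 4))) (by positivity)
    (Real.rpow_lt_one_of_one_lt_of_neg one_lt_two (by linarith)) (S := S)
    (w := fun x => Nat.clog 2 x.den) (fun x hx => ⟨(x3 x hx).1, (x3 x hx).2,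
      size_rat η0 (by linarith [((hS x).1 hx).1.1]) ((hS x).1 hx).1.2⟩) hi
  simp only [h0] at y1
  have a4 := x1 x hx
  obtain ⟨-, y2, y3⟩ := (hS x).1 hx
  have x0 : x ≠ 0 := (x3 x hx).1.1
  have x4 : (x : ℂ) ≠ 0 := by exact_mod_cast x0
  refine y3 (lgood_inv (inv_ne_zero x0) ?_)
  rw [inv_inv]
  refine lgood_left (Φ' := fun z => mon δ fun p : ν × κ =>
    (g.map (Polynomial.aeval z) * P z⁻¹) p.1 p.2) (piM fun _ => exl κ g)
    (piM fun _ => exl κ (x⁻¹ ^ a • g'.map (Polynomial.evalRingHom x))) ?_ (fun z => ?_)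
    fun c hc => ?_
  · rw [piM_map, piM_mul, ← piM_one]
    congr 1
    ext1 l
    rw [exl_map, exl_mul, smul_mul_assoc, ← Matrix.map_mul, hg, ← exl_one]
    congr 1
    ext i j
    by_cases e : i = j <;> simp [e, x0, one_apply]
  · rw [piM_map, G.mon, G.mon, piM_mulVec]
    simp only [exl_map, exl_mulVec]
    rfl
  have m1 : ∀ z : ℂ, N < z⁻¹.re → ∀ μ, (K1 *ᵥ tens fun _ => hatg (Y z)) μ =
      exp (log z⁻¹ / 2) ^ dgs μ * mon δ (fun p : ν × κ =>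
        (g.map (Polynomial.aeval z) * P z⁻¹) p.1 p.2) μ := fun z hz μ => by
    have := hC _ (u0 _ hz).1
    rw [inv_inv] at this
    rw [k1, ← this, ← mon_smul]
    rfl
  have m2 : ∀ z : ℂ, N < z⁻¹.re → exp (log z⁻¹ / 2) ^ 2 = z⁻¹ := fun z hz => by
    rw [← exp_nat_mul, Nat.cast_two, mul_div_cancel₀ _ two_ne_zero, exp_log (u0 _ hz).2.1]
  obtain ⟨s, hs⟩ : ∃ s, s = (exp (log (x : ℂ)⁻¹ / 2))⁻¹ := ⟨_, rfl⟩
  have s0 : s ≠ 0 := hs ▸ inv_ne_zero (exp_ne_zero _)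
  have s2 : s ^ 2 = x := by rw [hs, inv_pow, m2 _ a4, inv_inv]
  obtain ⟨c', hc'⟩ : ∃ c' : ℕ → (Fin δ → Option (ν × κ)) → ℚ, c' = fun ε μ =>
    if dgs μ % 2 = ε then x ^ (dgs μ / 2) * c μ else 0 := ⟨_, rfl⟩
  have d1 : ∀ (e : ℂ) (v : _ → ℂ), e ^ 2 = x → (fun μ => e ^ dgs μ * c μ) ⬝ᵥ v =
      (fun μ => (c' 0 μ : ℂ)) ⬝ᵥ v + e * ((fun μ => (c' 1 μ : ℂ)) ⬝ᵥ v) := fun e v he => by
    simp only [dotProduct, mul_sum, ← sum_add_distrib, hc']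
    refine sum_congr rfl fun μ _ => ?_
    conv_lhs => rw [← Nat.div_add_mod (dgs μ) 2, pow_add, pow_mul, he]
    rcases Nat.mod_two_eq_zero_or_one (dgs μ) with e | e <;> simp [e]
    ring
  have d2 : ∀ ε, PF δ fun v => (fun μ => (c' ε μ : ℂ)) ⬝ᵥ mon δ v := fun ε =>
    PF.sum _ fun μ _ => (pf_mon δ μ).cmul _
  obtain ⟨n, hn⟩ := (((d2 0).mul (d2 0)).add (((d2 1).mul (d2 1)).cmul (-x))).lin
  have d3 : ∀ z, (((fun μ => s ^ dgs μ * c μ) ᵥ* K1) ⬝ᵥ tens fun _ => hatg (Y z)) *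
      (((fun μ => (-s) ^ dgs μ * c μ) ᵥ* K1) ⬝ᵥ tens fun _ => hatg (Y z)) =
      (fun μ => (n μ : ℂ)) ⬝ᵥ (K0 *ᵥ tens fun _ => hatg (Y z)) := fun z => by
    rw [← dotProduct_mulVec, ← dotProduct_mulVec, d1 _ _ s2, d1 _ _ (by rw [neg_sq, s2]), k0, ← hn,
      k1, Rat.cast_neg, ← s2]
    ring
  obtain ⟨l, l1, l2⟩ := y1 n (by
    rw [← d3, ← dotProduct_mulVec]
    refine mul_eq_zero_of_left (Eq.trans (sum_congr rfl fun μ _ => ?_) hc) _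
    simp only [m1 _ a4, hs, inv_pow]
    field_simp)
  have d4 : ∀ e : ℂ, (∀ U ∈ Sat f, ((fun μ => e ^ dgs μ * c μ) ᵥ* K1) ⬝ᵥ
      (fun a => (((U a).eval x : ℚ) : ℂ)) = 0) → ∀ u ∈ Fib f x,
      ∑ μ, e ^ dgs μ * (c μ * (K1 *ᵥ u) μ) = 0 ∧ ∑ μ, (-e) ^ dgs μ * (c μ * (K1 *ᵥ u) μ) = 0 :=
    fun e he u hu => by
      have b1 := (hp x y2).1 _ he u hu
      have b2 := (hp x y2).1 _ he _ (st _ u hu)
      rw [← dotProduct_mulVec] at b1 b2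
      simp only [dotProduct, k2] at b1 b2
      exact ⟨by simpa only [mul_assoc] using b1, (sum_congr rfl fun μ _ => by
        rw [neg_pow]; ring).trans b2⟩
  have d5 : ∀ u ∈ Fib f x, ∑ μ, s ^ dgs μ * (c μ * (K1 *ᵥ u) μ) = 0 ∧
      ∑ μ, (-s) ^ dgs μ * (c μ * (K1 *ᵥ u) μ) = 0 := fun u hu =>
    (split_ana (ψ := fun z => tens fun _ => hatg (Y z)) H hψ hf (x3 x hx).1 (x3 x hx).2 l2
      (fun z => by simp only [l1]; exact d3 z)).elim (fun h => d4 _ h u hu)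
      fun h => by simpa only [neg_neg] using (d4 _ h u hu).symm
  choose q q1 q2 using fun ε => (hp x y2).2 (c' ε) fun V hV => by
    have := d5 _ (Sat.fib hV x)
    have := parity s0 s2 this.1 this.2 ε
    simpa [hc', dotProduct, apply_ite (Rat.cast : ℚ → ℂ), mul_assoc] using this
  refine ⟨fun μ => x⁻¹ ^ δ • (Polynomial.X ^ (δ - dgs μ / 2) * q (dgs μ % 2) μ), fun μ => ?_, ?_⟩
  · have := (Nat.div_le_self (dgs μ) 2).trans (dgs_le μ)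
    simp only [Polynomial.eval_smul, Polynomial.eval_mul, Polynomial.eval_pow, Polynomial.eval_X,
      q1, hc', if_true, smul_eq_mul]
    rw [← mul_assoc (x ^ _), ← pow_add, Nat.sub_add_cancel this, ← mul_assoc, ← mul_pow,
      inv_mul_cancel₀ x0, one_pow, one_mul]
  · filter_upwards [(q2 0).and (q2 1), (continuousAt_inv₀ x4).eventually_mem
      ((isOpen_lt continuous_const continuous_re).mem_nhds a4)] with z t1 t2
    obtain ⟨-, t3, -, t4⟩ := u0 _ t2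
    rw [inv_inv] at t4
    have z0 : z ≠ 0 := fun e => t3 (by simp [e])
    have c4 := fun ε (e : ∀ u ∈ Fib f z, (fun μ => Polynomial.aeval z (q ε μ)) ⬝ᵥ (K1 *ᵥ u) = 0) =>
      parity (d := dgs) (c := fun μ => Polynomial.aeval z (q ε μ) * mon δ (fun p : ν × κ =>
        (g.map (Polynomial.aeval z) * P z⁻¹) p.1 p.2) μ) (exp_ne_zero _) (m2 z t2) (by
          have := e _ (fb _ t4)
          simp only [dotProduct, m1 z t2] at this
          simpa only [mul_left_comm] using this) (by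
          have := e _ (st _ _ (fb _ t4))
          simp only [dotProduct, k2, m1 z t2] at this
          exact (sum_congr rfl fun μ _ => by rw [neg_pow]; ring).trans this) ε
    have c5 := congrArg₂ (· + ·) (c4 0 t1.1) (c4 1 t1.2)
    simp only [add_zero, ← sum_add_distrib] at c5
    replace c5 := congrArg (((x : ℂ)⁻¹ ^ δ * z ^ δ) * ·) c5
    simp only [mul_zero, mul_sum] at c5
    refine (sum_congr rfl fun μ _ => ?_).trans c5
    have b1 := (Nat.div_le_self (dgs μ) 2).trans (dgs_le μ)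
    have b2 : z ^ δ * z⁻¹ ^ (dgs μ / 2) = z ^ (δ - dgs μ / 2) := by
      rw [pow_sub₀ _ z0 b1, inv_pow]
    rcases Nat.mod_two_eq_zero_or_one (dgs μ) with e | e <;>
      simp [e, Rat.smul_def, ← b2, mul_assoc]

end

end Pool.Agent.Lib.MP_5591bc_ag.V
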