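import Pool.Agent.Lib.MP_5591bc_ag.SCore
import Pool.Agent.Lib.MP_5591bc_ag.V.Defs

/-! Polynomials in linear forms of the entries of a matrix, written as covectors. -/

namespace Pool.Agent.Lib.MP_5591bc_ag.V

open Matrix Finset Filter Topology PowerSeries G R Function

noncomputable section

variable {ν ι D R S : Type*} [CommRing R] [CommRing S]

/-- the matrix of the linear forms `lam` -/
def kl (lam : ι → ν × ν → R) : Matrix (Option ι) (Option (ν × ν)) R :=
  of fun o o' => o.elim (o'.elim 1 fun _ => 0) fun a => o'.elim 0 (lam a)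

/-- the degree of a monomial -/
def dgo [Fintype D] (μ : D → Option ι) : ℕ := #{l | (μ l).isSome}

/-- the coefficients of a product -/
def pr (c c' : (D → Option ι) → R) : (D ⊕ D → Option ι) → R :=
  fun μ => c (μ ∘ Sum.inl) * c' (μ ∘ Sum.inr)

/-- the coefficients of the constant one -/
def e1 [Fintype D] : (D → Option ι) → R := fun μ => if dgo μ = 0 then 1 else 0

variable [Fintype ν] [DecidableEq ν] [Fintype ι] [DecidableEq ι] [Fintype D] [DecidableEq D]

/-- the monomials in the forms `lam` in terms of the monomials in the entries -/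
def Kl (L : Type*) [Fintype L] (lam : ι → ν × ν → R) :
    Matrix (L → Option ι) (L → Option (ν × ν)) R := piM fun _ => kl lam

omit [DecidableEq ν] [Fintype ι] [DecidableEq ι] in
theorem Kl_hatg (lam : ι → ν × ν → R) (Z : Matrix ν ν R) :
    Kl D lam *ᵥ (tens fun _ => hatg Z) =
      tens fun _ o => o.elim 1 fun a => ∑ p, lam a p * Z p.1 p.2 := by
  rw [Kl, piM_mulVec]
  congr 1
  ext l (_ | a) <;> simp [kl, hatg, mulVec, dotProduct, Fintype.sum_option]

omit [Fintype ν] [DecidableEq ν] [Fintype ι] [DecidableEq ι] [DecidableEq D] in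
theorem Kl_map (φ : R →+* S) (lam : ι → ν × ν → R) :
    (Kl D lam).map φ = Kl D fun a p => φ (lam a p) := by
  ext μ α
  simp only [Kl, piM, map_apply, of_apply, map_prod]
  refine prod_congr rfl fun l _ => ?_
  cases μ l <;> cases α l <;> simp [kl]

omit [DecidableEq ι] in
theorem pr_tens (c c' : (D → Option ι) → R) (w : Option ι → R) :
    pr c c' ⬝ᵥ (tens fun _ => w) = (c ⬝ᵥ tens fun _ => w) * (c' ⬝ᵥ tens fun _ => w) := by
  rw [dotProduct, dotProduct, dotProduct, sum_mul_sum, ← Fintype.sum_prod_type',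
    ← (Equiv.sumArrowEquivProdArrow D D (Option ι)).sum_comp]
  refine sum_congr rfl fun μ _ => ?_
  simp only [pr, tens, Fintype.prod_sum_type]
  exact mul_mul_mul_comm _ _ _ _

omit [DecidableEq ι] in
theorem e1_tens (η : ι → R) : (e1 : (D → Option ι) → R) ⬝ᵥ (tens fun _ o => o.elim 1 η) = 1 := by
  rw [dotProduct, sum_eq_single (fun _ => none) (fun μ _ h => ?_) (by simp)]
  · simp [e1, dgo, tens]
  · obtain ⟨l, hl⟩ := Function.ne_iff.1 h
    have : dgo μ ≠ 0 := card_ne_zero_of_mem (mem_filter.2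
      ⟨mem_univ l, Option.isSome_iff_ne_none.2 hl⟩)
    rw [e1, if_neg this, zero_mul]

omit [Fintype ι] [DecidableEq ι] [DecidableEq D] in
theorem tens_smul (σ : R) (η : ι → R) (μ : D → Option ι) :
    (tens (fun _ (o : Option ι) => o.elim 1 fun a => σ * η a) μ : R) =
      σ ^ dgo μ * tens (fun _ (o : Option ι) => o.elim 1 η) μ := by
  simp only [tens, dgo, ← prod_const, prod_filter, ← prod_mul_distrib]
  refine prod_congr rfl fun l _ => ?_
  cases μ l <;> simp

omit [Fintype ι] [DecidableEq ι] [DecidableEq D] in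
theorem dgo_sum (μ : D ⊕ D → Option ι) : dgo μ = dgo (μ ∘ Sum.inl) + dgo (μ ∘ Sum.inr) := by
  simp only [dgo, card_filter, Fintype.sum_sum_type, Function.comp_apply]

omit [Fintype ι] [DecidableEq ι] in
theorem Kl_neg (lam : ι → ν × ν → R) (u : (D → Option (ν × ν)) → R) (μ : D → Option ι) :
    (Kl D lam *ᵥ (kap D 1 (-1) *ᵥ u)) μ = (-1) ^ dgo μ * (Kl D lam *ᵥ u) μ := by
  rw [mulVec_mulVec, Kl, kap, piM_mul, show (fun _ : D => (_ : Matrix (Option ι) _ R)) =
      fun _ => kl fun a p => -1 * lam a p from funext fun _ => by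
    ext (_ | a) (_ | ⟨p, q⟩) <;>
      simp [kl, ex2, Matrix.mul_apply, Fintype.sum_option, Fintype.sum_prod_type, one_apply]]
  simp only [mulVec, dotProduct, mul_sum, ← mul_assoc, piM, of_apply, dgo, ← prod_const,
    prod_filter, ← prod_mul_distrib]
  refine sum_congr rfl fun α _ => congrArg (· * _) (prod_congr rfl fun l _ => ?_)
  cases μ l <;> cases α l <;> simp [kl]

end

end Pool.Agent.Lib.MP_5591bc_ag.V
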