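import Pool.Agent.Lib.MP_5591bc_ag.SGal

/-! The gauge transformation between the two Picard-Fuchs systems of `y^2 = f(x)(x - t)`. -/

namespace Pool.Agent.Lib.MP_5591bc_ag.V

open Matrix Finset Filter Topology G R Function Metric Polynomial

noncomputable section

variable {f : ℚ[X]} {n : ℕ}

theorem fam_pair {u v : Fin n → ℂ} {t : ℂ}
    (h : ∀ x, (x - t) * ∑ j, u j * x ^ (j : ℕ) = (x - t) * ∑ j, v j * x ^ (j : ℕ)) :
    ∀ j, u j = v j := fun j => by
  have : (∑ j : Fin n, monomial (j : ℕ) (u j) : ℂ[X]) = ∑ j : Fin n, monomial (j : ℕ) (v j) :=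
    eq_of_infinite_eval_eq _ _ ((Set.finite_singleton t).infinite_compl.mono fun x hx => by
      simp only [Set.mem_ofPred_eq, eval_finsetSum, eval_monomial]
      exact mul_left_cancel₀ (sub_ne_zero.2 hx) (h x))
  simpa [coeff_monomial, Fin.val_inj] using congrArg (coeff · j) this

theorem fam_nil (hf : f.natDegree ≤ n) {a : ℂ} (ha : aeval a f = 0) :
    (oB f n).map (aeval a) * (oB f n).map (aeval a) = 0 := by
  have h0 : ∀ i : Fin n, ∑ j, aeval a (oB f n i j) * a ^ (j : ℕ) = 0 := fun i => by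
    have h1 := ((hasDerivAt_id a).sub_const a).fun_mul (HasDerivAt.fun_sum (u := univ)
      fun (j : Fin n) _ => (hasDerivAt_pow j a).const_mul (aeval a (oB f n i j)))
    have h2 := (((((hasDerivAt_id a).sub_const a).mul_const (a ^ (i : ℕ))).fun_mul
      ((derivative f).hasDerivAt_aeval a)).fun_sub ((f.hasDerivAt_aeval a).const_mul
        (a ^ (i : ℕ)))).fun_add ((hasDerivAt_pow i a).const_mul (aeval a f))
    simpa [ha] using (h1.congr_of_eventuallyEq (.of_forall fun x => (oB_id hf x a i).symm)).unique h2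
  ext i k
  refine fam_pair (t := a) (v := fun _ => 0) (fun x => ?_) k
  simp only [mul_apply, map_apply, sum_mul, mul_assoc, zero_mul, sum_const_zero, mul_zero]
  rw [sum_comm, mul_sum]
  simp only [← mul_sum, mul_left_comm (x - a), oB_id hf, ha, zero_mul, add_zero]
  rw [← zero_mul ((x - a) * aeval x (derivative f) - aeval x f), ← h0 i, sum_mul]
  exact sum_congr rfl fun _ _ => by ring

theorem fam_rev (g : ℕ → ℂ) {m : ℕ} (hm : m < n) (h : ∀ l, m < l → g l = 0) :
    ∑ i : Fin n, g i = ∑ l ∈ range (m + 1), g l := by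
  rw [Fin.sum_univ_eq_sum_range g]
  exact (sum_subset (range_subset_range.2 hm) fun i _ hi => h i (by simpa using hi)).symm

theorem fam_gP (k : Fin n) (x t : ℂ) :
    ∑ i, aeval t (gP n k i) * x ^ (i : ℕ) = t ^ (k : ℕ) * (x - t) ^ (n - (k + 1)) := by
  rw [sub_eq_add_neg, add_pow, ← fam_rev (n := n) _ (by omega) fun l hl => by
    rw [Nat.choose_eq_zero_of_lt hl, Nat.cast_zero, mul_zero], mul_sum]
  refine sum_congr rfl fun i _ => ?_
  simp only [gP, of_apply, map_mul, map_pow, map_neg, aeval_X, map_natCast]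
  ring

theorem fam_gP' (k : Fin n) (x t : ℂ) :
    ∑ i, aeval t (derivative (gP n k i)) * x ^ (i : ℕ) = (k : ℕ) * t ^ ((k : ℕ) - 1) *
      (x - t) ^ (n - (k + 1)) - t ^ (k : ℕ) * ((n - (k + 1) : ℕ) * (x - t) ^ (n - (k + 1) - 1)) := by
  have h1 := HasDerivAt.fun_sum (u := univ) fun (i : Fin n) _ =>
    ((gP n k i).hasDerivAt_aeval t).mul_const (x ^ (i : ℕ))
  have h2 := (hasDerivAt_pow k t).fun_mul (((hasDerivAt_id t).const_sub x).fun_pow (n - (k + 1)))
  rw [(h1.congr_of_eventuallyEq (.of_forall fun s => (fam_gP k x s).symm)).unique h2]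
  simp only [id]
  ring

theorem fam_inv {s : ℂ} (hs : s ≠ 0) (i l : Fin n) : ∑ k : Fin n,
    ((i : ℕ).choose (n - (k + 1)) : ℂ) * s ^ (i - (n - (k + 1))) * (aeval s (gP n k l) / s ^ (k : ℕ)) =
      if i = l then 1 else 0 := by
  revert l
  refine fam_pair (t := s) fun x => ?_
  congr 1
  simp only [sum_mul, ite_mul, one_mul, zero_mul, sum_ite_eq, mem_univ, if_true]
  rw [sum_comm, ← sub_add_cancel x s, add_pow, sub_add_cancel, ← fam_rev _ i.2 fun l hl => by
    rw [Nat.choose_eq_zero_of_lt hl, Nat.cast_zero, mul_zero], ← Equiv.sum_comp Fin.revPerm]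
  refine sum_congr rfl fun k _ => ?_
  simp only [mul_assoc, ← mul_sum, div_mul_eq_mul_div, ← sum_div, fam_gP, Fin.revPerm_apply,
    Fin.val_rev, show n - (n - (k + 1) + 1) = k by omega]
  field_simp

theorem fam_fl {fz : ℤ[X]} (hf : fz.natDegree ≤ n) (x t : ℂ) :
    ∑ l ∈ range (n + 1), ((l : ℂ) - 1) * fl fz l t * (x - t) ^ l =
      (x - t) * aeval x (derivative fz) - aeval x fz := by
  have h1 := HasDerivAt.fun_sum (u := range (n + 1)) fun l _ =>
    (((hasDerivAt_id x).sub_const t).fun_pow l).const_mul (fl fz l t)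
  rw [(fz.hasDerivAt_aeval x).unique (h1.congr_of_eventuallyEq (.of_forall fun s => sum_fl hf s t)),
    sum_fl hf x t, mul_sum, ← sum_sub_distrib]
  refine sum_congr rfl fun l _ => ?_
  rcases l with _ | l
  · simp
  · simp only [id, add_tsub_cancel_right]; ring

theorem fam_msol (hf : f.natDegree ≤ n) {fz : ℤ[X]} {b : ℂ} (hz : ∀ t : ℂ, aeval t fz = b * aeval t f)
    (z2 : fz.natDegree ≤ n) {P : ℂ → Matrix (Fin n) (Fin n) ℂ} {t : ℂ} (h0 : aeval t (hT fz) ≠ 0)
    (hP : MSol (Az (2 * f) (oB f n)) P t) :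
    MSol (hA fz n) (fun s => (gP n).map (aeval s) * P s) t := fun k j => by
  have e0 : aeval t (hT fz) = 2 * t * (b * aeval t f) := by simp [hT, map_ofNat, hz]
  have h1 : aeval t f ≠ 0 := fun h => h0 (by simp [e0, h])
  have b0 : b ≠ 0 := fun h => h0 (by simp [e0, h])
  have hz' : ∀ t : ℂ, aeval t (derivative fz) = b * aeval t (derivative f) := fun t =>
    (fz.hasDerivAt_aeval t).unique (((f.hasDerivAt_aeval t).const_mul b).congr_of_eventuallyEq
      (.of_forall hz))
  have key : ∀ l, aeval t (derivative (gP n k l)) + ((gP n).map (aeval t) *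
      Az (2 * f) (oB f n) t) k l = (hA fz n t * (gP n).map (aeval t)) k l := by
    refine fam_pair (t := t) fun x => ?_
    obtain ⟨W, hW⟩ : ∃ W, W = (x - t) * aeval x (derivative f) - aeval x f := ⟨_, rfl⟩
    obtain ⟨w, hw⟩ : ∃ w : ℕ → ℂ, w = fun j => (x - t) ^ (n - j) + if j = n then W / aeval t f else 0 :=
      ⟨_, rfl⟩
    have hE : Erel fz n 0 w t = 0 := by
      have := fam_fl z2 x t
      rw [sum_range_succ'] at this
      rw [Erel, sum_range_succ', sum_congr rfl fun l hl => show _ = (((l + 1 : ℕ) : ℂ) - 1) *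
        fl fz (l + 1) t * (x - t) ^ (l + 1) by
          have := mem_range.1 hl
          rw [hw]
          simp only [show n + 0 - (l + 1) ≠ n by omega, if_false,
            show n - (n + 0 - (l + 1)) = l + 1 by omega]
          simp, eq_sub_of_add_eq this, hz, hz', hw, fl_zero, hz, hW]
      simp
      field_simp
      ring
    have e1 : (x - t) * ∑ l, (hA fz n t * (gP n).map (aeval t)) k l * x ^ (l : ℕ) =
        (hA fz n t *ᵥ fun j => t ^ (j : ℕ) * w j) k := by
      simp only [mul_apply, map_apply, sum_mul, mul_assoc]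
      rw [sum_comm, mul_sum]
      refine sum_congr rfl fun j _ => ?_
      rw [← mul_sum, fam_gP, hw]
      simp only [j.2.ne, if_false, show n - j = n - (j + 1) + 1 by omega]
      ring
    have e2 : (x - t) * ∑ l, ((gP n).map (aeval t) * Az (2 * f) (oB f n) t) k l * x ^ (l : ℕ) =
        ((∑ i, aeval t (gP n k i) * t ^ (i : ℕ)) * W +
          aeval t f * ∑ i, aeval t (gP n k i) * x ^ (i : ℕ)) / (2 * aeval t f) := by
      simp only [mul_apply, map_apply, sum_mul, mul_assoc, Az, of_apply, div_mul_eq_mul_div]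
      rw [sum_comm, mul_sum, mul_sum, ← sum_add_distrib, sum_div]
      refine sum_congr rfl fun i _ => ?_
      rw [← mul_sum, ← sum_div, mul_left_comm, ← mul_div_assoc, oB_id hf, hW, map_mul, map_ofNat]
      ring
    simp only [add_mul, sum_add_distrib, mul_add]
    rw [e1, e2, hA_mulVec h0 hE, fam_gP, fam_gP, fam_gP', hw, sub_self]
    obtain ⟨m, hm⟩ : ∃ m, n = k + 1 + m := ⟨n - (k + 1), by omega⟩
    generalize (k : ℕ) = q at hm ⊢
    simp only [hm, add_tsub_cancel_left, show q + 1 + m - q = m + 1 by omega,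
      show q ≠ q + 1 + m by omega, if_false, left_eq_add]
    rcases m with _ | m
    · simp
      field_simp
      ring
    · simp
      field_simp
      ring
  refine (HasDerivAt.fun_sum (u := univ) fun i _ => ((gP n k i).hasDerivAt_aeval t).fun_mul
    (hP i j)).congr_deriv ?_
  rw [← Matrix.mul_assoc, mul_apply (N := P t), sum_add_distrib]
  simp only [← key, add_mul, sum_add_distrib]
  congr 1
  exact (congrFun₂ (Matrix.mul_assoc ((gP n).map (aeval t)) (Az (2 * f) (oB f n) t) (P t)) k j).symm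

theorem fam_rep {fz : ℤ[X]} (hn : 0 < n) (hf : fz.natDegree ≤ n) (m a : ℕ) (k : Fin n) :
    Rep (hS fz n) fun t ψ => ((4 ^ m * Nat.lcmUpto (2 * m) * 2 ^ (m + n) : ℤ) : ℂ) *
      aeval t (hT fz) ^ (m + 2 * n) *
        PowerSeries.coeff m (tay (fun s => s ^ a * om n (ψ · ⟨0, hn⟩) k s) t) := by
  choose z hz using cb_int (n - (k + 1))
  refine (Rep.sum (antidiagonal m) fun x hx => (rep_high hn hf (m := m) (K := k + x.2) (by
      have := mem_antidiagonal.1 hx; omega)).mul
      ((a.choose x.1 : ℤ[X]) * 4 ^ x.1 * (z x.2 : ℤ[X]) * X ^ (a - x.1))).congr fun t ψ h => ?_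
  rw [tay_mul (by fun_prop) (om_analytic (h.an _) _), PowerSeries.coeff_mul, mul_sum]
  refine sum_congr rfl fun x hx => ?_
  have e : ∏ l ∈ range x.2, ((l : ℂ) + ((k : ℕ) + 3 / 2 - n)) =
      ∏ l ∈ range x.2, ((l : ℂ) + 1 / 2 - (n - (k + 1) : ℕ)) :=
    prod_congr rfl fun l _ => by rw [Nat.cast_sub k.2]; push_cast; ring
  rw [coeff_tay_pow, coeff_om (h.an _), e, ← cb]
  simp only [map_mul, map_pow, map_natCast, map_intCast, map_ofNat, aeval_X, ← hz]
  generalize Nat.lcmUpto (2 * m) = a, m + n = b, m + 2 * n = c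
  rw [← mem_antidiagonal.1 hx]
  push_cast
  ring

theorem fam_gauss {p q : ℤ[X]} {W : ℚ[X]} (hp : p.IsPrimitive) {V : Set ℂ} (hV : V.Infinite)
    (h : ∀ t ∈ V, aeval t p * aeval t W = aeval t q) (l : ℕ) : ∃ y : ℤ, W.coeff l = y := by
  have e : p.map (algebraMap ℤ ℚ) * W = q.map (algebraMap ℤ ℚ) :=
    map_injective _ (algebraMap ℚ ℂ).injective (eq_of_infinite_eval_eq _ _ (hV.mono fun t ht => by
      simp only [Set.mem_ofPred_eq, eval_map_algebraMap, map_mul, aeval_map_algebraMap, h t ht]))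
  obtain ⟨r, rfl⟩ := hp.dvd_of_fraction_map_dvd_fraction_map (K := ℚ) ⟨W, e.symm⟩
  rw [Polynomial.map_mul] at e
  rw [mul_left_cancel₀ ((Polynomial.map_ne_zero_iff (algebraMap ℤ ℚ).injective_int).2 hp.ne_zero) e]
  exact ⟨r.coeff l, by simp⟩

theorem fam_loc {T : ℚ[X]} (B : Matrix (Fin n) (Fin n) ℚ[X]) (T0 : T ≠ 0) : ∃ (V : Set ℂ)
    (Φ Ψ : ℂ → Matrix (Fin n) (Fin n) ℂ), IsOpen V ∧ V.Infinite ∧
      ∀ t ∈ V, t ≠ 0 ∧ aeval t T ≠ 0 ∧ MSol (Az T B) Φ t ∧ Φ t * Ψ t = 1 := by
  obtain ⟨t, ht⟩ := ((X * T).rootSet_finite ℂ).infinite_compl.nonempty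
  have h1 : aeval t (X * T) ≠ 0 := fun e => ht (mem_rootSet.2 ⟨mul_ne_zero X_ne_zero T0, e⟩)
  obtain ⟨ε, ε0, hε⟩ := nhds_basis_closedBall.mem_iff.1 ((X * T).continuous_aeval.continuousAt.eventually_ne h1)
  have h2 : ∀ s ∈ closedBall t ε, s ≠ 0 ∧ aeval s T ≠ 0 := fun s hs => by simpa using hε hs
  obtain ⟨c, hc⟩ := (isCompact_closedBall t ε).exists_bound_of_continuousOn
    (f := fun t => (fun i j => Az T B t i j : Fin n → Fin n → ℂ)) (continuousOn_pi.2 fun i =>
      continuousOn_pi.2 fun j => (Hol.Az (fun s hs => (h2 s hs).2) i j).continuousOn)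
  obtain ⟨Φ, Ψ, -, -, h⟩ := exists_fund (convex_ball t ε) isOpen_ball (mem_ball_self ε0)
    (Hol.Az (B := B) fun s hs => (h2 s (ball_subset_closedBall hs)).2) (c := c)
    (fun s hs i j => ((norm_le_pi_norm _ j).trans (norm_le_pi_norm (fun i j => Az T B s i j) i)).trans
      (hc s (ball_subset_closedBall hs))) ((norm_nonneg _).trans (hc t (mem_closedBall_self ε0.le)))
  exact ⟨_, Φ, Ψ, isOpen_ball, infinite_of_mem_nhds t (ball_mem_nhds t ε0), fun s hs =>
    ⟨(h2 s (ball_subset_closedBall hs)).1, (h2 s (ball_subset_closedBall hs)).2, (h s hs).1,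
      mul_eq_one_comm.1 (h s hs).2.2.1⟩⟩

end

end Pool.Agent.Lib.MP_5591bc_ag.V
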