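import Mathlib

/-! Relations of formal solutions and the generic point of the differential Galois group. -/

namespace Pool.Agent.Lib.MP_5591bc_ag.V

open Matrix PowerSeries Function
open scoped TensorProduct

noncomputable section

theorem gal_ext {k R L n : Type*} [Field k] [CommRing R] [Algebra k R] [CommRing L] [Algebra k L]
    [Fintype n] (v : R →ₐ[k] L) {a y : n → R} {z : n → L} (h : ∑ j, a j ⊗ₜ[k] y j = 0)
    (hz : ∀ l : n → k, ∑ j, l j • y j = 0 → ∑ j, l j • z j = 0) : ∑ j, v (a j) * z j = 0 := by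
  classical
  let f := Fintype.linearCombination k y
  let g := Fintype.linearCombination k z
  have hk : LinearMap.ker f ≤ LinearMap.ker g := fun l hl => hz l hl
  obtain ⟨φ, hφ⟩ := LinearMap.exists_extend
    ((LinearMap.ker f).liftQ g hk ∘ₗ f.quotKerEquivRange.symm.toLinearMap)
  have e : ∀ j, φ (y j) = z j := fun j => by
    have h1 := LinearMap.congr_fun hφ ⟨f (Pi.single j 1), LinearMap.mem_range_self _ _⟩
    rw [LinearMap.comp_apply, LinearMap.comp_apply, LinearEquiv.coe_coe,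
      LinearMap.quotKerEquivRange_symm_apply_image] at h1
    simpa [f, g] using h1
  have := congrArg (LinearMap.mul' k L ∘ₗ TensorProduct.map v.toLinearMap φ) h
  simpa [e] using this

theorem gal_zero {T : ℂ⟦X⟧} (hT : constantCoeff T ≠ 0) {S : Set ℂ⟦X⟧}
    (h0 : ∀ f ∈ S, constantCoeff f = 0) (h1 : ∀ f ∈ S, T * d⁄dX ℂ f ∈ S) : ∀ f ∈ S, f = 0 := by
  have key : ∀ n, ∀ f ∈ S, X ^ n ∣ f := fun n => by
    induction n with
    | zero => simp
    | succ n ih =>
      intro f hf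
      have a1 := X_pow_dvd_iff.1 ((isUnit_iff_constantCoeff.2 hT.isUnit).dvd_mul_left.1
        (ih _ (h1 f hf)))
      refine X_pow_dvd_iff.2 fun m hm => ?_
      rcases m with _ | m
      · simpa using h0 f hf
      · have := a1 m (by omega)
        rw [coeff_derivative] at this
        exact (mul_eq_zero.1 this).resolve_right (Nat.cast_add_one_ne_zero m)
  exact fun f hf => PowerSeries.ext fun n => X_pow_dvd_iff.1 (key (n + 1) f hf) n n.lt_succ_self

variable {n : Type*} [Fintype n] [DecidableEq n]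

/-- polynomial relations of a vector of power series -/
def Rel (y : n → ℂ⟦X⟧) : Submodule ℂ (n → Polynomial ℂ) where
  carrier := {l | (fun j => (l j : ℂ⟦X⟧)) ⬝ᵥ y = 0}
  add_mem' := fun {a b} ha hb => by
    simp only [Set.mem_ofPred_eq, dotProduct, Pi.add_apply, Polynomial.coe_add, add_mul,
      Finset.sum_add_distrib] at *
    rw [ha, hb, add_zero]
  zero_mem' := by simp [dotProduct]
  smul_mem' := fun c a ha => by
    simp only [Set.mem_ofPred_eq, dotProduct, Pi.smul_apply, Polynomial.coe_smul, smul_mul_assoc,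
      ← Finset.smul_sum] at *
    rw [ha, smul_zero]

variable {T : Polynomial ℂ} {B : Matrix n n (Polynomial ℂ)} {Y : Matrix n n ℂ⟦X⟧}

omit [DecidableEq n] in
theorem gal_der (ode : (T : ℂ⟦X⟧) • Y.map (d⁄dX ℂ) = B.map (fun p => (p : ℂ⟦X⟧)) * Y)
    (l : n → Polynomial ℂ) (u : n → ℂ) :
    T * d⁄dX ℂ ((fun j => (l j : ℂ⟦X⟧)) ⬝ᵥ (Y *ᵥ fun j => C (u j))) =
      (fun j => ((T * (l j).derivative + (l ᵥ* B) j : Polynomial ℂ) : ℂ⟦X⟧)) ⬝ᵥ
        (Y *ᵥ fun j => C (u j)) := by
  have e1 : ∀ j, (T : ℂ⟦X⟧) * d⁄dX ℂ ((Y *ᵥ fun j => C (u j)) j) =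
      (B.map (fun p => (p : ℂ⟦X⟧)) *ᵥ (Y *ᵥ fun j => C (u j))) j := fun j => by
    rw [mulVec_mulVec, ← ode]
    simp [mulVec, dotProduct, Finset.mul_sum, mul_comm, mul_left_comm]
  have e2 : (fun j => ((l ᵥ* B) j : ℂ⟦X⟧)) =
      (fun j => (l j : ℂ⟦X⟧)) ᵥ* B.map (fun p => (p : ℂ⟦X⟧)) := funext fun j => by
    refine (map_sum (Polynomial.coeToPowerSeries.ringHom (R := ℂ)) (fun i => l i * B i j)
      Finset.univ).trans (Finset.sum_congr rfl fun i _ => ?_)
    exact Polynomial.coe_mul _ _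
  simp only [Polynomial.coe_add, Polynomial.coe_mul]
  rw [show (fun j => (T : ℂ⟦X⟧) * ((l j).derivative : ℂ⟦X⟧) + ((l ᵥ* B) j : ℂ⟦X⟧)) =
    (fun j => (T : ℂ⟦X⟧) * ((l j).derivative : ℂ⟦X⟧)) + fun j => ((l ᵥ* B) j : ℂ⟦X⟧) from rfl,
    add_dotProduct, e2, ← dotProduct_mulVec, ← funext e1]
  simp only [dotProduct, map_sum, Finset.mul_sum, ← Finset.sum_add_distrib, Derivation.leibniz,
    smul_eq_mul, derivative_coe]
  exact Finset.sum_congr rfl fun j _ => by ring

theorem gal_tay (hT : T.eval 0 ≠ 0) (h0 : Y.map constantCoeff = 1)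
    (ode : (T : ℂ⟦X⟧) • Y.map (d⁄dX ℂ) = B.map (fun p => (p : ℂ⟦X⟧)) * Y) {y u : n → ℂ}
    (hu : ∀ l ∈ Rel (Y *ᵥ fun j => C (y j)), (fun j => (l j).eval 0) ⬝ᵥ u = 0) :
    ∀ l ∈ Rel (Y *ᵥ fun j => C (y j)), l ∈ Rel (Y *ᵥ fun j => C (u j)) := fun l hl => by
  refine gal_zero (T := T) (by rwa [Polynomial.constantCoeff_coe, Polynomial.coeff_zero_eq_eval_zero])
    (S := (fun l : n → Polynomial ℂ => (fun j => (l j : ℂ⟦X⟧)) ⬝ᵥ (Y *ᵥ fun j => C (u j))) ''
      Rel (Y *ᵥ fun j => C (y j))) ?_ ?_ _ ⟨l, hl, rfl⟩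
  · rintro _ ⟨l, hl, rfl⟩
    have e : ∀ i j, constantCoeff (Y i j) = (1 : Matrix n n ℂ) i j := fun i j => congrFun₂ h0 i j
    rw [← hu l hl]
    simp [dotProduct, mulVec, e, one_apply, Polynomial.coeff_zero_eq_eval_zero]
  · rintro _ ⟨l, hl, rfl⟩
    refine ⟨_, ?_, (gal_der ode l u).symm⟩
    change _ ⬝ᵥ _ = _
    rw [← gal_der ode, show _ ⬝ᵥ _ = _ from hl, map_zero, mul_zero]

/-- a projector on the fibre of the module of relations, with lifted rows -/
theorem gal_proj (y : n → ℂ⟦X⟧) : ∃ (H : Matrix n n (Polynomial ℂ)), (∀ i, H i ∈ Rel y) ∧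
    ∀ l ∈ Rel y, (fun j => (l j).eval 0) ᵥ* H.map (Polynomial.eval 0) = fun j => (l j).eval 0 := by
  let ev : (n → Polynomial ℂ) →ₗ[ℂ] n → ℂ := LinearMap.pi fun j =>
    (Polynomial.leval 0 ∘ₗ LinearMap.proj j)
  obtain ⟨Q, hQ⟩ := ((Rel y).map ev).exists_isCompl
  let π := Submodule.projectionOnto _ _ hQ
  choose H h1 h2 using fun i => (π (Pi.single i 1)).2
  refine ⟨of H, h1, fun l hl => ?_⟩
  have a1 : (π (ev l) : n → ℂ) = ev l :=
    congrArg Subtype.val (Submodule.projectionOnto_apply_left hQ ⟨ev l, l, hl, rfl⟩)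
  refine Eq.trans ?_ a1
  conv_rhs => rw [pi_eq_sum_univ' (ev l), map_sum, Submodule.coe_sum]
  ext j
  simp only [map_smul, Submodule.coe_smul, ← h2, vecMul, dotProduct, Finset.sum_apply]
  rfl

section lift
variable {k R L : Type*} [Field k] [Algebra (Polynomial ℂ) k] [IsFractionRing (Polynomial ℂ) k]
  [CommRing R] [Algebra k R] [CommRing L] [Algebra k L] [IsDomain L] {ι : ℂ⟦X⟧ →+* L}
  {v : R →ₐ[k] L}

variable (k) in
/-- polynomials in a `k`-algebra -/
def pk (D : Type*) [CommRing D] [Algebra k D] : Polynomial ℂ →+* D :=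
  (algebraMap k D).comp (algebraMap (Polynomial ℂ) k)

variable (k) in
/-- constants in a `k`-algebra -/
def ck (D : Type*) [CommRing D] [Algebra k D] : ℂ →+* D := (pk k D).comp Polynomial.C

theorem gal_lift (hι : Injective ι) (hc : ∀ p : Polynomial ℂ, ι p = pk k L p)
    (hT : T.eval 0 ≠ 0) (h0 : Y.map constantCoeff = 1)
    (ode : (T : ℂ⟦X⟧) • Y.map (d⁄dX ℂ) = B.map (fun p => (p : ℂ⟦X⟧)) * Y) {Yr Yi : Matrix n n R}
    (hY : Yr.map v = Y.map ι) (hi : Yi * Yr = 1) (y b : n → ℂ) :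
    (fun j => ck k (R ⊗[k] R) (b j)) ⬝ᵥ ((Yi.map Algebra.TensorProduct.includeLeftRingHom *
      Yr.map (Algebra.TensorProduct.includeRight (R := k) (A := R) (B := R))) *ᵥ
        fun j => ck k (R ⊗[k] R) (y j)) = 0 →
      ∃ l ∈ Rel (Y *ᵥ fun j => C (y j)), ∀ j, (l j).eval 0 = b j := fun h => by
  obtain ⟨H, h1, h2⟩ := gal_proj (Y *ᵥ fun j => C (y j))
  have cC : ∀ c : ℂ, ι (C c) = ck k L c := fun c => by rw [← Polynomial.coe_C, hc]; rfl
  have vC : ∀ c : ℂ, v (ck k R c) = ck k L c := fun c => v.commutes _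
  have vY : ∀ (u : n → ℂ) j, v ((Yr *ᵥ fun j => ck k R (u j)) j) =
      ι ((Y *ᵥ fun j => C (u j)) j) := fun u j => by
    simp only [mulVec, dotProduct, map_sum, map_mul, vC, cC]
    exact Finset.sum_congr rfl fun i _ => congrArg (· * _) (congrFun₂ hY j i)
  have key : ∀ u : n → ℂ, (∀ l ∈ Rel (Y *ᵥ fun j => C (y j)), (fun j => (l j).eval 0) ⬝ᵥ u = 0) →
      b ⬝ᵥ u = 0 := fun u hu => by
    have a1 := gal_ext (k := k) v (a := (fun j => ck k R (b j)) ᵥ* Yi)
      (y := Yr *ᵥ fun j => ck k R (y j)) (z := fun j => ι ((Y *ᵥ fun j => C (u j)) j)) ?_ ?_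
    · have a2 : v (((fun j => ck k R (b j)) ᵥ* Yi) ⬝ᵥ (Yr *ᵥ fun j => ck k R (u j))) = 0 := by
        rw [← a1, dotProduct, map_sum]
        exact Finset.sum_congr rfl fun j _ => by rw [map_mul, vY]
      rw [← dotProduct_mulVec, mulVec_mulVec, hi, one_mulVec] at a2
      refine (map_eq_zero_iff (ck k L) (RingHom.injective _)).1 (Eq.trans ?_ a2)
      simp only [dotProduct, map_sum, map_mul, vC]
    · rw [← h, ← mulVec_mulVec, dotProduct_mulVec, dotProduct]
      refine Finset.sum_congr rfl fun j _ => ?_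
      rw [← mul_one (((fun j => ck k R (b j)) ᵥ* Yi) j), ← one_mul ((Yr *ᵥ _) j),
        ← Algebra.TensorProduct.tmul_mul_tmul]
      congr 1
      · simp only [vecMul, dotProduct, TensorProduct.sum_tmul]
        refine Finset.sum_congr rfl fun i _ => ?_
        rw [← mul_one (1 : R), ← Algebra.TensorProduct.tmul_mul_tmul]
        rfl
      · simp only [mulVec, dotProduct, TensorProduct.tmul_sum]
        refine Finset.sum_congr rfl fun i _ => ?_
        rw [← mul_one (1 : R), ← Algebra.TensorProduct.tmul_mul_tmul]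
        exact congrArg _ ((Algebra.TensorProduct.includeRight (R := k) (A := R) (B := R)).commutes _)
    · intro l hl
      obtain ⟨d, hd⟩ := IsLocalization.exist_integer_multiples_of_finite
        (nonZeroDivisors (Polynomial ℂ)) l
      choose p hp using hd
      have a3 : ∀ z : n → ℂ⟦X⟧, ι ((fun j => (p j : ℂ⟦X⟧)) ⬝ᵥ z) =
          algebraMap _ k (d : Polynomial ℂ) • ∑ j, l j • ι (z j) := fun z => by
        simp only [dotProduct, map_sum, map_mul, hc, Finset.smul_sum, smul_smul]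
        refine Finset.sum_congr rfl fun j _ => ?_
        rw [← Algebra.smul_def, ← hp, Algebra.smul_def]
        rfl
      have a4 : p ∈ Rel (Y *ᵥ fun j => C (y j)) := hι (by
        have := congrArg v hl
        simp only [map_sum, map_smul, vY] at this
        rw [a3, this, map_zero, map_zero, smul_zero])
      have a5 := a3 (Y *ᵥ fun j => C (u j))
      rw [show _ ⬝ᵥ _ = _ from gal_tay hT h0 ode hu p a4, map_zero, eq_comm, smul_eq_zero] at a5
      exact a5.resolve_left (IsFractionRing.to_map_ne_zero_of_mem_nonZeroDivisors d.2)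
  have a6 : b ᵥ* (1 - H.map (Polynomial.eval 0)) = 0 := funext fun j => key
    (fun i => (1 - H.map (Polynomial.eval 0)) i j) fun l hl => by
      have := congrFun (vecMul_sub (1 : Matrix n n ℂ) (H.map (Polynomial.eval 0))
        fun j => (l j).eval 0) j
      rwa [h2 l hl, vecMul_one, sub_self] at this
  refine ⟨∑ i, b i • H i, Submodule.sum_mem _ fun i _ => Submodule.smul_mem _ _ (h1 i), fun j => ?_⟩
  rw [vecMul_sub, vecMul_one, sub_eq_zero] at a6
  rw [congrFun a6 j]
  simp [vecMul, dotProduct, Polynomial.eval_finsetSum]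

omit [IsFractionRing (Polynomial ℂ) k] [IsDomain L] in
theorem gal_conv [IsDomain (R ⊗[k] R)] (hι : Injective ι) (hv : Injective v)
    (hc : ∀ p : Polynomial ℂ, ι p = pk k L p)
    (hT : T.eval 0 ≠ 0) (h0 : Y.map constantCoeff = 1)
    (ode : (T : ℂ⟦X⟧) • Y.map (d⁄dX ℂ) = B.map (fun p => (p : ℂ⟦X⟧)) * Y) {Yr Yi : Matrix n n R}
    (hY : Yr.map v = Y.map ι) (hi : Yi * Yr = 1) (y : n → ℂ) :
    ∀ l ∈ Rel (Y *ᵥ fun j => C (y j)), (fun j => ck k (R ⊗[k] R) ((l j).eval 0)) ⬝ᵥ
      ((Yi.map Algebra.TensorProduct.includeLeftRingHom *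
        Yr.map (Algebra.TensorProduct.includeRight (R := k) (A := R) (B := R))) *ᵥ
          fun j => ck k (R ⊗[k] R) (y j)) = 0 := fun l hl => by
  obtain ⟨H, h1, h2⟩ := gal_proj (Y *ᵥ fun j => C (y j))
  obtain ⟨E, hE⟩ : ∃ E, E = H.map (Polynomial.eval 0) := ⟨_, rfl⟩
  rw [← hE] at h2
  have cC : ∀ c : ℂ, ι (C c) = ck k L c := fun c => by rw [← Polynomial.coe_C, hc]; rfl
  have vC : ∀ c : ℂ, v (ck k R c) = ck k L c := fun c => v.commutes _
  have vP : ∀ p, v (pk k R p) = ι p := fun p => (v.commutes _).trans (hc p).symm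
  have a1 : (1 - E) * E = 0 := by
    rw [Matrix.sub_mul, Matrix.one_mul, sub_eq_zero]
    ext i j
    have := congrFun (h2 _ (h1 i)) j
    rw [hE] at this ⊢
    exact this.symm
  have a2 : H.map (fun p => (p : ℂ⟦X⟧)) * Y * (1 - E).map C = 0 := by
    ext1 i j
    rw [Matrix.mul_assoc]
    refine gal_tay hT h0 ode (u := fun i => (1 - E) i j) (fun l hl => ?_) _ (h1 i)
    have := congrFun (vecMul_sub (1 : Matrix n n ℂ) E fun j => (l j).eval 0) j
    rwa [h2 l hl, vecMul_one, sub_self] at this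
  obtain ⟨Z, hZ⟩ : ∃ Z, Z = H.map (fun p => (p : ℂ⟦X⟧)) * Y + (1 - E).map C := ⟨_, rfl⟩
  have a3 : Z * E.map C = H.map (fun p => (p : ℂ⟦X⟧)) * Y := by
    rw [hZ, Matrix.add_mul, ← Matrix.map_mul, a1, Matrix.map_zero _ (map_zero _), add_zero]
    rwa [Matrix.map_sub _ (map_sub _), Matrix.map_one _ (map_zero _) (map_one _), Matrix.mul_sub,
      Matrix.mul_one, sub_eq_zero, eq_comm] at a2
  have a4 : Z.det ≠ 0 := fun e => by
    have b1 : Z.map constantCoeff = 1 := by
      rw [hZ, Matrix.map_add _ (map_add _), Matrix.map_mul, h0, Matrix.mul_one]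
      ext i j
      simp [hE, Polynomial.coeff_zero_eq_eval_zero]
    have := (constantCoeff (R := ℂ)).map_det Z
    rw [e, map_zero, RingHom.mapMatrix_apply, b1, det_one] at this
    exact zero_ne_one this
  obtain ⟨W, hW⟩ : ∃ W, W = H.map (pk k R) * Yr + (1 - E).map (ck k R) := ⟨_, rfl⟩
  have a5 : (H.map (pk k R) * Yr).map v = (H.map (fun p => (p : ℂ⟦X⟧)) * Y).map ι := by
    rw [Matrix.map_mul, Matrix.map_mul, hY]
    exact congrArg (· * _) (Matrix.ext fun i j => vP _)
  have a6 : ∀ M : Matrix n n ℂ, (M.map (ck k R)).map v = (M.map C).map ι := fun M =>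
    Matrix.ext fun i j => (vC _).trans (cC _).symm
  have a7 : W.map v = Z.map ι := by
    rw [hW, hZ, Matrix.map_add _ (map_add _), Matrix.map_add _ (map_add _), a5, a6]
  have a8 : W * E.map (ck k R) = H.map (pk k R) * Yr := Matrix.map_injective hv (by
    change Matrix.map _ v = Matrix.map _ v
    rw [Matrix.map_mul, a7, a6, ← Matrix.map_mul, a3, a5])
  let il : R →+* R ⊗[k] R := Algebra.TensorProduct.includeLeftRingHom
  let ir : R →ₐ[k] R ⊗[k] R := Algebra.TensorProduct.includeRight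
  have a9 : (W.map il).det ≠ 0 := fun e => a4 (hι (by
    have b1 := congrArg (Algebra.TensorProduct.lmul' k) ((il.map_det W).trans e)
    have b2 := v.toRingHom.map_det W
    rw [show Algebra.TensorProduct.lmul' k (il W.det) = W.det from mul_one _, map_zero] at b1
    rw [b1, map_zero] at b2
    rw [ι.map_det, map_zero, b2]
    exact congrArg det a7.symm))
  have b3 : (H.map (pk k R) * Yr) *ᵥ (fun j => ck k R (y j)) = 0 := funext fun i => hv (by
    rw [Pi.zero_apply, map_zero, ← map_zero ι, ← show _ ⬝ᵥ _ = _ from h1 i]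
    have : ∀ i j, v (Yr i j) = ι (Y i j) := congrFun₂ hY
    simp only [mulVec, dotProduct, map_sum, map_mul, this, vC, cC, vP, mul_apply, map_apply,
      Finset.sum_mul, Finset.mul_sum, mul_assoc]
    exact Finset.sum_comm)
  have b4 : E.map (ck k (R ⊗[k] R)) *ᵥ ((Yi.map il * Yr.map ir) *ᵥ
      fun j => ck k (R ⊗[k] R) (y j)) = 0 := eq_zero_of_mulVec_eq_zero a9 (by
    have c1 : E.map (ck k (R ⊗[k] R)) = (E.map (ck k R)).map il := rfl
    have c2 : (H.map (pk k R)).map il = (H.map (pk k R)).map ir :=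
      Matrix.ext fun i j => (ir.commutes _).symm
    rw [mulVec_mulVec, mulVec_mulVec, c1, ← Matrix.map_mul, a8, Matrix.map_mul, Matrix.mul_assoc,
      ← Matrix.mul_assoc (Yr.map il), ← Matrix.map_mul, mul_eq_one_comm.1 hi,
      Matrix.map_one _ (map_zero _) (map_one _), Matrix.one_mul, c2, ← Matrix.map_mul]
    ext1 i
    rw [Pi.zero_apply, ← map_zero ir, ← show _ = (0 : R) from congrFun b3 i]
    simp only [mulVec, dotProduct, map_sum, map_mul, map_apply]
    exact Finset.sum_congr rfl fun j _ => congrArg _ (ir.commutes _).symm)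
  have b5 : (fun j => ck k (R ⊗[k] R) ((l j).eval 0)) ᵥ* E.map (ck k (R ⊗[k] R)) =
      fun j => ck k (R ⊗[k] R) ((l j).eval 0) := funext fun j => by
    rw [← congrFun (h2 l hl) j]
    simp [vecMul, dotProduct]
  rw [← b5, ← dotProduct_mulVec, b4, dotProduct_zero]

end lift

end

end Pool.Agent.Lib.MP_5591bc_ag.V
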