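import Pool.Agent.Lib.MP_5591bc_ag.V.Res

/-! The sheared system of `y^2 = f(x)(x - t)` at infinity. -/

namespace Pool.Agent.Lib.MP_5591bc_ag.V

open Matrix Finset Filter Topology G R Function Metric Polynomial Complex

noncomputable section

variable {f : ℚ[X]} {n : ℕ}

theorem inf_row (k : Fin n) (t x : ℂ) : ∑ i, aeval t (gP n k i) * x ^ (i : ℕ) =
    t ^ (k : ℕ) * (x - t) ^ (n - (k + 1)) := by
  have e : (x - t) ^ (n - (k + 1)) = ∑ i : Fin n, x ^ (i : ℕ) * (-t) ^ (n - (k + 1) - i) *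
      (n - (k + 1)).choose i := by
    rw [sub_eq_add_neg, add_pow, Fin.sum_univ_eq_sum_range fun i => x ^ i *
      (-t) ^ (n - (k + 1) - i) * (n - (k + 1)).choose i]
    refine sum_subset (range_subset_range.2 (by omega)) fun i _ hi => ?_
    rw [Nat.choose_eq_zero_of_lt (by simpa using hi), Nat.cast_zero, mul_zero]
  rw [e, mul_sum]
  refine sum_congr rfl fun i _ => ?_
  simp only [gP, of_apply, map_mul, map_pow, map_neg, aeval_X, map_natCast]
  ring

/-- the change of basis `gP` transforms one Picard-Fuchs system into the other -/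
theorem inf_gauge (hf : f.natDegree ≤ n) {fz : ℤ[X]} {b : ℂ}
    (z1 : ∀ z : ℂ, aeval z fz = b * aeval z f) (z2 : fz.natDegree ≤ n) {t : ℂ}
    (hT : aeval t (hT fz) ≠ 0) : ((gP n).map derivative).map (aeval t) +
      (gP n).map (aeval t) * Az (2 * f) (oB f n) t = hA fz n t * (gP n).map (aeval t) := by
  have e0 : aeval t (G.hT fz) = 2 * t * (b * aeval t f) := by simp [G.hT, map_ofNat, z1]
  have f0 : aeval t f ≠ 0 := fun h => hT (by simp [e0, h])
  refine sub_eq_zero.1 (funext fun k => eq_zero_of_forall_index_sum_mul_pow_eq_zero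
    (f := fun j : Fin n => t + ((j : ℕ) + 1 : ℕ)) (fun i j h => Fin.ext (by simpa using h))
    fun j => ?_)
  have hx : t + ((j : ℕ) + 1 : ℕ) - t ≠ 0 := by
    rw [add_sub_cancel_left]
    exact Nat.cast_ne_zero.2 (Nat.succ_ne_zero _)
  generalize t + ((j : ℕ) + 1 : ℕ) = x at hx ⊢
  obtain ⟨w, hw⟩ : ∃ w : ℕ → ℂ, w = fun l => if l < n then (x - t) ^ (n - (l + 1)) else
    ((x - t) * aeval x (derivative f) - aeval x f + aeval t f) / ((x - t) * aeval t f) := ⟨_, rfl⟩
  have w1 : ∀ l : Fin n, w l = (x - t) ^ (n - (l + 1)) := fun l => by rw [hw]; exact if_pos l.2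
  have w2 : ∀ l, ¬ l < n → w l = ((x - t) * aeval x (derivative f) - aeval x f + aeval t f) /
      ((x - t) * aeval t f) := fun l hl => by rw [hw]; exact if_neg hl
  have d1 : b * aeval x (derivative f) =
      ∑ l ∈ range (n + 1), fl fz l t * (l * (x - t) ^ (l - 1) * 1) :=
    ((f.hasDerivAt_aeval x).const_mul b).unique ((HasDerivAt.fun_sum fun l _ =>
      (((hasDerivAt_id x).sub_const t).fun_pow l).const_mul (fl fz l t)).congr_of_eventuallyEq
        (Eventually.of_forall fun y => (z1 y).symm.trans (sum_fl z2 y t)))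
  have hE : Erel fz n 0 w t = 0 := by
    have d2 := (z1 x).symm.trans (sum_fl z2 x t)
    rw [sum_range_succ', fl_zero, z1] at d1 d2
    rw [Erel, sum_range_succ', fl_zero, z1, add_zero, Nat.sub_zero, w2 n (lt_irrefl n)]
    refine mul_left_cancel₀ hx ?_
    have d3 : (x - t) * ∑ l ∈ range n, (((l + 1 : ℕ) : ℂ) - 1 - 2 * (0 : ℕ)) * fl fz (l + 1) t *
        w (n - (l + 1)) = (x - t) * ∑ l ∈ range n, fl fz (l + 1) t *
          ((l + 1 : ℕ) * (x - t) ^ (l + 1 - 1) * 1) -
            ∑ l ∈ range n, fl fz (l + 1) t * (x - t) ^ (l + 1) := by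
      rw [mul_sum, mul_sum, ← sum_sub_distrib]
      refine sum_congr rfl fun l hl => ?_
      have := mem_range.1 hl
      rw [w1 ⟨n - (l + 1), by omega⟩, show n - (n - (l + 1) + 1) = l by omega,
        add_tsub_cancel_right]
      push_cast
      ring
    rw [mul_add, d3, ← sub_eq_iff_eq_add.2 d1, ← sub_eq_iff_eq_add.2 d2]
    field_simp
    ring
  have h1 := hA_mulVec hT hE k
  have h2 : ∑ i, aeval t (derivative (gP n k i)) * x ^ (i : ℕ) = (k : ℕ) * t ^ ((k : ℕ) - 1) *
      (x - t) ^ (n - (k + 1)) + t ^ (k : ℕ) *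
        ((n - (k + 1) : ℕ) * (x - t) ^ (n - (k + 1) - 1) * (-1)) :=
    (HasDerivAt.fun_sum fun (i : Fin n) _ =>
      ((gP n k i).hasDerivAt_aeval t).mul_const (x ^ (i : ℕ))).unique
      (((hasDerivAt_pow k t).fun_mul (((hasDerivAt_id t).const_sub x).fun_pow
        (n - (k + 1)))).congr_of_eventuallyEq (Eventually.of_forall fun s => inf_row k s x))
  have h3 : ∀ i : Fin n, ∑ l, Az (2 * f) (oB f n) t i l * x ^ (l : ℕ) =
      ((x - t) * aeval x (derivative f) - aeval x f) / ((x - t) * (2 * aeval t f)) * t ^ (i : ℕ) +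
        ((x - t) * 2)⁻¹ * x ^ (i : ℕ) := fun i => by
    have := eq_div_of_mul_eq hx ((mul_comm _ _).trans (oB_id hf x t i))
    simp only [Az, of_apply, div_mul_eq_mul_div, ← sum_div, this, map_mul, map_ofNat]
    field_simp
  have h4 : ∑ l, ((gP n).map (aeval t) * Az (2 * f) (oB f n) t) k l * x ^ (l : ℕ) =
      ((x - t) * aeval x (derivative f) - aeval x f) / ((x - t) * (2 * aeval t f)) *
        (t ^ (k : ℕ) * (t - t) ^ (n - (k + 1))) +
          ((x - t) * 2)⁻¹ * (t ^ (k : ℕ) * (x - t) ^ (n - (k + 1))) := by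
    simp only [mul_apply, sum_mul, mul_assoc]
    rw [sum_comm, ← inf_row, ← inf_row, mul_sum, mul_sum, ← sum_add_distrib]
    refine sum_congr rfl fun i _ => ?_
    rw [← mul_sum, h3, map_apply]
    ring
  have h5 : ∑ l, (hA fz n t * (gP n).map (aeval t)) k l * x ^ (l : ℕ) =
      (hA fz n t *ᵥ fun j => t ^ (j : ℕ) * w j) k := by
    simp only [mul_apply, sum_mul, mul_assoc, mulVec, dotProduct]
    rw [sum_comm]
    refine sum_congr rfl fun i _ => ?_
    rw [← mul_sum, w1, ← inf_row]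
    rfl
  simp only [Matrix.sub_apply, Matrix.add_apply, sub_mul, add_mul, sum_sub_distrib,
    sum_add_distrib, map_apply]
  rw [h2, h4, h5, h1, w1, sub_self t]
  by_cases hk : (k : ℕ) + 1 < n
  · obtain ⟨m, hm⟩ : ∃ m, n - (k + 1) = m + 1 := ⟨n - (k + 1) - 1, by omega⟩
    rw [w1 ⟨k + 1, hk⟩, show n - (k + 1 + 1) = m by omega, hm,
      show (n : ℂ) = (k : ℕ) + m + 2 by exact_mod_cast (by omega : n = k + m + 2)]
    simp only [add_tsub_cancel_right, zero_pow (Nat.succ_ne_zero m)]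
    push_cast
    field_simp
    ring
  · have := k.2
    rw [w2 _ hk, show n - (k + 1) = 0 by omega,
      show (n : ℂ) = (k : ℕ) + 1 by exact_mod_cast (by omega : n = k + 1)]
    push_cast
    field_simp
    ring

theorem inf_msol {κ : Type*} (hf : f.natDegree ≤ n) {fz : ℤ[X]} {b : ℂ}
    (z1 : ∀ z : ℂ, aeval z fz = b * aeval z f) (z2 : fz.natDegree ≤ n) {t : ℂ}
    (hT : aeval t (hT fz) ≠ 0) {P : ℂ → Matrix (Fin n) κ ℂ}
    (hP : MSol (Az (2 * f) (oB f n)) P t) :
    MSol (hA fz n) (fun t => (gP n).map (aeval t) * P t) t := fun i j => by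
  refine (HasDerivAt.fun_sum (u := univ) fun k _ => ((gP n i k).hasDerivAt_aeval t).fun_mul
    (hP k j)).congr_deriv ?_
  rw [← Matrix.mul_assoc, ← inf_gauge hf z1 z2 hT, Matrix.add_mul, Matrix.mul_assoc,
    sum_add_distrib]
  rfl

/-- an invertible solution on a small disc in the right half plane -/
theorem inf_fund (f0 : f ≠ 0) : ∃ (W : Set ℂ) (P : ℂ → Matrix (Fin n) (Fin n) ℂ), IsOpen W ∧
    W.Nonempty ∧ ∀ t ∈ W, 0 < t.re ∧ aeval t (2 * f) ≠ 0 ∧ (P t).det ≠ 0 ∧
      MSol (Az (2 * f) (oB f n)) P t := by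
  have o1 : IsOpen {t : ℂ | 0 < t.re} := isOpen_lt continuous_const continuous_re
  obtain ⟨t, ht⟩ := (infinite_of_mem_nhds (1 : ℂ) (o1.mem_nhds (by simp))).sdiff
    ((2 * f).rootSet_finite ℂ) |>.nonempty
  have t1 : aeval t (2 * f) ≠ 0 := fun e => ht.2 (mem_rootSet.2 ⟨by simpa using f0, e⟩)
  obtain ⟨ε, ε0, hε⟩ := nhds_basis_closedBall.mem_iff.1 ((o1.inter
    (isOpen_ne_fun (2 * f).continuous_aeval continuous_const)).mem_nhds ⟨ht.1, t1⟩)
  have hA : Hol (closedBall t ε) (Az (2 * f) (oB f n)) := Hol.Az fun s hs => (hε hs).2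
  obtain ⟨c, hc⟩ := (isCompact_closedBall t ε).exists_bound_of_continuousOn
    (f := fun t => (fun i j => Az (2 * f) (oB f n) t i j : Fin n → Fin n → ℂ))
    (continuousOn_pi.2 fun i => continuousOn_pi.2 fun j => (hA i j).continuousOn)
  obtain ⟨Φ, Ψ, -, -, h⟩ := exists_fund (convex_ball t ε) isOpen_ball (mem_ball_self ε0)
    (hA.mono ball_subset_closedBall) (c := c) (fun s hs i j => ((norm_le_pi_norm _ j).trans
      (norm_le_pi_norm (fun i j => Az (2 * f) (oB f n) s i j) i)).trans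
        (hc s (ball_subset_closedBall hs))) ((norm_nonneg _).trans (hc t (mem_closedBall_self ε0.le)))
  exact ⟨ball t ε, Φ, isOpen_ball, ⟨t, mem_ball_self ε0⟩, fun s hs =>
    ⟨(hε (ball_subset_closedBall hs)).1, (hε (ball_subset_closedBall hs)).2,
      det_ne_zero_of_left_inverse (h s hs).2.2.1, (h s hs).1⟩⟩

/-- Galochkin's condition at infinity -/
theorem inf_gal (hn : 0 < n) (hf : f.natDegree = n) {g g' B : Matrix (Fin n) (Fin n) ℚ[X]} {a : ℕ}
    (g1 : g' * g = (X ^ a : ℚ[X]) • 1) (g2 : Gauge (reflect n (2 * f)) (iB f n) g B) :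
    GalK (X * reflect n (2 * f)) B := by
  have f0 : f ≠ 0 := fun e => by simp [e] at hf; omega
  have f1 : f.coeff n ≠ 0 := hf ▸ leadingCoeff_ne_zero.2 f0
  have f2 : (reflect n (2 * f)).coeff 0 = 2 * f.coeff n := by simp [coeff_reflect]
  have f3 : (2 * f).natDegree ≤ n := (natDegree_C_mul_le 2 f).trans hf.le
  obtain ⟨b, hb, hfz⟩ := IsLocalization.integerNormalization_spec (nonZeroDivisors ℤ) f
  obtain ⟨fz, hz⟩ : ∃ fz, fz = IsLocalization.integerNormalization (nonZeroDivisors ℤ) f := ⟨_, rfl⟩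
  have b0 : b ≠ 0 := nonZeroDivisors.ne_zero hb
  rw [← hz] at hfz
  have z1 : ∀ t : ℂ, aeval t fz = b * aeval t f := fun t => by
    rw [← aeval_map_algebraMap ℚ t fz, hfz]; simp
  have z2 : fz.natDegree ≤ n := by
    rw [← natDegree_map_eq_of_injective (algebraMap ℤ ℚ).injective_int, hfz, natDegree_smul _ b0, hf]
  obtain ⟨W, P, w1, ⟨t0, ht0⟩, hW⟩ := inf_fund (n := n) f0
  have w2 : ∀ t ∈ W, t ≠ 0 ∧ aeval t (hT fz) ≠ 0 := fun t ht => by
    have : t ≠ 0 := fun e => by simpa [e] using (hW t ht).1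
    exact ⟨this, by simpa [hT, z1, this, b0, map_ofNat] using (hW t ht).2.1⟩
  obtain ⟨c, hc⟩ : ∃ c, c = (gP n).map (eval 1) := ⟨_, rfl⟩
  have c1 : IsUnit c.det := by
    have := det_gP n (t := (1 : ℚ)) (by simp)
    simp only [Ne, show (gP n).map (aeval ((1 : ℚ) : ℂ)) = (algebraMap ℚ ℂ).mapMatrix c by
      ext; simp [hc, ← aeval_rat], ← RingHom.map_det, map_eq_zero] at this
    exact Ne.isUnit this
  have c2 : gP n = c.map C * diagonal fun i : Fin n => X ^ (n - 1 - i) := by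
    ext1 k i
    simp only [hc, mul_diagonal, map_apply, gP, of_apply, eval_mul, eval_pow, eval_X, eval_neg, one_pow,
      one_mul, eval_natCast, map_mul, map_pow, map_neg, map_one, map_natCast]
    rcases le_or_gt (i : ℕ) (n - (k + 1)) with e | e
    · rw [show n - 1 - i = k + (n - (k + 1) - i) by omega, neg_pow (X : ℚ[X])]; ring
    · simp [Nat.choose_eq_zero_of_lt e]
  have c3 : c⁻¹.map (C : ℚ →+* ℚ[X]) * c.map C = 1 := by
    rw [← Matrix.map_mul, nonsing_inv_mul _ c1, Matrix.map_one _ (map_zero _) (map_one _)]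
  refine galK_inf hn z2 (by simp [f2, f1]) (a := a + (n - 1))
    (G := g * (diagonal (fun i : Fin n => X ^ (n - 1 - i)) * c⁻¹.map C))
    (G' := c.map C * diagonal (fun i : Fin n => X ^ (i : ℕ)) * g') ?_ b0 (V := {z | z⁻¹ ∈ W})
    (isOpen_iff_mem_nhds.2 fun z hz => (continuousAt_inv₀ fun e => (w2 _ hz).1
      (by simp [e])).preimage_mem_nhds (w1.mem_nhds hz)) ⟨t0⁻¹, by rwa [Set.mem_ofPred, inv_inv]⟩
    (ρ := fun z => exp (log z⁻¹ / 2)) (ψ := fun t => (gP n).map (aeval t) * P t) fun z hz => ?_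
  · rw [Matrix.mul_assoc, ← Matrix.mul_assoc g', g1, smul_mul_assoc, Matrix.one_mul, Matrix.mul_smul,
      Matrix.mul_assoc, ← Matrix.mul_assoc (diagonal _), diagonal_mul_diagonal, pow_add, mul_smul,
      show (diagonal fun i : Fin n => (X : ℚ[X]) ^ (i : ℕ) * X ^ (n - 1 - i)) = (X ^ (n - 1) : ℚ[X]) • 1 by
        rw [← diagonal_one, ← diagonal_smul]
        exact congrArg _ (funext fun i => by
          simp [← pow_add, show i + (n - 1 - i) = n - 1 by omega]),
      smul_mul_assoc, Matrix.one_mul, Matrix.mul_smul, mul_eq_one_comm.1 c3]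
  · obtain ⟨a1, a2⟩ := w2 _ hz
    have z0 : z ≠ 0 := fun e => a1 (by simp [e])
    have a3 := aeval_reflect f3 (mul_inv_cancel₀ z0)
    have a4 := hW _ hz
    have a5 : HasDerivAt (fun z => exp (log z⁻¹ / 2)) (-1 / 2 * z⁻¹ * exp (log z⁻¹ / 2)) z :=
      (((hasDerivAt_inv z0).clog (Or.inl a4.1)).div_const 2).cexp.congr_deriv (by field_simp)
    refine ⟨z0, fun e => a4.2.1 (by rw [← a3, e, zero_mul]), ?_, exp_ne_zero _, by simpa using a5, ?_,
      mem_of_superset (w1.mem_nhds hz) fun t ht => inf_msol hf.le z1 z2 (w2 t ht).2 (hW t ht).2.2.2, ?_⟩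
    · rw [pow_succ, mul_assoc, mul_right_comm, mul_comm (_ ^ _), a3]
      simp [hT, z1, map_ofNat]
      ring
    · rw [det_mul]
      exact (mul_ne_zero (det_gP n a1) a4.2.2.1).isUnit
    · refine (hat_msol hn hf.le g2 (φ := id) (τ := fun z => z⁻¹) (mul_inv_cancel₀ z0) a4.2.1
        a4.2.2.2 ((hasDerivAt_inv z0).congr_deriv (by ring))
        ((hasDerivAt_id z).congr_deriv (by simp [z0])) a5 (by
          ext; simp [Az, div_eq_inv_mul, mul_assoc, mul_left_comm])).congr ?_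
      filter_upwards [eventually_ne_nhds z0] with w hw
      have : (diagonal (fun i : Fin n => X ^ (n - 1 - i)) * c⁻¹.map C).map (aeval (R := ℚ) w) *
          (gP n).map (aeval w⁻¹) = 1 := by
        have e : ∀ (c : Matrix (Fin n) (Fin n) ℚ) (w : ℂ), (c.map C).map (aeval w) =
          c.map (algebraMap ℚ ℂ) := fun _ _ => by ext; simp
        rw [c2, ← AlgHom.mapMatrix_apply, ← AlgHom.mapMatrix_apply, map_mul, map_mul]
        simp only [AlgHom.mapMatrix_apply, e, diagonal_map (map_zero _), map_pow, aeval_X]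
        rw [Matrix.mul_assoc, ← Matrix.mul_assoc (Matrix.map _ _), ← Matrix.map_mul, nonsing_inv_mul _ c1]
        simp [hw]
      rw [← AlgHom.mapMatrix_apply, map_mul, Matrix.mul_assoc, ← Matrix.mul_assoc _ _ (P _),
        AlgHom.mapMatrix_apply, AlgHom.mapMatrix_apply, this, Matrix.one_mul]
      rfl

/-- the shearing at infinity -/
theorem inf_shear (hn : 0 < n) (he : Even n) (hf : f.natDegree = n) :
    ∃ (g g' B : Matrix (Fin n) (Fin n) ℚ[X]) (a : ℕ) (M : Matrix (Fin n) (Fin n) ℚ),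
      g' * g = (X ^ a : ℚ[X]) • 1 ∧ Gauge (reflect n (2 * f)) (iB f n) g B ∧
      (reflect n (2 * f)).coeff 0 ≠ 0 ∧ B.map (·.coeff 0) = (reflect n (2 * f)).coeff 0 • M ∧
      IsNilpotent M := by
  have f0 : f ≠ 0 := fun e => by simp [e] at hf; omega
  have f1 : f.coeff n ≠ 0 := hf ▸ leadingCoeff_ne_zero.2 f0
  have f2 : (reflect n (2 * f)).coeff 0 = 2 * f.coeff n := by simp [coeff_reflect]
  obtain ⟨k, hk⟩ := he
  obtain ⟨g, g', B, a, M, g1, g2, g3, g4⟩ := shear (T := reflect n (2 * f)) (by simp [f2, f1]) k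
    (B := iB f n) (N := 1) (R := of fun i j => if (i : ℕ) = n - 1 then
      -(derivative f).coeff j / (2 * f.coeff n) else 0) (by
      ext i j
      simp only [iB, map_apply, Matrix.sub_apply, Matrix.neg_apply, Matrix.smul_apply, coeff_sub,
        coeff_neg, coeff_reflect, revAt_zero, (oB_deg i j).2, one_apply, of_apply, smul_eq_mul, mul_ite,
        mul_one, mul_zero, apply_ite (coeff · 0), coeff_smul, f2, coeff_zero]
      split_ifs <;> field_simp <;> ring) (by
      rw [pow_one, pow_one, Matrix.mul_add, ← nsmul_eq_mul']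
      ext i j
      have : ∀ l : Fin n, (l : ℕ) = n - 1 ↔ l = ⟨n - 1, by omega⟩ := fun l => by rw [Fin.ext_iff]
      simp only [Matrix.add_apply, mul_apply, of_apply, this,
        mul_ite, mul_zero, sum_ite_eq', mem_univ, if_true, Matrix.smul_apply, coeff_derivative,
        show n - 1 + 1 = n by omega, Nat.cast_pred hn, Matrix.zero_apply]
      split_ifs
      · rw [show (n : ℚ) = k + k by exact_mod_cast hk, nsmul_eq_mul]
        field_simp
        ring
      · simp)
  exact ⟨g, g', B, a, M, g1, g2, by simp [f2, f1], g3, g4⟩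

theorem exists_inf (hn : 0 < n) (he : Even n) (hf : f.natDegree = n) (hq : Squarefree f)
    (h0 : f.eval 0 ≠ 0) :
    ∃ (g g' B : Matrix (Fin n) (Fin n) ℚ[X]) (a : ℕ) (M : Matrix (Fin n) (Fin n) ℚ),
      g' * g = (X ^ a : ℚ[X]) • 1 ∧ Gauge (reflect n (2 * f)) (iB f n) g B ∧
      (reflect n (2 * f)).coeff 0 ≠ 0 ∧ B.map (·.coeff 0) = (reflect n (2 * f)).coeff 0 • M ∧
      IsNilpotent M ∧ GalK (X * reflect n (2 * f)) B ∧ Mon (reflect n (2 * f)) B ∧
      ∀ a : ℂ, aeval a (reflect n (2 * f)) = 0 → aeval a (reflect n (2 * f)).derivative ≠ 0 ∧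
        IsNilpotent (B.map (aeval a)) := by
  obtain ⟨g, g', B, a, M, g1, g2, g3, g4, g5⟩ := inf_shear hn he hf
  exact ⟨g, g', B, a, M, g1, g2, g3, g4, g5, inf_gal hn hf g1 g2, mon hn hf.le h0 g2 g1,
    res_inf hf hq g1 g2⟩

end

end Pool.Agent.Lib.MP_5591bc_ag.V
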