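import Pool.Agent.Lib.MP_5591bc_ag.V.Core2A

/-! Linear goodness of a target vector. -/

namespace Pool.Agent.Lib.MP_5591bc_ag.V

open Matrix Finset Filter Topology G R Function

noncomputable section

variable {A : Type*} [Fintype A] [DecidableEq A] {Φ Φ' : ℂ → A → ℂ} {x : ℚ} {w : A → ℂ}

/-- every rational linear relation of `w` is the specialisation at `x` of a functional one -/
def LGT (Φ : ℂ → A → ℂ) (x : ℚ) (w : A → ℂ) : Prop :=
  ∀ c : A → ℚ, (fun μ => (c μ : ℂ)) ⬝ᵥ w = 0 → ∃ h : A → Polynomial ℚ,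
    (∀ μ, (h μ).eval x = c μ) ∧ ∀ᶠ z in 𝓝 (x : ℂ), (fun μ => Polynomial.aeval z (h μ)) ⬝ᵥ Φ z = 0

theorem lgt_left (Ξ : Matrix A A (Polynomial ℚ)) (U : Matrix A A ℚ)
    (hU : U * Ξ.map (Polynomial.evalRingHom x) = 1)
    (hΦ : ∀ z, Φ' z = Ξ.map (Polynomial.aeval (R := ℚ) z).toRingHom *ᵥ Φ z)
    (h : LGT Φ' x (Ξ.map (Polynomial.aeval (R := ℚ) (x : ℂ)).toRingHom *ᵥ w)) :
    LGT Φ x w := fun c hc => by
  have e : c = (c ᵥ* U) ᵥ* Ξ.map (Polynomial.evalRingHom x) := by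
    rw [vecMul_vecMul, hU, vecMul_one]
  obtain ⟨l, h1, h2⟩ := h (c ᵥ* U) (by
    rw [dotProduct_mulVec, ← hc]
    congr 1
    ext μ
    conv_rhs => rw [e]
    simp [vecMul, dotProduct, aeval_rat])
  refine ⟨l ᵥ* Ξ, fun μ => ?_, h2.mono fun z hz => ?_⟩
  · rw [e, ← funext h1]
    simp [vecMul, dotProduct, Polynomial.eval_finsetSum]
  · rw [← hz, hΦ, dotProduct_mulVec]
    congr 1
    ext μ
    simp [vecMul, dotProduct]

omit [DecidableEq A] in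
theorem lgt_inv (x0 : x ≠ 0) (h : LGT (fun z => Φ z⁻¹) x⁻¹ w) : LGT Φ x w := fun c hc => by
  have x1 : (x : ℂ) ≠ 0 := by exact_mod_cast x0
  obtain ⟨l, h1, h2⟩ := h c hc
  obtain ⟨K, hK⟩ : ∃ K, ∀ μ, (l μ).natDegree ≤ K :=
    ⟨_, fun μ => le_sup (f := fun μ => (l μ).natDegree) (mem_univ μ)⟩
  have e : ∀ z : ℂ, z ≠ 0 → ∀ μ, Polynomial.aeval z (x⁻¹ ^ K • (l μ).reflect K) =
      ((x : ℂ)⁻¹ ^ K * z ^ K) * Polynomial.aeval z⁻¹ (l μ) := fun z hz μ => by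
    rw [← aeval_reflect (hK μ) (mul_inv_cancel₀ hz), map_smul, Rat.smul_def]
    have : z ^ K * z⁻¹ ^ K = 1 := by rw [← mul_pow, mul_inv_cancel₀ hz, one_pow]
    push_cast
    linear_combination (-((x : ℂ)⁻¹ ^ K * Polynomial.aeval z ((l μ).reflect K))) * this
  refine ⟨fun μ => x⁻¹ ^ K • (l μ).reflect K, fun μ => ?_, ?_⟩
  · have := e x x1 μ
    rw [← mul_pow, inv_mul_cancel₀ x1, one_pow, one_mul, ← Rat.cast_inv, aeval_rat, aeval_rat, h1] at this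
    exact_mod_cast this
  · have c1 : Tendsto (fun t : ℂ => t⁻¹) (𝓝 x) (𝓝 (x⁻¹ : ℚ)) := by
      rw [Rat.cast_inv]; exact (continuousAt_inv₀ x1).tendsto
    filter_upwards [c1.eventually h2, eventually_ne_nhds x1] with t t1 t2
    simp only [inv_inv, dotProduct] at t1
    simp only [e t t2, dotProduct, mul_assoc, ← mul_sum, t1, mul_zero]

end

end Pool.Agent.Lib.MP_5591bc_ag.V
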