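import Pool.Agent.Lib.MP_5591bc_ag.SFib

/-! Lifting relations whose coefficients depend polynomially on the point. -/

namespace Pool.Agent.Lib.MP_5591bc_ag.V

open Matrix Finset Filter Topology PowerSeries G R Function

noncomputable section

variable {A A' : Type*} [Fintype A] [DecidableEq A] [Fintype A'] [DecidableEq A']

/-- a matrix of linear forms with polynomial coefficients -/
def lpG {E : Type*} (Γ : A' → E → A → Polynomial ℚ) (z : ℂ) (y : A → ℂ) : Matrix A' E ℂ :=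
  of fun μ ν => ∑ α, Polynomial.aeval z (Γ μ ν α) * y α

theorem lp_lift {E : Type*} [Fintype E] (f : A → ℚ⟦X⟧) (Γ : A' → E → A → Polynomial ℚ) (θ : E → ℂ) :
    ∃ p : Polynomial ℚ, p ≠ 0 ∧ ∀ x : ℚ, p.eval x ≠ 0 →
      (∀ b : A → ℂ, (∀ U ∈ Sat f, b ⬝ᵥ (fun α => ((U α).eval x : ℚ)) = 0) →
        ∀ u ∈ Fib f x, b ⬝ᵥ u = 0) ∧
      ∀ c : A' → ℚ, (∀ U ∈ Sat f, (fun μ => (c μ : ℂ)) ⬝ᵥ
        (lpG Γ x (fun α => ((U α).eval x : ℚ)) *ᵥ θ) = 0) → ∃ h : A' → Polynomial ℚ,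
          (∀ μ, (h μ).eval x = c μ) ∧ ∀ᶠ z in 𝓝 (x : ℂ), ∀ u ∈ Fib f z,
            (fun μ => Polynomial.aeval z (h μ)) ⬝ᵥ (lpG Γ z u *ᵥ θ) = 0 := by
  obtain ⟨r, -, v, I, a1, a2, a3⟩ :=
    greedy fun (_ : ℕ) (l : A → Polynomial ℚ) => (fun a => (l a : ℚ⟦X⟧)) ⬝ᵥ f = 0
  have a4 : ∀ β, lam v I β ∈ Sat f := fun β l hl => by rw [dotProduct_comm, ← bord_eq, a3 l hl]
  have a5 : ∀ z, ∀ u ∈ Fib f z, Polynomial.aeval z (mnr v I) • u =
      ∑ β, u β • fun α => Polynomial.aeval z (lam v I β α) := fun z u hz => funext fun α => by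
    have := lam_sum (v := fun l j => (Polynomial.aeval z).toRingHom (v l j)) I (x := u)
      (fun l => (dotProduct_comm _ _).trans (hz _ (a1 l))) α
    simp only [← map_lam, ← map_mnr] at this
    simpa [Finset.sum_apply] using this.symm
  let g : A → Module.Dual ℚ ℂ → A' → Polynomial ℚ := fun β π μ =>
    ∑ ν, π (θ ν) • ∑ α, Γ μ ν α * lam v I β α
  obtain ⟨r', -, v', I', b1, b2, b3⟩ :=
    greedy fun (_ : ℕ) (u : A' → Polynomial ℚ) => ∃ β π, u = g β π
  refine ⟨mnr v I * mnr v' I', mul_ne_zero a2 b2, fun x hp => ?_⟩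
  rw [Polynomial.eval_mul, mul_ne_zero_iff] at hp
  have h1 : Polynomial.aeval (x : ℂ) (mnr v I) ≠ 0 := by rw [aeval_rat]; exact_mod_cast hp.1
  refine ⟨fun b hb u hx => ?_, fun c hc => ⟨fun γ => ((mnr v' I').eval x)⁻¹ • ∑ β, c β • lam v' I' β γ,
    fun γ => ?_, ?_⟩⟩
  · have := congrArg (b ⬝ᵥ ·) (a5 x u hx)
    simp only [dotProduct_smul, dotProduct_sum, aeval_rat, hb _ (a4 _), smul_zero, sum_const_zero,
      smul_eq_zero] at this
    exact this.resolve_left (by exact_mod_cast hp.1)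
  · have := lam_sum (v := fun l j => Polynomial.evalRingHom x (v' l j)) I' (x := c) (fun l => by
      obtain ⟨β, π, e⟩ := b1 l
      have := congrArg π (hc _ (a4 β))
      simp only [dotProduct, mulVec, lpG, of_apply, aeval_rat, ← Rat.cast_mul, ← Rat.cast_sum] at this
      simp only [← Rat.smul_def, map_sum, map_smul, map_zero] at this
      simpa [e, g, dotProduct, Polynomial.eval_finset_sum, mul_comm] using this) γ
    simp only [← map_lam, ← map_mnr] at this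
    simp only [Polynomial.coe_evalRingHom] at this
    simp only [Polynomial.eval_smul, Polynomial.eval_finset_sum, smul_eq_mul, this]
    exact inv_mul_cancel_left₀ hp.2 _
  · filter_upwards [(Polynomial.continuous_aeval _).continuousAt.eventually_ne h1] with z h2 u hz
    obtain ⟨h, hh⟩ : ∃ h : A' → Polynomial ℚ, h = fun γ =>
      ((mnr v' I').eval x)⁻¹ • ∑ β, c β • lam v' I' β γ := ⟨_, rfl⟩
    have c1 : ∀ β π, h ⬝ᵥ g β π = 0 := fun β π => by
      have : h = ((mnr v' I').eval x)⁻¹ • ∑ β, c β • lam v' I' β := by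
        rw [hh]; ext1; simp [Finset.sum_apply]
      simp only [this, smul_dotProduct, sum_dotProduct, ← bord_eq, b3 _ ⟨β, π, rfl⟩, smul_zero,
        sum_const_zero]
    have c2 : ∀ β, (fun μ => Polynomial.aeval z (h μ)) ⬝ᵥ
        (lpG Γ z (fun α => Polynomial.aeval z (lam v I β α)) *ᵥ θ) = 0 := fun β => by
      rw [dotProduct_mulVec, ← dot_zero (p := fun ν => ∑ μ, h μ * ∑ α, Γ μ ν α * lam v I β α)
        (θ := θ) (fun π => by
          rw [← c1 β π]
          simp only [dotProduct, g, mul_sum, smul_sum, mul_smul_comm]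
          exact sum_comm) z]
      congr 1
      ext ν
      simp [vecMul, dotProduct, lpG]
    have c3 : Polynomial.aeval z (mnr v I) • lpG Γ z u =
        ∑ β, u β • lpG Γ z fun α => Polynomial.aeval z (lam v I β α) := by
      ext μ ν
      have := fun α => congrFun (a5 z u hz) α
      simp only [Pi.smul_apply, smul_eq_mul, Finset.sum_apply] at this
      simp only [lpG, Matrix.smul_apply, Matrix.sum_apply, of_apply, smul_eq_mul, mul_sum,
        mul_left_comm (Polynomial.aeval z (mnr v I)), this]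
      rw [sum_comm]
      simp only [mul_left_comm]
    have c4 := congrArg (fun M => (fun μ => Polynomial.aeval z (h μ)) ⬝ᵥ (M *ᵥ θ)) c3
    simp only [smul_mulVec, sum_mulVec, dotProduct_smul, dotProduct_sum, c2, smul_zero,
      sum_const_zero, smul_eq_zero] at c4
    simpa only [hh] using c4.resolve_left h2

theorem lp_ex (κ : Matrix A' A (Polynomial ℂ)) :
    ∃ (N : ℕ) (Γ : A' → A' × A × Fin N → A → Polynomial ℚ) (θ : A' × A × Fin N → ℂ),
      ∀ z y, lpG Γ z y *ᵥ θ = κ.map (Polynomial.eval z) *ᵥ y := by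
  obtain ⟨N, hN⟩ : ∃ N, ∀ μ α, (κ μ α).natDegree < N :=
    ⟨univ.sup (fun p : A' × A => (κ p.1 p.2).natDegree) + 1, fun μ α => Nat.lt_succ_of_le
      (le_sup (f := fun p : A' × A => (κ p.1 p.2).natDegree) (mem_univ (μ, α)))⟩
  refine ⟨N, fun μ ν α => if ν.1 = μ ∧ ν.2.1 = α then Polynomial.X ^ (ν.2.2 : ℕ) else 0,
    fun ν => (κ ν.1 ν.2.1).coeff ν.2.2, fun z y => funext fun μ => ?_⟩
  simp only [lpG, mulVec, dotProduct, of_apply, map_apply, Fintype.sum_prod_type]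
  rw [sum_eq_single μ (fun μ' _ h => by simp [h]) (by simp)]
  refine sum_congr rfl fun α _ => ?_
  rw [Polynomial.eval_eq_sum_range' (hN μ α), sum_range, sum_mul]
  refine sum_congr rfl fun j _ => ?_
  rw [sum_eq_single α (fun α' _ h => by simp [h.symm]) (by simp)]
  simp only [and_self, if_true, map_pow, Polynomial.aeval_X]
  ring

theorem liftP (f : A → ℚ⟦X⟧) (κ : Matrix A' A (Polynomial ℂ)) :
    ∃ p : Polynomial ℚ, p ≠ 0 ∧ ∀ x : ℚ, p.eval x ≠ 0 →
      (∀ b : A → ℂ, (∀ U ∈ Sat f, b ⬝ᵥ (fun α => ((U α).eval x : ℚ)) = 0) →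
        ∀ u ∈ Fib f x, b ⬝ᵥ u = 0) ∧
      ∀ c : A' → ℚ, (∀ U ∈ Sat f, (fun μ => (c μ : ℂ)) ⬝ᵥ
        (κ.map (Polynomial.eval (x : ℂ)) *ᵥ fun α => ((U α).eval x : ℚ)) = 0) →
        ∃ h : A' → Polynomial ℚ, (∀ μ, (h μ).eval x = c μ) ∧ ∀ᶠ z in 𝓝 (x : ℂ), ∀ u ∈ Fib f z,
          (fun μ => Polynomial.aeval z (h μ)) ⬝ᵥ (κ.map (Polynomial.eval z) *ᵥ u) = 0 := by
  obtain ⟨N, Γ, θ, h⟩ := lp_ex κ
  simpa only [h] using lp_lift f Γ θ

end

end Pool.Agent.Lib.MP_5591bc_ag.V
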