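import Pool.Agent.Lib.MP_5591bc_ag.RDefs

/-! The degree `δ` property of a point of the fibre. -/

namespace Pool.Agent.Lib.MP_5591bc_ag.V

open R

/-- The degree `δ` property of the vector `v` at `s`: every rational polynomial `F` of degree at
most `δ` vanishing at `v` is the specialisation at `t = s` of a rational polynomial `H(t, X)`
vanishing on the graph of the multivalued function obtained from `y` on `U` by analytic
continuation. -/
def GoodAt {r : ℕ} (U : Set ℂ) (y : ℂ → Fin r → ℂ) (δ : ℕ) (s : ℚ) (v : Fin r → ℂ) : Prop :=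
  ∀ F : MvPolynomial (Fin r) ℚ, F.totalDegree ≤ δ → MvPolynomial.aeval v F = 0 →
    ∃ H : MvPolynomial (Option (Fin r)) ℚ,
      (∀ U' y', Cont U y U' y' → ∀ t ∈ U', MvPolynomial.aeval (fun o => o.elim t (y' t)) H = 0) ∧
      MvPolynomial.aeval (fun o => o.elim (MvPolynomial.C s) MvPolynomial.X) H = F

end Pool.Agent.Lib.MP_5591bc_ag.V
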