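import Pool.Agent.Lib.MP_5591bc_ag.SMain

/-! Periods over one family of loops near infinity are free of logarithms. -/

namespace Pool.Agent.Lib.MP_5591bc_ag.V

open Matrix Finset Filter Topology G R Function Metric Polynomial Asymptotics

noncomputable section

variable {f : ℚ[X]} {n : ℕ}

/-- columns of periods over loops solve the Picard-Fuchs system -/
theorem loop_om {κ : Type*} {P : ℂ → Matrix (Fin n) κ ℂ} {s : ℂ}
    (h : ∀ j, ∃ V ∈ 𝓝 s, ∃ x y, IsLoop f V x y ∧
      ∀ t ∈ V, ∀ i : Fin n, P t i j = ∫ u in (0 : ℝ)..1, x u ^ (i : ℕ) * deriv x u / y t u)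
    (hf : f.natDegree ≤ n) (h0 : aeval s (2 * f) ≠ 0) :
    MSol (Az (2 * f) (oB f n)) P s := fun i j => by
  obtain ⟨V, hV, x, y, hL, hP⟩ := h j
  have h1 := hL.1.continuous
  have h2 := hL.1.continuous_deriv le_rfl
  have ht := mem_of_mem_nhds hV
  have c0 : ∀ k : ℕ, IntervalIntegrable (fun u => x u ^ k * deriv x u / y s u)
      MeasureTheory.volume 0 1 := fun k => ContinuousOn.intervalIntegrable_of_Icc zero_le_one
    (ContinuousOn.div₀ (by fun_prop) (hL.conty ht) fun u hu => ((hL.2.2.2 s ht).2 u hu).1)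
  have c1 : IntervalIntegrable (fun u => x u ^ (i : ℕ) / 2 * ig x y 0 s u) MeasureTheory.volume 0 1 :=
    (hL.intg 0 ht).continuousOn_mul (by fun_prop)
  have c2 := IntervalIntegrable.sum univ fun (k : Fin n) _ =>
    (c0 k).const_mul (aeval s (oB f n i k) / aeval s (2 * f))
  refine ((hasDerivAt_int hV (F' := fun t u => x u ^ (i : ℕ) / 2 * ig x y 0 t u)
    (ContinuousOn.div₀ (by fun_prop) hL.2.2.1 fun p hp => ((hL.2.2.2 _ hp.1).2 _ hp.2).1)
    (ContinuousOn.mul (by fun_prop) (hL.cont 0)) fun t ht u hu => ?_).congr_of_eventuallyEq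
      (mem_of_superset hV fun t ht => hP t ht i)).congr_deriv ?_
  · have h3 := ((hL.2.2.2 t (interior_subset ht)).2 u hu).1
    have h4 := hL.ne (interior_subset ht) hu
    refine ((hasDerivAt_const t _).fun_div (hL.deriv_y ht hu) h3).congr_deriv ?_
    rw [ig]
    field_simp
    ring
  rw [Finset.sum_fn] at c2
  have h3 := intervalIntegral.integral_eq_sub_of_hasDerivAt_of_le zero_le_one
    (f := fun u => s ^ (i : ℕ) / aeval s f * (y s u / (x u - s))) (f' := fun u => ∑ k,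
      aeval s (oB f n i k) / aeval s (2 * f) * (x u ^ (k : ℕ) * deriv x u / y s u) -
        x u ^ (i : ℕ) / 2 * ig x y 0 s u)
    (continuousOn_const.mul ((hL.conty ht).div (by fun_prop) fun u hu => hL.ne ht hu)) (fun u hu => by
      have hu' := Set.Ioo_subset_Icc_self hu
      have hI := Icc_mem_nhds hu.1 hu.2
      obtain ⟨h3, h4⟩ := (hL.2.2.2 s ht).2 u hu'
      have h5 := hL.ne ht hu'
      have h6 := (hL.1.differentiable one_ne_zero u).hasDerivAt
      have h7 := hasDerivAt_sqrt ((hL.conty ht).continuousAt hI) h3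
        (mem_of_superset hI fun u hu => ((hL.2.2.2 s ht).2 u hu).2)
        (((f.hasDerivAt_aeval (x u)).comp u h6).fun_mul (h6.sub_const s))
      refine ((h7.fun_div (h6.sub_const s) h5).const_mul _).congr_deriv ?_
      have h8 := eq_div_of_mul_eq h5 ((mul_comm _ _).trans (oB_id hf (x u) s i))
      have h9 : aeval s f ≠ 0 := fun e => h0 (by simp [e])
      rw [sum_congr rfl fun (k : Fin n) _ => show _ = aeval s (oB f n i k) * x u ^ (k : ℕ) *
        (deriv x u / (y s u * aeval s (2 * f))) by ring, ← sum_mul, h8, ig,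
        eq_div_of_mul_eq h5 h4.symm]
      simp only [Function.comp, map_mul, map_ofNat, eq_div_of_mul_eq h5 h4.symm]
      field_simp
      ring) (c2.sub c1)
  rw [← hL.2.1, ← (hL.2.2.2 s ht).1, sub_self, intervalIntegral.integral_sub c2 c1, sub_eq_zero,
    intervalIntegral.integral_finsetSum fun (k : Fin n) _ => (c0 k).const_mul _] at h3
  simp only [← h3, mul_apply, Az, of_apply, hP s ht, intervalIntegral.integral_const_mul]

open Complex in
/-- periods over one family of loops are `O(t^(-1/2))` -/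
theorem loop_bound {ρ : ℝ} {x : ℝ → ℂ} {y : ℂ → ℝ → ℂ} (h : IsLoop f {t | ρ < t.re} x y) (i : ℕ) :
    (fun t : ℝ => exp (log t / 2) * ∫ u in (0 : ℝ)..1, x u ^ i * deriv x u / y t u) =O[atTop]
      fun _ => (1 : ℝ) := by
  have h1 := h.1.continuous
  have h2 := h.1.continuous_deriv le_rfl
  obtain ⟨u0, hu0, hm⟩ := (isCompact_Icc (a := (0 : ℝ)) (b := 1)).exists_isMinOn ⟨0, by simp⟩
    (f := fun u => ‖aeval (x u) f‖) (f.continuous_aeval.comp h1).norm.continuousOn
  have m0 : 0 < ‖aeval (x u0) f‖ := norm_pos_iff.2 fun e => by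
    obtain ⟨a, b⟩ := (h.2.2.2 ((ρ + 1 : ℝ) : ℂ) (by simp)).2 u0 hu0
    rw [e, zero_mul] at b
    exact a (pow_eq_zero_iff two_ne_zero |>.1 b)
  obtain ⟨A, hA⟩ := (isCompact_Icc (a := (0 : ℝ)) (b := 1)).exists_bound_of_continuousOn
    h1.continuousOn
  obtain ⟨D, hD⟩ := (isCompact_Icc (a := (0 : ℝ)) (b := 1)).exists_bound_of_continuousOn
    (f := fun u => x u ^ i * deriv x u) (by fun_prop)
  replace hm : ∀ u ∈ Set.Icc (0 : ℝ) 1, ‖aeval (x u0) f‖ ≤ ‖aeval (x u) f‖ := fun u hu => hm hu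
  generalize ‖aeval (x u0) f‖ = m at m0 hm
  refine IsBigO.of_bound (D * √(2 / m)) ?_
  filter_upwards [eventually_gt_atTop ρ, eventually_gt_atTop 0, eventually_ge_atTop (2 * A)]
    with t t1 t2 t3
  rw [← intervalIntegral.integral_const_mul, norm_one, mul_one]
  refine (intervalIntegral.norm_integral_le_of_norm_le_const (C := D * √(2 / m))
    fun u hu => ?_).trans (by simp)
  have hu' : u ∈ Set.Icc (0 : ℝ) 1 := Set.Ioc_subset_Icc_self (by simpa using hu)
  obtain ⟨a, b⟩ := (h.2.2.2 (t : ℂ) (by simpa using t1)).2 u hu'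
  have e1 : ‖exp (log t / 2)‖ ^ 2 = t := by
    rw [← norm_pow, ← exp_nat_mul, Nat.cast_two, mul_div_cancel₀ _ two_ne_zero,
      exp_log (by exact_mod_cast t2.ne'), norm_real, Real.norm_of_nonneg t2.le]
  have e2 : m * (t / 2) ≤ ‖y t u‖ ^ 2 := by
    rw [← norm_pow, b, norm_mul]
    refine mul_le_mul (hm u hu') ?_ (by positivity) (norm_nonneg _)
    have := norm_sub_norm_le (t : ℂ) (x u)
    rw [norm_real, Real.norm_of_nonneg t2.le, norm_sub_rev] at this
    linarith [hA u hu']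
  have y0 := norm_pos_iff.2 a
  rw [mul_div_assoc', mul_comm, mul_div_assoc, norm_mul]
  refine mul_le_mul (hD u hu') (Real.le_sqrt_of_sq_le ?_) (norm_nonneg _)
    ((norm_nonneg _).trans (hD u hu'))
  rw [norm_div, div_pow, e1, div_le_div_iff₀ (by positivity) m0]
  linarith

section free
variable {ν κ : Type*} [Fintype ν] [DecidableEq ν] {M : Matrix ν ν ℚ}

/-- a bounded polynomial in the logarithm is constant -/
theorem Ex_fix (hM : IsNilpotent M) {C : Matrix ν κ ℂ}
    (h : ∀ i j, (fun t : ℝ => (Ex M (-Complex.log t) * C) i j) =O[atTop] fun _ => (1 : ℝ)) (l : ℂ) :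
    Ex M l * C = C := by
  ext i j
  obtain ⟨q, hq⟩ : ∃ q : ℂ[X], ∀ l, q.eval l = (Ex M l * C) i j :=
    ⟨(Ex M (X : ℂ[X]) * C.map Polynomial.C) i j, fun l => by
      have e : (Ex M (X : ℂ[X])).map (evalRingHom l) = Ex M l := by rw [Ex_map hM]; simp
      simp [← e, mul_apply, eval_finsetSum]⟩
  have d : q.degree ≤ 0 := not_lt.1 fun d => by
    have h1 := q.tendsto_norm_atTop d (l := atTop) (z := fun t : ℝ => -Complex.log t)
      (tendsto_atTop_mono' _ (f₁ := Real.log) (by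
        filter_upwards [eventually_ge_atTop (0 : ℝ)] with t ht
        rw [norm_neg, ← Complex.ofReal_log ht, Complex.norm_real]
        exact le_abs_self _) Real.tendsto_log_atTop)
    simp only [hq] at h1
    obtain ⟨c, hc⟩ := (h i j).bound
    obtain ⟨t, t1, t2⟩ := (hc.and (h1.eventually_gt_atTop (c * ‖(1 : ℝ)‖))).exists
    exact t2.not_ge t1
  rw [← hq, eq_C_of_degree_le_zero d, eval_C, ← eval_C (x := (0 : ℂ)) (a := q.coeff 0),
    ← eq_C_of_degree_le_zero d, hq, Ex_zero, Matrix.one_mul]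

open Complex in
/-- a solution that is bounded on the positive axis has no logarithm -/
theorem log_free {T : ℚ[X]} {B : Matrix ν ν ℚ[X]} (hM : IsNilpotent M) {Y : ℂ → Matrix ν ν ℂ} {R : ℝ}
    (R0 : 0 < R) (hY : ∀ z ∈ ball (0 : ℂ) R, aeval z T ≠ 0 ∧ IsUnit (Y z).det ∧ Sing T B M Y z)
    {N : ℝ} (hN : 1 / R ≤ N) {Q : ℂ → Matrix ν κ ℂ}
    (hQ : ∀ t : ℂ, N < t.re → MSol (fun t => (-t⁻¹) • Az T B t⁻¹) Q t)
    (hb : ∀ i j, (fun t : ℝ => Q t i j) =O[atTop] fun _ => (1 : ℝ)) :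
    ∃ C : Matrix ν κ ℂ, (∀ l : ℂ, Ex M l * C = C) ∧ ∀ t : ℂ, N < t.re → Q t = Y t⁻¹ * C := by
  have u0 : ∀ t : ℂ, N < t.re → 0 < t.re ∧ t ≠ 0 ∧ t⁻¹ ∈ ball (0 : ℂ) R := fun t ht => by
    have a0 : 0 < 1 / R := by positivity
    have a1 := hN.trans_lt (ht.trans_le (re_le_norm t))
    have a2 : 0 < t.re := a0.trans (hN.trans_lt ht)
    refine ⟨a2, fun e => by simp [e] at a2, mem_ball_zero_iff.2 ?_⟩
    rwa [norm_inv, inv_lt_comm₀ (a0.trans a1) R0, ← one_div]
  obtain ⟨C, hC⟩ : ∃ C : Matrix ν κ ℂ, ∀ t : ℂ, N < t.re → Q t = Y t⁻¹ * Ex M (-log t) * C := by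
    have a1 : N < ((N + 1 : ℝ) : ℂ).re := by simp
    generalize ((N + 1 : ℝ) : ℂ) = p at a1
    refine ⟨Ex M (log p) * ((Y p⁻¹)⁻¹ * Q p), muniq (isOpen_lt continuous_const continuous_re)
      (convex_halfSpace_re_gt _).isPreconnected (fun i j t ht => ?_) hQ
      (fun t ht => (Sing.msol (φ := fun t => t⁻¹) hM (hY _ (u0 t ht).2.2).2.2
        (hY _ (u0 t ht).2.2).1 ((hasDerivAt_inv (u0 t ht).2.1).congr_deriv (by ring))
        (hasDerivAt_log (Or.inl (u0 t ht).1)).neg rfl).mul_const _) a1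
      (by rw [Matrix.mul_assoc, ← Matrix.mul_assoc (Ex _ _), ← Ex_add hM, neg_add_cancel, Ex_zero,
        Matrix.one_mul, mul_nonsing_inv_cancel_left (Y _) _ (hY _ (u0 _ a1).2.2).2.1])⟩
    have a2 := differentiableAt_inv (𝕜 := ℂ) (u0 t ht).2.1
    have : ∀ q : ℚ[X], DifferentiableAt ℂ (fun t : ℂ => aeval t⁻¹ q) t :=
      fun q => (q.differentiable_aeval _).comp (g := fun t => aeval t q) t a2
    exact (a2.neg.fun_mul ((this _).fun_div (this _) (hY _ (u0 t ht).2.2).1)).differentiableWithinAt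
  have fix : ∀ l : ℂ, Ex M l * C = C := Ex_fix hM fun i j => by
    obtain ⟨-, d0, Y', hd, -⟩ := hY 0 (mem_ball_self R0)
    have cY : ContinuousAt Y 0 := continuousAt_pi.2 fun i => continuousAt_pi.2 fun j =>
      (hd i j).continuousAt
    have cd : ContinuousAt (fun z => (Y z).det) 0 := continuous_id.matrix_det.continuousAt.comp cY
    have ci : ContinuousAt (fun z => (Y z)⁻¹) 0 := by
      simp only [Matrix.inv_def, Ring.inverse_eq_inv']
      exact (cd.inv₀ d0.ne_zero).smul (continuous_id.matrix_adjugate.continuousAt.comp cY)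
    have t0 : Tendsto (fun t : ℝ => (t : ℂ)⁻¹) atTop (𝓝 0) := by
      simpa [Function.comp_def] using (continuous_ofReal.tendsto 0).comp tendsto_inv_atTop_zero
    have := IsBigO.sum (s := univ) fun k _ => ((((continuousAt_pi.1 (continuousAt_pi.1 ci i) k).tendsto.comp
      t0).isBigO_one ℝ).mul (hb k j))
    refine (this.congr' ?_ (EventuallyEq.of_eq (funext fun _ => mul_one _)))
    filter_upwards [eventually_gt_atTop N] with t ht
    have ht' : N < (t : ℂ).re := by simpa using ht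
    rw [← nonsing_inv_mul_cancel_left (Y (t : ℂ)⁻¹) (Ex M _ * C) (hY _ (u0 _ ht').2.2).2.1,
      ← Matrix.mul_assoc (Y _), ← hC _ ht', Finset.sum_apply]
    rfl
  exact ⟨C, fix, fun t ht => by rw [hC t ht, Matrix.mul_assoc, fix]⟩

end free

open Complex in
/-- periods over loop families on a half plane, in the gauge at infinity -/
theorem loop_free (hn : 0 < n) (hf : f.natDegree ≤ n) {g B : Matrix (Fin n) (Fin n) ℚ[X]}
    (hg : Gauge (reflect n (2 * f)) (iB f n) g B) {M : Matrix (Fin n) (Fin n) ℚ} (hM : IsNilpotent M)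
    {Y : ℂ → Matrix (Fin n) (Fin n) ℂ} {R : ℝ} (R0 : 0 < R) (hY : ∀ z ∈ ball (0 : ℂ) R,
      aeval z (reflect n (2 * f)) ≠ 0 ∧ IsUnit (Y z).det ∧ Sing (reflect n (2 * f)) B M Y z)
    {κ : Type*} {ρ : ℝ} {x : κ → ℝ → ℂ} {y : κ → ℂ → ℝ → ℂ}
    (h : ∀ a, IsLoop f {t | ρ < t.re} (x a) (y a)) {N : ℝ} (hN : 1 / R ≤ N) (hρ : ρ ≤ N) :
    ∃ C : Matrix (Fin n) κ ℂ, (∀ l : ℂ, Ex M l * C = C) ∧ ∀ t : ℂ, N < t.re →
      exp (log t / 2) • (g.map (aeval t⁻¹) * of fun (i : Fin n) a =>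
        ∫ u in (0 : ℝ)..1, x a u ^ (i : ℕ) * deriv (x a) u / y a t u) = Y t⁻¹ * C := by
  have f3 : (2 * f).natDegree ≤ n := (natDegree_C_mul_le 2 f).trans hf
  refine log_free hM R0 hY hN (fun t ht i a => ?_) fun i a => ?_
  · have a0 : 0 < 1 / R := by positivity
    have a1 := hN.trans_lt (ht.trans_le (re_le_norm t))
    have t2 : 0 < t.re := a0.trans (hN.trans_lt ht)
    have t0 : t ≠ 0 := fun e => by simp [e] at t2
    have t3 := (hY t⁻¹ (mem_ball_zero_iff.2 (by
      rwa [norm_inv, inv_lt_comm₀ (a0.trans a1) R0, ← one_div]))).1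
    have a3 := aeval_reflect f3 (inv_mul_cancel₀ t0)
    have a4 : aeval t (2 * f) ≠ 0 := a3 ▸ mul_ne_zero t3 (pow_ne_zero _ t0)
    obtain ⟨P, hP⟩ : ∃ P : ℂ → Matrix (Fin n) (Fin n) ℂ, ∀ t i j, P t i j =
        ∫ u in (0 : ℝ)..1, x a u ^ (i : ℕ) * deriv (x a) u / y a t u :=
      ⟨fun t => of fun i _ => _, fun _ _ _ => rfl⟩
    have a5 : MSol (Az (2 * f) (oB f n)) P t :=
      loop_om (fun _ => ⟨_, (isOpen_lt continuous_const continuous_re).mem_nhds (hρ.trans_lt ht),
        _, _, h a, fun _ _ _ => hP _ _ _⟩) hf a4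
    have := hat_msol hn hf hg (φ := fun z => z⁻¹) (τ := id) (ρ := fun t => exp (log t / 2))
      (A := fun t => (-t⁻¹) • Az (reflect n (2 * f)) B t⁻¹) (a := -t⁻¹) (inv_mul_cancel₀ t0) a4 a5
      ((hasDerivAt_id t).congr_deriv (by simp [t0])) ((hasDerivAt_inv t0).congr_deriv (by ring))
      (((hasDerivAt_log (Or.inl t2)).div_const 2).cexp.congr_deriv (by ring)) rfl i i
    simpa only [mul_apply, Matrix.smul_apply, of_apply, hP, id] using this
  · have t0 : Tendsto (fun t : ℝ => (t : ℂ)⁻¹) atTop (𝓝 0) := by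
      simpa [Function.comp_def] using (continuous_ofReal.tendsto 0).comp tendsto_inv_atTop_zero
    have := IsBigO.sum (s := univ) fun (k : Fin n) _ => (((((g i k).continuous_aeval (A := ℂ)).tendsto
      0).comp t0).isBigO_one ℝ).mul (loop_bound (h a) k)
    refine this.congr (fun t => ?_) fun _ => mul_one _
    simp [mul_apply, mul_sum, mul_left_comm]

end

end Pool.Agent.Lib.MP_5591bc_ag.V
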