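import Pool.Agent.Lib.MP_5591bc_ag.SMain

/-! Lifting of relations passes to rational projections; the shift of a loop family. -/

namespace Pool.Agent.Lib.MP_5591bc_ag.V

open Matrix Finset Filter Topology G R Function Metric Polynomial

noncomputable section

section proj
variable {A A' : Type*} [Fintype A] [Fintype A']

/-- the torsion of a quotient of a free module of finite rank has a common annihilator -/
theorem sat_fin (I : Submodule ℚ[X] (A → ℚ[X])) : ∃ p : ℚ[X], p ≠ 0 ∧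
    ∀ (q : ℚ[X]) (w : A → ℚ[X]), q ≠ 0 → q • w ∈ I → p • w ∈ I := by
  obtain ⟨p, h1, h2⟩ := Submodule.annihilator_top_inter_nonZeroDivisors
    (Submodule.torsion_isTorsion (R := ℚ[X]) (M := (A → ℚ[X]) ⧸ I))
  refine ⟨p, nonZeroDivisors.ne_zero h2, fun q w q0 hq => ?_⟩
  have := Submodule.mem_annihilator.1 h1 ⟨I.mkQ w, ⟨q, mem_nonZeroDivisors_of_ne_zero q0⟩, by
    change q • I.mkQ w = 0
    rw [← map_smul]; exact (Submodule.Quotient.mk_eq_zero I).2 hq⟩ trivial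
  have := congrArg Subtype.val this
  exact (Submodule.Quotient.mk_eq_zero I).1 this

theorem dot_vecMul (Ξ : Matrix A' A ℚ[X]) (h : A' → ℚ[X]) (z : ℂ) (u : A → ℂ) :
    (fun μ => aeval z (h μ)) ⬝ᵥ (Ξ.map (aeval z) *ᵥ u) = (fun a => aeval z ((h ᵥ* Ξ) a)) ⬝ᵥ u := by
  rw [dotProduct_mulVec]
  congr 1
  ext a
  simp [vecMul, dotProduct]

theorem lgood_proj {U : Set ℂ} (ho : IsOpen U) (hc : IsPreconnected U) {Φ : ℂ → A → ℂ}
    (hΦ : ∀ a, DifferentiableOn ℂ (Φ · a) U) (Ξ : Matrix A' A ℚ[X]) :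
    ∃ p : ℚ[X], p ≠ 0 ∧ ∀ x : ℚ, (x : ℂ) ∈ U → p.eval x ≠ 0 → LGood Φ x →
      LGood (fun z => Ξ.map (aeval z) *ᵥ Φ z) x := by
  obtain ⟨N, hN⟩ : ∃ N : Submodule ℚ[X] (A → ℚ[X]), ∀ l, l ∈ N ↔
      ∀ z ∈ U, (fun a => aeval z (l a)) ⬝ᵥ Φ z = 0 :=
    ⟨{ carrier := {l | ∀ z ∈ U, (fun a => aeval z (l a)) ⬝ᵥ Φ z = 0}
       zero_mem' := fun z _ => by simp [dotProduct]
       add_mem' := fun ha hb z hz => by
        simpa [dotProduct, add_mul, sum_add_distrib] using congrArg₂ (· + ·) (ha z hz) (hb z hz)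
       smul_mem' := fun q l hl z hz => by
        simpa [dotProduct, mul_sum, mul_assoc] using congrArg (aeval z q * ·) (hl z hz) },
      fun _ => Iff.rfl⟩
  obtain ⟨p, p0, hp⟩ := sat_fin (LinearMap.range Ξ.vecMulLinear ⊔ N)
  refine ⟨p, p0, fun x hx px H c hc0 => ?_⟩
  obtain ⟨h, h1, h2⟩ := H (fun a => (((fun μ => C (c μ)) ᵥ* Ξ) a).eval x) (by
    rw [← hc0]
    simp only [← aeval_rat, ← dot_vecMul, aeval_C, eq_ratCast])
  have h3 : h ∈ N := (hN h).2 (ident ho hc (DifferentiableOn.fun_sum fun a _ =>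
    (h a).differentiable_aeval.differentiableOn.fun_mul (hΦ a)) (differentiableOn_const 0) hx h2)
  obtain ⟨w, hw⟩ : ∃ w : A → ℚ[X], (X - C x : ℚ[X]) • w = (fun μ => C (c μ)) ᵥ* Ξ - h :=
    ⟨fun a => (((fun μ => C (c μ)) ᵥ* Ξ - h) a) /ₘ (X - C x), funext fun a =>
      mul_divByMonic_eq_iff_isRoot.2 (by simp [h1])⟩
  obtain ⟨_, ⟨u, rfl⟩, m, hm, e⟩ := Submodule.mem_sup.1 (hp _ w (X_sub_C_ne_zero x) (hw ▸ sub_mem
    (Submodule.mem_sup_left ⟨_, rfl⟩) (Submodule.mem_sup_right h3)))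
  refine ⟨(C (p.eval x)⁻¹ : ℚ[X]) • (p • (fun μ => C (c μ)) - (X - C x : ℚ[X]) • u),
    fun μ => by simp [px], mem_of_superset (ho.mem_nhds hx) fun z hz => ?_⟩
  refine (dot_vecMul _ _ _ _).trans ((hN _).1 ?_ z hz)
  rw [vecMulLinear_apply, ← eq_sub_iff_add_eq] at e
  rw [smul_vecMul, sub_vecMul, smul_vecMul, smul_vecMul, e, smul_sub (X - C x), smul_comm _ p, hw,
    smul_sub p, ← sub_add, sub_sub_cancel]
  exact N.smul_mem _ (add_mem (N.smul_mem _ h3) (N.smul_mem _ hm))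

theorem lgood_congr {Φ Ψ : ℂ → A → ℂ} {x : ℚ} (h : LGood Φ x) (e : Ψ =ᶠ[𝓝 (x : ℂ)] Φ) :
    LGood Ψ x := fun c hc =>
  let ⟨l, h1, h2⟩ := h c (e.self_of_nhds ▸ hc)
  ⟨l, h1, (e.and h2).mono fun _ hz => hz.1 ▸ hz.2⟩

theorem mon_diff {σ : Type*} {U : Set ℂ} {Z : ℂ → σ → ℂ} (hZ : ∀ k, DifferentiableOn ℂ (Z · k) U)
    (δ : ℕ) (μ : Fin δ → Option σ) : DifferentiableOn ℂ (fun z => mon δ (Z z) μ) U := by
  change DifferentiableOn ℂ (fun z => ∏ j, hat (Z z) (μ j)) U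
  refine DifferentiableOn.fun_finsetProd fun j _ => ?_
  rcases μ j with _ | o
  exacts [differentiableOn_const _, hZ _]

/-- the degree `δ` property of rational linear forms in a vector whose monomial relations lift -/
theorem good_lin {σ : Type*} [Fintype σ] {r : ℕ} {U V : Set ℂ} (ho : IsOpen U)
    (hc : IsPreconnected U) {y : ℂ → Fin r → ℂ} (hy : ∀ i, DifferentiableOn ℂ (y · i) U)
    (oV : IsOpen V) (cV : IsPreconnected V) {Z : ℂ → σ → ℂ}
    (hZ : ∀ k, DifferentiableOn ℂ (Z · k) V) (Λ : Fin r → σ → ℚ) (s : ℚ)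
    (e : ∀ z ∈ V, z + s ∈ U ∧ ∀ a, y (z + s) a = ∑ k, Λ a k * Z z k) (δ : ℕ) :
    ∃ p : ℚ[X], p ≠ 0 ∧ ∀ x : ℚ, (x : ℂ) ∈ V → p.eval x ≠ 0 → LGood (fun t => mon δ (Z t)) x →
      GoodK (K := ℚ) U y δ (s + x) := by
  classical
  obtain ⟨lam, hlam⟩ : ∃ lam : Option (Fin r) → Option σ → ℚ, ∀ z ∈ V, ∀ o,
      hat (y (z + s)) o = ∑ a, lam o a * hat (Z z) a := by
    refine ⟨fun o a => o.elim (a.elim 1 fun _ => 0) fun i => a.elim 0 (Λ i), fun z hz => ?_⟩
    rintro (_ | i) <;> simp [hat, (e z hz).2]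
  obtain ⟨p, p0, hp⟩ := lgood_proj oV cV (Φ := fun t => mon δ (Z t)) (mon_diff hZ δ)
    (of fun (μ : (Fin δ → Option (Fin r)) × _) α =>
      C (NumberField.integralBasis ℚ μ.2 * ∏ l, lam (μ.1 l) (α l)))
  refine ⟨p, p0, fun x hx px H => goodK_of ho hc hy (e x hx).1 ?_ (hp x hx px H)⟩
  filter_upwards [oV.mem_nhds hx] with z hz μ
  simp only [mulVec, dotProduct, map_apply, of_apply, aeval_C, map_mul, map_prod, mul_assoc,
    ← mul_sum, G.mon, tens, ← prod_mul_distrib, eq_ratCast, hlam z hz, prod_univ_sum,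
    Fintype.piFinset_univ]

end proj

variable {f : ℚ[X]} {V : Set ℂ} {x : ℝ → ℂ} {y : ℂ → ℝ → ℂ}

theorem loop_diff (hL : IsLoop f V x y) (ho : IsOpen V) (i : ℕ) :
    DifferentiableOn ℂ (fun t => ∫ u in (0 : ℝ)..1, x u ^ i * deriv x u / y t u) V := fun s hs => by
  have h1 := hL.1.continuous
  have h2 := hL.1.continuous_deriv le_rfl
  refine (hasDerivAt_int (ho.mem_nhds hs) (F' := fun t u => x u ^ i / 2 * ig x y 0 t u)
    (ContinuousOn.div₀ (by fun_prop) hL.2.2.1 fun p hp => ((hL.2.2.2 _ hp.1).2 _ hp.2).1)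
    (ContinuousOn.mul (by fun_prop) (hL.cont 0))
    fun t ht u hu => ?_).differentiableAt.differentiableWithinAt
  have h3 := ((hL.2.2.2 t (interior_subset ht)).2 u hu).1
  have h4 := hL.ne (interior_subset ht) hu
  refine ((hasDerivAt_const t _).fun_div (hL.deriv_y ht hu) h3).congr_deriv ?_
  rw [ig]
  field_simp
  ring

theorem loop_shift (hL : IsLoop f V x y) (c : ℚ) :
    IsLoop (taylor c f) {t | t + c ∈ V} (fun u => x u - c) fun t => y (t + c) := by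
  refine ⟨hL.1.sub contDiff_const, by simp [hL.2.1],
    hL.2.2.1.comp (f := fun p : ℂ × ℝ => (p.1 + c, p.2)) (by fun_prop) fun _ hp => hp,
    fun t ht => ⟨(hL.2.2.2 _ ht).1, fun u hu => ⟨((hL.2.2.2 _ ht).2 u hu).1, ?_⟩⟩⟩
  rw [((hL.2.2.2 _ ht).2 u hu).2, taylor_apply, aeval_comp]
  simp [sub_sub, add_comm]

theorem loop_expand (hL : IsLoop f V x y) (c : ℚ) {n : ℕ} (i : Fin n) {t : ℂ} (ht : t ∈ V) :
    ∫ u in (0 : ℝ)..1, x u ^ (i : ℕ) * deriv x u / y t u = ∑ k : Fin n,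
      (((X + C c) ^ (i : ℕ)).coeff k : ℚ) * ∫ u in (0 : ℝ)..1,
        (x u - c) ^ (k : ℕ) * deriv (fun u => x u - c) u / y t u := by
  have h1 := hL.1.continuous
  have h2 := hL.1.continuous_deriv le_rfl
  simp only [← intervalIntegral.integral_const_mul, deriv_sub_const]
  rw [← intervalIntegral.integral_finsetSum fun i _ => IntervalIntegrable.const_mul
    (ContinuousOn.intervalIntegrable_of_Icc zero_le_one (ContinuousOn.div₀ (by fun_prop)
      (hL.conty ht) fun u hu => ((hL.2.2.2 _ ht).2 u hu).1)) _]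
  congr 1
  ext u
  have := aeval_eq_sum_range' (x := x u - c) (p := (X + C c) ^ (i : ℕ)) (n := n) (by simp)
  simp only [map_pow, map_add, aeval_X, aeval_C, eq_ratCast, sum_range, Algebra.smul_def,
    sub_add_cancel] at this
  simp only [this, sum_mul, sum_div, mul_assoc, mul_div_assoc]

/-- reduction of the statement for natural `t` to the case `f 0 ≠ 0` in linear form -/
theorem nat_of_core {n r : ℕ} (hf : f.natDegree = n) (hq : Squarefree f) (R : ℝ) (i : Fin r → Fin n)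
    (x : Fin r → ℝ → ℂ) (y : Fin r → ℂ → ℝ → ℂ) (h : ∀ a, IsLoop f {t | R < t.re} (x a) (y a))
    (δ : ℕ) (core : ∀ (g : ℚ[X]) (ρ : ℝ) (x : Fin r → ℝ → ℂ) (y : Fin r → ℂ → ℝ → ℂ),
      g.natDegree = n → Squarefree g → g.eval 0 ≠ 0 → (∀ a, IsLoop g {t | ρ < t.re} (x a) (y a)) →
      {t : ℕ | ¬ LGood (fun t => mon δ fun p : Fin n × Fin r => ∫ u in (0 : ℝ)..1,
        x p.2 u ^ (p.1 : ℕ) * deriv (x p.2) u / y p.2 t u) t}.Finite) :
    {t : ℕ | ¬ GoodK (K := ℚ) {t | R < t.re} (fun t a => ∫ u in (0 : ℝ)..1,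
      x a u ^ (i a : ℕ) * deriv (x a) u / y a t u) δ t}.Finite := by
  obtain ⟨c, hc⟩ : ∃ c : ℕ, f.eval (c : ℚ) ≠ 0 := by
    by_contra! e
    exact hq.ne_zero (eq_zero_of_infinite_isRoot _ (Set.infinite_of_injective_forall_mem
      (f := fun k : ℕ => (k : ℚ)) Nat.cast_injective e))
  have o : ∀ ρ : ℝ, IsOpen {t : ℂ | ρ < t.re} := fun _ =>
    isOpen_lt continuous_const Complex.continuous_re
  have h' := fun a => loop_shift (h a) c
  rw [show {t : ℂ | t + ((c : ℚ) : ℂ) ∈ {t : ℂ | R < t.re}} = {t | R - c < t.re} by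
    ext; simp [sub_lt_iff_lt_add]] at h'
  have fin := core _ _ _ _ (by rw [natDegree_taylor, hf]) (fun q hd => by
    have := hq (taylor (-(c : ℚ)) q) (by
      obtain ⟨w, hw⟩ := hd
      refine ⟨taylor (-(c : ℚ)) w, ?_⟩
      rw [← taylor_mul, ← taylor_mul, ← hw, taylor_taylor, neg_add_cancel, taylor_zero])
    simpa [taylor_taylor] using this.map (taylorAlgHom (c : ℚ))) (by simpa [taylor_eval] using hc) h'
  obtain ⟨p, p0, hp⟩ := good_lin (o R) (convex_halfSpace_re_gt R).isPreconnected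
    (fun a => loop_diff (h a) (o R) (i a)) (o (R - c)) (convex_halfSpace_re_gt _).isPreconnected
    (fun p : Fin n × Fin r => loop_diff (h' p.2) (o _) p.1)
    (fun a p => if p.2 = a then ((X + C (c : ℚ)) ^ (i a : ℕ)).coeff p.1 else 0) c (fun z hz => by
      have hz' : z + ((c : ℚ) : ℂ) ∈ {t : ℂ | R < t.re} := by simpa [sub_lt_iff_lt_add] using hz
      refine ⟨hz', fun a => (loop_expand (h a) c (i a) hz').trans ?_⟩
      simp [Fintype.sum_prod_type, apply_ite (Rat.cast : ℚ → ℂ)]) δ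
  refine ((Set.finite_Iic (c + ⌈R⌉₊)).union ((((p.rootSet_finite ℚ).preimage
    (f := fun k : ℕ => (k : ℚ)) Nat.cast_injective.injOn).union fin).image (c + ·))).subset
    fun t ht => (le_or_gt t _).imp id fun e => ?_
  obtain ⟨s, rfl⟩ : ∃ s, t = c + s := ⟨t - c, by omega⟩
  refine ⟨s, ?_, rfl⟩
  by_contra! e1
  simp only [Set.mem_union, not_or, Set.mem_preimage, mem_rootSet, Set.mem_ofPred_eq, not_not,
    not_and] at e1
  refine ht ?_
  rw [Nat.cast_add]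
  refine hp s ?_ (e1.1 p0) e1.2
  have : (⌈R⌉₊ : ℝ) < s := by exact_mod_cast (by omega : ⌈R⌉₊ < s)
  have h3 : (0 : ℝ) ≤ c := c.cast_nonneg
  simpa using ((sub_le_self R h3).trans (Nat.le_ceil R)).trans_lt this

end

end Pool.Agent.Lib.MP_5591bc_ag.V
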