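import Pool.Agent.Lib.MP_5591bc_ag.V.Core2
import Pool.Agent.Lib.MP_5591bc_ag.V.Inf
import Pool.Agent.Lib.MP_5591bc_ag.V.Loop
import Pool.Agent.Lib.MP_5591bc_ag.V.VG

/-! The periods of `y^2 = f(x)(x - t)` over fixed loops at natural numbers `t`. -/

namespace Pool.Agent.Lib.MP_5591bc_ag.V

open Matrix Finset Filter Topology PowerSeries G R Function

noncomputable section

variable {f : Polynomial ℚ} {n m r : ℕ}

theorem nat_zero (hn : 0 < n) (he : Even n) (hf : f.natDegree = n) (hq : Squarefree f)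
    (h0 : f.eval 0 ≠ 0) {ρ : ℝ} {x : Fin m → ℝ → ℂ} {y : Fin m → ℂ → ℝ → ℂ}
    (h : ∀ a, IsLoop f {t | ρ < t.re} (x a) (y a)) {κ : Type*} [Fintype κ] [DecidableEq κ]
    (W : Matrix (Fin m) κ ℂ) (δ : ℕ) :
    {t : ℕ | ¬ LGood (fun t => G.mon δ fun p : Fin n × κ => ((of fun (i : Fin n) a =>
      ∫ u in (0 : ℝ)..1, x a u ^ (i : ℕ) * deriv (x a) u / y a t u) * W) p.1 p.2) (t : ℚ)}.Finite := by
  obtain ⟨g, g', B, a, M, g1, g2, g3, g4, g5, g6, g7, g8⟩ := exists_inf hn he hf hq h0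
  refine core2 g3 g4 g5 g6 g8 g7 g1 δ (P := fun t => (of fun (i : Fin n) a =>
    ∫ u in (0 : ℝ)..1, x a u ^ (i : ℕ) * deriv (x a) u / y a t u) * W) fun R R0 Y hY => ?_
  obtain ⟨C, -, hC⟩ := loop_free hn hf.le g2 g5 R0 hY h (le_max_left _ _) (le_max_right _ _)
  exact ⟨_, C * W, fun t ht => by
    rw [← Matrix.mul_assoc, ← Matrix.smul_mul, hC t ht, Matrix.mul_assoc]⟩

theorem lin_eq {α β : Type*} [Fintype α] [DecidableEq α] [Fintype β] [DecidableEq β]
    (ℓ : Matrix α β ℂ →ₗ[ℂ] ℂ) (Z : Matrix α β ℂ) :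
    ℓ Z = ∑ i, ∑ a, Z i a * ℓ (single i a 1) := by
  conv_lhs => rw [matrix_eq_sum_single Z]
  simp only [map_sum]
  refine sum_congr rfl fun i _ => sum_congr rfl fun a _ => ?_
  rw [← smul_eq_mul, ← map_smul, smul_single, smul_eq_mul, mul_one]

theorem nat_fam (hn : 0 < n) (he : Even n) (hf : f.natDegree = n) (hq : Squarefree f)
    (R : ℝ) (x : Fin m → ℝ → ℂ) (y : Fin m → ℂ → ℝ → ℂ)
    (h : ∀ a, IsLoop f {t | R < t.re} (x a) (y a))
    (ℓ : Fin r → Matrix (Fin n) (Fin m) ℂ →ₗ[ℂ] ℂ) (δ : ℕ) :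
    {t : ℕ | ¬ GoodK (K := ℚ) {t | R < t.re} (fun t b => ℓ b (of fun i a =>
      ∫ u in (0 : ℝ)..1, x a u ^ (i : ℕ) * deriv (x a) u / y a t u)) δ t}.Finite := by
  obtain ⟨c, hc⟩ : ∃ c : ℕ, f.eval (c : ℚ) ≠ 0 := by
    by_contra! e
    exact hq.ne_zero (Polynomial.eq_zero_of_infinite_isRoot _ (Set.infinite_of_injective_forall_mem
      (f := fun k : ℕ => (k : ℚ)) Nat.cast_injective e))
  have o : ∀ ρ : ℝ, IsOpen {t : ℂ | ρ < t.re} := fun _ =>
    isOpen_lt continuous_const Complex.continuous_re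
  have h' := fun a => loop_shift (h a) c
  rw [show {t : ℂ | t + ((c : ℚ) : ℂ) ∈ {t : ℂ | R < t.re}} = {t | R - c < t.re} by
    ext; simp [sub_lt_iff_lt_add]] at h'
  have fin := nat_zero hn he (by rw [Polynomial.natDegree_taylor, hf]) (fun q hd => by
    have := hq (Polynomial.taylor (-(c : ℚ)) q) (by
      obtain ⟨w, hw⟩ := hd
      refine ⟨Polynomial.taylor (-(c : ℚ)) w, ?_⟩
      rw [← Polynomial.taylor_mul, ← Polynomial.taylor_mul, ← hw, Polynomial.taylor_taylor,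
        neg_add_cancel, Polynomial.taylor_zero])
    simpa [Polynomial.taylor_taylor] using this.map (Polynomial.taylorAlgHom (c : ℚ)))
    (by simpa [Polynomial.taylor_eval] using hc) h'
    (of fun a (p : Fin r × Fin n) => ℓ p.1 (single p.2 a 1)) δ
  obtain ⟨p, p0, hp⟩ := good_lin (o R) (convex_halfSpace_re_gt R).isPreconnected
    (y := fun t b => ℓ b (of fun i a =>
      ∫ u in (0 : ℝ)..1, x a u ^ (i : ℕ) * deriv (x a) u / y a t u))
    (fun b => by
      simp only [lin_eq (ℓ b) (of _), of_apply]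
      exact DifferentiableOn.fun_sum fun i _ => DifferentiableOn.fun_sum fun a _ =>
        (loop_diff (h a) (o R) i).mul_const _)
    (o (R - c)) (convex_halfSpace_re_gt _).isPreconnected
    (Z := fun t (p : Fin n × Fin r × Fin n) => ((of fun (i : Fin n) a => ∫ u in (0 : ℝ)..1,
      (x a u - (c : ℚ)) ^ (i : ℕ) * deriv (fun u => x a u - (c : ℚ)) u / y a (t + (c : ℚ)) u) *
        of fun a (p : Fin r × Fin n) => ℓ p.1 (single p.2 a 1)) p.1 p.2)
    (fun p => by
      simp only [mul_apply, of_apply]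
      exact DifferentiableOn.fun_sum fun a _ => (loop_diff (h' a) (o _) p.1).mul_const _)
    (fun b p => if p.2.1 = b then
      ((Polynomial.X + Polynomial.C (c : ℚ)) ^ (p.2.2 : ℕ)).coeff p.1 else 0) c (fun z hz => by
      have hz' : z + ((c : ℚ) : ℂ) ∈ {t : ℂ | R < t.re} := by simpa [sub_lt_iff_lt_add] using hz
      refine ⟨hz', fun b => ?_⟩
      simp only [lin_eq (ℓ b) (of _), of_apply, fun a i => loop_expand (h a) c (n := n) i hz',
        Fintype.sum_prod_type, apply_ite (Rat.cast : ℚ → ℂ), Rat.cast_zero, ite_mul, zero_mul,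
        sum_ite_irrel, sum_const_zero, sum_ite_eq', mem_univ, if_true, mul_apply, mul_sum, sum_mul,
        mul_assoc]
      rw [sum_congr rfl fun _ _ => sum_comm, sum_comm]) δ
  refine ((Set.finite_Iic (c + ⌈R⌉₊)).union ((((p.rootSet_finite ℚ).preimage
    (f := fun k : ℕ => (k : ℚ)) Nat.cast_injective.injOn).union fin).image (c + ·))).subset
    fun t ht => (le_or_gt t _).imp id fun e => ?_
  obtain ⟨s, rfl⟩ : ∃ s, t = c + s := ⟨t - c, by omega⟩
  refine ⟨s, ?_, rfl⟩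
  by_contra! e1
  simp only [Set.mem_union, not_or, Set.mem_preimage, Polynomial.mem_rootSet, Set.mem_ofPred_eq,
    not_not, not_and] at e1
  refine ht ?_
  rw [Nat.cast_add]
  refine hp s ?_ (e1.1 p0) e1.2
  have : (⌈R⌉₊ : ℝ) < s := by exact_mod_cast (by omega : ⌈R⌉₊ < s)
  have h3 : (0 : ℝ) ≤ c := c.cast_nonneg
  simpa using ((sub_le_self R h3).trans (Nat.le_ceil R)).trans_lt this

end

end Pool.Agent.Lib.MP_5591bc_ag.V
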