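import Pool.Agent.Lib.MP_5591bc_ag.V.Elim
import Pool.Agent.Lib.MP_5591bc_ag.V.Bridge

/-! Finiteness of the exceptional points near an ordinary point. -/

namespace Pool.Agent.Lib.MP_5591bc_ag.V

open Matrix Finset Filter Topology PowerSeries G R Function

noncomputable section

open Metric

theorem near_shift {ν : Type*} [Fintype ν] [DecidableEq ν] {T : Polynomial ℚ}
    {B : Matrix ν ν (Polynomial ℚ)} (h : GalK T B) (s : ℚ) :
    GalK (Polynomial.taylor s T) (B.map (Polynomial.taylor s)) := by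
  obtain ⟨c, hc⟩ := h
  obtain ⟨g, g1, g2⟩ := exists_deg T B
  refine ⟨|c| * s.den ^ g, fun m => ?_⟩
  obtain ⟨d, d0, d1, d2⟩ := hc m
  refine ⟨d * (s.den ^ g) ^ m, by have := s.den_pos; positivity, ?_, fun k hk i j l => ?_⟩
  · rw [mul_pow, Nat.cast_mul, Nat.cast_pow, Nat.cast_pow, ← abs_pow]
    exact mul_le_mul (d1.trans (le_abs_self _)) (pow_le_pow_right₀
      (one_le_pow₀ (by exact_mod_cast s.den_pos)) m.le_succ) (by positivity) (abs_nonneg _)
  obtain ⟨z, hz⟩ := den_eval s (a := d / k.factorial) (D := g * m)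
    (W := Polynomial.hasseDeriv l (iterK T B k i j)) ((Polynomial.natDegree_hasseDeriv_le _ _).trans
      ((Nat.sub_le _ _).trans ((deg_iter g1 g2 k i j).trans (mul_comm g m ▸ Nat.mul_le_mul_right g hk))))
    fun p => by
      obtain ⟨y, hy⟩ := IsIntegrallyClosed.isIntegral_iff.1 (d2 k hk i j (p + l))
      refine ⟨(p + l).choose l * y, ?_⟩
      rw [Polynomial.hasseDeriv_coeff, mul_left_comm, div_mul_eq_mul_div, ← hy]
      simp
  rw [iterK_taylor, map_apply, Polynomial.taylor_coeff, Nat.cast_mul, Nat.cast_pow, Nat.cast_pow,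
    ← pow_mul, mul_div_right_comm, mul_div_right_comm, hz]
  exact isIntegral_algebraMap (R := ℤ)

theorem exists_two {ν : Type*} [Fintype ν] [DecidableEq ν] {T : Polynomial ℚ}
    {B : Matrix ν ν (Polynomial ℚ)} (h : GalK T B) (hT : T.eval 0 ≠ 0) {U : Set ℂ} (ho : IsOpen U)
    (hco : IsPreconnected U) (hU : (0 : ℂ) ∈ U) {P : ℂ → Matrix ν ν ℂ} (hP : FundK T B U P)
    (hC : Conn U P) (δ : ℕ) : ∃ R > 0, ∃ Y : ℂ → Matrix ν ν ℂ,
      (∀ z ∈ ball (0 : ℂ) R, z ∈ U ∧ P z = Y z * P 0) ∧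
      ∃ B' G f, Two (A := Mo ν δ) T B' {x | |(x : ℝ)| < R / 2} G f (fun x => vk δ (Y x)) ∧
      ∀ l : _ → Polynomial ℚ, (fun a => (l a : ℚ⟦X⟧)) ⬝ᵥ f = 0 → ∀ z ∈ ball (0 : ℂ) R,
        (fun a => Polynomial.aeval z (l a)) ⬝ᵥ vk δ (Y z) = 0 := by
  unfold vk
  have T0 : Polynomial.aeval (0 : ℂ) T ≠ 0 := by
    rw [← Rat.cast_zero, aeval_rat]; exact_mod_cast hT
  have c3 := (analyticAt_aeval T (0 : ℂ)).continuousAt
  have c4 : ContinuousAt (fun t => ((Polynomial.aeval t T, fun i j => Az T B t i j) :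
      ℂ × (ν → ν → ℂ))) 0 := c3.prodMk (continuousAt_pi.2 fun i => continuousAt_pi.2 fun j =>
    (analyticAt_aeval _ _).continuousAt.div c3 T0)
  obtain ⟨c, hc⟩ := c4.norm.isBoundedUnder_le
  obtain ⟨R, R0, hR⟩ := Metric.eventually_nhds_iff_ball.1 ((show ∀ᶠ t in 𝓝 (0 : ℂ), t ∈ U
    from ho.mem_nhds hU).and ((c3.eventually_ne T0).and (eventually_map.1 hc)))
  have c0 : 0 ≤ c := (norm_nonneg _).trans (hR 0 (mem_ball_self R0)).2.2
  obtain ⟨Y, Q, Y0, -, hY⟩ := exists_fund (convex_ball _ _) isOpen_ball (mem_ball_self R0)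
    (Hol.Az fun t ht => (hR t ht).2.1) (c := c) (fun t ht i j => ((norm_le_pi_norm _ j).trans
      (norm_le_pi_norm (fun i j => Az T B t i j) i)).trans (norm_prod_le_iff.1 (hR t ht).2.2).2) c0
  obtain ⟨S, hS⟩ : ∃ S, S = Real.exp (Fintype.card ν * c * R) := ⟨_, rfl⟩
  have hS1 : ∀ t ∈ ball (0 : ℂ) R, Real.exp (Fintype.card ν * c * ‖t - 0‖) ≤ S := fun t ht => by
    rw [hS]
    gcongr
    exact (mem_ball_iff_norm.1 ht).le
  have hx : ∀ x : ℚ, |(x : ℝ)| < R / 2 → (x : ℂ) ∈ ball (0 : ℂ) (R / 2) := fun x hx => by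
    rwa [mem_ball_zero_iff, ← Complex.ofReal_ratCast, Complex.norm_real]
  have hx1 : ∀ x : ℚ, |(x : ℝ)| < R / 2 → (x : ℂ) ∈ ball (0 : ℂ) R := fun x h =>
    ball_subset_ball (by linarith) (hx x h)
  have hx3 : ∀ x : ℚ, |(x : ℝ)| < R / 2 → ∀ᶠ t in 𝓝 (x : ℂ), MSol (Az T B) Y t := fun x h =>
    mem_of_superset (isOpen_ball.mem_nhds (hx1 x h)) fun t ht => (hY t ht).1
  have hol : Hol (ball (0 : ℂ) R) Y := hol_of_msol fun t ht => (hY t ht).1
  have hh : ∀ o, DifferentiableOn ℂ (fun z => hatg (Y z) o) (ball 0 R) := by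
    rintro (_ | a)
    exacts [differentiableOn_const _, hol _ _]
  have hψ : ∀ α : Fin δ → Option (ν × ν), DifferentiableOn ℂ
      (fun z => tens (fun _ => hatg (Y z)) α) (ball 0 R) := fun α =>
    DifferentiableOn.fun_finsetProd fun l _ => hh _
  have ht : ∀ x : ℚ, |(x : ℝ)| < R / 2 → ∀ α : Fin δ → Option (ν × ν),
      tay (fun z => tens (fun _ => hatg (Y z)) α) x = ((piM fun _ => exg 1 (Gb T B x)).map mp *ᵥ
        fun β => C (tens (fun _ => hatg (Y x)) β)) α := fun x h α => by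
    have e1 : (fun β : Fin δ → Option (ν × ν) => C (tens (fun _ => hatg (Y x)) β)) =
        tens fun _ => hatg ((Y x).map C) := funext fun β => by
      simp only [tens, map_prod]
      exact prod_congr rfl fun l _ => by cases β l <;> simp [hatg]
    have n1 := isOpen_ball.mem_nhds (hx1 x h)
    rw [e1, piM_map, piM_mulVec, exg_map _ (map_zero _), map_one, exg_mulVec,
      ← tay_P (hx3 x h) (hR _ (hx1 x h)).2.1]
    refine (tay_prod _ fun l _ => (hh _).analyticAt n1).trans (prod_congr rfl fun l _ => ?_)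
    rcases α l with _ | ⟨i, j⟩
    exacts [(tay_const 1).trans (map_one _), rfl]
  have h0 : |((0 : ℚ) : ℝ)| < R / 2 := by simpa using R0
  have hf : ∀ α : Fin δ → Option (ν × ν), mp (((piM fun _ => exg 1 (Gb T B 0)) *ᵥ
      fun j => C (tens (fun _ => hatg 1) j)) α) =
      tay (fun z => tens (fun _ => hatg (Y z)) α) 0 := fun α => by
    have := ht 0 h0 α
    rw [Rat.cast_zero, Y0] at this
    rw [this, mulVec, mulVec, dotProduct, dotProduct, map_sum]
    refine sum_congr rfl fun β _ => ?_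
    rw [map_mul, map_C, tens, tens, map_prod]
    exact congrArg₂ _ rfl (congrArg _ (prod_congr rfl fun l _ => by
      cases β l <;> simp [hatg, one_apply, apply_ite]))
  have S0 : 0 ≤ S := hS ▸ (Real.exp_pos _).le
  have hG := Gb_gf h (S := c + Fintype.card ν * S * S + 4 / R) (Ω := {x | |(x : ℝ)| < R / 2})
    fun x h => by
      obtain ⟨-, a2, a3⟩ := hR _ (hx1 x h)
      obtain ⟨-, -, a1, -, a4⟩ := hY _ (hx1 x h)
      have a5 : (0 : ℝ) ≤ Fintype.card ν * S * S := by positivity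
      have a6 : 0 ≤ 4 / R := by positivity
      have b1 := congrArg (· * (Q x).map C) (tay_P (hx3 x h) a2)
      replace a3 := (norm_prod_le_iff.1 a3).1
      rw [aeval_rat] at a2 a3
      rw [← Complex.ofReal_ratCast, Complex.norm_real] at a3
      refine ⟨by exact_mod_cast a2, a3.trans (by linarith), fun i j k => ?_⟩
      simp only [Matrix.mul_assoc, ← Matrix.map_mul, mul_eq_one_comm.1 a1,
        Matrix.map_one _ (map_zero _) (map_one _), Matrix.mul_one] at b1
      have b2 := congrArg (fun M => ‖coeff k (M i j)‖) b1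
      simp only [mul_apply, of_apply, map_apply, map_sum, coeff_mul_C, coeff_map, eq_ratCast] at b2
      rw [← Complex.ofReal_ratCast (coeff k _), Complex.norm_real] at b2
      have b3 : ball (x : ℂ) (R / 2) ⊆ ball 0 R := ball_subset_ball' (by
        have := mem_ball.1 (hx x h)
        linarith)
      refine b2.symm.trans_le ((norm_sum_le _ _).trans ((sum_le_card_nsmul _ _
        (S / (R / 4) ^ k * S) fun l _ => ?_).trans ?_))
      · rw [norm_mul]
        exact mul_le_mul (cauchy ((hol i l).mono b3) (by linarith) (by linarith) (fun t ht =>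
          have := b3 (sphere_subset_ball (by linarith) ht)
          ((hY t this).2.2.2.1 i l).trans (hS1 t this)) k) ((a4 l j).trans (hS1 _ (hx1 x h)))
          (norm_nonneg _) (by positivity)
      · rw [nsmul_eq_mul, card_univ, pow_succ', show Fintype.card ν * (S / (R / 4) ^ k * S) =
          Fintype.card ν * S * S * (4 / R) ^ k by rw [div_pow, div_pow]; field_simp]
        have : (1 : ℝ) ≤ x.den := by exact_mod_cast x.den_pos
        have := le_mul_of_one_le_right (add_nonneg (add_nonneg c0 a5) a6) this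
        exact mul_le_mul (by linarith) (pow_le_pow_left₀ a6 (by linarith) k) (by positivity)
          (by linarith)
  have hs : Sys T B {x | |(x : ℝ)| < R / 2} (Gb T B) := ⟨fun x h => by
      have := (hR _ (hx1 x h)).2.1
      rw [aeval_rat] at this
      exact_mod_cast this, fun x _ => Gb_zero x, fun x h =>
    Gb_ode (hx3 x h) (hR _ (hx1 x h)).2.1 (mul_eq_one_comm.1 (hY _ (hx1 x h)).2.2.1), hG⟩
  have hG2 := (hs.vk δ).gf
  have hPs : ∀ z ∈ ball (0 : ℂ) R, MSol (Az T B) P z := fun z hz i j => by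
    obtain ⟨a1, a2⟩ := (hP _ (hR z hz).1).2 i j
    refine a1.hasDerivAt.congr_deriv ?_
    simp only [Az, mul_apply, of_apply, div_mul_eq_mul_div, ← sum_div, ← a2]
    field_simp [(hR z hz).2.1]
  have holP : Hol U P := fun i j t ht => ((hP t ht).2 i j).1.differentiableWithinAt
  refine ⟨R, R0, Y, fun z h => ⟨(hR z h).1, muniq isOpen_ball (convex_ball _ _).isPreconnected
      (Hol.Az fun t ht => (hR t ht).2.1) hPs (fun t ht => (hY t ht).1.mul_const _) (mem_ball_self R0)
      (by simp [Y0]) h⟩, tB (Fin δ) (exg 0 B), fun x => piM fun _ => exg 1 (Gb T B x), _,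
    ⟨hs.vk δ, ?_, fun x h α k => ?_, fun x h => ?_, fun x h l hl => (back_of hψ hf (hx1 x h) l).1 ?_⟩,
    fun l hl => ?_⟩
  · obtain ⟨e, he⟩ := UF.pi (hb := fun x => two_le x.1) (g := fun α
      (x : {x : ℚ | |(x : ℝ)| < R / 2}) => ((piM fun _ : Fin δ => exg 1 (Gb T B x)) *ᵥ
        fun j => C (tens (fun _ => hatg 1) j)) α) fun α => by
      simp only [mulVec, dotProduct, ← Finset.sum_fn, tens, map_prod]
      refine sum_mem fun β _ => mul_mem (hG2 α β) (?_ : (fun _ => _) ∈ _)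
      simp only [← Finset.prod_fn]
      refine prod_mem fun l _ => ?_
      rcases β l with _ | a
      · simp only [hatg, Option.elim_none, map_one]; exact one_mem _
      · simp only [hatg, Option.elim_some, one_apply]
        split_ifs
        · rw [map_one]; exact one_mem _
        · rw [map_zero]; exact zero_mem _
    exact ⟨_, he ⟨0, h0⟩⟩
  · have := tendsto_trunc (hx1 x h) k (hψ α) (hf α)
    rwa [ht x h] at this
  · refine ((conn_iff ho hco holP (hR _ (hx1 x h)).1).1 hC).mono (range_evG fun i j => ?_)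
    have b1 := congrArg (· * (P x)⁻¹.map C) (tay_P (mem_of_superset (isOpen_ball.mem_nhds (hx1 x h)) hPs)
      (hR _ (hx1 x h)).2.1)
    simp only [Matrix.mul_assoc, ← Matrix.map_mul,
      mul_nonsing_inv _ (Ne.isUnit (hP _ (hR _ (hx1 x h)).1).1),
      Matrix.map_one _ (map_zero _) (map_one _), Matrix.mul_one] at b1
    have b2 : ∀ a b, (Gb T B x).map mp a b ∈ (evG x (of fun i j => tay (P · i j) x)).range := fun a b => by
      rw [← b1, mul_apply]
      exact sum_mem fun l _ => mul_mem ⟨MvPolynomial.X (a, l), by simp [evG]⟩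
        ⟨MvPolynomial.C (Polynomial.C ((P x)⁻¹ l b)), by simp [evG, τc_C]⟩
    rw [piM_map, exg_map _ (map_zero _), map_one, piM, of_apply]
    refine prod_mem fun l _ => ?_
    rcases i l with _ | a <;> rcases j l with _ | b
    · exact one_mem _
    · exact zero_mem _
    · exact zero_mem _
    · by_cases e : a.2 = b.2
      · simpa only [exg, of_apply, Option.elim_some, if_pos e] using b2 a.1 b.1
      · simp only [exg, of_apply, Option.elim_some, if_neg e]; exact zero_mem _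
  · rw [funext (ht x h)]
    exact hl
  · have hd := fun a => (l a).differentiable_aeval.differentiableOn.fun_mul (hψ a)
    have n0 := isOpen_ball.mem_nhds (mem_ball_self (x := (0 : ℂ)) R0)
    refine ident isOpen_ball (convex_ball _ _).isPreconnected
      (DifferentiableOn.fun_sum fun a _ => hd a) (differentiableOn_const 0) (mem_ball_self R0)
      (eventually_zero_of_tay ((DifferentiableOn.fun_sum fun a _ => hd a).analyticAt n0) ?_)
    refine (tay_sum _ fun a _ => (hd a).analyticAt n0).trans ?_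
    rw [← map_zero mp, ← hl, dotProduct, map_sum]
    refine sum_congr rfl fun a _ => ?_
    rw [tay_mul (analyticAt_aeval _ _) ((hψ a).analyticAt n0), tay_aeval, map_mul, hf, ← τ1_zero,
      mp_τ1, Rat.cast_zero]

theorem near (K : Type) [Field K] [NumberField K] [Algebra K ℂ] {n r : ℕ} (δ : ℕ)
    {T : Polynomial ℚ} {B : Matrix (Fin n) (Fin n) (Polynomial ℚ)} (h : GalK T B) {s : ℚ}
    (hT : T.eval s ≠ 0) {U : Set ℂ} (ho : IsOpen U) (hc : IsPreconnected U) (hs : (s : ℂ) ∈ U)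
    {P : ℂ → Matrix (Fin n) (Fin n) ℂ} (hP : FundK T B U P) (hC : Conn U P)
    (ℓ : Fin r → Matrix (Fin n) (Fin n) ℂ →ₗ[ℂ] ℂ) {η : ℝ} (η0 : 0 < η) :
    {ξ : ℚ | |(ξ : ℝ)| ≤ (ξ.den : ℝ) ^ (-η) ∧
      ¬ GoodK U (fun t i => ℓ i (P t)) δ ((s : K) + ξ)}.Finite := by
  classical
  have hta : ∀ (z : ℂ) (p : Polynomial ℚ), Polynomial.aeval z (Polynomial.taylor s p) =
      Polynomial.aeval (z + s) p := fun z p => by simp [Polynomial.taylor_apply, Polynomial.aeval_comp]
  obtain ⟨R, R0, Y, hR, B', G, f, H, rel⟩ := exists_two (near_shift h s)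
    (by rwa [Polynomial.taylor_eval, zero_add]) (U := {z | z + s ∈ U})
    (ho.preimage (continuous_add_const _)) (by
      have : {z : ℂ | z + s ∈ U} = (fun z : ℂ => z - s) '' U := by
        ext z
        exact ⟨fun h => ⟨_, h, add_sub_cancel_right _ _⟩, by rintro ⟨t, h, rfl⟩; simpa using h⟩
      exact this ▸ hc.image _ (continuous_sub_right _).continuousOn) (by simpa using hs)
    (P := fun z => P (z + s)) (fun z hz => ⟨(hP _ hz).1, fun i j => by
      obtain ⟨a1, a2⟩ := (hP _ hz).2 i j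
      have := a1.hasDerivAt.comp_add_const z s
      exact ⟨this.differentiableAt, by simp only [this.deriv, map_apply, hta, a2]⟩⟩) (hC.shift s) δ
  obtain ⟨F, hF⟩ : ∃ F, F = P (0 + s) := ⟨_, rfl⟩
  obtain ⟨lam, hlam⟩ : ∃ lam : Option (Fin r) → Option (Fin n × Fin n) → ℂ,
      ∀ o (Z : Matrix (Fin n) (Fin n) ℂ), hat (fun i => ℓ i (Z * F)) o = ∑ a, lam o a * hatg Z a := by
    refine ⟨fun o a => o.elim (a.elim 1 fun _ => 0) fun i => a.elim 0 fun x =>
      ℓ i (single x.1 x.2 (1 : ℂ) * F), ?_⟩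
    rintro (_ | i) Z
    · simp [hat, hatg]
    · conv_lhs => rw [matrix_eq_sum_single Z]
      simp only [hat, hatg, Option.elim_some, Fintype.sum_option, Option.elim_none, zero_mul,
        zero_add, Fintype.sum_prod_type, Matrix.sum_mul, map_sum]
      refine sum_congr rfl fun x _ => sum_congr rfl fun y _ => ?_
      rw [mul_comm _ (Z x y), ← smul_eq_mul (Z x y), ← map_smul, ← Matrix.smul_mul, smul_single, smul_eq_mul,
        mul_one]
  obtain ⟨Γ, θ, hΓ⟩ := exists_Gm fun (μ : (Fin δ → Option (Fin r)) × Ix K) (α : Mo (Fin n) δ) =>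
    algebraMap K ℂ (NumberField.integralBasis K μ.2) * ∏ l, lam (μ.1 l) (α l)
  obtain ⟨t, ht⟩ : ∃ t : ℝ, t = 2 ^ (-η / 2) := ⟨_, rfl⟩
  have t0 : 0 ≤ t := ht ▸ Real.rpow_nonneg zero_le_two _
  have t1 : t < 1 := ht ▸ Real.rpow_lt_one_of_one_lt_of_neg one_lt_two (by linarith)
  obtain ⟨w0, hw0⟩ := exists_pow_lt_of_lt_one (show 0 < R / 2 by linarith) t1
  obtain ⟨X, hX⟩ : ∃ X : Set ℚ, ∀ ξ, ξ ∈ X ↔ 2 ^ w0 < ξ.den ∧ |(ξ : ℝ)| ≤ (ξ.den : ℝ) ^ (-η) ∧
      ¬ GoodK U (fun t i => ℓ i (P t)) δ ((s : K) + ξ) := ⟨{ξ | _}, fun _ => Iff.rfl⟩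
  refine ((finite_rat (2 ^ w0)).union (t := X) ?_).subset fun ξ hξ => ?_
  swap
  · rcases le_or_gt ξ.den (2 ^ w0) with e | e
    · exact Or.inl ⟨e, hξ.1.trans ((Real.rpow_le_one_of_one_le_of_nonpos
        (by exact_mod_cast ξ.den_pos) (by linarith)).trans one_le_two)⟩
    · exact Or.inr ((hX ξ).2 ⟨e, hξ⟩)
  let w : ℚ → ℕ := fun x => Nat.clog 2 x.den
  have w1 : ∀ x : ℚ, x.den ≤ 2 ^ w x := fun x => Nat.le_pow_clog one_lt_two _
  have w2 : ∀ x ∈ X, w0 < w x := fun x hx =>
    (Nat.pow_lt_pow_iff_right one_lt_two).1 (((hX x).1 hx).1.trans_le (w1 x))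
  have w3 : ∀ x ∈ X, 2 ^ w x ≤ x.den ^ 2 := fun x hx => by
    have a1 : 1 < x.den := Nat.one_le_two_pow.trans_lt ((hX x).1 hx).1
    have a2 := Nat.pow_pred_clog_lt_self one_lt_two a1
    have a3 : w x = (Nat.clog 2 x.den).pred + 1 :=
      (Nat.succ_pred_eq_of_pos ((Nat.zero_le _).trans_lt (w2 x hx))).symm
    rw [a3, pow_succ, sq]
    exact Nat.mul_le_mul a2.le a1
  have w4 : ∀ x ∈ X, |(x : ℝ)| ≤ t ^ w x := fun x hx => by
    have a1 : (2 : ℝ) ^ w x ≤ x.den ^ 2 := by exact_mod_cast w3 x hx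
    have a2 := Real.rpow_le_rpow_of_nonpos (by positivity) a1 (show -η / 2 ≤ 0 by linarith)
    rw [← Real.rpow_pow_comm zero_le_two, ← ht, ← Real.rpow_natCast_mul x.den.cast_nonneg,
      Nat.cast_ofNat, mul_div_cancel₀ _ two_ne_zero] at a2
    exact ((hX x).1 hx).2.1.trans a2
  have w5 : ∀ x ∈ X, |(x : ℝ)| < R / 2 := fun x hx =>
    ((w4 x hx).trans (pow_le_pow_of_le_one t0 t1.le (w2 x hx).le)).trans_lt hw0
  have w6 : ∀ x ∈ X, (x : ℂ) ∈ ball (0 : ℂ) R := fun x hx => by
    rw [mem_ball_zero_iff, ← Complex.ofReal_ratCast, Complex.norm_real]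
    exact (w5 x hx).trans (by linarith)
  by_contra hi
  obtain ⟨x, x1, x2⟩ := Two.elim (ψ := fun z => vk δ (Y z)) H isOpen_ball rel Γ θ t0 t1 (w := w) (S := X)
    (fun x hx => ⟨w5 x hx, w6 x hx, w1 x, w3 x hx, w4 x hx⟩) hi
  refine ((hX x).1 x1).2.2 (goodK_of ho hc (fun i => ?_)
    (by rw [map_ratCast]; exact (hR _ (w6 x x1)).1) ?_ x2)
  · have : ∀ t, ℓ i (P t) = ∑ a, ∑ b, P t a b * ℓ i (single a b 1) := fun t => by
      conv_lhs => rw [matrix_eq_sum_single (P t)]
      simp only [map_sum, ← smul_eq_mul, ← map_smul, smul_single]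
      simp
    simp only [this]
    exact fun t ht => (DifferentiableAt.fun_sum fun a _ => DifferentiableAt.fun_sum fun b _ =>
      ((hP t ht).2 a b).1.mul_const _).differentiableWithinAt
  · filter_upwards [isOpen_ball.mem_nhds (w6 x x1)] with z hz μ
    have e : P (z + s) = Y z * F := hF ▸ (hR z hz).2
    simp only [hΓ, map_ratCast, e, mon, vk, tens, hlam, dotProduct, prod_univ_sum,
      Fintype.piFinset_univ, mul_sum, prod_mul_distrib, mul_assoc]

end

end Pool.Agent.Lib.MP_5591bc_ag.V
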