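import Pool.Agent.Lib.MP_5591bc_ag.SFib
import Pool.Agent.Lib.MP_5591bc_ag.V.Elim

/-! Among infinitely many relations at the points `1 / t` one holds on the whole fibre. -/

namespace Pool.Agent.Lib.MP_5591bc_ag.V

open Matrix Finset Filter Topology PowerSeries G R Function

noncomputable section

variable {A A' : Type*} [Fintype A] [DecidableEq A] [Fintype A'] {T : Polynomial ℚ}
  {B : Matrix A A (Polynomial ℚ)} {Ω : Set ℚ} {G : ℚ → Matrix A A ℚ⟦X⟧} {f : A → ℚ⟦X⟧}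
  {φ : ℚ → A → ℂ}

theorem evalc_fr (q : Polynomial ℂ) : (fun x : ℚ => q.eval (x : ℂ)) ∈ FR ℚ := by
  simp only [Polynomial.eval_eq_sum_range, ← Finset.sum_fn]
  refine sum_mem fun n _ => ?_
  have := mul_mem (FR.const (Ω := ℚ) (q.coeff n)) (FR.rat fun x : ℚ => x ^ n)
  simp only [Rat.cast_pow] at this
  exact this

theorem clog_pick {t : ℕ} (h : 3 ≤ t) : t ≤ 2 ^ Nat.clog 2 t ∧ 2 ^ Nat.clog 2 t ≤ t ^ 2 ∧
    (t : ℝ)⁻¹ ≤ (3 / 4) ^ Nat.clog 2 t := by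
  have h1 := Nat.pow_pred_clog_lt_self one_lt_two (show 1 < t by omega)
  have h2 : 2 ≤ Nat.clog 2 t := (Nat.lt_clog_iff_pow_lt one_lt_two).2 (by omega)
  refine ⟨Nat.le_pow_clog one_lt_two _, ?_⟩
  obtain ⟨n, hn⟩ : ∃ n, Nat.clog 2 t = n + 2 := ⟨Nat.clog 2 t - 2, by omega⟩
  rw [hn] at h1 ⊢
  replace h1 : 2 ^ (n + 1) < t := h1
  refine ⟨by rw [pow_succ]; nlinarith, ?_⟩
  have h3 : (2 : ℝ) ^ (n + 1) ≤ t := by exact_mod_cast h1.le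
  refine (inv_anti₀ (by positivity) h3).trans ?_
  have h4 : ((2 : ℝ) ^ n)⁻¹ ≤ (3 / 4) ^ n := by
    rw [← inv_pow]
    exact pow_le_pow_left₀ (by norm_num) (by norm_num) n
  have h5 : (0 : ℝ) ≤ (3 / 4) ^ n := by positivity
  rw [pow_succ, mul_inv, pow_add]
  linarith

theorem Two.pick (H : Two T B Ω G f φ) (κ : Matrix A' A (Polynomial ℂ)) {p : Polynomial ℚ}
    (p0 : p ≠ 0) {S : Set ℕ} (hi : S.Infinite) (c : ℕ → A' → ℚ)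
    (hS : ∀ t ∈ S, (t : ℚ)⁻¹ ∈ Ω ∧ φ (t : ℚ)⁻¹ ∈ Fib f ((t : ℚ)⁻¹ : ℚ) ∧ (fun μ => (c t μ : ℂ)) ⬝ᵥ
      (κ.map (Polynomial.eval (((t : ℚ)⁻¹ : ℚ) : ℂ)) *ᵥ φ (t : ℚ)⁻¹) = 0) :
    ∃ t ∈ S, p.eval (t : ℚ)⁻¹ ≠ 0 ∧ ∀ U ∈ Sat f, (fun μ => (c t μ : ℂ)) ⬝ᵥ
      (κ.map (Polynomial.eval (((t : ℚ)⁻¹ : ℚ) : ℂ)) *ᵥ fun α => ((U α).eval (t : ℚ)⁻¹ : ℚ)) = 0 := by
  obtain ⟨p', p0', hp⟩ := lift (A' := Unit) (E := Unit) f 0 0
  obtain ⟨m, θ, k, hk⟩ := FR.pi (g := fun α (x : ℚ) =>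
    ∑ μ, (c x.den μ : ℂ) * (κ μ α).eval (x : ℂ)) fun α => by
      simp only [← Finset.sum_fn]
      exact sum_mem fun μ _ => mul_mem (FR.rat _) (evalc_fr _)
  have hκ : ∀ (x : ℚ) (y : A → ℂ), (fun μ => ∑ α, k x μ α * y α) ⬝ᵥ θ =
      (fun μ => (c x.den μ : ℂ)) ⬝ᵥ (κ.map (Polynomial.eval (x : ℂ)) *ᵥ y) := fun x y => by
    rw [dotProduct_mulVec]
    simp only [vecMul, dotProduct, map_apply, hk x, sum_mul]
    rw [sum_comm]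
    exact sum_congr rfl fun _ _ => sum_congr rfl fun _ _ => by ring
  have hd : ∀ t : ℕ, 3 ≤ t → ((t : ℚ)⁻¹).den = t := fun t h =>
    Rat.inv_natCast_den_of_pos (by omega)
  obtain ⟨x, ⟨t, ⟨t1, t2⟩, rfl⟩, x2, x3⟩ := H.elim0 (mul_ne_zero p0 p0') k θ (s := 3 / 4)
    (by norm_num) (by norm_num) (S := (fun t : ℕ => (t : ℚ)⁻¹) '' (S \ Set.Iio 3))
    (w := fun x => Nat.clog 2 x.den)
    (by
      rintro _ ⟨t, ⟨t1, t2⟩, rfl⟩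
      replace t2 : 3 ≤ t := not_lt.1 t2
      obtain ⟨a1, -, a3⟩ := hS t t1
      obtain ⟨b1, b2, b3⟩ := clog_pick t2
      refine ⟨a1, (hκ _ _).trans ?_, ?_⟩
      · rw [hd t t2]; exact a3
      · simp only [hd t t2]
        exact ⟨b1, b2, by simpa using b3⟩)
    (by
      rintro _ ⟨t, ⟨t1, -⟩, rfl⟩ h b hb
      rw [Polynomial.eval_mul] at h
      exact (hp _ (right_ne_zero_of_mul h)).1 b hb _ (hS t t1).2.1)
    ((hi.sdiff (Set.finite_Iio 3)).image fun a _ b _ h => by simpa using h)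
  rw [Polynomial.eval_mul] at x2
  refine ⟨t, t1, left_ne_zero_of_mul x2, fun U hU => ?_⟩
  have := (hκ _ _).symm.trans (x3 U hU)
  rwa [hd t (not_lt.1 t2)] at this

end

end Pool.Agent.Lib.MP_5591bc_ag.V
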