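import Pool.Agent.Lib.MP_5591bc_ag.V.Fam

/-! The residues of the sheared system at infinity at its finite poles. -/

namespace Pool.Agent.Lib.MP_5591bc_ag.V

open Matrix Finset Filter Topology G R Function Polynomial

noncomputable section

variable {f : ℚ[X]} {n : ℕ}

theorem res_gauge {ν : Type*} [Fintype ν] [DecidableEq ν] {T : ℚ[X]} {B g B' : Matrix ν ν ℚ[X]}
    (hg : Gauge T B g B') {a : ℂ} (ha : aeval a T = 0) (hd : (g.map (aeval a)).det ≠ 0)
    (h : IsNilpotent (B.map (aeval a))) : IsNilpotent (B'.map (aeval a)) := by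
  have e : SemiconjBy (g.map (aeval a)) (B.map (aeval a)) (B'.map (aeval a)) := by
    have := congrArg (·.map (aeval (R := ℚ) a).toRingHom) hg
    simp only [Matrix.map_mul, Matrix.map_add _ (map_add _)] at this
    refine Eq.trans ?_ this
    rw [show (T • (X : ℚ[X]) • g.map derivative).map (aeval (R := ℚ) a).toRingHom = 0 by
      ext; simp [ha], zero_add]
    rfl
  obtain ⟨N, hN⟩ := h
  have := (e.pow_right N).eq
  rw [hN, Matrix.mul_zero] at this
  exact ⟨N, by
    rw [← mul_nonsing_inv_cancel_right _ (_ ^ N) hd.isUnit, ← this, Matrix.zero_mul]⟩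

theorem res_simple {p : ℚ[X]} {N : ℕ} (h : p.natDegree ≤ N) {a : ℂ} (a0 : a ≠ 0)
    (ha : aeval a (reflect N p) = 0) (hp : aeval a⁻¹ p.derivative ≠ 0) :
    aeval a (reflect N p).derivative ≠ 0 := fun e => by
  have e0 := inv_ne_zero a0
  have h1 : HasDerivAt (fun t : ℂ => aeval t (reflect N p)) 0 a⁻¹⁻¹ := by
    rw [inv_inv, ← e]
    exact (reflect N p).hasDerivAt_aeval a
  have h2 := (h1.comp a⁻¹ (hasDerivAt_inv e0)).fun_mul (hasDerivAt_pow N a⁻¹)
  refine hp ((p.hasDerivAt_aeval a⁻¹).unique ((h2.congr_of_eventuallyEq ?_).congr_deriv ?_))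
  · filter_upwards [eventually_ne_nhds e0] with t ht
    exact (aeval_reflect h (inv_mul_cancel₀ ht)).symm
  · simp [ha]

theorem res_inf (hf : f.natDegree = n) (hq : Squarefree f) {g g' B : Matrix (Fin n) (Fin n) ℚ[X]}
    {k : ℕ} (g1 : g' * g = (X ^ k : ℚ[X]) • 1) (g2 : Gauge (reflect n (2 * f)) (iB f n) g B) (a : ℂ)
    (ha : aeval a (reflect n (2 * f)) = 0) :
    aeval a (reflect n (2 * f)).derivative ≠ 0 ∧ IsNilpotent (B.map (aeval a)) := by
  have f3 : (2 * f).natDegree ≤ n := (natDegree_C_mul_le 2 f).trans hf.le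
  have f1 : f.coeff n ≠ 0 := hf ▸ leadingCoeff_ne_zero.2 hq.ne_zero
  have a0 : a ≠ 0 := fun e => f1 (by
    rw [e, ← coeff_zero_eq_aeval_zero'] at ha
    simpa [coeff_reflect] using ha)
  have h1 : aeval a⁻¹ f = 0 := by
    have := aeval_reflect f3 (mul_inv_cancel₀ a0)
    rw [ha, zero_mul] at this
    simpa [map_ofNat] using this.symm
  have h2 := (PerfectField.separable_iff_squarefree.2 hq).aeval_derivative_ne_zero h1
  refine ⟨res_simple f3 a0 ha (by simpa [map_ofNat] using h2),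
    res_gauge g2 ha (det_gauge g1 a0) ?_⟩
  have e : (iB f n).map (aeval a) = (-a ^ (n - 1)) • (oB f n).map (aeval a⁻¹) := by
    ext i j
    simp only [iB, Matrix.sub_apply, Matrix.neg_apply, Matrix.smul_apply, map_apply, map_sub,
      map_neg, smul_eq_mul, ← aeval_reflect (oB_deg i j).1 (mul_inv_cancel₀ a0), map_mul, map_smul,
      ha, smul_zero, zero_mul, neg_zero, zero_sub, inv_pow]
    field_simp
  exact e ▸ (nil_oB hf.le h1).smul _

end

end Pool.Agent.Lib.MP_5591bc_ag.V
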