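import Pool.Agent.Lib.MP_5591bc_ag.V.UniB

/-! Integral elements of the field of a system with unipotent local monodromy are polynomials. -/

namespace Pool.Agent.Lib.MP_5591bc_ag.V

open Filter Topology Metric Set Polynomial Matrix G

noncomputable section

variable {ι κ : Type*} [Fintype ι] [DecidableEq ι]

omit [DecidableEq ι] in
theorem uniC_bdd [Fintype κ] {K : Set ℂ} (hK : IsCompact K) {O : Set ℂ} (h : K ⊆ O)
    {A : ℂ → Matrix ι κ ℂ} (hA : Hol O A) : ∃ c, 0 ≤ c ∧ ∀ t ∈ K, ∀ i j, ‖A t i j‖ ≤ c := by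
  obtain ⟨c, hc⟩ := hK.exists_bound_of_continuousOn (f := fun t => (fun i j => A t i j : ι → κ → ℂ))
    (continuousOn_pi.2 fun i => continuousOn_pi.2 fun j => (hA i j).continuousOn.mono h)
  exact ⟨max c 0, le_max_right _ _, fun t ht i j => ((norm_le_pi_norm _ j).trans
    ((norm_le_pi_norm _ i).trans (hc t ht))).trans (le_max_left _ _)⟩

/-- a segment from `x` into an open set that misses a finite set -/
theorem uniC_seg {S O : Set ℂ} (hS : S.Finite) (hO : IsOpen O) {x p : ℂ} (hx : x ∉ S) (hp : p ∈ O)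
    (px : p ≠ x) : ∃ q ∈ O, segment ℝ x q ⊆ Sᶜ := by
  have c : ContinuousAt (fun τ : ℝ => x + (p - x) * (1 + τ * Complex.I)) 0 := by fun_prop
  obtain ⟨τ, h1, h2⟩ := (infinite_of_mem_nhds (0 : ℝ) (c.preimage_mem_nhds (hO.mem_nhds
    (by simpa using hp)))).exists_notMem_finite
      (hS.image fun a => ((a - x) / (p - x)).im / ((a - x) / (p - x)).re)
  refine ⟨_, h1, fun a ha haS => h2 ⟨a, haS, ?_⟩⟩
  rw [segment_eq_image'] at ha
  obtain ⟨s, -, rfl⟩ := ha
  have s0 : s ≠ 0 := by rintro rfl; exact hx (by simpa using haS)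
  have e : (x + s • (x + (p - x) * (1 + τ * Complex.I) - x) - x) / (p - x) =
      s * (1 + τ * Complex.I) := by
    have := sub_ne_zero.2 px
    rw [Complex.real_smul]; field_simp; ring
  simp only [e]
  simp [s0]

theorem uniC_ne {f : ℂ → ℂ} {p : ℂ} (hf : AnalyticAt ℂ f p) (h : ¬ ∀ᶠ t in 𝓝 p, f t = 0)
    {g z : ℂ → ℂ} (e : ∀ᶠ t in 𝓝 p, g t * f t = z t * f t) : ∃ᶠ t in 𝓝[≠] p, g t = z t :=
  (((hf.eventually_eq_zero_or_eventually_ne_zero.resolve_left h).and
    (nhdsWithin_le_nhds e)).mono fun _ k => mul_right_cancel₀ k.1 k.2).frequently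

theorem uniC_main [Fintype κ] {𝒜 : ℂ → Matrix ι ι ℂ} {S : Set ℂ} (hS : S.Finite) (h1 : Hol Sᶜ 𝒜)
    (h2 : ∀ b ∈ S, ∃ r > 0, ∃ A : ℂ → Matrix ι ι ℂ, Hol (ball b r) A ∧ IsNilpotent (A b) ∧
      ∀ t ∈ ball b r, t ≠ b → 𝒜 t = (t - b)⁻¹ • A t) {x : ℂ} (hx : x ∉ S) {Y : ℂ → Matrix ι κ ℂ}
    (hY : ∀ᶠ t in 𝓝 x, MSol 𝒜 Y t) (u v : MvPolynomial (ι × κ) ℂ[X]) {d : ℕ} (d0 : 0 < d)
    (a : ℕ → ℂ[X]) (hv : ¬ ∀ᶠ t in 𝓝 x, uniEv v t (Y t) = 0)
    (hH : ∀ᶠ t in 𝓝 x, uniHom d (fun i => (a i).eval t) (uniEv u t (Y t)) (uniEv v t (Y t)) = 0) :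
    ∃ q : ℂ[X], ∀ᶠ t in 𝓝 x, q.eval t * uniEv v t (Y t) = uniEv u t (Y t) := by
  have oS : IsOpen Sᶜ := hS.isClosed.isOpen_compl
  have h3 : ∀ b, ∃ r > 0, ∃ A : ℂ → Matrix ι ι ℂ, Hol (ball b r) A ∧ IsNilpotent (A b) ∧
      ∀ t ∈ ball b r, t ≠ b → 𝒜 t = (t - b)⁻¹ • A t := fun b => by
    by_cases hb : b ∈ S
    · exact h2 b hb
    · obtain ⟨r, r0, hr⟩ := Metric.isOpen_iff.1 oS b hb
      exact ⟨r, r0, fun t => (t - b) • 𝒜 t, fun i j =>
        DifferentiableOn.fun_mul (by fun_prop) ((h1 i j).mono hr), by simp,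
        fun t _ k => (inv_smul_smul₀ (sub_ne_zero.2 k) _).symm⟩
  have da : ∀ (O : Set ℂ) i, DifferentiableOn ℂ (fun t => (a i).eval t) O := fun O i =>
    (a i).differentiable.differentiableOn
  have cβ : Continuous fun t : ℂ => 1 + ∑ i ∈ Finset.range d, ‖(a i).eval t‖ := by fun_prop
  obtain ⟨ε, ε0, hε⟩ := Metric.eventually_nhds_iff_ball.1 (hY.and hH)
  have dY := fun u => uniB_hol u differentiableOn_id (hol_of_msol fun t ht => (hε t ht).1)
  have bx := ball_mem_nhds x ε0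
  obtain ⟨z0, k1, k2, -⟩ := uniA_quot isOpen_ball (convex_ball x ε).isPreconnected (dY u) (dY v)
    (mem_ball_self ε0) hv cβ.continuousOn fun t ht => uniA_root d0 (hε t ht).2
  obtain ⟨Z, Z1, Z2⟩ := uniA_ent (k1.analyticAt bx) fun ρ ρ0 z hz e b hb => by
    obtain ⟨r, r0, A, A1, A2, A3⟩ := h3 b
    have r1 := half_pos r0
    have sb : ball b (r / 2) ⊆ ball b r := ball_subset_ball (by linarith)
    obtain ⟨c, c0, hc⟩ := uniC_bdd (isCompact_closedBall b (r / 2))
      (closedBall_subset_ball (half_lt_self r0)) A1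
    obtain ⟨p0, p1, p2⟩ := mem_closure_iff.1 (show b ∈ closure (ball x ρ) by
      rw [closure_ball x ρ0.ne']; exact sphere_subset_closedBall hb) (ball b (r / 2) ∩ {x}ᶜ)
      (isOpen_ball.inter isOpen_compl_singleton) ⟨mem_ball_self r1, ne_of_mem_sphere hb ρ0.ne'⟩
    obtain ⟨p, hp, sg⟩ := uniC_seg hS (isOpen_ball.inter isOpen_ball) hx
      (show p0 ∈ ball b (r / 2) ∩ ball x ρ from ⟨p1.1, p2⟩) p1.2
    have cK : IsCompact (segment ℝ x p) := by
      rw [segment_eq_image']; exact isCompact_Icc.image (by fun_prop)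
    obtain ⟨δ, δ0, hδ⟩ := cK.exists_cthickening_subset_open (oS.inter isOpen_ball)
      (subset_inter sg ((convex_ball x ρ).segment_subset (mem_ball_self ρ0) hp.2))
    obtain ⟨c', c1, hc'⟩ := uniC_bdd cK.cthickening (hδ.trans inter_subset_left) h1
    have sW := (thickening_subset_cthickening δ (segment ℝ x p)).trans hδ
    have cW := (convex_segment (𝕜 := ℝ) x p).thickening δ
    have xW := self_subset_thickening δ0 _ (left_mem_segment ℝ x p)
    have pW := self_subset_thickening δ0 _ (right_mem_segment ℝ x p)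
    have oW : IsOpen (thickening δ (segment ℝ x p)) := isOpen_thickening
    obtain ⟨Φ, Φ0, hΦ⟩ := exists_msol cW oW xW (h1.mono (sW.trans inter_subset_left))
      (fun t ht => hc' t (thickening_subset_cthickening _ _ ht)) c1
    have s1 : ∀ t ∈ thickening δ (segment ℝ x p), MSol 𝒜 (fun t => Φ t * Y x) t := fun t ht =>
      (hΦ t ht).1.mul_const _
    have e1 : (fun t => Φ t * Y x) =ᶠ[𝓝 x] Y := muniq_loc
      (fun i j => (h1 i j).analyticAt (oS.mem_nhds hx)) (mem_of_superset (oW.mem_nhds xW) s1) hY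
      (by simp [Φ0])
    have dW := fun u => uniB_hol u differentiableOn_id (hol_of_msol s1)
    have nW := oW.mem_nhds pW
    have v1 : ¬ ∀ᶠ t in 𝓝 p, uniEv v t (Φ t * Y x) = 0 := fun k => hv (by
      filter_upwards [e1, oW.mem_nhds xW] with t t1 t2
      rw [← t1]
      exact ident oW cW.isPreconnected (dW v) (differentiableOn_const 0) pW k t2)
    have pb : p ≠ b := fun k => by
      have := hp.2
      rw [k, mem_ball, mem_sphere.1 hb] at this
      exact this.false
    obtain ⟨g, g1, g2⟩ := uniB_loc r1 (A1.mono sb) c0 (fun s hs => hc s (ball_subset_closedBall hs))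
      A2 u v d0 a hp.1 pb (Y := fun t => Φ t * Y x) (by
        filter_upwards [nW, isOpen_ball.mem_nhds hp.1, eventually_ne_nhds pb] with t t1 t2 t3 i j
        simpa only [A3 t (sb t2) t3] using s1 t t1 i j) v1
      (mem_of_superset nW (ident oW cW.isPreconnected (uniHom_hol d (da _) (dW u) (dW v))
        (differentiableOn_const 0) xW (by
          filter_upwards [e1, hH] with t t1 t2
          simpa only [id, t1] using t2)))
    have z1 := ident oW cW.isPreconnected ((hz.mono (sW.trans inter_subset_right)).fun_mul (dW v))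
      (dW u) xW (by
        filter_upwards [e1, e, bx] with t t1 t2 t3
        simpa only [id, t1, t2] using k2 t t3)
    have o2 : IsOpen (ball b (r / 2) ∩ ball x ρ) := isOpen_ball.inter isOpen_ball
    refine ⟨r / 2, r1, g, g1, ((g1.mono inter_subset_left).analyticOnNhd
      o2).eqOn_of_preconnected_of_frequently_eq ((hz.mono inter_subset_right).analyticOnNhd o2)
      ((convex_ball _ _).inter (convex_ball _ _)).isPreconnected hp
      (uniC_ne ((dW v).analyticAt nW) v1 ?_)⟩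
    filter_upwards [g2, nW] with t t1 t2
    exact t1.trans (z1 t2).symm
  have Z3 : ∀ᶠ t in 𝓝 x, Z t * uniEv v t (Y t) = uniEv u t (Y t) := by
    filter_upwards [Z2, bx] with t t1 t2
    rw [t1]; exact k2 t t2
  have Z4 := ((uniHom_hol d (da univ) Z1.differentiableOn (differentiableOn_const 1)).analyticOnNhd
    isOpen_univ).eqOn_of_preconnected_of_frequently_eq (analyticOnNhd_const (v := 0))
    isPreconnected_univ (mem_univ x) (uniC_ne (((dY v).fun_pow d).analyticAt bx)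
      (fun k => hv (k.mono fun t ht => pow_eq_zero_iff d0.ne' |>.1 ht)) (by
        filter_upwards [Z3, hH] with t t1 t2
        rw [← t1, uniHom_mul] at t2
        rw [zero_mul, ← mul_one (Z t), uniHom_mul, one_pow, one_mul, mul_comm]
        exact t2))
  obtain ⟨q, hq⟩ := uniA_poly Z1 (d := d) (a := a) fun t => by
    simpa using uniA_root d0 (Z4 (mem_univ t))
  exact ⟨q, Z3.mono fun t ht => by rw [← hq, ht]⟩

omit [Fintype ι] [DecidableEq ι] in
theorem uniC_hol {T : ℂ[X]} (B : Matrix ι ι ℂ[X]) {O : Set ℂ} (h : ∀ t ∈ O, T.eval t ≠ 0) :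
    Hol O fun t => (T.eval t)⁻¹ • B.map (eval t) := fun i j =>
  (T.differentiable.differentiableOn.fun_inv h).fun_mul (B i j).differentiable.differentiableOn

end

end Pool.Agent.Lib.MP_5591bc_ag.V
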