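import Pool.Agent.Lib.MP_5591bc_ag.V.Rep
import Pool.Agent.Lib.MP_5591bc_ag.V.UniC

/-! Unipotent local monodromy gives a connected Galois group. -/

namespace Pool.Agent.Lib.MP_5591bc_ag.V

open Matrix Finset Filter Topology PowerSeries G R Function

noncomputable section

variable {ν : Type*} [Fintype ν] [DecidableEq ν]

omit [DecidableEq ν] in
/-- uniqueness of formal solutions at an ordinary point -/
theorem uni_uniq {κ : Type*} {t : ℂ⟦X⟧} (ht : IsUnit t) {B : Matrix ν ν ℂ⟦X⟧}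
    {G H : Matrix ν κ ℂ⟦X⟧} (hG : t • G.map (d⁄dX ℂ) = B * G) (hH : t • H.map (d⁄dX ℂ) = B * H)
    (h0 : ∀ i j, constantCoeff (G i j) = constantCoeff (H i j)) : G = H := by
  have key : ∀ k i j, X ^ k ∣ G i j - H i j := fun k => by
    induction k with
    | zero => simp
    | succ k ih =>
      intro i j
      have h1 : t * d⁄dX ℂ (G i j - H i j) = ∑ l, B i l * (G l j - H l j) := by
        have a := congrFun₂ hG i j
        have b := congrFun₂ hH i j
        simp only [Matrix.smul_apply, map_apply, smul_eq_mul, mul_apply] at a b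
        simp only [map_sub, mul_sub, a, b, sum_sub_distrib]
      have h2 : X ^ k ∣ t * d⁄dX ℂ (G i j - H i j) :=
        h1 ▸ dvd_sum fun l _ => (ih l j).mul_left _
      rw [ht.dvd_mul_left, X_pow_dvd_iff] at h2
      rw [X_pow_dvd_iff]
      intro m hm
      rcases m with _ | m
      · simp [h0]
      · have := h2 m (by omega)
        rw [coeff_derivative] at this
        exact (mul_eq_zero.1 this).resolve_right (by exact_mod_cast m.succ_ne_zero)
  ext i j m
  simpa [sub_eq_zero] using X_pow_dvd_iff.1 (key (m + 1) i j) m (by omega)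

/-- a formal solution at an ordinary point is the expansion of a holomorphic solution -/
theorem uni_ana {T : Polynomial ℂ} {B : Matrix ν ν (Polynomial ℂ)} {x : ℂ} (hT : T.eval x ≠ 0)
    {G : Matrix ν ν ℂ⟦X⟧} (ode : τc x T • G.map (d⁄dX ℂ) = B.map (τc x) * G) :
    ∃ Y : ℂ → Matrix ν ν ℂ,
      (∀ᶠ t in 𝓝 x, MSol (fun t => (T.eval t)⁻¹ • B.map (Polynomial.eval t)) Y t) ∧
      ∀ q, AnalyticAt ℂ (fun t => uniEv q t (Y t)) x ∧
        tay (fun t => uniEv q t (Y t)) x = evG x G q := by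
  obtain ⟨r, r0, hr⟩ := Metric.eventually_nhds_iff_ball.1
    ((T.continuous.continuousAt (x := x)).eventually_ne hT)
  have r1 := half_pos r0
  obtain ⟨c, c0, hc⟩ := uniC_bdd (isCompact_closedBall x (r / 2))
    (Metric.closedBall_subset_ball (half_lt_self r0)) (uniC_hol B hr)
  obtain ⟨Φ, Φ0, hΦ⟩ := exists_msol (convex_ball x (r / 2)) Metric.isOpen_ball
    (Metric.mem_ball_self r1) ((uniC_hol B hr).mono (Metric.ball_subset_ball (half_le_self r0.le)))
    (fun t ht => hc t (Metric.ball_subset_closedBall ht)) c0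
  obtain ⟨Y, Y0, hY⟩ : ∃ Y : ℂ → Matrix ν ν ℂ, Y x = G.map constantCoeff ∧
      ∀ᶠ t in 𝓝 x, MSol (fun t => (T.eval t)⁻¹ • B.map (Polynomial.eval t)) Y t :=
    ⟨fun t => Φ t * G.map constantCoeff, by simp [Φ0],
      mem_of_superset (Metric.ball_mem_nhds x r1) fun t ht => (hΦ t ht).1.mul_const _⟩
  have an : ∀ i j, AnalyticAt ℂ (Y · i j) x := fun i j =>
    analyticAt_of_eventually (hY.mono fun t h => (h i j).differentiableAt)
  have ap : ∀ p : Polynomial ℂ, AnalyticAt ℂ (fun t => p.eval t) x := fun p =>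
    p.differentiable.analyticAt x
  have e : G = of fun i j => tay (Y · i j) x := by
    refine uni_uniq (isUnit_iff_constantCoeff.2 (by simpa [τc_const] using hT)) ode ?_
      fun i j => by simp [Y0]
    ext1 i j
    simp only [Matrix.smul_apply, map_apply, of_apply, smul_eq_mul, mul_apply, ← tay_eval,
      ← tay_deriv, ← tay_mul (ap _) (an _ _), ← tay_mul (ap _) (an _ _).deriv]
    rw [← tay_sum _ fun k _ => (ap _).fun_mul (an _ _)]
    refine tay_congr ?_
    filter_upwards [hY, Metric.ball_mem_nhds x r0] with t t1 t2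
    rw [(t1 i j).deriv, Matrix.smul_mul, Matrix.smul_apply, smul_eq_mul,
      mul_inv_cancel_left₀ (hr t t2)]
    rfl
  refine ⟨Y, hY, fun q => ?_⟩
  induction q using MvPolynomial.induction_on with
  | C a => simpa [uniEv, evG] using And.intro (ap a) (tay_eval x a)
  | add p q hp hq =>
    simp only [uniEv, MvPolynomial.eval₂_add, map_add] at hp hq ⊢
    exact ⟨hp.1.fun_add hq.1, by rw [tay_add hp.1 hq.1, hp.2, hq.2]⟩
  | mul_X p a hp =>
    simp only [uniEv, MvPolynomial.eval₂_mul, MvPolynomial.eval₂_X, map_mul] at hp ⊢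
    exact ⟨hp.1.fun_mul (an _ _), by rw [tay_mul hp.1 (an _ _), hp.2]; simp [evG, e]⟩

theorem uni_map {R S : Type*} [CommRing R] [CommRing S] (φ : R →+* S) (d : ℕ) (a : ℕ → R)
    (u v : R) : φ (uniHom d a u v) = uniHom d (fun i => φ (a i)) (φ u) (φ v) := by
  simp [uniHom]

/-- reduction to a monic equation -/
theorem uni_monic {R S : Type*} [CommRing R] [CommRing S] [IsDomain S] {φ : R →+* S}
    (hφ : Injective φ) {u v : S} (hv : v ≠ 0) : ∀ (n : ℕ) {p : ℕ → R}, (∃ j ≤ n, p j ≠ 0) →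
    ∑ j ∈ range (n + 1), φ (p j) * u ^ j * v ^ (n - j) = 0 → ∃ (d : ℕ) (a : ℕ → R) (b : R), 0 < d ∧
      b ≠ 0 ∧ uniHom d (fun i => φ (a i)) (φ b * u) v = 0
  | 0, p, ⟨j, hj, h⟩, e => by
    obtain rfl := Nat.le_zero.1 hj
    exact absurd (hφ (by simpa using e)) h
  | n + 1, p, ⟨j, hj, h⟩, e => by
    rw [sum_range_succ] at e
    by_cases k : p (n + 1) = 0
    · refine uni_monic hφ hv n ⟨j, Nat.le_of_lt_succ (hj.lt_of_ne fun c => h (c ▸ k)), h⟩
        (mul_right_cancel₀ hv ?_)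
      rw [k, map_zero, zero_mul, zero_mul, add_zero] at e
      rw [zero_mul, ← e, sum_mul]
      refine sum_congr rfl fun i hi => ?_
      rw [Nat.sub_add_comm (Nat.lt_succ_iff.1 (mem_range.1 hi)), pow_succ, mul_assoc]
    · refine ⟨n + 1, fun i => p i * p (n + 1) ^ (n - i), p (n + 1), n.succ_pos, k, ?_⟩
      rw [← mul_zero (φ (p (n + 1)) ^ n), ← e, mul_add, mul_sum, uniHom, add_comm]
      congr 1
      · refine sum_congr rfl fun i hi => ?_
        obtain ⟨l, rfl⟩ := Nat.exists_eq_add_of_le (Nat.lt_succ_iff.1 (mem_range.1 hi))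
        simp only [Nat.add_sub_cancel_left, map_mul, map_pow]; ring
      · rw [Nat.sub_self]; ring

/-- the general form: the system has a simple pole with nilpotent residue at each root of `T` -/
theorem uni_gen {T : Polynomial ℂ} {B : Matrix ν ν (Polynomial ℂ)}
    (h : ∀ b, T.eval b = 0 → ∃ r > 0, ∃ A : ℂ → Matrix ν ν ℂ, Hol (Metric.ball b r) A ∧
      IsNilpotent (A b) ∧ ∀ t ∈ Metric.ball b r, t ≠ b →
        (T.eval t)⁻¹ • B.map (Polynomial.eval t) = (t - b)⁻¹ • A t) {x : ℂ}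
    (hT : T.eval x ≠ 0) {G : Matrix ν ν ℂ⟦X⟧}
    (ode : τc x T • G.map (d⁄dX ℂ) = B.map (τc x) * G) : ConnS x (Set.range (evG x G)) := by
  rintro _ ⟨u, rfl⟩ _ ⟨v, rfl⟩ n p hv hp e
  obtain ⟨d, a, b, d0, b0, k⟩ := uni_monic (τc_inj x) hv n hp e
  obtain ⟨Y, hY, hq⟩ := uni_ana hT ode
  have T0 : T ≠ 0 := by rintro rfl; simp at hT
  have z : ∀ q, (∀ᶠ t in 𝓝 x, uniEv q t (Y t) = 0) ↔ evG x G q = 0 := fun q =>
    ⟨fun k => by rw [← (hq q).2, tay_congr (h := fun _ => 0) k, tay_const, map_zero],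
      fun k => eventually_zero_of_tay (hq q).1 ((hq q).2.trans k)⟩
  have eC : ∀ c, evG x G (MvPolynomial.C c) = τc x c := fun c => by simp [evG]
  obtain ⟨q, k1⟩ := uniC_main (S := {t | T.IsRoot t}) (T.finite_setOfPred_isRoot T0)
    (uniC_hol B fun t ht => ht) h hT hY (MvPolynomial.C b * u) v d0 a (mt (z v).1 hv) (by
      refine ((z (uniHom d (fun i => MvPolynomial.C (a i)) (MvPolynomial.C b * u) v)).2
        (by simpa only [uni_map, map_mul, eC] using k)).mono fun t ht => ?_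
      simpa only [uniEv, ← MvPolynomial.coe_eval₂Hom, uni_map, MvPolynomial.eval₂Hom_C,
        Polynomial.coe_evalRingHom] using ht)
  have k2 := (z (MvPolynomial.C b * u - MvPolynomial.C q * v)).1 (k1.mono fun t ht => by
    simp only [uniEv, MvPolynomial.eval₂_sub, MvPolynomial.eval₂_mul, MvPolynomial.eval₂_C,
      Polynomial.coe_evalRingHom] at ht ⊢
    rw [ht, sub_self])
  rw [map_sub, map_mul, map_mul, eC, eC, sub_eq_zero] at k2
  exact ⟨q, b, b0, k2⟩

theorem uni {T : Polynomial ℂ} {B : Matrix ν ν (Polynomial ℂ)} (h : ∀ a, T.eval a = 0 →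
      T.derivative.eval a ≠ 0 ∧ IsNilpotent (B.map (Polynomial.eval a))) {x : ℂ}
    (hT : T.eval x ≠ 0) {G : Matrix ν ν ℂ⟦X⟧}
    (ode : τc x T • G.map (d⁄dX ℂ) = B.map (τc x) * G) : ConnS x (Set.range (evG x G)) := by
  refine uni_gen (fun b hb => ?_) hT ode
  obtain ⟨T1, rfl⟩ := Polynomial.dvd_iff_isRoot.2 hb
  obtain ⟨k1, k2⟩ := h b hb
  obtain ⟨r, r0, hr⟩ := Metric.eventually_nhds_iff_ball.1
    ((T1.continuous.continuousAt (x := b)).eventually_ne (y := 0) (by simpa using k1))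
  exact ⟨r, r0, _, uniC_hol B hr, k2.smul _, fun t _ _ => by simp [smul_smul, mul_comm]⟩

end

end Pool.Agent.Lib.MP_5591bc_ag.V
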