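import Pool.Agent.Lib.MP_5591bc_ag.GOde

/-! Removable singularities, periodic functions, continuation over a circle, polynomial growth. -/

namespace Pool.Agent.Lib.MP_5591bc_ag.V

open Filter Topology Metric Set Polynomial G

noncomputable section

/-- A locally bounded quotient of holomorphic functions is holomorphic. -/
theorem uniA_quot {S : Set ℂ} (ho : IsOpen S) (hS : IsPreconnected S) {u v : ℂ → ℂ} {β : ℂ → ℝ}
    (hu : DifferentiableOn ℂ u S) (hv : DifferentiableOn ℂ v S) {p : ℂ} (hp : p ∈ S)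
    (h0 : ¬ ∀ᶠ t in 𝓝 p, v t = 0) (hβ : ContinuousOn β S) (hb : ∀ t ∈ S, ‖u t‖ ≤ β t * ‖v t‖) :
    ∃ z : ℂ → ℂ, DifferentiableOn ℂ z S ∧ (∀ t ∈ S, z t * v t = u t) ∧ ∀ t ∈ S, ‖z t‖ ≤ β t := by
  have nz : ∀ q ∈ S, ∀ᶠ t in 𝓝[≠] q, v t ≠ 0 := fun q hq =>
    (hv.analyticAt (ho.mem_nhds hq)).eventually_eq_zero_or_eventually_ne_zero.resolve_left fun h =>
      h0 (mem_of_superset (ho.mem_nhds hp)
        (ident ho hS hv (differentiableOn_const (0 : ℂ)) hq h))
  have bd : ∀ t ∈ S, v t ≠ 0 → ‖u t / v t‖ ≤ β t := fun t ht h => by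
    rw [norm_div, div_le_iff₀ (norm_pos_iff.2 h)]; exact hb t ht
  let z : ℂ → ℂ := fun q => limUnder (𝓝[≠] q) fun t => u t / v t
  have e1 : ∀ q ∈ S, v q ≠ 0 → z q = u q / v q := fun q hq h =>
    ((((hu.differentiableAt (ho.mem_nhds hq)).continuousAt.div
      (hv.differentiableAt (ho.mem_nhds hq)).continuousAt h).tendsto).mono_left
        nhdsWithin_le_nhds).limUnder_eq
  have dz : ∀ q ∈ S, DifferentiableAt ℂ z q := fun q hq => by
    have cb := hβ.continuousAt (ho.mem_nhds hq)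
    have h1 : {t | t ∈ S ∧ β t < β q + 1 ∧ (t ≠ q → v t ≠ 0)} ∈ 𝓝 q :=
      (show ∀ᶠ t in 𝓝 q, t ∈ S from ho.mem_nhds hq).and
        ((cb.eventually_lt continuousAt_const (lt_add_one _)).and
          (eventually_nhdsWithin_iff.1 (nz q hq)))
    have h2 := Complex.differentiableOn_update_limUnder_of_bddAbove (f := fun t => u t / v t) h1
      ((hu.mono fun t ht => ht.1.1).div (hv.mono fun t ht => ht.1.1) fun t ht => ht.1.2.2 ht.2)
      ⟨β q + 1, by
        rintro _ ⟨t, ht, rfl⟩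
        exact (bd t ht.1.1 (ht.1.2.2 ht.2)).trans ht.1.2.1.le⟩
    refine (h2.differentiableAt h1).congr_of_eventuallyEq (mem_of_superset h1 fun t ht => ?_)
    by_cases e : t = q
    · subst e; simp [z]
    · simpa [e] using e1 t ht.1 (ht.2.2 e)
  refine ⟨z, fun q hq => (dz q hq).differentiableWithinAt, fun q hq => ?_, fun q hq => ?_⟩
  · by_cases h : v q = 0
    · have := hb q hq
      rw [h, norm_zero, mul_zero, norm_le_zero_iff] at this
      rw [h, this, mul_zero]
    · rw [e1 q hq h, div_mul_cancel₀ _ h]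
  · refine le_of_tendsto_of_tendsto (b := 𝓝[≠] q)
      ((dz q hq).continuousAt.norm.tendsto.mono_left nhdsWithin_le_nhds)
      ((hβ.continuousAt (ho.mem_nhds hq)).tendsto.mono_left nhdsWithin_le_nhds) ?_
    filter_upwards [nz q hq, nhdsWithin_le_nhds (ho.mem_nhds hq)] with t h1 h2
    rw [e1 t h2 h1]; exact bd t h2 h1

/-- the left half plane -/
def uniH : Set ℂ := {w | w.re < 0}

theorem uniH_open : IsOpen uniH := isOpen_lt Complex.continuous_re continuous_const

theorem uniH_convex : Convex ℝ uniH := convex_halfSpace_re_lt 0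

theorem uniH_add {w : ℂ} (h : w ∈ uniH) (n : ℤ) : w + n * (2 * Real.pi * Complex.I) ∈ uniH := by
  simpa [uniH] using h

theorem uniH_exp {w : ℂ} : w ∈ uniH ↔ Complex.exp w ∈ ball (0 : ℂ) 1 := by
  simp [uniH, Complex.norm_exp]

/-- A bounded periodic function on the half plane is a holomorphic function of `exp w`. -/
theorem uniA_desc {E : Type*} [NormedAddCommGroup E] [NormedSpace ℂ E] [CompleteSpace E]
    {g : ℂ → E} (hg : DifferentiableOn ℂ g uniH)
    (hp : ∀ w ∈ uniH, g (w + 2 * Real.pi * Complex.I) = g w) {C : ℝ}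
    (hb : ∀ w ∈ uniH, |w.im| ≤ Real.pi → ‖g w‖ ≤ C) :
    ∃ h : ℂ → E, DifferentiableOn ℂ h (ball 0 1) ∧ ∀ w ∈ uniH, h (Complex.exp w) = g w := by
  have per : ∀ (n : ℤ), ∀ w ∈ uniH, g (w + n * (2 * Real.pi * Complex.I)) = g w := fun n => by
    induction n using Int.induction_on with
    | zero => simp
    | succ n ih =>
      intro w hw
      rw [← ih w hw, ← hp _ (uniH_add hw n)]; congr 1; push_cast; ring
    | pred n ih =>
      intro w hw
      rw [← ih w hw, ← hp _ (uniH_add hw _)]; congr 1; push_cast; ring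
  have e1 : ∀ w ∈ uniH, g (Complex.log (Complex.exp w)) = g w := fun w hw => by
    obtain ⟨n, hn⟩ := Complex.log_exp_exists w
    rw [hn]; exact per n w hw
  have lg : ∀ s ∈ ball (0 : ℂ) 1 \ {0}, Complex.log s ∈ uniH := fun s hs => by
    rw [uniH_exp, Complex.exp_log hs.2]; exact hs.1
  have h2 := Complex.differentiableOn_update_limUnder_of_bddAbove
    (f := fun s => g (Complex.log s)) (ball_mem_nhds (0 : ℂ) one_pos) (fun s hs => by
      have s0 : s ≠ 0 := hs.2
      have d1 : DifferentiableAt ℂ (fun t => Complex.log s + Complex.log (t / s)) s :=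
        ((differentiableAt_id.div_const s).clog (by simp [s0])).const_add _
      have d2 : DifferentiableAt ℂ (fun t => g (Complex.log s + Complex.log (t / s))) s :=
        DifferentiableAt.comp s (by
          simpa [s0] using hg.differentiableAt (uniH_open.mem_nhds (lg s hs))) d1
      refine (d2.congr_of_eventuallyEq ?_).differentiableWithinAt
      filter_upwards [(isOpen_ball.sdiff isClosed_singleton).mem_nhds hs] with t ht
      have e : Complex.exp (Complex.log s + Complex.log (t / s)) = t := by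
        rw [Complex.exp_add, Complex.exp_log s0, Complex.exp_log (div_ne_zero ht.2 s0),
          mul_div_cancel₀ _ s0]
      have := e1 _ (uniH_exp.2 (e.symm ▸ ht.1))
      rwa [e] at this)
    ⟨C, by
      rintro _ ⟨s, hs, rfl⟩
      exact hb _ (lg s hs) (by rw [Complex.log_im]; exact Complex.abs_arg_le_pi s)⟩
  exact ⟨_, h2, fun w hw => by rw [Function.update_of_ne (Complex.exp_ne_zero w), e1 w hw]⟩

/-- A function that continues over every point of a circle continues to a larger disc. -/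
theorem uniA_ext {z : ℂ → ℂ} {c : ℂ} {ρ : ℝ} (h0 : 0 < ρ) (hz : DifferentiableOn ℂ z (ball c ρ))
    (h : ∀ b ∈ sphere c ρ, ∃ ε > 0, ∃ g : ℂ → ℂ, DifferentiableOn ℂ g (ball b ε) ∧
      EqOn g z (ball b ε ∩ ball c ρ)) :
    ∃ ρ' > ρ, ∃ Z : ℂ → ℂ, DifferentiableOn ℂ Z (ball c ρ') ∧ EqOn Z z (ball c ρ) := by
  have h1 : ∀ b : closedBall c ρ, ∃ ε > 0, ∃ g : ℂ → ℂ, DifferentiableOn ℂ g (ball b ε) ∧
      EqOn g z (ball b ε ∩ ball c ρ) := fun b => by
    rcases (mem_closedBall.1 b.2).lt_or_eq with k | k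
    · obtain ⟨ε, e0, e1⟩ := Metric.isOpen_iff.1 isOpen_ball b.1 k
      exact ⟨ε, e0, z, hz.mono e1, fun _ _ => rfl⟩
    · exact h b k
  choose ε e0 g g1 g2 using h1
  obtain ⟨δ, d0, hδ⟩ := lebesgue_number_lemma_of_metric (isCompact_closedBall c ρ)
    (c := fun b : closedBall c ρ => ball (b : ℂ) (ε b)) (fun _ => isOpen_ball)
    fun x hx => mem_iUnion.2 ⟨⟨x, hx⟩, mem_ball_self (e0 _)⟩
  have h2 : ∀ x : ℂ, ∃ G : ℂ → ℂ, x ∈ ball c ρ → DifferentiableOn ℂ G (ball x δ) ∧
      EqOn G z (ball x δ ∩ ball c ρ) := fun x => by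
    by_cases hx : x ∈ ball c ρ
    · obtain ⟨b, hb⟩ := hδ x (ball_subset_closedBall hx)
      exact ⟨g b, fun _ => ⟨(g1 b).mono hb, (g2 b).mono (inter_subset_inter_left _ hb)⟩⟩
    · exact ⟨z, fun k => absurd k hx⟩
  choose G hG using h2
  have r0 : 0 < ρ + δ / 2 := by positivity
  let π : ℂ → ℂ := fun t => c + ((ρ / (ρ + δ / 2) : ℝ) : ℂ) * (t - c)
  have p1 : ∀ t ∈ ball c (ρ + δ / 2), π t ∈ ball c ρ ∧ t ∈ ball (π t) (δ / 2) := fun t ht => by
    rw [mem_ball_iff_norm] at ht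
    constructor
    · rw [mem_ball_iff_norm, add_sub_cancel_left, norm_mul, Complex.norm_real,
        Real.norm_of_nonneg (by positivity), div_mul_eq_mul_div, div_lt_iff₀ r0]
      gcongr
    · rw [mem_ball_iff_norm, show t - π t = ((δ / 2 / (ρ + δ / 2) : ℝ) : ℂ) * (t - c) by
        have : ((ρ + δ / 2 : ℝ) : ℂ) ≠ 0 := by exact_mod_cast r0.ne'
        simp only [π, Complex.ofReal_div (δ / 2), Complex.ofReal_div ρ]
        rw [show (δ / 2 : ℝ) = ((ρ + δ / 2 : ℝ) : ℂ) - ρ by push_cast; ring, sub_div, div_self this]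
        ring, norm_mul, Complex.norm_real,
        Real.norm_of_nonneg (by positivity), div_mul_eq_mul_div, div_lt_iff₀ r0]
      gcongr
  have hb : ∀ x : ℂ, ball x (δ / 2) ⊆ ball x δ := fun x => ball_subset_ball (by linarith)
  refine ⟨ρ + δ / 2, by linarith, fun t => G (π t) t, fun t ht => ?_, fun t ht => ?_⟩
  · have a := p1 t ht
    refine (((hG _ a.1).1.differentiableAt (isOpen_ball.mem_nhds (hb _ a.2))).congr_of_eventuallyEq
      ?_).differentiableWithinAt
    have cπ : ContinuousAt π t := by fun_prop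
    filter_upwards [isOpen_ball.mem_nhds ht, isOpen_ball.mem_nhds (hb _ a.2),
      cπ.preimage_mem_nhds (ball_mem_nhds _ d0)] with s s1 s2 s3
    have b := p1 s s1
    refine ident (isOpen_ball.inter isOpen_ball)
      ((convex_ball _ _).inter (convex_ball _ _)).isPreconnected
      ((hG _ b.1).1.mono inter_subset_left) ((hG _ a.1).1.mono inter_subset_right)
      ⟨mem_ball_self d0, s3⟩ ?_ ⟨hb _ b.2, s2⟩
    filter_upwards [ball_mem_nhds _ d0, isOpen_ball.mem_nhds s3, isOpen_ball.mem_nhds b.1]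
      with x x1 x2 x3
    rw [(hG _ b.1).2 ⟨x1, x3⟩, (hG _ a.1).2 ⟨x2, x3⟩]
  · have a := p1 t (ball_subset_ball (by linarith) ht)
    exact (hG _ a.1).2 ⟨hb _ a.2, ht⟩

/-- A germ all of whose continuations to discs continue over the boundary is entire. -/
theorem uniA_ent {z0 : ℂ → ℂ} {c : ℂ} (h0 : AnalyticAt ℂ z0 c)
    (h : ∀ ρ > 0, ∀ z : ℂ → ℂ, DifferentiableOn ℂ z (ball c ρ) → z =ᶠ[𝓝 c] z0 →
      ∀ b ∈ sphere c ρ, ∃ ε > 0, ∃ g : ℂ → ℂ, DifferentiableOn ℂ g (ball b ε) ∧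
        EqOn g z (ball b ε ∩ ball c ρ)) :
    ∃ Z : ℂ → ℂ, Differentiable ℂ Z ∧ Z =ᶠ[𝓝 c] z0 := by
  obtain ⟨p, r, hp⟩ := h0
  have r0 : 0 < p.radius := hp.r_pos.trans_le hp.r_le
  have h1 : HasFPowerSeriesOnBall (fun t => p.sum (t - c)) p c p.radius := by
    simpa using (p.hasFPowerSeriesOnBall r0).comp_sub c
  have h2 : (fun t => p.sum (t - c)) =ᶠ[𝓝 c] z0 := by
    filter_upwards [Metric.eball_mem_nhds c hp.r_pos] with t ht
    have := hp.sum (y := t - c) (by simpa [edist_eq_enorm_sub] using ht)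
    simpa using this.symm
  by_cases ht : p.radius = ⊤
  · refine ⟨_, differentiableOn_univ.1 ?_, h2⟩
    simpa [ht] using h1.differentiableOn
  · lift p.radius to NNReal using ht with ρ hρ
    have ρ0 : (0 : ℝ) < ρ := by exact_mod_cast r0
    have h3 := h1.differentiableOn
    rw [Metric.eball_coe] at h3
    obtain ⟨ρ', k1, Z, k2, k3⟩ := uniA_ext ρ0 h3 (h ρ ρ0 _ h3 h2)
    obtain ⟨R, R1, R2⟩ := exists_between k1
    lift R to NNReal using (ρ0.trans R1).le
    have h4 := (k2.mono (closedBall_subset_ball R2)).hasFPowerSeriesOnBall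
      (by exact_mod_cast ρ0.trans R1)
    have h5 := h4.hasFPowerSeriesAt.eq_formalMultilinearSeries_of_eventually h1.hasFPowerSeriesAt
      (mem_of_superset (ball_mem_nhds c ρ0) k3)
    have h6 := h4.r_le
    rw [h5, ← hρ, ENNReal.coe_le_coe] at h6
    exact absurd R1 (not_lt.2 h6)

/-- bound for the roots of a monic polynomial, in homogeneous form -/
theorem uniA_root {d : ℕ} {a : ℕ → ℂ} {u v : ℂ} (d0 : 0 < d)
    (h : u ^ d + ∑ i ∈ Finset.range d, a i * u ^ i * v ^ (d - i) = 0) :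
    ‖u‖ ≤ (1 + ∑ i ∈ Finset.range d, ‖a i‖) * ‖v‖ := by
  by_contra k
  push Not at k
  have s0 : 0 ≤ ∑ i ∈ Finset.range d, ‖a i‖ := by positivity
  have v0 := norm_nonneg v
  have k1 : ‖v‖ ≤ ‖u‖ := by nlinarith
  have u0 : 0 < ‖u‖ := lt_of_le_of_lt (by positivity) k
  obtain ⟨m, rfl⟩ : ∃ m, d = m + 1 := ⟨d - 1, by omega⟩
  have k2 : ‖u‖ ^ (m + 1) ≤ (∑ i ∈ Finset.range (m + 1), ‖a i‖) * (‖u‖ ^ m * ‖v‖) := by
    rw [← norm_pow, eq_neg_of_add_eq_zero_left h, norm_neg, Finset.sum_mul]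
    refine (norm_sum_le _ _).trans (Finset.sum_le_sum fun i hi => ?_)
    obtain ⟨j, rfl⟩ : ∃ j, m = i + j := ⟨m - i, by have := Finset.mem_range.1 hi; omega⟩
    rw [show i + j + 1 - i = j + 1 by omega, norm_mul, norm_mul, norm_pow, norm_pow, mul_assoc,
      pow_succ ‖v‖, pow_add ‖u‖, ← mul_assoc (‖u‖ ^ i)]
    gcongr
  have k3 : 0 < ‖u‖ ^ m := by positivity
  rw [pow_succ] at k2
  nlinarith

theorem uniA_grow (q : ℂ[X]) (c : ℂ) : ∃ C : ℝ, 0 ≤ C ∧ ∀ r ≥ (1 : ℝ), ∀ t ∈ sphere c r,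
    ‖q.eval t‖ ≤ C * r ^ q.natDegree := by
  refine ⟨∑ i ∈ Finset.range (q.natDegree + 1), ‖(taylor c q).coeff i‖, by positivity,
    fun r r1 t ht => ?_⟩
  rw [← taylor_eval_sub c, eval_eq_sum_range, natDegree_taylor, Finset.sum_mul]
  refine (norm_sum_le _ _).trans (Finset.sum_le_sum fun i hi => ?_)
  rw [norm_mul, norm_pow, mem_sphere_iff_norm.1 ht]
  exact mul_le_mul_of_nonneg_left
    (pow_le_pow_right₀ r1 (Nat.lt_succ_iff.1 (Finset.mem_range.1 hi))) (norm_nonneg _)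

/-- An entire function bounded by polynomials is a polynomial. -/
theorem uniA_poly {Z : ℂ → ℂ} (hZ : Differentiable ℂ Z) {d : ℕ} {a : ℕ → ℂ[X]}
    (h : ∀ t, ‖Z t‖ ≤ 1 + ∑ i ∈ Finset.range d, ‖(a i).eval t‖) : ∃ q : ℂ[X], ∀ t, Z t = q.eval t := by
  choose C C0 hC using fun i => uniA_grow (a i) 0
  obtain ⟨m, hm⟩ : ∃ m, ∀ i ∈ Finset.range d, (a i).natDegree ≤ m :=
    ⟨_, fun i hi => Finset.le_sup (f := fun i => (a i).natDegree) hi⟩
  have h1 : ∀ k, m < k → PowerSeries.coeff k (tay Z 0) = 0 := fun k hk => by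
    have h2 : ∀ r ≥ (1 : ℝ), ‖PowerSeries.coeff k (tay Z 0)‖ ≤
        (1 + ∑ i ∈ Finset.range d, C i) * r⁻¹ := fun r r1 => by
      have s0 : 0 ≤ ∑ i ∈ Finset.range d, C i := Finset.sum_nonneg fun i _ => C0 i
      refine (cauchy (R := r + 1) hZ.differentiableOn (by linarith) (lt_add_one r)
        (S := (1 + ∑ i ∈ Finset.range d, C i) * r ^ m) (fun t ht => (h t).trans ?_) k).trans ?_
      · rw [add_mul, Finset.sum_mul, one_mul]
        exact add_le_add (one_le_pow₀ r1) (Finset.sum_le_sum fun i hi => (hC i r r1 t ht).trans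
          (mul_le_mul_of_nonneg_left (pow_le_pow_right₀ r1 (hm i hi)) (C0 i)))
      · rw [mul_div_assoc]
        refine mul_le_mul_of_nonneg_left ?_ (by linarith)
        rw [div_le_iff₀ (by positivity), le_inv_mul_iff₀ (by linarith), ← pow_succ']
        exact pow_le_pow_right₀ r1 hk
    have h3 := (tendsto_inv_atTop_zero (𝕜 := ℝ)).const_mul (1 + ∑ i ∈ Finset.range d, C i)
    rw [mul_zero] at h3
    exact norm_le_zero_iff.1 (ge_of_tendsto h3 ((eventually_ge_atTop 1).mono h2))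
  refine ⟨PowerSeries.trunc (m + 1) (tay Z 0), fun t => ?_⟩
  have a1 : AnalyticAt ℂ (fun t => (PowerSeries.trunc (m + 1) (tay Z 0)).eval t) 0 :=
    (Polynomial.differentiable _).analyticAt 0
  refine ident isOpen_univ isPreconnected_univ hZ.differentiableOn
    (Polynomial.differentiable _).differentiableOn (mem_univ 0) ?_ (mem_univ t)
  refine (eventually_zero_of_tay ((hZ.analyticAt 0).fun_sub a1) ?_).mono fun s hs => sub_eq_zero.1 hs
  rw [tay_sub (hZ.analyticAt 0) a1, tay_poly, taylor_zero, sub_eq_zero]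
  ext k
  rw [Polynomial.coeff_coe, PowerSeries.coeff_trunc]
  split_ifs with hk
  · rfl
  · exact h1 k (by omega)

end

end Pool.Agent.Lib.MP_5591bc_ag.V
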