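import Pool.Agent.Lib.MP_5591bc_ag.V.UniA

/-! Unipotent local monodromy; algebraic elements are single valued. -/

namespace Pool.Agent.Lib.MP_5591bc_ag.V

open Filter Topology Metric Set Polynomial Matrix G

noncomputable section

variable {ι κ : Type*} [Fintype ι] [DecidableEq ι]

theorem uniB_nil {E : Matrix ι ι ℂ} (h : ∀ (μ : ℂ) v, v ≠ 0 → E *ᵥ v = μ • v → μ = 0) :
    IsNilpotent E := by
  have h1 := (IsAlgClosed.splits E.charpoly).eq_prod_roots_of_monic E.charpoly_monic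
  have h2 : E.charpoly.roots.map (X - C ·) = E.charpoly.roots.map fun _ => (X : ℂ[X]) :=
    Multiset.map_congr rfl fun μ hμ => by
      have := (mem_roots E.charpoly_monic.ne_zero).1 hμ
      rw [IsRoot, eval_charpoly, ← exists_mulVec_eq_zero_iff] at this
      obtain ⟨v, v0, hv⟩ := this
      rw [sub_mulVec, sub_eq_zero] at hv
      rw [h μ v v0 (by rw [← hv]; ext; simp [scalar_apply, mulVec_diagonal]), map_zero, sub_zero]
  rw [h2, Multiset.map_const', Multiset.prod_replicate] at h1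
  have h3 := E.aeval_self_charpoly
  rw [h1, map_pow, aeval_X] at h3
  exact ⟨_, h3⟩

theorem uniB_pow {E : Matrix ι ι ℂ} (hE : IsNilpotent E) :
    ∃ P : Matrix ι ι ℂ[X], ∀ n : ℕ, P.map (eval (n : ℂ)) = (E + 1) ^ n := by
  obtain ⟨N, hN⟩ := hE
  refine ⟨of fun i j => ∑ m ∈ Finset.range N,
    C ((E ^ m) i j / (m.factorial : ℂ)) * descPochhammer ℂ m, fun n => ?_⟩
  have e1 : (E + 1) ^ n = ∑ m ∈ Finset.range N, (n.choose m : ℂ) • E ^ m := by
    rw [(Commute.one_right E).add_pow]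
    simp only [one_pow, mul_one, ← nsmul_eq_mul', ← Nat.cast_smul_eq_nsmul ℂ]
    rw [Finset.sum_subset (Finset.range_subset_range.2 (Nat.le_add_right (n + 1) N)),
      Finset.sum_subset (Finset.range_subset_range.2 (Nat.le_add_left N (n + 1)))]
    · intro m _ hm
      rw [pow_eq_zero_of_le (by simpa using hm) hN, smul_zero]
    · intro m _ hm
      rw [Nat.choose_eq_zero_of_lt (by simpa using hm), Nat.cast_zero, zero_smul]
  ext i j
  simp only [e1, map_apply, of_apply, eval_finsetSum, eval_mul, eval_C, Matrix.sum_apply,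
    Matrix.smul_apply, smul_eq_mul, Nat.cast_choose_eq_descPochhammer_div]
  exact Finset.sum_congr rfl fun m _ => by ring

theorem uniB_add {w : ℂ} (h : w ∈ uniH) : w + 2 * Real.pi * Complex.I ∈ uniH := by
  simpa using uniH_add h 1

/-- The monodromy at a simple pole with nilpotent residue is unipotent. -/
theorem uniB_mono {A : ℂ → Matrix ι ι ℂ} (hA : Hol (ball 0 1) A) {c : ℝ} (hc : 0 ≤ c)
    (hb : ∀ s ∈ ball (0 : ℂ) 1, ∀ i j, ‖A s i j‖ ≤ c) (hN : IsNilpotent (A 0)) {w0 : ℂ}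
    (h0 : w0 ∈ uniH) : ∃ (Φ : ℂ → Matrix ι ι ℂ) (E : Matrix ι ι ℂ), Φ w0 = 1 ∧ IsNilpotent E ∧
      ∀ w ∈ uniH, MSol (fun w => A (Complex.exp w)) Φ w ∧
        Φ (w + 2 * Real.pi * Complex.I) = Φ w * (E + 1) := by
  have hA' : Hol uniH fun w => A (Complex.exp w) := fun i j =>
    (hA i j).comp Complex.differentiable_exp.differentiableOn fun w hw => uniH_exp.1 hw
  obtain ⟨Φ, Ψ, Φ0, -, hΦ⟩ := exists_fund uniH_convex uniH_open h0 hA'
    (fun w hw => hb _ (uniH_exp.1 hw)) hc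
  set τ : ℂ := 2 * Real.pi * Complex.I with hτ
  have per : ∀ w ∈ uniH, Φ (w + τ) = Φ w * Φ (w0 + τ) :=
    muniq uniH_open uniH_convex.isPreconnected hA' (Φ := fun w => Φ (w + τ))
      (fun w hw i j => by
        have := ((hΦ _ (uniB_add hw)).1 i j).comp_add_const
        simp only [Complex.exp_periodic w] at this
        exact this)
      (fun w hw => (hΦ w hw).1.mul_const _) h0 (by simp [Φ0])
  refine ⟨Φ, Φ (w0 + τ) - 1, Φ0, uniB_nil fun μ v v0 hv => ?_,
    fun w hw => ⟨(hΦ w hw).1, by rw [sub_add_cancel, per w hw]⟩⟩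
  have e1 : Φ (w0 + τ) *ᵥ v = (μ + 1) • v := by
    rw [sub_mulVec, one_mulVec, sub_eq_iff_eq_add] at hv
    rw [hv, add_smul, one_smul]
  have l0 : μ + 1 ≠ 0 := fun h => v0 (by
    rw [← one_mulVec v, ← (hΦ _ (uniB_add h0)).2.2.1, ← mulVec_mulVec, e1, h, zero_smul,
      mulVec_zero])
  obtain ⟨m, hm⟩ : ∃ m, Complex.exp (m * τ) = μ + 1 :=
    ⟨Complex.log (μ + 1) / τ, by
      rw [div_mul_cancel₀ _ Complex.two_pi_I_ne_zero, Complex.exp_log l0]⟩
  have der : ∀ a : ℂ, ∀ w ∈ uniH, HasDerivAt (fun w => Complex.exp (a * w) • Φ w *ᵥ v)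
      (a • Complex.exp (a * w) • Φ w *ᵥ v +
        A (Complex.exp w) *ᵥ (Complex.exp (a * w) • Φ w *ᵥ v)) w := fun a w hw => by
    refine (((hasDerivAt_id w).const_mul a).cexp.fun_smul ((hΦ w hw).1.vsol v)).congr_deriv ?_
    simp only [id, one_mul, mulVec_smul, smul_smul, mul_comm a, add_comm]
  obtain ⟨k, hk⟩ := exists_nat_ge (‖m‖ + Fintype.card ι * c)
  obtain ⟨h, h1, h2⟩ := uniA_desc (g := fun w => Complex.exp ((k - m) * w) • Φ w *ᵥ v)
    (fun w hw => (der _ w hw).differentiableAt.differentiableWithinAt)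
    (fun w hw => by
      have : Complex.exp ((k - m) * τ) * (μ + 1) = 1 := by
        rw [← hm, ← Complex.exp_add, show (k - m) * τ + m * τ = k * τ by ring,
          Complex.exp_nat_mul_two_pi_mul_I]
      rw [per w hw, ← mulVec_mulVec, e1, mulVec_smul, smul_smul, mul_add ((k : ℂ) - m),
        Complex.exp_add, mul_assoc, this, mul_one])
    (C := Real.exp (k * Real.pi + Fintype.card ι * c * ‖w0‖) * (Fintype.card ι * ‖v‖))
    (fun w hw hi => by
      have r0 : w.re < 0 := hw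
      have n1 : ‖w‖ ≤ -w.re + Real.pi :=
        (Complex.norm_le_abs_re_add_abs_im w).trans (by rw [abs_of_neg r0]; linarith)
      have n2 : -(m * w).re ≤ ‖m‖ * ‖w‖ := by
        rw [← norm_mul]; exact (neg_le_abs _).trans (Complex.abs_re_le_norm _)
      have c0 : 0 ≤ Fintype.card ι * c := by positivity
      have n3 := mul_le_mul_of_nonneg_left (norm_sub_le w w0) c0
      have n4 := mul_le_mul hk n1 (norm_nonneg _) k.cast_nonneg
      refine (norm_smul_le _ _).trans ((mul_le_mul_of_nonneg_left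
        (norm_mulVec_le (Real.exp_pos _).le (hΦ w hw).2.2.2.1 v) (norm_nonneg _)).trans ?_)
      rw [Complex.norm_exp, mul_comm (Fintype.card ι : ℝ) (Real.exp _), mul_assoc (Real.exp _),
        ← mul_assoc, ← Real.exp_add, sub_mul, Complex.sub_re,
        show ((k : ℂ) * w).re = k * w.re by simp]
      exact mul_le_mul_of_nonneg_right (Real.exp_le_exp.2 (by linarith)) (by positivity))
  have hb0 := ball_mem_nhds (0 : ℂ) one_pos
  obtain ⟨n, g, g1, g2, g3⟩ := (h1.analyticAt hb0).exists_eventuallyEq_pow_smul_nonzero_iff.2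
    fun z => v0 (by
      have := ident isOpen_ball (convex_ball _ _).isPreconnected h1 (differentiableOn_const 0)
        (mem_ball_self one_pos) z (uniH_exp.1 h0)
      rw [h2 w0 h0, Φ0, one_mulVec] at this
      exact (smul_eq_zero.1 this).resolve_left (Complex.exp_ne_zero _))
  have g4 : ∀ᶠ s in 𝓝[≠] (0 : ℂ), s • deriv g s = (k - m - n : ℂ) • g s + A s *ᵥ g s := by
    filter_upwards [self_mem_nhdsWithin, nhdsWithin_le_nhds hb0,
      nhdsWithin_le_nhds g1.eventually_analyticAt, nhdsWithin_le_nhds g3.eventually_nhds]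
      with s s0 s1 s2 s3
    obtain ⟨w, rfl⟩ : ∃ w, Complex.exp w = s := ⟨_, Complex.exp_log s0⟩
    have hw := uniH_exp.2 s1
    have e2 : (fun w => g (Complex.exp w)) =ᶠ[𝓝 w]
        fun w => Complex.exp ((k - m - n) * w) • Φ w *ᵥ v := by
      filter_upwards [uniH_open.mem_nhds hw, Complex.continuous_exp.continuousAt.eventually s3]
        with x x1 x2
      rw [h2 x x1, sub_zero, ← Complex.exp_nat_mul] at x2
      rw [sub_mul ((k : ℂ) - m), sub_eq_neg_add, Complex.exp_add, mul_smul, x2, smul_smul,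
        ← Complex.exp_add, neg_add_cancel, Complex.exp_zero, one_smul]
    have e3 := ((der _ w hw).congr_of_eventuallyEq e2).unique
      (s2.differentiableAt.hasDerivAt.scomp w (Complex.hasDerivAt_exp w))
    rw [← e2.eq_of_nhds] at e3
    exact e3.symm
  have cA := fun i j => ((hA i j).differentiableAt hb0).continuousAt
  have c1 : ContinuousAt (fun s : ℂ => s • deriv g s) 0 :=
    continuousAt_id.smul g1.deriv.continuousAt
  have c3 : ContinuousAt (fun s : ℂ => A s *ᵥ g s) 0 := continuousAt_pi.2 fun i =>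
    tendsto_finsetSum Finset.univ fun j _ => (cA i j).mul (continuousAt_pi.1 g1.continuousAt j)
  have c2 : ContinuousAt (fun s : ℂ => (k - m - n : ℂ) • g s + A s *ᵥ g s) 0 :=
    (g1.continuousAt.const_smul (k - m - n : ℂ)).add c3
  have g5 : (0 : ℂ) • deriv g 0 = (k - m - n : ℂ) • g 0 + A 0 *ᵥ g 0 :=
    tendsto_nhds_unique_of_eventuallyEq (c1.tendsto.mono_left nhdsWithin_le_nhds)
      (c2.tendsto.mono_left nhdsWithin_le_nhds) g4
  have g6 : ∀ j : ℕ, A 0 ^ j *ᵥ g 0 = (-(k - m - n : ℂ)) ^ j • g 0 := fun j => by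
    induction j with
    | zero => simp
    | succ j ih =>
      rw [zero_smul, eq_comm, add_eq_zero_iff_neg_eq, ← neg_smul] at g5
      rw [pow_succ, ← mulVec_mulVec, ← g5, mulVec_smul, ih, smul_smul, pow_succ']
  obtain ⟨N, hN⟩ := hN
  have g7 := g6 N
  rw [hN, zero_mulVec, eq_comm, smul_eq_zero] at g7
  have g8 := pow_eq_zero_iff'.1 (g7.resolve_right g2)
  have g9 : m = ((k - n : ℤ) : ℂ) := by push_cast; linear_combination g8.1
  rw [g9, Complex.exp_int_mul_two_pi_mul_I] at hm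
  linear_combination -hm

/-- value of a polynomial in `t` and the entries of a matrix -/
def uniEv (u : MvPolynomial (ι × κ) ℂ[X]) (t : ℂ) (Y : Matrix ι κ ℂ) : ℂ :=
  MvPolynomial.eval₂ (evalRingHom t) (fun a => Y a.1 a.2) u

/-- homogeneous form of a monic equation -/
def uniHom {R : Type*} [CommRing R] (d : ℕ) (a : ℕ → R) (u v : R) : R :=
  u ^ d + ∑ i ∈ Finset.range d, a i * u ^ i * v ^ (d - i)

omit [Fintype ι] [DecidableEq ι] in
theorem uniB_hol (u : MvPolynomial (ι × κ) ℂ[X]) {S : Set ℂ} {x : ℂ → ℂ}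
    {Y : ℂ → Matrix ι κ ℂ} (hx : DifferentiableOn ℂ x S) (hY : Hol S Y) :
    DifferentiableOn ℂ (fun w => uniEv u (x w) (Y w)) S := by
  induction u using MvPolynomial.induction_on with
  | C a => simpa [uniEv, Function.comp_def] using a.differentiable.comp_differentiableOn hx
  | add p q hp hq => simpa [uniEv] using hp.fun_add hq
  | mul_X p a hp => simpa [uniEv] using hp.fun_mul (hY a.1 a.2)

omit [Fintype ι] [DecidableEq ι] in
theorem uniB_seq (u : MvPolynomial (ι × κ) ℂ[X]) (t : ℂ) (Y : Matrix ι κ ℂ[X]) :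
    ∃ P : ℂ[X], ∀ n : ℂ, P.eval n = uniEv u t (Y.map (eval n)) := by
  induction u using MvPolynomial.induction_on with
  | C a => exact ⟨C (a.eval t), by simp [uniEv]⟩
  | add p q hp hq =>
    obtain ⟨P, hP⟩ := hp
    obtain ⟨Q, hQ⟩ := hq
    exact ⟨P + Q, by simp [uniEv, hP, hQ]⟩
  | mul_X p a hp =>
    obtain ⟨P, hP⟩ := hp
    exact ⟨P * Y a.1 a.2, by simp [uniEv, hP]⟩

theorem uniHom_mul {R : Type*} [CommRing R] (d : ℕ) (a : ℕ → R) (z v : R) :
    uniHom d a (z * v) v = v ^ d * (z ^ d + ∑ i ∈ Finset.range d, a i * z ^ i) := by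
  rw [uniHom, mul_add, Finset.mul_sum, mul_pow, mul_comm]
  congr 1
  refine Finset.sum_congr rfl fun i hi => ?_
  obtain ⟨j, rfl⟩ := Nat.exists_eq_add_of_le (Finset.mem_range.1 hi).le
  rw [Nat.add_sub_cancel_left]; ring

theorem uniB_cross {d : ℕ} {a : ℕ → ℂ} {P Q : ℂ[X]}
    (h : ∀ n : ℕ, uniHom d a (P.eval (n : ℂ)) (Q.eval (n : ℂ)) = 0) (x y : ℂ) :
    P.eval x * Q.eval y = P.eval y * Q.eval x := by
  classical
  have m := monic_X_pow_add (degree_sum_fin_lt fun i : Fin d => a i)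
  have h1 : Q * ∏ r ∈ (X ^ d + ∑ i : Fin d, C (a i) * X ^ (i : ℕ)).roots.toFinset,
      (P - C r * Q) = 0 := by
    refine eq_zero_of_infinite_isRoot _ (infinite_of_injective_forall_mem
      (f := fun n : ℕ => (n : ℂ)) Nat.cast_injective fun n => ?_)
    simp only [mem_ofPred_eq, IsRoot, eval_mul, eval_prod, mul_eq_zero, Finset.prod_eq_zero_iff]
    refine or_iff_not_imp_left.2 fun q0 => ⟨P.eval (n : ℂ) / Q.eval (n : ℂ), ?_, by simp [q0]⟩
    have := h n
    rw [← div_mul_cancel₀ (P.eval (n : ℂ)) q0, uniHom_mul, mul_eq_zero,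
      ← Fin.sum_univ_eq_sum_range fun i => a i * _ ^ i] at this
    rw [Multiset.mem_toFinset, mem_roots m.ne_zero]
    simpa [eval_finsetSum] using this.resolve_left (pow_ne_zero _ q0)
  rcases mul_eq_zero.1 h1 with k | k
  · simp [k]
  · obtain ⟨r, -, hr⟩ := Finset.prod_eq_zero_iff.1 k
    rw [sub_eq_zero.1 hr]; simp only [eval_mul, eval_C]; ring

theorem uniHom_hol {S : Set ℂ} (d : ℕ) {a : ℕ → ℂ → ℂ} {u v : ℂ → ℂ}
    (ha : ∀ i, DifferentiableOn ℂ (a i) S) (hu : DifferentiableOn ℂ u S)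
    (hv : DifferentiableOn ℂ v S) :
    DifferentiableOn ℂ (fun w => uniHom d (a · w) (u w) (v w)) S :=
  (hu.fun_pow d).fun_add (DifferentiableOn.fun_sum fun i _ =>
    ((ha i).fun_mul (hu.fun_pow i)).fun_mul (hv.fun_pow _))

/-- An integral element of the field of a solution extends over a simple pole with nilpotent
residue. -/
theorem uniB_loc [Fintype κ] {b : ℂ} {r : ℝ} (r0 : 0 < r) {A : ℂ → Matrix ι ι ℂ}
    (hA : Hol (ball b r) A) {c : ℝ} (hc : 0 ≤ c) (hb : ∀ s ∈ ball b r, ∀ i j, ‖A s i j‖ ≤ c)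
    (hN : IsNilpotent (A b)) (u v : MvPolynomial (ι × κ) ℂ[X]) {d : ℕ} (d0 : 0 < d)
    (a : ℕ → ℂ[X]) {p : ℂ} (hp : p ∈ ball b r) (pb : p ≠ b) {Y : ℂ → Matrix ι κ ℂ}
    (hY : ∀ᶠ t in 𝓝 p, MSol (fun t => (t - b)⁻¹ • A t) Y t)
    (hv : ¬ ∀ᶠ t in 𝓝 p, uniEv v t (Y t) = 0)
    (hH : ∀ᶠ t in 𝓝 p, uniHom d (fun i => (a i).eval t) (uniEv u t (Y t)) (uniEv v t (Y t)) = 0) :
    ∃ g : ℂ → ℂ, DifferentiableOn ℂ g (ball b r) ∧
      ∀ᶠ t in 𝓝 p, g t * uniEv v t (Y t) = uniEv u t (Y t) := by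
  have rc : (r : ℂ) ≠ 0 := by exact_mod_cast r0.ne'
  have m1 : ∀ s : ℂ, b + r * s ∈ ball b r ↔ s ∈ ball (0 : ℂ) 1 := fun s => by
    simp [abs_of_pos r0, r0]
  have m2 : ∀ t : ℂ, b + r * ((t - b) / r) = t := fun t => by field_simp; ring
  have p0 := sub_ne_zero.2 pb
  obtain ⟨w0, e0⟩ : ∃ w0, Complex.exp w0 = (p - b) / r := ⟨_, Complex.exp_log (div_ne_zero p0 rc)⟩
  have h0 : w0 ∈ uniH := by rw [uniH_exp, e0, ← m1, m2]; exact hp
  obtain ⟨Φ, E, Φ0, hE, hΦ⟩ := uniB_mono (A := fun s => A (b + r * s))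
    (fun i j => (hA i j).comp (by fun_prop) fun s hs => (m1 s).2 hs) hc
    (fun s hs => hb _ ((m1 s).2 hs)) (by simpa using hN) h0
  set τ : ℂ := 2 * Real.pi * Complex.I with hτ
  let φ : ℂ → ℂ := fun w => b + r * Complex.exp w
  have dφ : Differentiable ℂ φ := by fun_prop
  have φ0 : φ w0 = p := by simp only [φ, e0, m2]
  have tφ : Tendsto φ (𝓝 w0) (𝓝 p) := φ0 ▸ dφ.continuous.tendsto w0
  let ψ : ℂ → ℂ := fun t => w0 + Complex.log ((t - b) / (p - b))
  have tψ : Tendsto ψ (𝓝 p) (𝓝 w0) := by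
    have : ContinuousAt ψ p := continuousAt_const.add (ContinuousAt.clog (by fun_prop) (by simp [p0]))
    simpa [ψ, p0] using this.tendsto
  have eψ : ∀ᶠ t in 𝓝 p, Complex.exp (ψ t) = (t - b) / r := by
    filter_upwards [eventually_ne_nhds pb] with t ht
    rw [Complex.exp_add, e0, Complex.exp_log (div_ne_zero (sub_ne_zero.2 ht) p0)]
    field_simp
  have φψ : ∀ᶠ t in 𝓝 p, φ (ψ t) = t := eψ.mono fun t ht => by simp only [φ, ht, m2]
  have s1 : ∀ w ∈ uniH, MSol (fun w => A (φ w)) (fun w => Φ w * Y p) w := fun w hw =>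
    (hΦ w hw).1.mul_const _
  have e1 : (fun w => Y (φ w)) =ᶠ[𝓝 w0] fun w => Φ w * Y p := by
    refine muniq_loc (A := fun w => A (φ w)) (fun i j => ((hA i j).analyticAt
      (isOpen_ball.mem_nhds hp)).comp_of_eq (dφ.analyticAt w0) φ0) ?_
      (mem_of_superset (uniH_open.mem_nhds h0) s1) (by simp [φ0, Φ0])
    filter_upwards [tφ.eventually hY] with w hw i j
    refine ((hw i j).comp w (((Complex.hasDerivAt_exp w).const_mul (r : ℂ)).const_add b)).congr_deriv ?_
    have := Complex.exp_ne_zero w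
    simp only [φ, Matrix.smul_mul, Matrix.smul_apply, smul_eq_mul, add_sub_cancel_left]
    field_simp
  let U : MvPolynomial (ι × κ) ℂ[X] → ℂ → ℂ := fun u w => uniEv u (φ w) (Φ w * Y p)
  have dU : ∀ u, DifferentiableOn ℂ (U u) uniH := fun u =>
    uniB_hol u dφ.differentiableOn (hol_of_msol s1)
  have e2 : ∀ᶠ t in 𝓝 p, ∀ u, U u (ψ t) = uniEv u t (Y t) := by
    filter_upwards [φψ, tψ.eventually e1] with t t1 t2 u
    simp only [U, ← t2, t1]
  have v0 : ¬ ∀ᶠ w in 𝓝 w0, U v w = 0 := fun k => hv (by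
    filter_upwards [e2, tψ.eventually k] with t t1 t2
    rw [← t1, t2])
  have hom : ∀ w ∈ uniH, uniHom d (fun i => (a i).eval (φ w)) (U u w) (U v w) = 0 :=
    ident uniH_open uniH_convex.isPreconnected (uniHom_hol d (a := fun i w => (a i).eval (φ w))
      (fun i => ((a i).differentiable.comp dφ).differentiableOn) (dU u) (dU v))
      (differentiableOn_const 0) h0 (by
        filter_upwards [e1, tφ.eventually hH] with w w1 w2
        simpa only [U, ← w1] using w2)
  have cβ : Continuous fun t : ℂ => 1 + ∑ i ∈ Finset.range d, ‖(a i).eval t‖ := by fun_prop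
  obtain ⟨z, z1, z2, z3⟩ := uniA_quot uniH_open uniH_convex.isPreconnected (dU u) (dU v) h0 v0
    (cβ.comp dφ.continuous).continuousOn fun w hw => uniA_root d0 (hom w hw)
  obtain ⟨P, hP⟩ := uniB_pow hE
  have cr : ∀ w ∈ uniH, U u (w + τ) * U v w = U u w * U v (w + τ) := fun w hw => by
    have k1 : ∀ n : ℕ, w + n * τ ∈ uniH := fun n => by simpa using uniH_add hw n
    have k2 : ∀ n : ℕ, Φ (w + n * τ) = Φ w * (E + 1) ^ n := fun n => by
      induction n with
      | zero => simp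
      | succ n ih => rw [Nat.cast_succ, add_mul, one_mul, ← add_assoc, (hΦ _ (k1 n)).2, ih,
          pow_succ, Matrix.mul_assoc]
    have k3 : ∀ n : ℕ, φ (w + n * τ) = φ w := fun n => by
      simp only [φ, Complex.exp_periodic.nat_mul n w, hτ]
    have k4 : ∀ u, ∃ Q : ℂ[X], ∀ n : ℕ, Q.eval (n : ℂ) = U u (w + n * τ) := fun u => by
      obtain ⟨Q, hQ⟩ := uniB_seq u (φ w) ((Φ w).map C * P * (Y p).map C)
      refine ⟨Q, fun n => ?_⟩
      simp only [hQ, U, k2, k3, ← hP]
      congr 1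
      ext; simp [mul_apply, eval_finsetSum]
    obtain ⟨Q1, q1⟩ := k4 u
    obtain ⟨Q2, q2⟩ := k4 v
    have := uniB_cross (d := d) (a := fun i => (a i).eval (φ w)) (P := Q1) (Q := Q2)
      (fun n => by rw [q1, q2, ← k3 n]; exact hom _ (k1 n)) (1 : ℕ) (0 : ℕ)
    rw [q1, q2, q1, q2] at this
    simpa only [Nat.cast_one, Nat.cast_zero, one_mul, zero_mul, add_zero] using this
  have sh : ∀ {f : ℂ → ℂ}, DifferentiableOn ℂ f uniH →
      AnalyticOnNhd ℂ (fun w => f (w + τ)) uniH := fun hf =>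
    (hf.comp (by fun_prop) fun w hw => uniB_add hw).analyticOnNhd uniH_open
  have an := fun u => (dU u).analyticOnNhd uniH_open
  have pz : ∀ w ∈ uniH, z (w + τ) - z w = 0 := by
    refine (((sh z1).sub (z1.analyticOnNhd uniH_open)).eq_zero_or_eq_zero_of_mul_eq_zero
      ((an v).mul (sh (dU v))) (fun w hw => ?_) uniH_convex.isPreconnected).resolve_right fun k => ?_
    · have := cr w hw
      rw [← z2 w hw, ← z2 _ (uniB_add hw)] at this
      simp only [Pi.sub_apply]
      linear_combination this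
    · refine v0 (mem_of_superset (uniH_open.mem_nhds h0) ?_)
      rcases (an v).eq_zero_or_eq_zero_of_mul_eq_zero (sh (dU v)) k uniH_convex.isPreconnected
        with k | k
      · exact k
      · intro w hw
        simpa [hτ] using k _ (uniH_add hw (-1))
  obtain ⟨C, hC⟩ := (isCompact_closedBall b r).exists_bound_of_continuousOn cβ.continuousOn
  obtain ⟨h, h1, h2⟩ := uniA_desc z1 (fun w hw => sub_eq_zero.1 (pz w hw)) (C := C)
    fun w hw _ => (z3 w hw).trans ((le_abs_self _).trans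
      (hC _ (ball_subset_closedBall ((m1 _).2 (uniH_exp.1 hw)))))
  refine ⟨fun t => h ((t - b) / r), h1.comp (by fun_prop) fun t ht => (m1 _).1 (by rwa [m2]), ?_⟩
  filter_upwards [e2, eψ, tψ.eventually (uniH_open.mem_nhds h0)] with t t1 t2 t3
  rw [← t1, ← t1, ← t2, h2 _ t3, z2 _ t3]

end

end Pool.Agent.Lib.MP_5591bc_ag.V
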