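import Pool.Agent.Lib.MP_5591bc_ag.V.Core
import Pool.Agent.Lib.MP_5591bc_ag.V.Rows
import Pool.Agent.Lib.MP_5591bc_ag.V.Orb
import Pool.Agent.Lib.MP_5591bc_ag.V.Bas
import Pool.Agent.Lib.MP_5591bc_ag.V.Hil

/-! The value theorem for systems with connected Galois group. -/

namespace Pool.Agent.Lib.MP_5591bc_ag.V

open Matrix Finset Filter Topology PowerSeries G R Function

noncomputable section

variable {A : Type*} [Fintype A] [DecidableEq A] {T : Polynomial ℚ} {B : Matrix A A (Polynomial ℚ)}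
  {Ω : Set ℚ} {G : ℚ → Matrix A A ℚ⟦X⟧} {f : A → ℚ⟦X⟧} {φ : ℚ → A → ℂ}

theorem Two.orb (H : Two T B Ω G f φ) {x : ℚ} (hx : x ∈ Ω) : ∃ Γ, Orb x ((G x).map mp) Γ :=
  let ⟨h1, h2, h3⟩ := H.sys.odeC hx
  exists_orb h1 h2 h3 (H.conn x hx)

theorem Two.kill (H : Two T B Ω G f φ) {x : ℚ} (hx : x ∈ Ω) {Γ : Set (Matrix A A ℂ)}
    (hΓ : Orb x ((G x).map mp) Γ) {b : A → ℂ} (hb : ∀ γ ∈ Γ, b ⬝ᵥ (γ *ᵥ φ x) = 0)
    {U : A → Polynomial ℚ} (hU : U ∈ Sat f) : b ⬝ᵥ (fun a => (((U a).eval x : ℚ) : ℂ)) = 0 := by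
  obtain ⟨l, l1, l2⟩ := hΓ.lift2 _ _ hb
  simpa only [l1] using sat_kill (H.back x hx l l2) hU x

theorem Two.value (H : Two T B Ω G f φ) (m : ℕ) {θ : ℝ} (θ0 : 0 ≤ θ) (θ1 : θ < 1) :
    ∃ Λ, ∀ (ξ : Fin m → ℚ) (w : Fin m → ℕ), (∀ i, ξ i ∈ Ω) → (∀ i, Λ ≤ w i) →
      (∀ i j, i < j → Λ * w j ≤ w i) → (∀ i, (ξ i).den ≤ 2 ^ w i) →
      (∀ i, 2 ^ w i ≤ (ξ i).den ^ 2) → (∀ i, |(ξ i : ℝ)| ≤ θ ^ w i) →
      ∀ c : (Fin m → A) → ℚ, (fun β => (c β : ℂ)) ⬝ᵥ (tens fun i => φ (ξ i)) = 0 →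
      ∀ U : Fin m → A → Polynomial ℚ, (∀ i, U i ∈ Sat f) →
        c ⬝ᵥ (tens fun i α => (U i α).eval (ξ i)) = 0 := by
  classical
  obtain ⟨a, hf⟩ := H.gf0
  obtain ⟨s, s0, s1, s2⟩ : ∃ s : ℝ, 1 / 2 ≤ s ∧ s < 1 ∧ θ ≤ s ^ 2 :=
    ⟨(1 + θ) / 2, by linarith, by linarith, by nlinarith [sq_nonneg (1 - θ)]⟩
  obtain ⟨n, hn⟩ := exists_pow_lt_of_lt_one (show (0 : ℝ) < (1 / 2) ^ (m + 1) by positivity) s1
  choose Λ hΛ using fun k => core (H.sys.vk k) (vk k 1) hf m m n.succ_pos s0 s1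
    ((pow_le_pow_of_le_one (by linarith) s1.le n.le_succ).trans hn.le)
  obtain ⟨j0, hj⟩ := hil_gap (2 * (n + 1) ^ m) (Fintype.card A) (Fintype.card (A × A) * m)
  refine ⟨(range j0).sup fun j => Λ (Fintype.card A * (j + 1)),
    fun ξ w hΩ h1 h2 h3 h4 h5 c hc U hU => ?_⟩
  choose Γ hΓ using fun i => H.orb (hΩ i)
  choose M hM using fun k i => exists_bas (hΓ i) k
  obtain ⟨j, j1, j2⟩ := hj (fun j => ∏ i, (M (Fintype.card A * j) i).card)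
    (prod_pos fun i _ => (hM _ i).pos) fun j _ => by
      rw [pow_mul]
      exact (prod_le_pow_card _ _ _ fun i _ => (hM _ i).le).trans (by simp)
  have j3 : Λ (Fintype.card A * (j + 1)) ≤ _ :=
    le_sup (f := fun j => Λ (Fintype.card A * (j + 1))) (mem_range.2 j1)
  have key : ∀ γ : Fin m → Matrix A A ℂ, (∀ i, γ i ∈ Γ i) →
      (fun β => (c β : ℂ)) ⬝ᵥ (tens fun i => (γ i).adjugate *ᵥ φ (ξ i)) = 0 := fun γ hγ => by
    by_contra h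
    obtain ⟨r, v, I, a1, a2, a3, a4⟩ := rows (Nat.mul_succ _ j).ge (fun i => H.sys.one _ (hΩ i)) hΓ
      (hM _) (hM _) hc ⟨γ, hγ, h⟩
    have := hΛ _ ξ w hΩ (fun i => j3.trans (h1 i))
      (fun i j h => (Nat.mul_le_mul_right _ j3).trans (h2 i j h)) h3 h4
      (fun i => (h5 i).trans (by rw [pow_mul]; exact pow_le_pow_left₀ θ0 s2 _)) _
      (fun i => H.lim _ (hΩ i)) _ (fun i => by
        rw [funext (map_vk (C : ℚ →+* ℚ⟦X⟧) 1), piM_vk, Matrix.map_one _ (map_zero _) (map_one _),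
          Matrix.mul_one])
      _ (fun i => (hM _ i).pos) (fun i => (hM _ i).indP) r v I a1 a2 a3
    exact absurd (this.trans_le (Nat.mul_le_mul_left _ (Nat.sub_le_iff_le_add.2
      (by simp only [Nat.succ_eq_add_one] at a4; omega)))) (not_lt.2 j2)
  have := mrep (a := fun β => (c β : ℂ)) (S := fun i => (fun γ => adjugate γ *ᵥ φ (ξ i)) '' Γ i)
    (S' := fun i => (fun (U : A → Polynomial ℚ) a => (((U a).eval (ξ i) : ℚ) : ℂ)) '' Sat f)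
    (fun i b hb _ ⟨U, hU, e⟩ => e ▸ H.kill (hΩ i) (hΓ i) (fun γ hγ => by
      rw [← nonsing_inv_nonsing_inv γ ((hΓ i).unit γ hγ), Matrix.inv_def, smul_mulVec,
        dotProduct_smul, hb _ ⟨_, (hΓ i).inv γ hγ, rfl⟩, smul_zero]) hU)
    (fun y hy => by
      choose γ h1 h2 using hy
      rw [← funext h2]
      exact key γ h1) fun i => ⟨U i, hU i, rfl⟩
  exact_mod_cast (show ((c ⬝ᵥ (tens fun i α => (U i α).eval (ξ i)) : ℚ) : ℂ) = 0 by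
    simpa [dotProduct, tens] using this)

/-- the bilinear form `b · Z φ` as a polynomial in the entries of `Z` -/
def bil {R : Type*} [CommRing R] (b φ : A → R) : MvPolynomial (A × A) R :=
  ∑ i, ∑ j, MvPolynomial.C (b i * φ j) * MvPolynomial.X (i, j)

omit [DecidableEq A] in
theorem bil_eval {R S : Type*} [CommRing R] [CommRing S] (τ : R →+* S) (b φ : A → R)
    (Z : Matrix A A S) : MvPolynomial.eval₂ τ (fun p => Z p.1 p.2) (bil b φ) =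
      (fun a => τ (b a)) ⬝ᵥ (Z *ᵥ fun a => τ (φ a)) := by
  simp only [bil, ← MvPolynomial.coe_eval₂Hom, map_sum, map_mul, MvPolynomial.eval₂Hom_C,
    MvPolynomial.eval₂Hom_X', dotProduct, mulVec, mul_sum]
  exact sum_congr rfl fun _ _ => sum_congr rfl fun _ _ => by ring

/-- the fibre of the relations is prime -/
theorem Two.split (H : Two T B Ω G f φ) {x : ℚ} (hx : x ∈ Ω) {b1 b2 : A → ℂ}
    {l : A → Polynomial ℂ} (hl : (fun a => τc x (l a)) ⬝ᵥ Fx (G x) (φ x) = 0)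
    (h : ((fun a => C (b1 a)) ⬝ᵥ Fx (G x) (φ x)) * ((fun a => C (b2 a)) ⬝ᵥ Fx (G x) (φ x)) =
      (fun a => C ((l a).eval (x : ℂ))) ⬝ᵥ Fx (G x) (φ x)) :
    (∀ U ∈ Sat f, b1 ⬝ᵥ (fun a => (((U a).eval x : ℚ) : ℂ)) = 0) ∨
      ∀ U ∈ Sat f, b2 ⬝ᵥ (fun a => (((U a).eval x : ℚ) : ℂ)) = 0 := by
  obtain ⟨Γ, hΓ⟩ := H.orb hx
  have e1 : ∀ b : A → Polynomial ℂ, evG x ((G x).map mp) (bil b fun a => Polynomial.C (φ x a)) =
      (fun a => τc x (b a)) ⬝ᵥ Fx (G x) (φ x) := fun b => by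
    refine (bil_eval (τc x) b (fun a => Polynomial.C (φ x a)) ((G x).map mp)).trans ?_
    simp only [τc_C, Fx]
  have e2 : ∀ (b : A → Polynomial ℂ) γ, MvPolynomial.eval₂ (Polynomial.evalRingHom (x : ℂ)) (ent γ)
      (bil b fun a => Polynomial.C (φ x a)) = (fun a => (b a).eval (x : ℂ)) ⬝ᵥ (γ *ᵥ φ x) :=
    fun b γ => (bil_eval (Polynomial.evalRingHom (x : ℂ)) b (fun a => Polynomial.C (φ x a)) γ).trans
      (by simp only [Polynomial.coe_evalRingHom, Polynomial.eval_C])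
  have e3 : ∀ (b : A → ℂ) γ, MvPolynomial.eval (ent γ) (bil b (φ x)) = b ⬝ᵥ (γ *ᵥ φ x) :=
    fun b γ => bil_eval (RingHom.id ℂ) b (φ x) γ
  by_contra hn
  rw [not_or] at hn
  obtain ⟨γ, hγ, g1, g2⟩ := hΓ.irr (bil b1 (φ x)) (bil b2 (φ x))
    (by_contra fun h => hn.1 fun U hU => H.kill hx hΓ (fun γ hγ => by_contra fun e =>
      h ⟨γ, hγ, by rwa [e3]⟩) hU)
    (by_contra fun h => hn.2 fun U hU => H.kill hx hΓ (fun γ hγ => by_contra fun e =>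
      h ⟨γ, hγ, by rwa [e3]⟩) hU)
  have a1 := hΓ.spec _ ((e1 l).trans hl) γ hγ
  have a2 := hΓ.spec (bil (fun a => Polynomial.C (b1 a)) (fun a => Polynomial.C (φ x a)) *
    bil (fun a => Polynomial.C (b2 a)) (fun a => Polynomial.C (φ x a)) -
    bil (fun a => Polynomial.C ((l a).eval (x : ℂ))) fun a => Polynomial.C (φ x a))
    (by simp only [map_sub, map_mul, e1, τc_C, h, sub_self]) γ hγ
  rw [e2] at a1
  rw [e3] at g1 g2
  simp only [MvPolynomial.eval₂_sub, MvPolynomial.eval₂_mul, e2, Polynomial.eval_C, a1,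
    sub_zero] at a2
  exact mul_ne_zero g1 g2 a2

end

end Pool.Agent.Lib.MP_5591bc_ag.V
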