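import Pool.Agent.Lib.MP_5591bc_ag.V.Defs

/-! The zero estimate for a linear form in a tensor product of solutions. -/

namespace Pool.Agent.Lib.MP_5591bc_ag.V

open Matrix Finset R

noncomputable section

section

variable {σ J : Type*} [Fintype J] [DecidableEq J] {T : σ → MvPolynomial σ ℚ}
  {B : σ → Matrix J J (MvPolynomial σ ℚ)} {τ : MvPolynomial σ ℚ →+* MvPowerSeries σ ℚ}
  {y : J → MvPowerSeries σ ℚ}

theorem zr_psi_Dp (der : ∀ i p, τ (MvPolynomial.pderiv i p) = MvPowerSeries.pderiv ℚ i (τ p))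
    (hy : ∀ i, τ (T i) • pd i y = (B i).map τ *ᵥ y) (i : σ) (u : J → MvPolynomial σ ℚ) :
    (fun j => τ (Dp T (fun i => -(B i)ᵀ) i u j)) ⬝ᵥ y =
      τ (T i) * MvPowerSeries.pderiv ℚ i ((fun j => τ (u j)) ⬝ᵥ y) := by
  have e : (-(B i)ᵀ).map τ = -((B i).map τ)ᵀ := by ext1 a b; simp
  rw [map_Dp der, pd_dot, mul_add, ← smul_eq_mul, ← dotProduct_smul, hy, e, neg_mulVec,
    sub_neg_eq_add, add_dotProduct, smul_dotProduct, smul_eq_mul, mulVec_transpose,
    dotProduct_mulVec, add_comm]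

theorem zr_psi_vn (der : ∀ i p, τ (MvPolynomial.pderiv i p) = MvPowerSeries.pderiv ℚ i (τ p))
    (hy : ∀ i, τ (T i) • pd i y = (B i).map τ *ᵥ y) {w : σ → ℕ} {n W : ℕ} (hW : ∀ i, w i ≤ W)
    {P : J → MvPolynomial σ ℚ} (hv : Vn w n ((fun j => τ (P j)) ⬝ᵥ y)) (L : List σ) :
    Vn w (n - L.length * W) ((fun j => τ (DL T (fun i => -(B i)ᵀ) L P j)) ⬝ᵥ y) := by
  induction L with
  | nil => exact hv.mono (Nat.sub_le _ _)
  | cons i L ih =>
    rw [show DL T (fun i => -(B i)ᵀ) (i :: L) P =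
      Dp T (fun i => -(B i)ᵀ) i (DL T (fun i => -(B i)ᵀ) L P) from rfl, zr_psi_Dp der hy]
    refine ((ih.pderiv i).left _).mono ?_
    have := hW i
    simp only [List.length_cons, add_mul]
    omega

/-- a family of series without constant term, stable under `t_i ∂_i` with units `t_i`, is zero -/
theorem zr_fam_zero {S : Set (MvPowerSeries σ ℚ)} {t : σ → MvPowerSeries σ ℚ}
    (ht : ∀ i, MvPowerSeries.constantCoeff (t i) ≠ 0)
    (hS : ∀ f ∈ S, ∀ i, t i * MvPowerSeries.pderiv ℚ i f ∈ S)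
    (h0 : ∀ f ∈ S, MvPowerSeries.constantCoeff f = 0) {f : MvPowerSeries σ ℚ} (hf : f ∈ S) :
    f = 0 := by
  have key : ∀ n, ∀ f ∈ S, Vn (fun _ => 1) n f := fun n => by
    induction n with
    | zero => exact fun _ _ _ h => absurd h (Nat.not_lt_zero _)
    | succ n ih =>
      intro f hf d
      induction d using fs_ind with
      | h0 => exact fun _ => by simpa using h0 f hf
      | h d i _ =>
        intro hd
        have h1 : Vn (fun _ => 1) (0 + n) (t i * MvPowerSeries.pderiv ℚ i f) := by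
          rw [zero_add]; exact ih _ (hS f hf i)
        have h2 := h1.cancel (fun h => ht i (by simpa using h 0 (by simp))) d (by
          rw [map_add, Finsupp.weight_single, one_smul] at hd; omega)
        rw [MvPowerSeries.coeff_pderiv] at h2
        exact (mul_eq_zero.1 h2).resolve_right (by positivity)
  exact MvPowerSeries.ext fun d => key _ f hf d (Nat.lt_succ_self _)

theorem zr_zero_core (der : ∀ i p, τ (MvPolynomial.pderiv i p) = MvPowerSeries.pderiv ℚ i (τ p))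
    (hy : ∀ i, τ (T i) • pd i y = (B i).map τ *ᵥ y)
    (hT : ∀ i, MvPowerSeries.constantCoeff (τ (T i)) ≠ 0) {w : σ → ℕ} {n k W : ℕ}
    (hW : ∀ i, w i ≤ W) {P : J → MvPolynomial σ ℚ} (hv : Vn w n ((fun j => τ (P j)) ⬝ᵥ y))
    (hk : k + 1 + Fintype.card J * W ≤ n)
    (hR : ∀ r ≤ Fintype.card J, ∀ (v : Fin r → J → MvPolynomial σ ℚ) (I : Fin r → J),
      (∀ l, ∃ L : List σ, L.length ≤ Fintype.card J ∧ v l = DL T (fun i => -(B i)ᵀ) L P) →
      mnr v I ≠ 0 → ¬ Vn w (k + 1) (τ (mnr v I))) : (fun j => τ (P j)) ⬝ᵥ y = 0 := by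
  obtain ⟨r, hr, v, I, a1, a2, a3⟩ :=
    greedy fun k v => ∃ L : List σ, L.length ≤ k ∧ v = DL T (fun i => -(B i)ᵀ) L P
  have a4 : ∀ l, ∃ L : List σ, L.length ≤ Fintype.card J ∧ v l = DL T (fun i => -(B i)ᵀ) L P :=
    fun l => (a1 l).imp fun L hL => ⟨hL.1.trans (l.rev.2.le.trans hr), hL.2⟩
  refine zr_fam_zero (S := {f | ∃ u : J → MvPolynomial σ ℚ, (∀ β, bord v I u β = 0) ∧
    f = (fun j => τ (u j)) ⬝ᵥ y}) hT ?_ ?_ ⟨P, a3 P ⟨[], r.zero_le, rfl⟩, rfl⟩
  · rintro _ ⟨u, hu, rfl⟩ i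
    refine ⟨_, fun β => ?_, (zr_psi_Dp der hy i u).symm⟩
    exact sat_closed a2 ⟨⟨Dp T (fun i => -(B i)ᵀ) i, by ext1; simp [Dp]⟩, fun x y => by
        ext1; simp [Dp, mulVec_add]; ring⟩ (fun a => T i * MvPolynomial.pderiv i a)
      (fun a u => by ext1 j; simp [Dp, mulVec_smul]; ring) (fun l β => by
        obtain ⟨L, b1, b2⟩ := a1 l
        exact a3 _ ⟨i :: L, Nat.succ_le_of_lt (b1.trans_lt l.rev.2), by rw [b2]; rfl⟩ β) hu β
  · rintro _ ⟨u, hu, rfl⟩
    obtain ⟨g, hg⟩ := sat_eq hu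
    have h2 : (fun j => τ ((mnr v I • u) j)) = fun j => τ ((∑ l, g l • v l) j) := by rw [hg]
    have h3 : τ (mnr v I) • (fun j => τ (u j)) = ∑ l, τ (g l) • fun j => τ (v l j) := by
      ext1 j
      simpa [Finset.sum_apply] using congrFun h2 j
    have h4 := congrArg (fun z => z ⬝ᵥ y) h3
    simp only [smul_dotProduct, sum_dotProduct, smul_eq_mul] at h4
    have h5 : Vn w (k + 1) (τ (mnr v I) * ((fun j => τ (u j)) ⬝ᵥ y)) := by
      rw [h4]
      refine Vn.sum fun l _ => Vn.left ?_ _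
      obtain ⟨L, b1, b2⟩ := a4 l
      rw [b2]
      exact (zr_psi_vn der hy hW hv L).mono (by have := Nat.mul_le_mul_right W b1; omega)
    simpa using h5.cancel (hR r hr v I a4 a2) 0 (by simp)

theorem zr_τs_der [Fintype σ] [DecidableEq σ] (ξ : σ → ℚ) (i : σ) (p : MvPolynomial σ ℚ) :
    τs ξ (MvPolynomial.pderiv i p) = MvPowerSeries.pderiv ℚ i (τs ξ p) :=
  (congrArg _ (pderiv_sh ξ i p).symm).trans (MvPowerSeries.pderiv_coe _).symm

theorem zr_bd_neg [Fintype σ] {d : σ → ℕ} {h : ℕ} {p : MvPolynomial σ ℚ} (a : Bd d h p) :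
    Bd d h (-p) :=
  ⟨neg_mem a.1, fun i => by simpa using a.2.1 i, by simpa [nr] using a.2.2⟩

/-- the zero estimate for integral systems, uniform in the system -/
theorem zr_zero_int (m N b γ : ℕ) : ∃ Λ : ℕ, ∀ (w : Fin m → ℕ) (ξ : Fin m → ℚ), (∀ i, Λ ≤ w i) →
    (∀ i j, i < j → Λ * w j ≤ w i) → (∀ i, 2 ^ w i ≤ (ξ i).den ^ 2) → ∃ u0 : ℕ, ∀ u, u0 ≤ u →
    ∀ {T : Fin m → MvPolynomial (Fin m) ℚ} {B : Fin m → Matrix J J (MvPolynomial (Fin m) ℚ)},
      Fintype.card J ≤ N → (∀ i, Bd (fun _ => b) b (T i)) → (∀ i j k, Bd (fun _ => b) b (B i j k)) →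
      (∀ i, MvPowerSeries.constantCoeff (τs ξ (T i)) ≠ 0) → ∀ y : J → MvPowerSeries (Fin m) ℚ,
      (∀ i, τs ξ (T i) • pd i y = (B i).map (τs ξ) *ᵥ y) →
      ∀ (h : ℕ) (P : J → MvPolynomial (Fin m) ℚ), (∀ j, Bd (fun i => γ * u / w i) h (P j)) →
      Λ * h ≤ u → Vn w (2 * u) ((fun j => τs ξ (P j)) ⬝ᵥ y) →
      (fun j => τs ξ (P j)) ⬝ᵥ y = 0 := by
  obtain ⟨ΛR, -, hR⟩ := roth m (2 * (N + 1) * (γ + 1)) (by positivity)
  obtain ⟨Λ, hΛ⟩ : ∃ Λ, Λ = ΛR * (N * N * m) + ΛR * N + ΛR + 1 := ⟨_, rfl⟩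
  refine ⟨Λ, fun w ξ h1 h2 h3 => ?_⟩
  obtain ⟨W, hW⟩ : ∃ W, ∀ i, w i ≤ W := ⟨univ.sup w, fun i => le_sup (mem_univ i)⟩
  refine ⟨N * W + 1 + N * (N * b * W) + ΛR * (N * (N + N * (m * (N * b) + N + b + 1))),
    fun u hu T B hN hT hB T0 y hy h P hP hh hv => ?_⟩
  refine zr_zero_core (zr_τs_der ξ) hy T0 (k := u) hW hv
    (by have := Nat.mul_le_mul_right W hN; omega) fun r hr v I hv h0 => ?_
  obtain ⟨t, ht⟩ : ∃ t, t = γ * u / Λ := ⟨_, rfl⟩
  have t1 : Λ * t ≤ γ * u := ht ▸ Nat.mul_div_le _ _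
  replace hr := hr.trans hN
  have b1 : ∀ l j, Bd (fun i => γ * u / w i + N * b)
      (h + N * (m * (t + N * b) + N + b + 1)) (v l j) := fun l j => by
    obtain ⟨Ls, c1, c2⟩ := hv l
    replace c1 := c1.trans hN
    rw [c2]
    refine (Bd.dL (t := t + N * b) hT (fun i j k => zr_bd_neg (hB i k j)) hP (fun i => by
      have : γ * u / w i ≤ t := ht ▸ Nat.div_le_div_left (h1 i) (by omega)
      show γ * u / w i + N * b ≤ _
      omega) Ls c1 j).mono (fun i => by gcongr) ?_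
    rw [Fintype.card_fin]
    gcongr
  obtain ⟨b2, b3, b4⟩ := Bd.mnr b1 I
  have b5 := hR w ξ (2 * (N + 1) * (γ + 1) * u) (N * (N + (h + N * (m * (t + N * b) + N + b + 1))))
    _ h0 b2 (fun i j h => le_trans (Nat.mul_le_mul_right _ (by omega)) (h2 i j h)) h3
    (fun i => le_trans (by omega) (h1 i)) (fun i => by
      have c1 := Nat.div_mul_le_self (γ * u) (w i)
      have c2 : N * (N * b * w i) ≤ u := le_trans (Nat.mul_le_mul_left _
        (Nat.mul_le_mul_left _ (hW i))) (le_trans (by omega) hu)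
      refine (Nat.mul_le_mul_right _ ((b3 i).trans (Nat.mul_le_mul_right _ hr))).trans ?_
      rw [mul_assoc N, add_mul, mul_add]
      nlinarith [Nat.mul_le_mul_left N c1, Nat.zero_le (N * u), Nat.zero_le (γ * u)])
    (b4.trans (pow_le_pow_right₀ one_le_two (by gcongr))) (by
      have c1 : ΛR * (N * N * m) * t ≤ γ * u := le_trans (Nat.mul_le_mul_right _ (by omega)) t1
      have c2 : ΛR * N * h ≤ u := le_trans (Nat.mul_le_mul_right _ (by omega)) hh
      have c3 : ΛR * (N * (N + N * (m * (N * b) + N + b + 1))) ≤ u := le_trans (by omega) hu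
      nlinarith [Nat.zero_le (N * u), Nat.zero_le (γ * u), Nat.zero_le (N * (γ * u))])
  rwa [Nat.mul_div_cancel_left _ (by positivity)] at b5

end

open Filter Topology PowerSeries G Function

variable {J : Type*} [Fintype J] [DecidableEq J]

theorem ind_tens {σ : Type*} [Fintype σ] [DecidableEq σ] {ξ : σ → ℚ} {y : σ → J → ℚ⟦X⟧}
    {M : σ → Finset J} (h : ∀ i, ∀ l : J → Polynomial ℚ, (∀ μ ∉ M i, l μ = 0) →
      (fun μ => τ1 (ξ i) (l μ)) ⬝ᵥ y i = 0 → l = 0)
    {P : (σ → J) → MvPolynomial σ ℚ} (hP : ∀ μ, P μ ≠ 0 → ∀ i, μ i ∈ M i)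
    (h0 : (fun μ => τs ξ (P μ)) ⬝ᵥ tv y = 0) : P = 0 := by
  obtain ⟨a, ha⟩ : ∃ a : (σ → J) → MvPolynomial σ ℚ, a = fun μ => sh ξ (P μ) := ⟨_, rfl⟩
  obtain ⟨d, hd⟩ : ∃ d, ∀ β i, MvPolynomial.degreeOf i (a β) ≤ d :=
    ⟨univ.sup fun β => (a β).totalDegree, fun β i => (MvPolynomial.degreeOf_le_totalDegree _ _).trans
      (le_sup (f := fun β => (a β).totalDegree) (mem_univ β))⟩
  let cv : ℕ → (J → ℚ⟦X⟧) → J × Fin (d + 1) → ℚ := fun n x k => coeff n (X ^ (k.2 : ℕ) * x k.1)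
  let fs : (σ → Fin (d + 1)) → σ →₀ ℕ := fun j => Finsupp.equivFunOnFinite.symm fun i => j i
  have e1 : ∀ β, (a β : MvPowerSeries σ ℚ) = ∑ j : σ → Fin (d + 1),
      MvPowerSeries.C ((a β).coeff (fs j)) * ∏ i, emb i (X ^ (j i : ℕ)) := fun β => by
    ext ν
    simp only [map_sum, MvPowerSeries.coeff_C_mul, coeff_prod_emb, coeff_X_pow, prod_boole,
      MvPolynomial.coeff_coe, mem_univ, true_imp_iff]
    by_cases hν : ∀ i, ν i ≤ d
    · rw [sum_eq_single (fun i => ⟨ν i, Nat.lt_succ_of_le (hν i)⟩)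
        (fun j _ hj => by rw [if_neg fun e => hj (funext fun i => Fin.ext (e i).symm), mul_zero])
        (by simp)]
      simp [fs]
    · rw [sum_eq_zero fun j _ => by
        rw [if_neg fun e : ∀ i, ν i = j i => hν fun i => (e i).trans_le (Nat.le_of_lt_succ (j i).2),
          mul_zero]]
      by_contra h0
      exact hν fun i =>
        (MvPolynomial.monomial_le_degreeOf i (MvPolynomial.mem_support_iff.2 h0)).trans (hd β i)
  have e2 : ∀ (x : σ → J → ℚ⟦X⟧) ν, MvPowerSeries.coeff ν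
      ((fun j => (a j : MvPowerSeries σ ℚ)) ⬝ᵥ fun β => ∏ i, emb i (x i (β i))) =
      (fun κ : σ → J × Fin (d + 1) => (a fun i => (κ i).1).coeff (fs fun i => (κ i).2)) ⬝ᵥ
        tens fun i => cv (ν i) (x i) := fun x ν => by
    simp only [dotProduct, e1, sum_mul, map_sum, mul_assoc, ← prod_mul_distrib, ← map_mul,
      MvPowerSeries.coeff_C_mul, coeff_prod_emb]
    rw [← Fintype.sum_prod_type', ← (Equiv.arrowProdEquivProdArrow σ _ _).sum_comp]
    rfl
  have e3 : ∀ (b : J × Fin (d + 1) → ℚ) (x : J → ℚ⟦X⟧) n, coeff n ((fun α =>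
      ((∑ j : Fin (d + 1), Polynomial.monomial j (b (α, j)) : Polynomial ℚ) : ℚ⟦X⟧)) ⬝ᵥ x) =
      b ⬝ᵥ cv n x := fun b x n => by
    simp only [dotProduct, ← Polynomial.coeToPowerSeries.ringHom_apply, map_sum, sum_mul,
      Fintype.sum_prod_type, ← Polynomial.C_mul_X_pow_eq_monomial, map_mul, map_pow]
    simp only [Polynomial.coeToPowerSeries.ringHom_apply, Polynomial.coe_C, Polynomial.coe_X,
      mul_assoc, coeff_C_mul, cv]
  let y' : σ → J → ℚ⟦X⟧ := fun i α => if α ∈ M i then y i α else 0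
  have h1 : (fun j => (a j : MvPowerSeries σ ℚ)) ⬝ᵥ (fun β => ∏ i, emb i (y' i (β i))) = 0 := by
    rw [← h0, ha]
    refine sum_congr rfl fun μ _ => ?_
    by_cases hμ : P μ = 0
    · simp [hμ]
    · exact congrArg₂ _ rfl (prod_congr rfl fun i _ => by simp only [y', if_pos (hP μ hμ i)])
  funext μ
  by_contra hμ
  have key : ∀ j : σ → Fin (d + 1), (a μ).coeff (fs j) = 0 := fun j => by
    have := mrep (S := fun i => Set.range fun n => cv n (y' i))
      (S' := fun i => {Pi.single (μ i, j i) 1}) (fun i b hb x hx => by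
        have c1 := h i (fun α => if α ∈ M i then Polynomial.taylor (-ξ i)
          (∑ j : Fin (d + 1), Polynomial.monomial j (b (α, j))) else 0) (fun α hα => if_neg hα)
          (PowerSeries.ext fun n => by
            rw [map_zero, ← hb _ ⟨n, rfl⟩, ← e3]
            refine congrArg _ (sum_congr rfl fun α _ => ?_)
            by_cases hα : α ∈ M i
            · simp only [y', if_pos hα]
              congr 1
              generalize (∑ j : Fin (d + 1), Polynomial.monomial (j : ℕ) (b (α, j))) = q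
              simp [τ1, Polynomial.taylor_taylor]
            · simp only [y', if_neg hα, map_zero, zero_mul, mul_zero])
        have c2 := congrFun c1 (μ i)
        rw [if_pos (hP μ hμ i), Pi.zero_apply,
          map_eq_zero_iff _ (Polynomial.taylor_injective _)] at c2
        have c3 := congrArg (fun q => Polynomial.coeff q (j i)) c2
        rw [hx, dotProduct_single, mul_one]
        simpa [Polynomial.coeff_monomial, Fin.val_inj] using c3)
      (fun x hx => by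
        choose n hn using hx
        rw [← funext hn]
        exact (e2 y' (Finsupp.equivFunOnFinite.symm n)).symm.trans (by rw [h1, map_zero]))
      (x := fun i => Pi.single (μ i, j i) 1) fun i => rfl
    rw [dotProduct, sum_eq_single (fun i => (μ i, j i)) (fun κ _ hκ => by
      obtain ⟨i, hi⟩ := Function.ne_iff.1 hκ
      rw [tens, prod_eq_zero (mem_univ i) (Pi.single_eq_of_ne hi _), mul_zero]) (by simp)] at this
    simpa [tens] using this
  have h2 : a μ = 0 := MvPolynomial.coe_injective σ ℚ (by rw [e1]; simp [key])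
  rw [ha] at h2
  exact hμ ((sh_sh ξ (P μ)).symm.trans ((congrArg _ h2).trans (map_zero _)))

theorem zero_v {T : Polynomial ℚ} {B : Matrix J J (Polynomial ℚ)} {Ω : Set ℚ}
    {G : ℚ → Matrix J J ℚ⟦X⟧} (H : Sys T B Ω G) (e : J → ℚ) (m γ c : ℕ) (γ0 : 0 < γ) :
    ∃ Λ, ∀ (ξ : Fin m → ℚ) (w : Fin m → ℕ), (∀ i, ξ i ∈ Ω) → (∀ i, Λ ≤ w i) →
      (∀ i j, i < j → Λ * w j ≤ w i) → (∀ i, 2 ^ w i ≤ (ξ i).den ^ 2) → ∃ t0, ∀ t ≥ t0, ∀ u,
      Λ * t ≤ u → (∀ i, γ * u ≤ t * w i) → ∀ P : (Fin m → J) → MvPolynomial (Fin m) ℚ,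
      (∀ μ, Bd (fun i => γ * u / w i) (c * t) (P μ)) →
      Vn w (2 * u) ((fun μ => τs ξ (P μ)) ⬝ᵥ tv fun i => G (ξ i) *ᵥ fun j => C (e j)) →
      (fun μ => τs ξ (P μ)) ⬝ᵥ (tv fun i => G (ξ i) *ᵥ fun j => C (e j)) = 0 := by
  obtain ⟨d, d0, b, hb⟩ := exists_den (σ := Fin m)
    (α := Fin m ⊕ (Fin m × (Fin m → J) × (Fin m → J))) (Sum.elim (fun i => toMv i T)
      fun x => piM (update (fun _ => 1) x.1 (B.map (toMv x.1))) x.2.1 x.2.2)
  obtain ⟨Λ, hΛ⟩ := zr_zero_int (J := Fin m → J) m (Fintype.card (Fin m → J)) b γ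
  have l1 : Λ ≤ Λ * c + Λ + 1 := by omega
  refine ⟨Λ * c + Λ + 1, fun ξ w hΩ h1 h2 h3 => (hΛ w ξ (fun i => l1.trans (h1 i))
    (fun i j k => (Nat.mul_le_mul_right _ l1).trans (h2 i j k)) h3).imp
      fun u0 h4 t ht u hu _ P hP => ?_⟩
  have F1 := (fr_tM (fun i => H.one _ (hΩ i)) fun i => H.ode _ (hΩ i)).smul d
  have eF : (tv fun i => G (ξ i) *ᵥ fun j => C (e j)) =
      (tM fun i => G (ξ i)) *ᵥ tens fun i α => emb i (C (e α)) := by
    rw [tM, piM_mulVec, tv]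
    exact funext fun β => prod_congr rfl fun i _ => by simp [mulVec, dotProduct]
  refine h4 u (ht.trans ((Nat.le_mul_of_pos_left _ (Nat.succ_pos _)).trans hu))
    (T := fun i => d • toMv i T) (B := fun i => d • piM (update (fun _ => 1) i (B.map (toMv i))))
    le_rfl (fun i => hb (.inl i)) (fun i j k => hb (.inr (i, j, k))) (fun i => ?_) _ (fun i => ?_)
    _ P hP (le_trans (by rw [← mul_assoc]; exact Nat.mul_le_mul_right _ (by omega)) hu)
  · have hC : τs ξ (MvPolynomial.C d) = MvPowerSeries.C d := by simp [τs, sh]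
    have h5 : MvPowerSeries.constantCoeff (emb i (τ1 (ξ i) T)) = T.eval (ξ i) :=
      (MvPowerSeries.constantCoeff_rename _ _).trans
        ((coeff_zero_eq_constantCoeff_apply _).symm.trans
          ((coeff_τ1 _ _ _).trans (Polynomial.taylor_coeff_zero _ _)))
    rw [MvPolynomial.smul_eq_C_mul, map_mul, hC, τs_toMv, map_mul, h5,
      MvPowerSeries.constantCoeff_C]
    exact mul_ne_zero d0 (H.ne _ (hΩ i))
  · have h5 := F1.tr i (tens fun i α => emb i (C (e α)))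
    have h6 : pd i (tens fun i α => emb i (C (e α)) : (Fin m → J) → _) = 0 := funext fun β => by
      have : ∀ i a, emb (σ := Fin m) i (C a) = MvPowerSeries.C a :=
        fun i a => MvPowerSeries.rename_C _ a
      simp only [pd, tens, this, ← map_prod]
      exact MvPowerSeries.ext fun ν => by
        simp [MvPowerSeries.coeff_pderiv, MvPowerSeries.coeff_C, -map_prod]
    rw [h6, mulVec_zero, smul_zero, sub_eq_zero] at h5
    rw [eF]
    exact h5

end

end Pool.Agent.Lib.MP_5591bc_ag.V
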